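import Pool.Agent.J6H16.E4.Lt
import Pool.Agent.N521.GN.Mt2a
import Pool.Agent.N954.GN.Div

/-!
# E4/EM, part b: trivial bounds for sums over multiples (helper19)
-/

set_option autoImplicit false

namespace Pool.Agent.J6H16.E4.EM

open Finset
open Pool.Agent.N782.GN

theorem onz {z : ZI} (hz : z ≠ 0) : 1 ≤ nz z := Pool.Agent.N521.GN.nz_pos hz

theorem nzml (a b : ZI) : nz (a * b) = nz a * nz b := Pool.Agent.N521.GN.nz_mul a b

/-- the sum of the `1 / N(t)` -/
noncomputable def SX (X : ℝ) : ℝ := ∑ t ∈ bl X, 1 / nz t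

theorem SX_nonneg (X : ℝ) : 0 ≤ SX X := sum_nonneg fun t _ => div_nonneg zero_le_one (nz_nonneg t)

theorem SX_le {X : ℝ} (hX : 1 ≤ X) : SX X ≤ 12 * (1 + Real.log X) := Pool.Agent.N954.GN.sum_inv_norm X hX

theorem SX_mono {x y : ℝ} (h : x ≤ y) : SX x ≤ SX y := by
  unfold SX
  refine sum_le_sum_of_subset_of_nonneg ?_ fun t _ _ => div_nonneg zero_le_one (nz_nonneg t)
  intro z hz
  rw [mem_bl] at hz ⊢
  exact ⟨hz.1, hz.2.trans h⟩

open Classical in
/-- the divisors -/
noncomputable def DD (z : ZI) : Finset ZI := (bl (nz z)).filter (fun d => d ∣ z)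

theorem dv_DD (z : ZI) : dv z = (DD z).card := rfl

theorem mem_DD {z : ZI} (hz : z ≠ 0) (d : ZI) : d ∈ DD z ↔ d ∣ z := by
  classical
  unfold DD
  rw [mem_filter, and_iff_right_iff_imp, mem_bl]
  intro hd
  have h0 : d ≠ 0 := by
    rintro rfl
    exact hz (zero_dvd_iff.1 hd)
  refine ⟨h0, ?_⟩
  obtain ⟨c, rfl⟩ := hd
  have hc : c ≠ 0 := right_ne_zero_of_mul hz
  rw [nzml]
  have h1 := onz hc
  have h2 := onz h0
  nlinarith

theorem DD_ne {z d : ZI} (hz : z ≠ 0) (hd : d ∈ DD z) : d ≠ 0 := by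
  rintro rfl
  exact hz (zero_dvd_iff.1 ((mem_DD hz _).1 hd))

theorem mquo {z d : ZI} (hz : z ≠ 0) (hd : d ∈ DD z) : d * (z / d) = z :=
  EuclideanDomain.mul_div_cancel' (DD_ne hz hd) ((mem_DD hz _).1 hd)

theorem quo_ne {z d : ZI} (hz : z ≠ 0) (hd : d ∈ DD z) : z / d ≠ 0 := by
  intro h
  have := mquo hz hd
  rw [h, mul_zero] at this
  exact hz this.symm

theorem nz_quo {z d : ZI} (hz : z ≠ 0) (hd : d ∈ DD z) : nz d * nz (z / d) = nz z := by
  rw [← nzml, mquo hz hd]

theorem dv_le_of_dvd {z w : ZI} (hz : z ≠ 0) (h : w ∣ z) : dv w ≤ dv z := by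
  have hw : w ≠ 0 := by
    rintro rfl
    exact hz (zero_dvd_iff.1 h)
  rw [dv_DD, dv_DD]
  refine card_le_card fun x hx => ?_
  rw [mem_DD hw] at hx
  rw [mem_DD hz]
  exact hx.trans h

theorem dv_quo {z d : ZI} (hz : z ≠ 0) (hd : d ∈ DD z) : dv (z / d) ≤ dv z :=
  dv_le_of_dvd hz ⟨d, by rw [mul_comm]; exact (mquo hz hd).symm⟩

open Classical in
/-- the indicator of divisibility -/
noncomputable def iD (D x : ZI) : ℝ := if D ∣ x then 1 else 0

theorem iD_nonneg (D x : ZI) : 0 ≤ iD D x := by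
  unfold iD
  split_ifs <;> norm_num

/-- splitting of a divisor of a product -/
theorem iD_split {D : ZI} (hD : D ≠ 0) (x y : ZI) : iD D (x * y) ≤ ∑ g ∈ DD D, iD g x * iD (D / g) y := by
  classical
  have hnn : 0 ≤ ∑ g ∈ DD D, iD g x * iD (D / g) y :=
    sum_nonneg fun g _ => mul_nonneg (iD_nonneg _ _) (iD_nonneg _ _)
  by_cases h : D ∣ x * y
  · obtain ⟨g, g', hg, hg', he⟩ := exists_dvd_and_dvd_of_dvd_mul h
    have hgm : g ∈ DD D := (mem_DD hD _).2 ⟨g', he⟩
    have hq : D / g = g' := by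
      apply mul_left_cancel₀ (DD_ne hD hgm)
      rw [mquo hD hgm, he]
    have h1 : iD D (x * y) = 1 := by
      unfold iD
      rw [if_pos h]
    have h2 : iD g x * iD (D / g) y = 1 := by
      unfold iD
      rw [hq, if_pos hg, if_pos hg', mul_one]
    rw [h1, ← h2]
    exact single_le_sum (f := fun g => iD g x * iD (D / g) y)
      (fun g _ => mul_nonneg (iD_nonneg _ _) (iD_nonneg _ _)) hgm
  · have h1 : iD D (x * y) = 0 := by
      unfold iD
      rw [if_neg h]
    rw [h1]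
    exact hnn

theorem G1 {D : ZI} (hD : D ≠ 0) (X : ℝ) : ∑ a ∈ bl X, iD D a * (1 / nz a) ≤ SX X / nz D := by
  classical
  have hD1 := onz hD
  have h1 : ∑ a ∈ bl X, iD D a * (1 / nz a) = ∑ a ∈ (bl X).filter (fun a => D ∣ a), 1 / nz a := by
    rw [sum_filter]
    refine sum_congr rfl fun a _ => ?_
    unfold iD
    split_ifs <;> ring
  rw [h1]
  have h2 : (bl X).filter (fun a => D ∣ a) ⊆ (bl X).image (fun t => D * t) := by
    intro a ha
    rw [mem_filter, mem_bl] at ha
    obtain ⟨t, rfl⟩ := ha.2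
    rw [mem_image]
    refine ⟨t, ?_, rfl⟩
    have ht : t ≠ 0 := right_ne_zero_of_mul ha.1.1
    rw [mem_bl]
    refine ⟨ht, ?_⟩
    have h3 := ha.1.2
    rw [nzml] at h3
    have h4 := onz ht
    nlinarith
  calc _ ≤ ∑ a ∈ (bl X).image (fun t => D * t), 1 / nz a :=
        sum_le_sum_of_subset_of_nonneg h2 fun t _ _ => div_nonneg zero_le_one (nz_nonneg t)
    _ = ∑ t ∈ bl X, 1 / nz (D * t) := by
        rw [sum_image]
        intro u _ v _ huv
        exact mul_left_cancel₀ hD huv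
    _ = SX X / nz D := by
        unfold SX
        rw [sum_div]
        refine sum_congr rfl fun t _ => ?_
        rw [nzml, div_div, mul_comm]

theorem G2 {D : ZI} (hD : D ≠ 0) (X : ℝ) : ∑ a ∈ bl X, ∑ b ∈ bl X, iD D (a * b) * (1 / nz a * (1 / nz b)) ≤
    dv D * SX X ^ 2 / nz D := by
  have hD1 := onz hD
  have hS := SX_nonneg X
  calc ∑ a ∈ bl X, ∑ b ∈ bl X, iD D (a * b) * (1 / nz a * (1 / nz b))
      ≤ ∑ a ∈ bl X, ∑ b ∈ bl X, (∑ g ∈ DD D, iD g a * iD (D / g) b) * (1 / nz a * (1 / nz b)) := by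
        refine sum_le_sum fun a _ => sum_le_sum fun b _ => ?_
        refine mul_le_mul_of_nonneg_right (iD_split hD a b) ?_
        exact mul_nonneg (div_nonneg zero_le_one (nz_nonneg _)) (div_nonneg zero_le_one (nz_nonneg _))
    _ = ∑ g ∈ DD D, (∑ a ∈ bl X, iD g a * (1 / nz a)) * (∑ b ∈ bl X, iD (D / g) b * (1 / nz b)) := by
        simp_rw [sum_mul_sum, sum_mul]
        rw [sum_congr rfl fun a _ => sum_comm, sum_comm]
        refine sum_congr rfl fun g _ => sum_congr rfl fun a _ => sum_congr rfl fun b _ => ?_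
        ring
    _ ≤ ∑ g ∈ DD D, (SX X / nz g) * (SX X / nz (D / g)) := by
        refine sum_le_sum fun g hg => ?_
        have h1 := G1 (DD_ne hD hg) X
        have h2 := G1 (quo_ne hD hg) X
        refine mul_le_mul h1 h2 ?_ ?_
        · exact sum_nonneg fun b _ => mul_nonneg (iD_nonneg _ _) (div_nonneg zero_le_one (nz_nonneg _))
        · exact div_nonneg hS (nz_nonneg _)
    _ = ∑ g ∈ DD D, SX X ^ 2 / nz D := by
        refine sum_congr rfl fun g hg => ?_
        rw [div_mul_div_comm, nz_quo hD hg, sq]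
    _ = dv D * SX X ^ 2 / nz D := by
        rw [sum_const, nsmul_eq_mul, dv_DD, mul_div_assoc]

theorem G3 {D : ZI} (hD : D ≠ 0) (X : ℝ) : ∑ a ∈ bl X, ∑ b ∈ bl X, ∑ c ∈ bl X,
    iD D (a * (b * c)) * (1 / nz a * (1 / nz b * (1 / nz c))) ≤ (dv D) ^ 2 * SX X ^ 3 / nz D := by
  have hD1 := onz hD
  have hS := SX_nonneg X
  have hn : ∀ z : ZI, 0 ≤ 1 / nz z := fun z => div_nonneg zero_le_one (nz_nonneg z)
  calc ∑ a ∈ bl X, ∑ b ∈ bl X, ∑ c ∈ bl X, iD D (a * (b * c)) * (1 / nz a * (1 / nz b * (1 / nz c)))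
      ≤ ∑ a ∈ bl X, ∑ b ∈ bl X, ∑ c ∈ bl X,
        (∑ g ∈ DD D, iD g a * iD (D / g) (b * c)) * (1 / nz a * (1 / nz b * (1 / nz c))) := by
        refine sum_le_sum fun a _ => sum_le_sum fun b _ => sum_le_sum fun c _ => ?_
        refine mul_le_mul_of_nonneg_right (iD_split hD a (b * c)) ?_
        exact mul_nonneg (hn _) (mul_nonneg (hn _) (hn _))
    _ = ∑ g ∈ DD D, (∑ a ∈ bl X, iD g a * (1 / nz a)) *
        (∑ b ∈ bl X, ∑ c ∈ bl X, iD (D / g) (b * c) * (1 / nz b * (1 / nz c))) := by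
        have e1 : ∀ a ∈ bl X, ∑ b ∈ bl X, ∑ c ∈ bl X,
            (∑ g ∈ DD D, iD g a * iD (D / g) (b * c)) * (1 / nz a * (1 / nz b * (1 / nz c))) =
            ∑ g ∈ DD D, (iD g a * (1 / nz a)) *
              (∑ b ∈ bl X, ∑ c ∈ bl X, iD (D / g) (b * c) * (1 / nz b * (1 / nz c))) := by
          intro a _
          simp_rw [sum_mul, mul_sum]
          rw [sum_congr rfl fun b _ => sum_comm, sum_comm]
          refine sum_congr rfl fun g _ => sum_congr rfl fun b _ => sum_congr rfl fun c _ => ?_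
          ring
        rw [sum_congr rfl e1, sum_comm]
        refine sum_congr rfl fun g _ => ?_
        rw [sum_mul]
    _ ≤ ∑ g ∈ DD D, (SX X / nz g) * (dv (D / g) * SX X ^ 2 / nz (D / g)) := by
        refine sum_le_sum fun g hg => ?_
        refine mul_le_mul (G1 (DD_ne hD hg) X) (G2 (quo_ne hD hg) X) ?_ ?_
        · exact sum_nonneg fun b _ => sum_nonneg fun c _ => mul_nonneg (iD_nonneg _ _) (mul_nonneg (hn _) (hn _))
        · exact div_nonneg hS (nz_nonneg _)
    _ = ∑ g ∈ DD D, (dv (D / g) : ℝ) * (SX X ^ 3 / nz D) := by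
        refine sum_congr rfl fun g hg => ?_
        rw [div_mul_div_comm, nz_quo hD hg]
        ring
    _ ≤ ∑ g ∈ DD D, (dv D : ℝ) * (SX X ^ 3 / nz D) := by
        refine sum_le_sum fun g hg => ?_
        have h1 : (dv (D / g) : ℝ) ≤ dv D := by exact_mod_cast dv_quo hD hg
        exact mul_le_mul_of_nonneg_right h1 (by positivity)
    _ = (dv D) ^ 2 * SX X ^ 3 / nz D := by
        rw [sum_const, nsmul_eq_mul, ← dv_DD]
        ring

theorem G4 {D e : ZI} (hD : D ≠ 0) (he : e ≠ 0) (X : ℝ) : ∑ a ∈ bl X, ∑ b ∈ bl X, ∑ c ∈ bl X,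
    iD D (a * e * (b * c)) * (1 / nz a * (1 / nz b * (1 / nz c))) ≤ (dv D) ^ 3 * SX X ^ 3 * nz e / nz D := by
  classical
  have hD1 := onz hD
  have he1 := onz he
  have hS := SX_nonneg X
  have hn : ∀ z : ZI, 0 ≤ 1 / nz z := fun z => div_nonneg zero_le_one (nz_nonneg z)
  calc ∑ a ∈ bl X, ∑ b ∈ bl X, ∑ c ∈ bl X, iD D (a * e * (b * c)) * (1 / nz a * (1 / nz b * (1 / nz c)))
      ≤ ∑ a ∈ bl X, ∑ b ∈ bl X, ∑ c ∈ bl X,
        (∑ g ∈ DD D, iD g e * iD (D / g) (a * (b * c))) * (1 / nz a * (1 / nz b * (1 / nz c))) := by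
        refine sum_le_sum fun a _ => sum_le_sum fun b _ => sum_le_sum fun c _ => ?_
        have e1 : a * e * (b * c) = e * (a * (b * c)) := by ring
        rw [e1]
        refine mul_le_mul_of_nonneg_right (iD_split hD e (a * (b * c))) ?_
        exact mul_nonneg (hn _) (mul_nonneg (hn _) (hn _))
    _ = ∑ g ∈ DD D, iD g e * (∑ a ∈ bl X, ∑ b ∈ bl X, ∑ c ∈ bl X,
          iD (D / g) (a * (b * c)) * (1 / nz a * (1 / nz b * (1 / nz c)))) := by
        simp_rw [sum_mul, mul_sum]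
        rw [sum_congr rfl fun a _ => sum_congr rfl fun b _ => sum_comm, sum_congr rfl fun a _ => sum_comm, sum_comm]
        refine sum_congr rfl fun g _ => sum_congr rfl fun a _ => sum_congr rfl fun b _ =>
          sum_congr rfl fun c _ => ?_
        ring
    _ ≤ ∑ g ∈ DD D, (dv D) ^ 2 * SX X ^ 3 * nz e / nz D := by
        refine sum_le_sum fun g hg => ?_
        have hg0 := DD_ne hD hg
        have hg1 := onz hg0
        have hq1 := onz (quo_ne hD hg)
        by_cases h : g ∣ e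
        · have h1 : iD g e = 1 := by
            unfold iD
            rw [if_pos h]
          rw [h1, one_mul]
          refine (G3 (quo_ne hD hg) X).trans ?_
          have h2 : nz g ≤ nz e := by
            obtain ⟨t, ht⟩ := h
            have ht0 : t ≠ 0 := by
              rintro rfl
              exact he (by rw [ht, mul_zero])
            rw [ht, nzml]
            have := onz ht0
            nlinarith
          have h3 : (dv (D / g) : ℝ) ≤ dv D := by exact_mod_cast dv_quo hD hg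
          have h4 : nz D = nz g * nz (D / g) := (nz_quo hD hg).symm
          rw [h4, div_le_div_iff₀ (by linarith) (by positivity)]
          have h5 : (dv (D / g) : ℝ) ^ 2 ≤ (dv D : ℝ) ^ 2 := by gcongr
          calc (dv (D / g) : ℝ) ^ 2 * SX X ^ 3 * (nz g * nz (D / g))
              ≤ (dv D : ℝ) ^ 2 * SX X ^ 3 * (nz e * nz (D / g)) := by gcongr
            _ = (dv D : ℝ) ^ 2 * SX X ^ 3 * nz e * nz (D / g) := by ring
        · have h1 : iD g e = 0 := by
            unfold iD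
            rw [if_neg h]
          rw [h1, zero_mul]
          positivity
    _ = (dv D) ^ 3 * SX X ^ 3 * nz e / nz D := by
        rw [sum_const, nsmul_eq_mul, ← dv_DD]
        ring

/-- rational divisors -/
theorem card_divisors_le {d : ℕ} (hd : 0 < d) : (d.divisors.card : ℝ) ≤ dv ((d : ℕ) : ZI) := by
  classical
  have h0 : ((d : ℕ) : ZI) ≠ 0 := by
    intro h
    have h1 := Pool.Agent.N521.GN.nn_P d
    rw [h] at h1
    have h3 : Pool.Agent.N521.GN.nn (0 : ZI) = 0 := by decide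
    rw [h3] at h1
    nlinarith
  rw [dv_DD]
  have h1 : d.divisors.card ≤ (DD ((d : ℕ) : ZI)).card := by
    refine card_le_card_of_injOn (fun k : ℕ => ((k : ℕ) : ZI)) ?_ ?_
    · intro k hk
      have hk' := Nat.dvd_of_mem_divisors (mem_coe.1 hk)
      rw [mem_coe, mem_DD h0]
      obtain ⟨m, rfl⟩ := hk'
      exact ⟨((m : ℕ) : ZI), by push_cast; rfl⟩
    · intro k _ m _ h
      exact Nat.cast_injective h
  exact_mod_cast h1

end Pool.Agent.J6H16.E4.EM
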