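import Pool.Agent.J6H16.E4.EMa
import Pool.Agent.J6H16.E4.EMb

/-!
# E4/EM: the main term of the linear sums, on average over `l ≤ L` (helper19)
-/

set_option autoImplicit false

namespace Pool.Agent.J6H16.E4.EM

open Finset Filter Topology
open Pool.Agent.N782.GN
open Pool.Agent.N521.GN (Dp co mem_co ct_pos)
open Pool.Agent.N866.GN.MT (Qd cast_ne nz_cast Fp Fp_sum Fp_avg gl kap_eq ct_divisors tau_dir log_ge_one)

theorem kap_sum (l : ℤ) {X : ℝ} {t : ZI} (ht : t ∈ bl X) :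
    kap l t = ∑ d ∈ Icc 1 ⌊Real.sqrt X⌋₊, Fp l d * iD ((d : ℕ) : ZI) t := by
  classical
  have ht' := (mem_bl X t).1 ht
  rw [kap_eq, ← Fp_sum l (ct_pos ht'.1), ct_divisors ht, sum_filter]
  refine sum_congr rfl fun d _ => ?_
  unfold iD
  split_ifs <;> ring

theorem Dp_sum_le {d : ℕ} {X : ℝ} (h : (d : ℝ) * d ≤ X) : ∑ g ∈ Dp d, 1 / nz g ≤ SX X := by
  classical
  refine le_trans ?_ (SX_mono h)
  unfold SX Dp
  exact sum_le_sum_of_subset_of_nonneg (filter_subset _ _) fun t _ _ => div_nonneg zero_le_one (nz_nonneg t)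

theorem Dp_sum_nonneg (d : ℕ) : 0 ≤ ∑ g ∈ Dp d, 1 / nz g :=
  sum_nonneg fun t _ => div_nonneg zero_le_one (nz_nonneg t)

theorem Ud_bound (hm : S_MUB) {d : ℕ} (hd : 0 < d) (e : ZI) (Y W Q : ℝ)
    (hY : ∀ g ∈ Dp d, |Qd d (Y / nz g)| ≤ Q) (hW : ∀ g ∈ Dp d, |Qd d (W / nz g)| ≤ Q) :
    |Ud d e Y W| ≤ (∑ g ∈ Dp d, 1 / nz g) ^ 2 * Q ^ 2 := by
  classical
  have hQ : 0 ≤ Q := by
    have h1 : (1 : ZI) ∈ Dp d := (mem_Dp' hd _).2 (one_dvd _)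
    exact (abs_nonneg _).trans (hY 1 h1)
  rw [Ud_eq hm hd, abs_mul, abs_of_pos (by norm_num : (0:ℝ) < 1 / 16)]
  have h1 : |∑ g ∈ Dp d, ∑ g' ∈ Dp d, (if ((d : ℕ) : ZI) ∣ e * (g * g') then
      mu g * mu g' / (nz g * nz g') else 0) * (Qd d (Y / nz g) * Qd d (W / nz g'))| ≤
      ∑ g ∈ Dp d, ∑ g' ∈ Dp d, (1 / nz g * (1 / nz g')) * (Q * Q) := by
    refine (abs_sum_le_sum_abs _ _).trans (sum_le_sum fun g hg => ?_)
    refine (abs_sum_le_sum_abs _ _).trans (sum_le_sum fun g' hg' => ?_)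
    rw [abs_mul, abs_mul]
    have hg1 := onz (Dp_ne' hd hg)
    have hg2 := onz (Dp_ne' hd hg')
    refine mul_le_mul ?_ (mul_le_mul (hY g hg) (hW g' hg') (abs_nonneg _) hQ) (by positivity) (by positivity)
    split_ifs
    · rw [abs_div, abs_mul, abs_of_pos (by positivity : 0 < nz g * nz g'), one_div_mul_one_div]
      refine div_le_div_of_nonneg_right ?_ (by positivity)
      have := mul_le_mul (abs_mu_le g) (abs_mu_le g') (abs_nonneg _) zero_le_one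
      linarith
    · rw [abs_zero]
      positivity
  have h2 : ∑ g ∈ Dp d, ∑ g' ∈ Dp d, (1 / nz g * (1 / nz g')) * (Q * Q) =
      (∑ g ∈ Dp d, 1 / nz g) ^ 2 * Q ^ 2 := by
    rw [sq (∑ g ∈ Dp d, 1 / nz g), sum_mul_sum, sum_mul]
    refine sum_congr rfl fun g _ => ?_
    rw [sum_mul]
    refine sum_congr rfl fun g' _ => ?_
    ring
  rw [h2] at h1
  have h3 : 0 ≤ (∑ g ∈ Dp d, 1 / nz g) ^ 2 * Q ^ 2 := by positivity
  linarith

/-- the coefficient of `Fp l d` -/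
noncomputable def Vd (f : ZI → ℝ) (e : ZI) (y Y W : ℝ) (d : ℕ) : ℝ :=
  ∑ a ∈ bl y, ∑ b ∈ bl Y, ∑ c ∈ bl W, f a * (mu b * mu c) * (iD ((d : ℕ) : ZI) (a * e * (b * c)) / nz (a * e * (b * c)))

theorem inner_eq (f : ZI → ℝ) (e : ZI) (he : e ≠ 0) (y Y W X : ℝ) (l : ℤ)
    (hX : ∀ a ∈ bl y, ∀ b ∈ bl Y, ∀ c ∈ bl W, nz (a * e * (b * c)) ≤ X) :
    ∑ a ∈ bl y, f a * ∑ b ∈ bl Y, ∑ c ∈ bl W, mu b * mu c * (kap l (a * e * (b * c)) / nz (a * e * (b * c))) =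
      ∑ d ∈ Icc 1 ⌊Real.sqrt X⌋₊, Fp l d * Vd f e y Y W d := by
  unfold Vd
  simp_rw [mul_sum]
  rw [sum_comm' (s := Icc 1 ⌊Real.sqrt X⌋₊) (t := fun _ => bl y) (t' := bl y) (s' := fun _ => Icc 1 ⌊Real.sqrt X⌋₊)
    (fun _ _ => Iff.rfl)]
  refine sum_congr rfl fun a ha => ?_
  rw [sum_comm' (s := Icc 1 ⌊Real.sqrt X⌋₊) (t := fun _ => bl Y) (t' := bl Y) (s' := fun _ => Icc 1 ⌊Real.sqrt X⌋₊)
    (fun _ _ => Iff.rfl)]
  refine sum_congr rfl fun b hb => ?_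
  rw [sum_comm' (s := Icc 1 ⌊Real.sqrt X⌋₊) (t := fun _ => bl W) (t' := bl W) (s' := fun _ => Icc 1 ⌊Real.sqrt X⌋₊)
    (fun _ _ => Iff.rfl)]
  refine sum_congr rfl fun c hc => ?_
  have ht : a * e * (b * c) ∈ bl X := by
    rw [mem_bl]
    refine ⟨?_, hX a ha b hb c hc⟩
    rw [mem_bl] at ha hb hc
    exact mul_ne_zero (mul_ne_zero ha.1 he) (mul_ne_zero hb.1 hc.1)
  rw [kap_sum l ht, sum_div, mul_sum, mul_sum]
  refine sum_congr rfl fun d _ => ?_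
  ring

theorem Vd_large {f : ZI → ℝ} (hf : ∀ a, |f a| ≤ 1) {e : ZI} (he : e ≠ 0) {y Y W X : ℝ} (hy : y ≤ X) (hY : Y ≤ X)
    (hW : W ≤ X) {d : ℕ} (hd : 0 < d) : |Vd f e y Y W d| ≤ (dv ((d : ℕ) : ZI)) ^ 3 * SX X ^ 3 / (d : ℝ) ^ 2 := by
  have hd0 := cast_ne hd
  have he1 := onz he
  have hn : ∀ z : ZI, 0 ≤ 1 / nz z := fun z => div_nonneg zero_le_one (nz_nonneg z)
  have hS := SX_nonneg X
  have hsub : ∀ {u : ℝ}, u ≤ X → bl u ⊆ bl X := by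
    intro u hu z hz
    rw [mem_bl] at hz ⊢
    exact ⟨hz.1, hz.2.trans hu⟩
  have hT : ∀ a b c : ZI, |f a * (mu b * mu c) * (iD ((d : ℕ) : ZI) (a * e * (b * c)) / nz (a * e * (b * c)))| ≤
      1 / nz e * (iD ((d : ℕ) : ZI) (a * e * (b * c)) * (1 / nz a * (1 / nz b * (1 / nz c)))) := by
    intro a b c
    rw [abs_mul, abs_mul, abs_mul, abs_of_nonneg (div_nonneg (iD_nonneg _ _) (nz_nonneg _))]
    have h1 : |f a| * (|mu b| * |mu c|) ≤ 1 := by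
      have h2 := mul_le_mul (abs_mu_le b) (abs_mu_le c) (abs_nonneg _) zero_le_one
      have h3 := mul_le_mul (hf a) h2 (by positivity) zero_le_one
      linarith
    have h4 : 0 ≤ iD ((d : ℕ) : ZI) (a * e * (b * c)) / nz (a * e * (b * c)) :=
      div_nonneg (iD_nonneg _ _) (nz_nonneg _)
    calc _ ≤ 1 * (iD ((d : ℕ) : ZI) (a * e * (b * c)) / nz (a * e * (b * c))) :=
          mul_le_mul_of_nonneg_right h1 h4
      _ = _ := by
          rw [nzml, nzml, nzml]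
          simp only [div_eq_mul_inv, mul_inv]
          ring
  have h1 : |Vd f e y Y W d| ≤ ∑ a ∈ bl X, ∑ b ∈ bl X, ∑ c ∈ bl X,
      1 / nz e * (iD ((d : ℕ) : ZI) (a * e * (b * c)) * (1 / nz a * (1 / nz b * (1 / nz c)))) := by
    have hpos : ∀ a b c : ZI, 0 ≤ 1 / nz e * (iD ((d : ℕ) : ZI) (a * e * (b * c)) *
        (1 / nz a * (1 / nz b * (1 / nz c)))) := fun a b c =>
      mul_nonneg (hn _) (mul_nonneg (iD_nonneg _ _) (mul_nonneg (hn _) (mul_nonneg (hn _) (hn _))))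
    unfold Vd
    calc _ ≤ ∑ a ∈ bl y, ∑ b ∈ bl Y, ∑ c ∈ bl W,
          1 / nz e * (iD ((d : ℕ) : ZI) (a * e * (b * c)) * (1 / nz a * (1 / nz b * (1 / nz c)))) := by
          refine (abs_sum_le_sum_abs _ _).trans (sum_le_sum fun a _ => ?_)
          refine (abs_sum_le_sum_abs _ _).trans (sum_le_sum fun b _ => ?_)
          exact (abs_sum_le_sum_abs _ _).trans (sum_le_sum fun c _ => hT a b c)
      _ ≤ ∑ a ∈ bl y, ∑ b ∈ bl Y, ∑ c ∈ bl X,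
          1 / nz e * (iD ((d : ℕ) : ZI) (a * e * (b * c)) * (1 / nz a * (1 / nz b * (1 / nz c)))) :=
          sum_le_sum fun a _ => sum_le_sum fun b _ =>
            sum_le_sum_of_subset_of_nonneg (hsub hW) fun c _ _ => hpos a b c
      _ ≤ ∑ a ∈ bl y, ∑ b ∈ bl X, ∑ c ∈ bl X,
          1 / nz e * (iD ((d : ℕ) : ZI) (a * e * (b * c)) * (1 / nz a * (1 / nz b * (1 / nz c)))) :=
          sum_le_sum fun a _ =>
            sum_le_sum_of_subset_of_nonneg (hsub hY) fun b _ _ => sum_nonneg fun c _ => hpos a b c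
      _ ≤ _ := sum_le_sum_of_subset_of_nonneg (hsub hy) fun a _ _ =>
            sum_nonneg fun b _ => sum_nonneg fun c _ => hpos a b c
  have h2 := G4 hd0 he X
  rw [nz_cast] at h2
  simp_rw [← mul_sum] at h1
  refine h1.trans ((mul_le_mul_of_nonneg_left h2 (hn e)).trans (le_of_eq ?_))
  field_simp

theorem Vd_small (hm : S_MUB) {f : ZI → ℝ} (hf : ∀ a, |f a| ≤ 1) {e : ZI} (he : e ≠ 0) {y Y W X Q : ℝ} (hy : y ≤ X)
    {d : ℕ} (hd : 0 < d) (hdX : (d : ℝ) * d ≤ X)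
    (hcop : ∀ a, f a ≠ 0 → IsCoprime a ((d : ℕ) : ZI))
    (hY : ∀ g ∈ Dp d, |Qd d (Y / nz g)| ≤ Q) (hW : ∀ g ∈ Dp d, |Qd d (W / nz g)| ≤ Q) :
    |Vd f e y Y W d| ≤ SX X ^ 3 * Q ^ 2 := by
  classical
  have he1 := onz he
  have hS := SX_nonneg X
  have hn : ∀ z : ZI, 0 ≤ 1 / nz z := fun z => div_nonneg zero_le_one (nz_nonneg z)
  have h1 : Vd f e y Y W d = ∑ a ∈ bl y, f a * (1 / nz a) * (1 / nz e) * Ud d e Y W := by
    unfold Vd Ud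
    refine sum_congr rfl fun a _ => ?_
    rw [mul_sum]
    refine sum_congr rfl fun b _ => ?_
    rw [mul_sum]
    refine sum_congr rfl fun c _ => ?_
    by_cases ha : f a = 0
    · rw [ha]; ring
    · have hc := hcop a ha
      have hiff : ((d : ℕ) : ZI) ∣ a * e * (b * c) ↔ ((d : ℕ) : ZI) ∣ e * (b * c) := by
        constructor
        · intro h
          rw [mul_assoc] at h
          exact hc.symm.dvd_of_dvd_mul_left h
        · intro h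
          rw [mul_assoc]
          exact h.mul_left _
      unfold iD
      by_cases hdv : ((d : ℕ) : ZI) ∣ e * (b * c)
      · rw [if_pos (hiff.2 hdv), if_pos hdv, nzml, nzml, nzml]
        simp only [div_eq_mul_inv, mul_inv]
        ring
      · rw [if_neg (fun h => hdv (hiff.1 h)), if_neg hdv]
        ring
  have h2 : |Ud d e Y W| ≤ SX X ^ 2 * Q ^ 2 := by
    refine (Ud_bound hm hd e Y W Q hY hW).trans ?_
    have h3 := Dp_sum_le hdX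
    have h4 := Dp_sum_nonneg d
    gcongr
  rw [h1]
  calc |∑ a ∈ bl y, f a * (1 / nz a) * (1 / nz e) * Ud d e Y W|
      ≤ ∑ a ∈ bl y, (1 / nz a) * (SX X ^ 2 * Q ^ 2) := by
        refine (abs_sum_le_sum_abs _ _).trans (sum_le_sum fun a _ => ?_)
        rw [abs_mul, abs_mul, abs_mul, abs_of_nonneg (hn a), abs_of_nonneg (hn e)]
        have h5 : 1 / nz e ≤ 1 := by
          rw [div_le_one (by linarith)]
          exact he1
        have h6 : |f a| * (1 / nz a) * (1 / nz e) ≤ 1 / nz a := by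
          calc |f a| * (1 / nz a) * (1 / nz e) ≤ 1 * (1 / nz a) * 1 := by
                have := hn a
                have := hn e
                gcongr
                exact hf a
            _ = 1 / nz a := by ring
        exact mul_le_mul h6 h2 (abs_nonneg _) (hn a)
    _ = (∑ a ∈ bl y, 1 / nz a) * (SX X ^ 2 * Q ^ 2) := by rw [sum_mul]
    _ ≤ SX X * (SX X ^ 2 * Q ^ 2) := by
        have h7 : ∑ a ∈ bl y, 1 / nz a ≤ SX X := SX_mono hy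
        gcongr
    _ = SX X ^ 3 * Q ^ 2 := by ring

/-- eventually, all the size conditions -/
theorem sizes (B B' : ℕ) {c3 ε : ℝ} (hc : 0 < c3) (hε : 0 < ε) : ∀ᶠ M : ℝ in atTop,
    3 ≤ M ∧ (Real.log M) ^ (2 * B') < M ^ c3 ∧ (Real.log M) ^ (2 * B') ≤ M ^ (ε / 2) ∧
    (Real.log M) ^ (2 * B') ≤ M ∧ (Real.log M) ^ B ≤ M ∧ 2 ≤ M ^ (ε / 2) ∧ (2 / ε) ^ (B' + 1) ≤ Real.log M := by
  have hlog : ∀ (k : ℕ) {r : ℝ}, 0 < r → ∀ᶠ M : ℝ in atTop, (Real.log M) ^ k < M ^ r := by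
    intro k r hr
    have h1 : (fun M : ℝ => (Real.log M) ^ (k : ℝ)) =o[atTop] fun M : ℝ => M ^ r :=
      isLittleO_log_rpow_rpow_atTop _ hr
    have h2 := h1.bound (c := 1 / 2) (by norm_num)
    filter_upwards [h2, eventually_ge_atTop 3] with M hM hM3
    have hlM := log_ge_one hM3
    have hMr : 0 < M ^ r := Real.rpow_pos_of_pos (by linarith) _
    rw [Real.norm_of_nonneg (by positivity), Real.norm_of_nonneg hMr.le, Real.rpow_natCast] at hM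
    linarith
  filter_upwards [eventually_ge_atTop 3, hlog (2 * B') hc, hlog (2 * B') (half_pos hε), hlog (2 * B') one_pos,
    hlog B one_pos, (tendsto_rpow_atTop (half_pos hε)).eventually_ge_atTop 2,
    Real.tendsto_log_atTop.eventually_ge_atTop ((2 / ε) ^ (B' + 1))] with M h1 h2 h3 h4 h5 h6 h7
  rw [Real.rpow_one] at h4 h5
  exact ⟨h1, h2, h3.le, h4.le, h5.le, h6, h7⟩

theorem num1 {C1 ε lM S L : ℝ} {A B' A1 : ℕ} (hl1 : 1 ≤ lM) (hε : 0 < ε) (hL : 1 ≤ L) (hS : S ^ 3 ≤ 36 ^ 3 * lM ^ 3)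
    (h : 2 * B' + A + 3 ≤ 2 * A1) :
    lM ^ B' * (lM ^ B' * L * (S ^ 3 * (C1 * (2 / ε) ^ A1 / lM ^ A1) ^ 2)) ≤
      36 ^ 3 * C1 ^ 2 * (2 / ε) ^ (2 * A1) * L / lM ^ A := by
  rw [le_div_iff₀ (by positivity)]
  calc lM ^ B' * (lM ^ B' * L * (S ^ 3 * (C1 * (2 / ε) ^ A1 / lM ^ A1) ^ 2)) * lM ^ A
      ≤ lM ^ B' * (lM ^ B' * L * ((36 ^ 3 * lM ^ 3) * (C1 * (2 / ε) ^ A1 / lM ^ A1) ^ 2)) * lM ^ A := by gcongr
    _ = 36 ^ 3 * L * (C1 ^ 2 * (2 / ε) ^ (2 * A1)) * (lM ^ (2 * B' + A + 3) / lM ^ (2 * A1)) := by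
        rw [div_pow, mul_pow, ← pow_mul, ← pow_mul, mul_comm A1 2]
        ring
    _ ≤ 36 ^ 3 * L * (C1 ^ 2 * (2 / ε) ^ (2 * A1)) * 1 := by
        have h1 : lM ^ (2 * B' + A + 3) / lM ^ (2 * A1) ≤ 1 := by
          rw [div_le_one (by positivity)]
          exact pow_le_pow_right₀ hl1 h
        gcongr
    _ = _ := by ring

theorem num2 {C2 lM S L : ℝ} {A : ℕ} (hC2 : 0 < C2) (hl1 : 1 ≤ lM) (hL : 1 ≤ L) (hS : S ^ 3 ≤ 36 ^ 3 * lM ^ 3) :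
    (C2 ^ 3 * S ^ 3 / lM ^ (A + 3)) * L * 6 ≤ 6 * 36 ^ 3 * C2 ^ 3 * L / lM ^ A := by
  calc (C2 ^ 3 * S ^ 3 / lM ^ (A + 3)) * L * 6 ≤ (C2 ^ 3 * (36 ^ 3 * lM ^ 3) / lM ^ (A + 3)) * L * 6 := by gcongr
    _ = _ := by
        rw [pow_add]
        field_simp

theorem num3 {C2 lM S d D : ℝ} {A : ℕ} (hC2 : 0 < C2) (hl1 : 1 ≤ lM) (hS0 : 0 ≤ S) (hD0 : 0 ≤ D) (hd0 : 0 < d)
    (hD : D ≤ C2 * (d ^ 2) ^ (1 / 48 : ℝ)) (hdl : lM ^ (8 * (A + 3)) < d) :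
    D ^ 3 * S ^ 3 / d ^ 2 ≤ (C2 ^ 3 * S ^ 3 / lM ^ (A + 3)) * (d ^ (1 / 4 : ℝ) / d ^ 2) := by
  have h3 : D ^ 3 ≤ C2 ^ 3 * d ^ (1 / 8 : ℝ) := by
    calc D ^ 3 ≤ (C2 * (d ^ 2) ^ (1 / 48 : ℝ)) ^ 3 := by gcongr
      _ = C2 ^ 3 * d ^ (1 / 8 : ℝ) := by
          rw [mul_pow]
          congr 1
          rw [← Real.rpow_natCast d 2, ← Real.rpow_mul hd0.le, ← Real.rpow_natCast _ 3, ← Real.rpow_mul hd0.le]
          norm_num
  have h4 : lM ^ (A + 3) ≤ d ^ (1 / 8 : ℝ) := by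
    calc lM ^ (A + 3) = (lM ^ (8 * (A + 3))) ^ (1 / 8 : ℝ) := by
          rw [← Real.rpow_natCast, ← Real.rpow_natCast, ← Real.rpow_mul (by linarith)]
          congr 1
          push_cast
          ring
      _ ≤ _ := Real.rpow_le_rpow (by positivity) hdl.le (by norm_num)
  have h5 : d ^ (1 / 8 : ℝ) * lM ^ (A + 3) ≤ d ^ (1 / 4 : ℝ) := by
    calc d ^ (1 / 8 : ℝ) * lM ^ (A + 3) ≤ d ^ (1 / 8 : ℝ) * d ^ (1 / 8 : ℝ) := by gcongr
      _ = d ^ (1 / 4 : ℝ) := by rw [← Real.rpow_add hd0]; norm_num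
  have hlA : 0 < lM ^ (A + 3) := by positivity
  calc D ^ 3 * S ^ 3 / d ^ 2 ≤ (C2 ^ 3 * d ^ (1 / 8 : ℝ)) * S ^ 3 / d ^ 2 := by gcongr
    _ = (C2 ^ 3 * S ^ 3 / lM ^ (A + 3)) * ((d ^ (1 / 8 : ℝ) * lM ^ (A + 3)) / d ^ 2) := by
        field_simp
    _ ≤ _ := by gcongr

theorem sq_le_of {lM d : ℝ} {B' : ℕ} (hl1 : 1 ≤ lM) (hd : 0 ≤ d) (h : d ≤ lM ^ B') : d * d ≤ lM ^ (2 * B') := by
  calc d * d ≤ lM ^ B' * lM ^ B' := by gcongr
    _ = lM ^ (2 * B') := by ring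

theorem numQ {M ε Z n d lM : ℝ} {B' : ℕ} (hlM : lM = Real.log M) (hl1 : 1 ≤ lM) (hM0 : 0 < M) (hε : 0 < ε)
    (hZ : M ^ ε ≤ Z) (hn1 : 1 ≤ n) (hn : n ≤ M ^ (ε / 2)) (hd : d ≤ lM ^ B') (hl : (2 / ε) ^ (B' + 1) ≤ lM) :
    M ^ (ε / 2) ≤ Z / n ∧ 0 < ε / 2 * lM ∧ ε / 2 * lM ≤ Real.log (Z / n) ∧ d ≤ (Real.log (Z / n)) ^ (B' + 1) := by
  have hx : M ^ (ε / 2) ≤ Z / n := by
    rw [le_div_iff₀ (by linarith)]
    calc M ^ (ε / 2) * n ≤ M ^ (ε / 2) * M ^ (ε / 2) := by gcongr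
      _ = M ^ ε := by rw [← Real.rpow_add hM0]; congr 1; ring
      _ ≤ Z := hZ
  have hx0 : 0 < M ^ (ε / 2) := Real.rpow_pos_of_pos hM0 _
  have hlx : ε / 2 * lM ≤ Real.log (Z / n) := by
    have h1 := Real.log_le_log hx0 hx
    rwa [Real.log_rpow hM0, ← hlM] at h1
  have hpos : 0 < ε / 2 * lM := by positivity
  refine ⟨hx, hpos, hlx, ?_⟩
  calc d ≤ lM ^ B' := hd
    _ = (ε / 2) ^ (B' + 1) * ((2 / ε) ^ (B' + 1) * lM ^ B') := by
        rw [← mul_assoc, ← mul_pow]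
        have : ε / 2 * (2 / ε) = 1 := by field_simp
        rw [this, one_pow, one_mul]
    _ ≤ (ε / 2) ^ (B' + 1) * (lM * lM ^ B') := by gcongr
    _ = (ε / 2 * lM) ^ (B' + 1) := by rw [mul_pow]; ring
    _ ≤ _ := by gcongr

/-- elements of prime norm `> d ^ 2` are coprime to `d` -/
theorem coprime_of {a : ZI} {d : ℕ} (hd : 0 < d) (hap : (Zsqrtd.norm a).natAbs.Prime) (h : (d : ℝ) * d < nz a) :
    IsCoprime a ((d : ℕ) : ZI) := by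
  have hirr : Irreducible a := by
    rw [irreducible_iff]
    have hnn : ∀ z : ZI, IsUnit z ↔ (Zsqrtd.norm z).natAbs = 1 := fun z => Zsqrtd.norm_eq_one_iff.symm
    refine ⟨fun h => ?_, fun {x z} hxz => ?_⟩
    · rw [hnn] at h
      rw [h] at hap
      exact Nat.not_prime_one hap
    · have h1 : (Zsqrtd.norm a).natAbs = (Zsqrtd.norm x).natAbs * (Zsqrtd.norm z).natAbs := by
        rw [hxz, Zsqrtd.norm_mul, Int.natAbs_mul]
      rw [h1] at hap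
      rcases Nat.prime_mul_iff.1 hap with ⟨-, h2⟩ | ⟨-, h2⟩
      · right; rw [hnn]; exact h2
      · left; rw [hnn]; exact h2
  by_contra hnc
  rw [Irreducible.coprime_iff_not_dvd hirr, not_not] at hnc
  obtain ⟨c, hcc⟩ := hnc
  have hc0 : c ≠ 0 := by
    rintro rfl
    exact cast_ne hd (by rw [hcc, mul_zero])
  have h2 : nz ((d : ℕ) : ZI) = nz a * nz c := by rw [hcc, nzml]
  rw [nz_cast] at h2
  have h3 := onz hc0
  have h4 : nz a ≤ (d : ℝ) ^ 2 := by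
    rw [h2]
    have := nz_nonneg a
    nlinarith
  have h5 : (d : ℝ) ^ 2 = d * d := sq _
  linarith

/-- summation over `d` -/
theorem assemble {V τ : ℕ → ℝ} {N : ℕ} {lM L P R : ℝ} {B' : ℕ} (hl1 : 1 ≤ lM) (hL : 1 ≤ L) (hP : 0 ≤ P) (hR : 0 ≤ R)
    (hV : ∀ d, 0 ≤ V d) (hτ0 : ∀ d, 0 ≤ τ d) (hτ : ∀ d, τ d ≤ d)
    (h1 : ∀ d : ℕ, 0 < d → (d : ℝ) ≤ lM ^ B' → V d ≤ P)
    (h2 : ∀ d : ℕ, 0 < d → lM ^ B' < (d : ℝ) → V d ≤ R * ((d : ℝ) ^ (1 / 4 : ℝ) / (d : ℝ) ^ 2))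
    (h3 : ∑ d ∈ Icc 1 N, τ d * ((d : ℝ) ^ (1 / 4 : ℝ) / (d : ℝ) ^ 2) ≤ 6) :
    ∑ d ∈ Icc 1 N, (τ d * L) * V d ≤ lM ^ B' * (lM ^ B' * L * P) + R * L * 6 := by
  classical
  rw [← sum_filter_add_sum_filter_not (Icc 1 N) (fun d : ℕ => (d : ℝ) ≤ lM ^ B')]
  refine add_le_add ?_ ?_
  · have h4 : ∀ d ∈ (Icc 1 N).filter (fun d : ℕ => (d : ℝ) ≤ lM ^ B'), (τ d * L) * V d ≤ lM ^ B' * L * P := by
      intro d hd
      rw [mem_filter, mem_Icc] at hd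
      have h5 := h1 d hd.1.1 hd.2
      have h6 : τ d ≤ lM ^ B' := (hτ d).trans hd.2
      exact mul_le_mul (mul_le_mul_of_nonneg_right h6 (by linarith)) h5 (hV d) (by positivity)
    refine (sum_le_sum h4).trans ?_
    rw [sum_const, nsmul_eq_mul]
    have h5 : (((Icc 1 N).filter (fun d : ℕ => (d : ℝ) ≤ lM ^ B')).card : ℝ) ≤ lM ^ B' := by
      have h6 : (Icc 1 N).filter (fun d : ℕ => (d : ℝ) ≤ lM ^ B') ⊆ Icc 1 ⌊lM ^ B'⌋₊ := by
        intro d hd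
        rw [mem_filter, mem_Icc] at hd
        rw [mem_Icc]
        exact ⟨hd.1.1, Nat.le_floor hd.2⟩
      have h7 := card_le_card h6
      rw [Nat.card_Icc, Nat.add_sub_cancel] at h7
      exact (Nat.cast_le.2 h7).trans (Nat.floor_le (by positivity))
    exact mul_le_mul_of_nonneg_right h5 (by positivity)
  · calc _ ≤ ∑ d ∈ (Icc 1 N).filter (fun d : ℕ => ¬ (d : ℝ) ≤ lM ^ B'), (R * L) *
          (τ d * ((d : ℝ) ^ (1 / 4 : ℝ) / (d : ℝ) ^ 2)) := by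
          refine sum_le_sum fun d hd => ?_
          rw [mem_filter, mem_Icc, not_le] at hd
          have h4 := h2 d hd.1.1 hd.2
          calc (τ d * L) * V d ≤ (τ d * L) * (R * ((d : ℝ) ^ (1 / 4 : ℝ) / (d : ℝ) ^ 2)) :=
                mul_le_mul_of_nonneg_left h4 (mul_nonneg (hτ0 d) (by linarith))
            _ = _ := by ring
      _ ≤ ∑ d ∈ Icc 1 N, (R * L) * (τ d * ((d : ℝ) ^ (1 / 4 : ℝ) / (d : ℝ) ^ 2)) := by
          refine sum_le_sum_of_subset_of_nonneg (filter_subset _ _) fun d _ _ => ?_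
          exact mul_nonneg (by positivity) (mul_nonneg (hτ0 d) (by positivity))
      _ = (R * L) * ∑ d ∈ Icc 1 N, (τ d * ((d : ℝ) ^ (1 / 4 : ℝ) / (d : ℝ) ^ 2)) := by rw [mul_sum]
      _ ≤ _ := mul_le_mul_of_nonneg_left h3 (by positivity)

/-- the sum over `l` -/
theorem lhs_le {f : ZI → ℝ} {e : ZI} (he : e ≠ 0) {y Y W X L : ℝ} (hL : 1 ≤ L)
    (hX : ∀ a ∈ bl y, ∀ b ∈ bl Y, ∀ c ∈ bl W, nz (a * e * (b * c)) ≤ X) :
    ∑ l ∈ Icc 1 ⌊L⌋, |∑ a ∈ bl y, f a * ∑ b ∈ bl Y, ∑ c ∈ bl W,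
      mu b * mu c * (kap l (a * e * (b * c)) / nz (a * e * (b * c)))| ≤
      ∑ d ∈ Icc 1 ⌊Real.sqrt X⌋₊, ((d.divisors.card : ℝ) * L) * |Vd f e y Y W d| := by
  calc _ ≤ ∑ l ∈ Icc 1 ⌊L⌋, ∑ d ∈ Icc 1 ⌊Real.sqrt X⌋₊, |Fp l d| * |Vd f e y Y W d| := by
        refine sum_le_sum fun l _ => ?_
        rw [inner_eq f e he y Y W X l hX]
        refine (abs_sum_le_sum_abs _ _).trans (le_of_eq ?_)
        exact sum_congr rfl fun d _ => abs_mul _ _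
    _ = ∑ d ∈ Icc 1 ⌊Real.sqrt X⌋₊, (∑ l ∈ Icc 1 ⌊L⌋, |Fp l d|) * |Vd f e y Y W d| := by
        rw [sum_comm]
        exact sum_congr rfl fun d _ => (sum_mul _ _ _).symm
    _ ≤ _ := by
        refine sum_le_sum fun d hd => ?_
        rw [mem_Icc] at hd
        exact mul_le_mul_of_nonneg_right (Fp_avg hL hd.1) (abs_nonneg _)

/-- the bound of the norms -/
theorem norm_bd {e : ZI} {y Y W M : ℝ} (hM : 1 ≤ M) (hy : y ≤ M) (he : nz e ≤ M) (hY : Y ≤ M ^ 2) (hW : W ≤ M ^ 2) :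
    ∀ a ∈ bl y, ∀ b ∈ bl Y, ∀ c ∈ bl W, nz (a * e * (b * c)) ≤ M ^ 6 := by
  intro a ha b hb c hc
  rw [mem_bl] at ha hb hc
  rw [nzml, nzml, nzml]
  have h1 : nz a ≤ M := ha.2.trans hy
  have h3 : nz b ≤ M ^ 2 := hb.2.trans hY
  have h4 : nz c ≤ M ^ 2 := hc.2.trans hW
  have := nz_nonneg a
  have := nz_nonneg e
  have := nz_nonneg b
  have := nz_nonneg c
  calc nz a * nz e * (nz b * nz c) ≤ M * M * (M ^ 2 * M ^ 2) := by gcongr
    _ = M ^ 6 := by ring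

/-- E4/EM -/
theorem c_em (hm : S_MUB) (hp : S_P0B) (hdv : S_DVB) : S_EM := by
  classical
  intro A B c3 ε hc3 hε
  obtain ⟨B', hB'⟩ : ∃ B' : ℕ, B' = 8 * (A + 3) := ⟨_, rfl⟩
  obtain ⟨A1, hA1⟩ : ∃ A1 : ℕ, A1 = A + B' + 3 := ⟨_, rfl⟩
  obtain ⟨C1, hC1, hP⟩ := hp A1 (B' + 1)
  obtain ⟨C2, hC2, hD⟩ := hdv (1 / 48) (by norm_num)
  refine ⟨36 ^ 3 * C1 ^ 2 * (2 / ε) ^ (2 * A1) + 6 * 36 ^ 3 * C2 ^ 3, by positivity, ?_⟩
  filter_upwards [sizes B B' hc3 hε] with M hM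
  obtain ⟨hM3, hMc, hMe, hM1, hMB, hM2, hMl⟩ := hM
  intro L y Y W e f hL hLM hy hYl hYu hWl hWu he hee hf hfs
  obtain ⟨lM, hlM⟩ : ∃ lM, lM = Real.log M := ⟨_, rfl⟩
  rw [← hlM] at hMc hMe hM1 hMB hMl hee ⊢
  have hl1 : 1 ≤ lM := by rw [hlM]; exact log_ge_one hM3
  have hM0 : 0 < M := by linarith
  have hMX : M ≤ M ^ 2 := by nlinarith
  obtain ⟨S, hSd⟩ : ∃ S, S = SX (M ^ 2) := ⟨_, rfl⟩
  have hS0 : 0 ≤ S := by rw [hSd]; exact SX_nonneg _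
  have hS3 : S ^ 3 ≤ 36 ^ 3 * lM ^ 3 := by
    have hS : S ≤ 36 * lM := by
      have h1 := SX_le (X := M ^ 2) (by linarith)
      have h2 : Real.log (M ^ 2) = 2 * lM := by
        rw [hlM, Real.log_pow]
        push_cast
        rfl
      rw [h2] at h1
      linarith
    rw [← mul_pow]
    exact pow_le_pow_left₀ hS0 hS 3
  have hQ : ∀ d : ℕ, 0 < d → (d : ℝ) ≤ lM ^ B' → ∀ Z : ℝ, M ^ ε ≤ Z → ∀ g ∈ Dp d,
      |Qd d (Z / nz g)| ≤ C1 * (2 / ε) ^ A1 / lM ^ A1 := by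
    intro d hd hdl Z hZ g hg
    have hg1 := onz (Dp_ne' hd hg)
    have hgd : nz g ≤ M ^ (ε / 2) := by
      have h1 : nz g ≤ (d : ℝ) * d := by
        unfold Dp at hg
        exact ((mem_bl _ _).1 (mem_filter.1 hg).1).2
      exact h1.trans ((sq_le_of hl1 (Nat.cast_nonneg d) hdl).trans hMe)
    obtain ⟨hx, hpos, hlx, hdx⟩ := numQ hlM hl1 hM0 hε hZ hg1 hgd hdl hMl
    have h1 := (hP (Z / nz g) d (hM2.trans hx) hd hdx).2
    refine h1.trans ?_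
    calc C1 / Real.log (Z / nz g) ^ A1 ≤ C1 / (ε / 2 * lM) ^ A1 := by
          exact div_le_div_of_nonneg_left hC1.le (pow_pos hpos _) (pow_le_pow_left₀ hpos.le hlx _)
      _ = C1 * (2 / ε) ^ A1 / lM ^ A1 := by
          rw [mul_pow, div_pow, div_pow]
          field_simp
  refine (lhs_le he hL (norm_bd (by linarith) hy (hee.trans hMB) hYu hWu)).trans ?_
  have hmain := assemble (V := fun d => |Vd f e y Y W d|) (τ := fun d => (d.divisors.card : ℝ))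
    (N := ⌊Real.sqrt (M ^ 6)⌋₊) (B' := B') (P := S ^ 3 * (C1 * (2 / ε) ^ A1 / lM ^ A1) ^ 2)
    (R := C2 ^ 3 * S ^ 3 / lM ^ (A + 3)) hl1 hL (mul_nonneg (pow_nonneg hS0 3) (sq_nonneg _))
    (div_nonneg (mul_nonneg (pow_nonneg hC2.le 3) (pow_nonneg hS0 3)) (pow_nonneg (by linarith) _))
    (fun d => abs_nonneg _) (fun d => Nat.cast_nonneg _)
    (fun d => Nat.cast_le.2 (Nat.card_divisors_le_self d)) ?_ ?_ (tau_dir _)
  · refine hmain.trans ((add_le_add (num1 (A := A) (B' := B') (A1 := A1) hl1 hε hL hS3 (by omega)) (num2 hC2 hl1 hL hS3)).trans (le_of_eq ?_))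
    rw [← add_div]
    congr 1
    ring
  · intro d hd hdl
    have hdd := sq_le_of hl1 (Nat.cast_nonneg d) hdl
    have h1 := Vd_small hm hf he (hy.trans hMX) hd (hdd.trans (hM1.trans hMX))
      (fun a ha => coprime_of hd (hfs a ha).1 (lt_trans (lt_of_le_of_lt hdd hMc) (hfs a ha).2))
      (hQ d hd hdl Y hYl) (hQ d hd hdl W hWl)
    rw [← hSd] at h1
    exact h1
  · intro d hd hdl
    have h1 := Vd_large hf he (hy.trans hMX) hYu hWu hd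
    rw [← hSd] at h1
    have h2 := hD ((d : ℕ) : ZI) (cast_ne hd)
    rw [nz_cast] at h2
    rw [hB'] at hdl
    exact h1.trans (num3 hC2 hl1 hS0 (Nat.cast_nonneg _) (by exact_mod_cast hd) h2 hdl)

end Pool.Agent.J6H16.E4.EM
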