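import Pool.Agent.J6H16.E4.Lt
import Pool.Agent.N866.GN.M1b

/-!
# E4/EM, part a: decomposition of squarefree numbers by a rational integer, and the sum over two variables (helper19)
-/

set_option autoImplicit false

namespace Pool.Agent.J6H16.E4.EM

open Finset
open Pool.Agent.N782.GN
open Pool.Agent.N521.GN (nn nn_real nn_mul nn_P nn_pos nz_pos dvd_ct ct_dvd ct_pos Dp co mem_co TT UU card_UU mem_UU
  isUnit_iff unit_mul_star unit_star)
open Pool.Agent.N866.GN.MT (Qd cast_ne nz_cast bl_mono)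

/-! ### the decomposition -/

theorem mem_Dp' {d : ℕ} (hd : 0 < d) (g : ZI) : g ∈ Dp d ↔ g ∣ ((d : ℕ) : ZI) := by
  classical
  unfold Dp
  rw [mem_filter, and_iff_right_iff_imp, mem_bl]
  intro hg
  have h0 : g ≠ 0 := by
    rintro rfl
    exact cast_ne hd (zero_dvd_iff.1 hg)
  refine ⟨h0, ?_⟩
  obtain ⟨c, hc⟩ := hg
  have h1 : nn g ≤ d * d := by
    rw [← nn_P d, hc, nn_mul]
    have hc0 : c ≠ 0 := by
      rintro rfl
      exact cast_ne hd (by rw [hc, mul_zero])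
    exact Nat.le_mul_of_pos_right _ (nn_pos hc0)
  rw [← nn_real]
  exact_mod_cast h1

theorem Dp_ne' {d : ℕ} (hd : 0 < d) {g : ZI} (hg : g ∈ Dp d) : g ≠ 0 := by
  rintro rfl
  exact cast_ne hd (zero_dvd_iff.1 ((mem_Dp' hd _).1 hg))

theorem exists_dec' {d : ℕ} (hd : 0 < d) {z : ZI} (hs : Squarefree z) :
    ∃ g b : ZI, g ∣ ((d : ℕ) : ZI) ∧ IsCoprime b ((d : ℕ) : ZI) ∧ g * b = z := by
  obtain ⟨b, hb⟩ := EuclideanDomain.gcd_dvd_left z ((d : ℕ) : ZI)
  refine ⟨EuclideanDomain.gcd z ((d : ℕ) : ZI), b, EuclideanDomain.gcd_dvd_right _ _, ?_, hb.symm⟩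
  have hP := cast_ne hd
  refine isCoprime_of_prime_dvd (fun h => hP h.2) fun q hq hqb hqP => ?_
  have h1 : q ∣ EuclideanDomain.gcd z ((d : ℕ) : ZI) :=
    EuclideanDomain.dvd_gcd (hqb.trans ⟨_, by rw [mul_comm]; exact hb⟩) hqP
  have h2 : q * q ∣ z := by
    rw [hb]
    exact mul_dvd_mul h1 hqb
  exact hq.not_isUnit (hs q h2)

theorem dec_assoc' {d : ℕ} {g b g' b' : ZI} (hg : g ∣ ((d : ℕ) : ZI))
    (hb' : IsCoprime b' ((d : ℕ) : ZI)) (h : g * b = g' * b') : g ∣ g' := by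
  have h1 : IsCoprime g b' := (hb'.of_isCoprime_of_dvd_right hg).symm
  exact h1.dvd_of_dvd_mul_right ⟨b, h.symm⟩

theorem mem_TT' {d : ℕ} (hd : 0 < d) (y : ℝ) (q : ZI × ZI) :
    q ∈ TT d y ↔ (q.1 ∣ ((d : ℕ) : ZI) ∧ q.2 ≠ 0 ∧ nz q.2 ≤ y) ∧
      IsCoprime q.2 ((d : ℕ) : ZI) ∧ nz q.1 * nz q.2 ≤ y := by
  classical
  unfold TT
  rw [mem_filter, mem_product, mem_Dp' hd, mem_bl]

theorem nzm (a b : ZI) : nz (a * b) = nz a * nz b := Pool.Agent.N521.GN.nz_mul a b

open Classical in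
theorem fiber_card' {d : ℕ} (hd : 0 < d) {y : ℝ} {z : ZI} (hz : z ∈ bl y) (hs : Squarefree z) :
    ((TT d y).filter (fun q => q.1 * q.2 = z)).card = 4 := by
  obtain ⟨g₀, b₀, hg₀, hb₀, hgb⟩ := exists_dec' hd hs
  rw [mem_bl] at hz
  have hg0 : g₀ ≠ 0 := by
    rintro rfl
    exact hz.1 (by rw [← hgb, zero_mul])
  have hb0 : b₀ ≠ 0 := by
    rintro rfl
    exact hz.1 (by rw [← hgb, mul_zero])
  have hset : (TT d y).filter (fun q => q.1 * q.2 = z) =
      UU.image (fun u => (u * g₀, star u * b₀)) := by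
    ext ⟨g, b⟩
    rw [mem_filter, mem_TT' hd, mem_image]
    constructor
    · rintro ⟨⟨⟨hg, hb, -⟩, hc, -⟩, hz'⟩
      simp only at hg hb hc hz'
      have h1 : g₀ ∣ g := dec_assoc' (b := b₀) (b' := b) hg₀ hc (by rw [hgb, hz'])
      have h2 : g ∣ g₀ := dec_assoc' (b := b) (b' := b₀) hg hb₀ (by rw [hgb, hz'])
      obtain ⟨u, hu⟩ := associated_of_dvd_dvd h1 h2
      refine ⟨u, (mem_UU _).2 u.isUnit, ?_⟩
      have e1 : (u : ZI) * g₀ = g := by rw [mul_comm]; exact hu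
      have e2 : star (u : ZI) * b₀ = b := by
        apply mul_left_cancel₀ hg0
        have h3 := unit_mul_star u.isUnit
        calc g₀ * (star (u : ZI) * b₀) = star (u : ZI) * z := by rw [← hgb]; ring
          _ = star (u : ZI) * (g * b) := by rw [hz']
          _ = star (u : ZI) * ((u : ZI) * g₀ * b) := by rw [e1]
          _ = ((u : ZI) * star (u : ZI)) * (g₀ * b) := by ring
          _ = _ := by rw [h3, one_mul]
      rw [e1, e2]
    · rintro ⟨u, hu, hq⟩
      rw [mem_UU] at hu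
      rw [Prod.mk.injEq] at hq
      obtain ⟨rfl, rfl⟩ := hq
      have hsu := unit_star hu
      have h3 := unit_mul_star hu
      have hprod : u * g₀ * (star u * b₀) = z := by
        calc u * g₀ * (star u * b₀) = (u * star u) * (g₀ * b₀) := by ring
          _ = z := by rw [h3, hgb, one_mul]
      have hne : star u * b₀ ≠ 0 := mul_ne_zero hsu.ne_zero hb0
      have hne' : u * g₀ ≠ 0 := mul_ne_zero hu.ne_zero hg0
      have hy : nz (u * g₀) * nz (star u * b₀) ≤ y := by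
        rw [← nzm, hprod]
        exact hz.2
      refine ⟨⟨⟨(hu.mul_left_dvd).2 hg₀, hne, ?_⟩, ?_, hy⟩, hprod⟩
      · have h5 := nz_pos hne'
        have h6 := nz_nonneg (star u * b₀)
        nlinarith
      · exact (isCoprime_mul_unit_left_left hsu _ _).2 hb₀
  rw [hset, card_image_of_injOn, card_UU]
  intro u _ v _ huv
  simp only [Prod.mk.injEq] at huv
  exact mul_right_cancel₀ hg0 huv.1

theorem dec' (hm : S_MUB) {d : ℕ} (hd : 0 < d) (φ : ZI → ℝ) (y : ℝ) :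
    ∑ z ∈ bl y, mu z * φ z =
      1 / 4 * ∑ g ∈ Dp d, mu g * ∑ b ∈ co d (y / nz g), mu b * φ (g * b) := by
  classical
  have hA : ∑ g ∈ Dp d, mu g * ∑ b ∈ co d (y / nz g), mu b * φ (g * b) =
      ∑ q ∈ TT d y, mu (q.1 * q.2) * φ (q.1 * q.2) := by
    unfold TT
    rw [sum_filter, sum_product]
    refine sum_congr rfl fun g hg => ?_
    rw [← sum_filter, mul_sum]
    have hg0 := Dp_ne' hd hg
    have hg1 := nz_pos hg0
    have hset : co d (y / nz g) =
        (bl y).filter (fun b => IsCoprime b ((d : ℕ) : ZI) ∧ nz g * nz b ≤ y) := by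
      ext b
      rw [mem_co, mem_filter, mem_bl, le_div_iff₀ (by linarith)]
      have h6 := nz_nonneg b
      constructor
      · rintro ⟨⟨h1, h2⟩, h3⟩
        exact ⟨⟨h1, by nlinarith⟩, h3, by linarith⟩
      · rintro ⟨⟨h1, h2⟩, h3, h4⟩
        exact ⟨⟨h1, by linarith⟩, h3⟩
    rw [hset]
    refine sum_congr rfl fun b hb => ?_
    rw [mem_filter] at hb
    have hco : IsCoprime g b := (hb.2.1.of_isCoprime_of_dvd_right ((mem_Dp' hd g).1 hg)).symm
    rw [hm.1 g b hco]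
    ring
  rw [hA]
  have hmaps : ∀ q ∈ TT d y, q.1 * q.2 ∈ bl y := by
    intro q hq
    rw [mem_TT' hd] at hq
    rw [mem_bl, nzm]
    refine ⟨mul_ne_zero ?_ hq.1.2.1, hq.2.2⟩
    intro h
    have := hq.1.1
    rw [h] at this
    exact cast_ne hd (zero_dvd_iff.1 this)
  rw [← sum_fiberwise_of_maps_to hmaps, mul_sum]
  refine sum_congr rfl fun z hz => ?_
  have h1 : ∑ q ∈ (TT d y).filter (fun q => q.1 * q.2 = z), mu (q.1 * q.2) * φ (q.1 * q.2) =
      ((TT d y).filter (fun q => q.1 * q.2 = z)).card * (mu z * φ z) := by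
    rw [← nsmul_eq_mul, ← sum_const]
    refine sum_congr rfl fun q hq => ?_
    rw [(mem_filter.1 hq).2]
  rw [h1]
  by_cases hs : Squarefree z
  · rw [fiber_card' hd hz hs]
    push_cast
    ring
  · have : mu z = 0 := by
      unfold mu
      rw [if_neg hs]
    rw [this]
    ring

/-! ### the sum over two variables -/

open Classical in
/-- the sum over `b, c` with `d ∣ e b c` -/
noncomputable def Ud (d : ℕ) (e : ZI) (Y W : ℝ) : ℝ :=
  ∑ b ∈ bl Y, ∑ c ∈ bl W, if ((d : ℕ) : ZI) ∣ e * (b * c) then mu b * mu c / (nz b * nz c) else 0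

theorem Qd_co (d : ℕ) (x : ℝ) : ∑ t ∈ co d x, mu t / nz t = Qd d x := by
  unfold co Qd
  rfl

theorem cop_iff {d : ℕ} {b c w : ZI} (hb : IsCoprime b ((d : ℕ) : ZI)) (hc : IsCoprime c ((d : ℕ) : ZI)) :
    ((d : ℕ) : ZI) ∣ w * (b * c) ↔ ((d : ℕ) : ZI) ∣ w := by
  constructor
  · intro h
    have h1 : IsCoprime ((d : ℕ) : ZI) (b * c) := (hb.mul_left hc).symm
    exact h1.dvd_of_dvd_mul_right h
  · exact fun h => h.mul_right _

open Classical in
theorem Ud_eq (hm : S_MUB) {d : ℕ} (hd : 0 < d) (e : ZI) (Y W : ℝ) :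
    Ud d e Y W = 1 / 16 * ∑ g ∈ Dp d, ∑ g' ∈ Dp d, (if ((d : ℕ) : ZI) ∣ e * (g * g') then
      mu g * mu g' / (nz g * nz g') else 0) * (Qd d (Y / nz g) * Qd d (W / nz g')) := by
  have h1 : Ud d e Y W = ∑ b ∈ bl Y, mu b * (∑ c ∈ bl W, mu c * (if ((d : ℕ) : ZI) ∣ e * (b * c) then
      1 / (nz b * nz c) else 0)) := by
    unfold Ud
    refine sum_congr rfl fun b _ => ?_
    rw [mul_sum]
    refine sum_congr rfl fun c _ => ?_
    split_ifs
    · ring
    · ring
  rw [h1, dec' hm hd]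
  have h2 : ∀ g ∈ Dp d, mu g * ∑ b ∈ co d (Y / nz g), mu b * (∑ c ∈ bl W, mu c *
      (if ((d : ℕ) : ZI) ∣ e * ((g * b) * c) then 1 / (nz (g * b) * nz c) else 0)) =
      1 / 4 * ∑ g' ∈ Dp d, (if ((d : ℕ) : ZI) ∣ e * (g * g') then
      mu g * mu g' / (nz g * nz g') else 0) * (Qd d (Y / nz g) * Qd d (W / nz g')) := by
    intro g hg
    have h3 : ∀ b ∈ co d (Y / nz g), mu b * (∑ c ∈ bl W, mu c *
        (if ((d : ℕ) : ZI) ∣ e * ((g * b) * c) then 1 / (nz (g * b) * nz c) else 0)) =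
        1 / 4 * ∑ g' ∈ Dp d, (mu b / nz b) * ((if ((d : ℕ) : ZI) ∣ e * (g * g') then
        mu g' / (nz g * nz g') else 0) * Qd d (W / nz g')) := by
      intro b hb
      have hb' := ((mem_co _ _ _).1 hb).2
      rw [dec' hm hd (fun c => if ((d : ℕ) : ZI) ∣ e * ((g * b) * c) then 1 / (nz (g * b) * nz c) else 0) W,
        mul_left_comm, mul_sum]
      congr 1
      refine sum_congr rfl fun g' _ => ?_
      rw [← Qd_co, mul_sum, mul_sum, mul_sum, mul_sum]
      refine sum_congr rfl fun c hc => ?_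
      have hc' := ((mem_co _ _ _).1 hc).2
      have e1 : e * ((g * b) * (g' * c)) = e * (g * g') * (b * c) := by ring
      rw [e1]
      by_cases hdv : ((d : ℕ) : ZI) ∣ e * (g * g')
      · rw [if_pos ((cop_iff hb' hc').2 hdv), if_pos hdv, nzm, nzm]
        field_simp
      · rw [if_neg (fun h => hdv ((cop_iff hb' hc').1 h)), if_neg hdv]
        ring
    rw [sum_congr rfl h3, ← mul_sum, sum_comm, mul_left_comm, mul_sum]
    congr 1
    refine sum_congr rfl fun g' _ => ?_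
    rw [← sum_mul, Qd_co]
    split_ifs <;> ring
  rw [sum_congr rfl h2, ← mul_sum]
  ring

end Pool.Agent.J6H16.E4.EM
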