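import Pool.Agent.J6H16.E4.Uf

/-!
# Project E4 (helper16): from `ℤ[i]` to natural numbers
-/

set_option autoImplicit false

namespace Pool.Agent.J6H16.E4

open Finset Filter Topology
open Pool.Agent.N782.GN hiding f1

/-- the sum of the Liouville function over `n² + k²`, `1 ≤ n ≤ N` -/
noncomputable def SL (k : ℕ) (N : ℝ) : ℝ :=
  ∑ n ∈ Icc 1 ⌊N⌋₊, (-1 : ℝ) ^ (ArithmeticFunction.cardFactors (n ^ 2 + k ^ 2))

theorem lo_nat {k n : ℕ} (hk : 1 ≤ k) :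
    lo (⟨(k : ℤ), (n : ℤ)⟩ : ZI) = (-1 : ℝ) ^ (ArithmeticFunction.cardFactors (n ^ 2 + k ^ 2)) := by
  unfold lo
  rw [if_neg]
  · congr 2
    rw [Zsqrtd.norm_def]
    have : ((k : ℤ) * k - -1 * n * n : ℤ) = ((n ^ 2 + k ^ 2 : ℕ) : ℤ) := by
      push_cast
      ring
    rw [this, Int.natAbs_natCast]
  · intro h
    have h1 := congrArg Zsqrtd.re h
    simp only [Zsqrtd.re_zero] at h1
    omega

theorem sum_nat {k : ℕ} (hk : 1 ≤ k) {N : ℝ} (hN : 0 ≤ N) :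
    ∑ m ∈ Icc (1 : ℤ) ⌊N⌋, lo (⟨(k : ℤ), m⟩ : ZI) = SL k N := by
  unfold SL
  symm
  apply sum_nbij (fun n : ℕ => (n : ℤ))
  · intro n hn
    rw [mem_Icc] at hn ⊢
    refine ⟨by omega, ?_⟩
    rw [Int.le_floor]
    exact_mod_cast (Nat.le_floor_iff hN).1 hn.2
  · intro a _ b _ h
    simp only [Nat.cast_inj] at h
    exact h
  · intro m hm
    rw [mem_coe, mem_Icc] at hm
    obtain ⟨n, rfl⟩ := Int.eq_ofNat_of_zero_le (by omega : 0 ≤ m)
    refine ⟨n, ?_, rfl⟩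
    rw [mem_coe, mem_Icc]
    refine ⟨by omega, ?_⟩
    rw [Nat.le_floor_iff hN]
    exact_mod_cast Int.le_floor.1 hm.2
  · intro n _
    exact (lo_nat hk).symm

open Classical in
/-- **almost all `k`** -/
theorem fin_e4 (hTK : S_TKL) (ε η : ℝ) (A : ℕ) (hε : 0 < ε) (hη : 0 < η) : ∃ K₀ : ℝ, ∀ K : ℝ, K₀ ≤ K →
    (((Icc 1 ⌊K⌋₊).filter (fun k : ℕ => ¬ ∀ N : ℝ, K ^ (1 + ε) ≤ N → N ≤ K ^ (3 - ε) →
      |SL k N| ≤ η * N)).card : ℝ) ≤ K / (Real.log K) ^ A := by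
  classical
  have hδ : 0 < min ε 1 := lt_min hε one_pos
  obtain ⟨K₁, hK₁⟩ := eventually_atTop.1 (grid_e4 hTK (min ε 1) η A hδ (min_le_right _ _) hη)
  refine ⟨max K₁ 1, fun K hK => ?_⟩
  have hK1 : 1 ≤ K := (le_max_right _ _).trans hK
  have hK0 : 0 < K := by linarith
  refine le_trans ?_ (hK₁ K ((le_max_left _ _).trans hK))
  have hsub : ((Icc 1 ⌊K⌋₊).filter (fun k : ℕ => ¬ ∀ N : ℝ, K ^ (1 + ε) ≤ N → N ≤ K ^ (3 - ε) →
      |SL k N| ≤ η * N)).image (fun k : ℕ => (k : ℤ)) ⊆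
      (Icc 1 ⌊K⌋).filter (fun l : ℤ => ¬ ∀ N : ℝ, K ^ (1 + min ε 1) ≤ N → N ≤ K ^ (3 - min ε 1) →
      |∑ m ∈ Icc (1 : ℤ) ⌊N⌋, lo (⟨l, m⟩ : ZI)| ≤ η * N) := by
    intro l hl
    rw [mem_image] at hl
    obtain ⟨k, hk, rfl⟩ := hl
    rw [mem_filter, mem_Icc] at hk
    rw [mem_filter, mem_Icc]
    refine ⟨⟨by omega, ?_⟩, ?_⟩
    · rw [Int.le_floor]
      have := (Nat.le_floor_iff hK0.le).1 hk.1.2
      exact_mod_cast this
    · intro hcon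
      apply hk.2
      intro N hN1 hN2
      have hN0 : 0 ≤ N := le_trans (by positivity) hN1
      have h1 := hcon N ((Real.rpow_le_rpow_of_exponent_le hK1 (by linarith [min_le_left ε 1])).trans hN1)
        (hN2.trans (Real.rpow_le_rpow_of_exponent_le hK1 (by linarith [min_le_left ε 1])))
      rwa [sum_nat hk.1.1 hN0] at h1
  have h1 := card_le_card hsub
  rw [card_image_of_injective _ (fun a b h => by exact_mod_cast h)] at h1
  exact_mod_cast h1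

end Pool.Agent.J6H16.E4
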