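import Pool.Agent.J6H16.E4.TKA
import Pool.Agent.J6H16.E4.Fin0

/-!
# Project E4 (helper16): the Liouville function at `n² + k²`, for almost all `k`, in all intervals
-/

set_option autoImplicit false

namespace Pool.Agent.J6H16.E4

open Finset Filter Topology
open Pool.Agent.N782.GN hiding f1
open Pool.Agent.J6H16.PF Pool.Agent.J6H16.PR Pool.Agent.J6H16.E2

theorem int_nat {k : ℕ} (hk : 1 ≤ k) {a b : ℕ} (hab : a ≤ b) :
    ∑ m ∈ an (a : ℝ) (b : ℝ), lo (⟨(k : ℤ), m⟩ : ZI) =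
      2 * ∑ n ∈ Ioc a b, (-1 : ℝ) ^ (ArithmeticFunction.cardFactors (n ^ 2 + k ^ 2)) := by
  have ha0 : (0 : ℝ) ≤ a := Nat.cast_nonneg a
  have hb0 : (0 : ℝ) ≤ b := Nat.cast_nonneg b
  rw [an_split ha0 (by exact_mod_cast hab), sym_sum _ hb0, sym_sum _ ha0, sum_nat hk hb0, sum_nat hk ha0]
  unfold SL
  rw [Nat.floor_natCast, Nat.floor_natCast]
  have e1 : ∀ c : ℕ, Icc 1 c = Ioc 0 c := fun c => by
    ext n
    rw [mem_Icc, mem_Ioc]
    omega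
  rw [e1, e1, ← sum_Ioc_consecutive _ (Nat.zero_le a) hab]
  ring

open Classical in
/-- **almost all `k`, all intervals** -/
theorem fin_int (ε η : ℝ) (A B : ℕ) (hε : 0 < ε) (hη : 0 < η) : ∃ K₀ : ℝ, ∀ K : ℝ, K₀ ≤ K →
    (((Icc 1 ⌊K⌋₊).filter (fun k : ℕ => ¬ ∀ a b : ℕ, a ≤ b → K ^ (1 + ε) ≤ b → (b : ℝ) ≤ K ^ (3 - ε) →
      (b : ℝ) / (Real.log K) ^ B ≤ b - a →
      |∑ n ∈ Ioc a b, (-1 : ℝ) ^ (ArithmeticFunction.cardFactors (n ^ 2 + k ^ 2))| ≤ η * ((b : ℝ) - a))).card : ℝ) ≤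
      K / (Real.log K) ^ A := by
  classical
  have hδ : 0 < min ε 1 := lt_min hε one_pos
  obtain ⟨K₁, hK₁⟩ := eventually_atTop.1 (grid_int TKA.c_tka (min ε 1) η A B hδ (min_le_right _ _) hη)
  refine ⟨max K₁ 1, fun K hK => ?_⟩
  have hK1 : 1 ≤ K := (le_max_right _ _).trans hK
  have hK0 : 0 < K := by linarith
  refine le_trans ?_ (hK₁ K ((le_max_left _ _).trans hK))
  have hsub : ((Icc 1 ⌊K⌋₊).filter (fun k : ℕ => ¬ ∀ a b : ℕ, a ≤ b → K ^ (1 + ε) ≤ b → (b : ℝ) ≤ K ^ (3 - ε) →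
      (b : ℝ) / (Real.log K) ^ B ≤ b - a →
      |∑ n ∈ Ioc a b, (-1 : ℝ) ^ (ArithmeticFunction.cardFactors (n ^ 2 + k ^ 2))| ≤ η * ((b : ℝ) - a))).image
        (fun k : ℕ => (k : ℤ)) ⊆
      (Icc 1 ⌊K⌋).filter (fun l : ℤ => ¬ ∀ X Y : ℝ, 0 ≤ X → X ≤ Y → K ^ (1 + min ε 1) ≤ Y → Y ≤ K ^ (3 - min ε 1) →
      Y / (Real.log K) ^ B ≤ Y - X → |∑ m ∈ an X Y, lo (⟨l, m⟩ : ZI)| ≤ η * (Y - X)) := by
    intro l hl
    rw [mem_image] at hl
    obtain ⟨k, hk, rfl⟩ := hl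
    rw [mem_filter, mem_Icc] at hk
    rw [mem_filter, mem_Icc]
    refine ⟨⟨by omega, ?_⟩, ?_⟩
    · rw [Int.le_floor]
      have := (Nat.le_floor_iff hK0.le).1 hk.1.2
      exact_mod_cast this
    · intro hcon
      apply hk.2
      intro a b hab hb1 hb2 hB
      have hab' : (a : ℝ) ≤ b := by exact_mod_cast hab
      have h1 := hcon a b (Nat.cast_nonneg a) hab'
        ((Real.rpow_le_rpow_of_exponent_le hK1 (by linarith [min_le_left ε 1])).trans hb1)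
        (hb2.trans (Real.rpow_le_rpow_of_exponent_le hK1 (by linarith [min_le_left ε 1]))) hB
      rw [int_nat hk.1.1 hab, abs_mul, abs_two] at h1
      have h2 := abs_nonneg (∑ n ∈ Ioc a b, (-1 : ℝ) ^ (ArithmeticFunction.cardFactors (n ^ 2 + k ^ 2)))
      linarith
  have h1 := card_le_card hsub
  rw [card_image_of_injective _ (fun a b h => by exact_mod_cast h)] at h1
  exact_mod_cast h1

end Pool.Agent.J6H16.E4
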