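import Pool.Agent.J6H16.E4.TKL
import Pool.Agent.J6H16.E4.Fin0
import Pool.Agent.J6H16.PF.Fi

/-!
# Project E4 (helper16): the sums of the Liouville function at `n² + k²`, for almost all `k`, for all lengths up to `K ^ E`
-/

set_option autoImplicit false

namespace Pool.Agent.J6H16.E4

open Finset Filter Topology
open Pool.Agent.N782.GN hiding f1
open Pool.Agent.J6H16.PF Pool.Agent.J6H16.PR Pool.Agent.J6H16.E2

open Classical in
/-- both parities occur, hence the sum is smaller than trivial -/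
theorem sl_par {k : ℕ} (hk : 1 ≤ k) {N c : ℝ} (hN : 0 ≤ N)
    (h : ∀ b : ZMod 2, c / 2 * N ≤
      (((Icc (1 : ℤ) ⌊N⌋).filter (fun m : ℤ => ((om (⟨(k : ℤ), m⟩ : ZI) : ℕ) : ZMod 2) = b)).card : ℝ)) :
    |SL k N| ≤ (1 - c) * N := by
  rw [← sum_nat hk hN]
  set S := Icc (1 : ℤ) ⌊N⌋ with hS
  set c0 := ((S.filter (fun m : ℤ => ((om (⟨(k : ℤ), m⟩ : ZI) : ℕ) : ZMod 2) = 0)).card : ℝ) with hc0
  set c1 := ((S.filter (fun m : ℤ => ((om (⟨(k : ℤ), m⟩ : ZI) : ℕ) : ZMod 2) = 1)).card : ℝ) with hc1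
  have hz : ∀ m : ℤ, (⟨(k : ℤ), m⟩ : ZI) ≠ 0 := fun m hm => by
    have h1 := congrArg Zsqrtd.re hm
    simp only [Zsqrtd.re_zero] at h1
    omega
  have hlo : ∀ m : ℤ, lo (⟨(k : ℤ), m⟩ : ZI) =
      (if ((om (⟨(k : ℤ), m⟩ : ZI) : ℕ) : ZMod 2) = 0 then (1 : ℝ) else 0) -
      (if ((om (⟨(k : ℤ), m⟩ : ZI) : ℕ) : ZMod 2) = 1 then (1 : ℝ) else 0) := by
    intro m
    rw [TKL.lo_om (hz m)]
    rcases Nat.even_or_odd (om (⟨(k : ℤ), m⟩ : ZI)) with he | ho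
    · have h0 : ((om (⟨(k : ℤ), m⟩ : ZI) : ℕ) : ZMod 2) = 0 := (ZMod.natCast_eq_zero_iff_even).2 he
      rw [h0, he.neg_one_pow, if_pos rfl, if_neg (by decide), sub_zero]
    · have h0 : ((om (⟨(k : ℤ), m⟩ : ZI) : ℕ) : ZMod 2) = 1 := (ZMod.natCast_eq_one_iff_odd).2 ho
      rw [h0, ho.neg_one_pow, if_neg (by decide), if_pos rfl, zero_sub]
  have e1 : ∑ m ∈ S, lo (⟨(k : ℤ), m⟩ : ZI) = c0 - c1 := by
    rw [sum_congr rfl fun m _ => hlo m, sum_sub_distrib, ← sum_filter, ← sum_filter, sum_const, sum_const, nsmul_eq_mul,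
      nsmul_eq_mul, mul_one, mul_one]
  have e2 : c0 + c1 = (S.card : ℝ) := by
    have h1 : ∀ m : ℤ, (1 : ℝ) = (if ((om (⟨(k : ℤ), m⟩ : ZI) : ℕ) : ZMod 2) = 0 then (1 : ℝ) else 0) +
      (if ((om (⟨(k : ℤ), m⟩ : ZI) : ℕ) : ZMod 2) = 1 then (1 : ℝ) else 0) := by
      intro m
      rcases Nat.even_or_odd (om (⟨(k : ℤ), m⟩ : ZI)) with he | ho
      · have h0 : ((om (⟨(k : ℤ), m⟩ : ZI) : ℕ) : ZMod 2) = 0 := (ZMod.natCast_eq_zero_iff_even).2 he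
        rw [h0, if_pos rfl, if_neg (by decide), add_zero]
      · have h0 : ((om (⟨(k : ℤ), m⟩ : ZI) : ℕ) : ZMod 2) = 1 := (ZMod.natCast_eq_one_iff_odd).2 ho
        rw [h0, if_neg (by decide), if_pos rfl, zero_add]
    have h2 : ∑ m ∈ S, (1 : ℝ) = c0 + c1 := by
      rw [sum_congr rfl fun m _ => h1 m, sum_add_distrib, ← sum_filter, ← sum_filter, sum_const, sum_const, nsmul_eq_mul,
        nsmul_eq_mul, mul_one, mul_one]
    rw [← h2, sum_const, nsmul_eq_mul, mul_one]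
  have e3 : (S.card : ℝ) ≤ N := by
    rw [hS, Int.card_Icc]
    have h0 : 0 ≤ ⌊N⌋ := Int.floor_nonneg.2 hN
    have h1 : (((⌊N⌋ + 1 - 1).toNat : ℕ) : ℤ) = ⌊N⌋ := by
      rw [Int.toNat_of_nonneg (by omega)]
      ring
    have h2 : (((⌊N⌋ + 1 - 1).toNat : ℕ) : ℝ) = (⌊N⌋ : ℝ) := by exact_mod_cast h1
    rw [h2]
    exact Int.floor_le N
  have h0 := h 0
  have h1 := h 1
  rw [e1, abs_le]
  constructor <;> linarith

open Classical in
/-- **almost all `k`, all lengths up to `K ^ E`** -/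
theorem fin_u (ε E : ℝ) (hε : 0 < ε) : ∃ ρ : ℝ, 0 ≤ ρ ∧ ρ < 1 ∧ (E < 3 → ρ = 0) ∧ ∀ (η : ℝ) (A : ℕ), 0 < η →
    ∃ K₀ : ℝ, ∀ K : ℝ, K₀ ≤ K →
    (((Icc 1 ⌊K⌋₊).filter (fun k : ℕ => ¬ ∀ N : ℝ, K ^ (1 + ε) ≤ N → N ≤ K ^ E →
      |SL k N| ≤ (ρ + η) * N)).card : ℝ) ≤ K / (Real.log K) ^ A := by
  classical
  by_cases hE : E < 3
  · refine ⟨0, le_rfl, zero_lt_one, fun _ => rfl, fun η A hη => ?_⟩
    have hδ : 0 < min ε (3 - E) := lt_min hε (by linarith)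
    obtain ⟨K₁, hK₁⟩ := fin_e4 TKL.c_tkl (min ε (3 - E)) η A hδ hη
    refine ⟨max K₁ 1, fun K hK => ?_⟩
    have hK1 : 1 ≤ K := (le_max_right _ _).trans hK
    refine le_trans ?_ (hK₁ K ((le_max_left _ _).trans hK))
    have hsub : ((Icc 1 ⌊K⌋₊).filter (fun k : ℕ => ¬ ∀ N : ℝ, K ^ (1 + ε) ≤ N → N ≤ K ^ E →
        |SL k N| ≤ (0 + η) * N)) ⊆ ((Icc 1 ⌊K⌋₊).filter (fun k : ℕ => ¬ ∀ N : ℝ, K ^ (1 + min ε (3 - E)) ≤ N →
        N ≤ K ^ (3 - min ε (3 - E)) → |SL k N| ≤ η * N)) := by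
      intro k hk
      rw [mem_filter] at hk ⊢
      refine ⟨hk.1, fun hcon => hk.2 fun N hN1 hN2 => ?_⟩
      rw [zero_add]
      exact hcon N ((Real.rpow_le_rpow_of_exponent_le hK1 (by linarith [min_le_left ε (3 - E)])).trans hN1)
        (hN2.trans (Real.rpow_le_rpow_of_exponent_le hK1 (by linarith [min_le_right ε (3 - E)])))
    exact_mod_cast card_le_card hsub
  · obtain ⟨c, hc, h⟩ := fin_main ε E hε
    refine ⟨max 0 (1 - c), le_max_left _ _, max_lt zero_lt_one (by linarith), fun h' => absurd h' hE,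
      fun η A hη => ?_⟩
    obtain ⟨K₁, hK₁⟩ := eventually_atTop.1 (h 2 A (by norm_num))
    refine ⟨max K₁ 1, fun K hK => ?_⟩
    have hK1 : 1 ≤ K := (le_max_right _ _).trans hK
    have hK0 : 0 < K := by linarith
    refine le_trans ?_ (hK₁ K ((le_max_left _ _).trans hK))
    have hsub : ((Icc 1 ⌊K⌋₊).filter (fun k : ℕ => ¬ ∀ N : ℝ, K ^ (1 + ε) ≤ N → N ≤ K ^ E →
        |SL k N| ≤ (max 0 (1 - c) + η) * N)).image (fun k : ℕ => (k : ℤ)) ⊆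
        (Icc (1 : ℤ) ⌊K⌋).filter (fun l => ¬ ∀ N : ℝ, K ^ (1 + ε) ≤ N → N ≤ K ^ E → ∀ b : ZMod 2, c / (2 : ℕ) * N ≤
        (((Icc (1 : ℤ) ⌊N⌋).filter (fun m : ℤ => ((om (⟨l, m⟩ : ZI) : ℕ) : ZMod 2) = b)).card : ℝ)) := by
      intro l hl
      rw [mem_image] at hl
      obtain ⟨k, hk, rfl⟩ := hl
      rw [mem_filter, mem_Icc] at hk
      rw [mem_filter, mem_Icc]
      refine ⟨⟨by omega, ?_⟩, ?_⟩
      · rw [Int.le_floor]
        have := (Nat.le_floor_iff hK0.le).1 hk.1.2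
        exact_mod_cast this
      · intro hcon
        apply hk.2
        intro N hN1 hN2
        have hN0 : 0 ≤ N := le_trans (by positivity) hN1
        have h2 := hcon N hN1 hN2
        push_cast at h2
        refine (sl_par hk.1.1 hN0 h2).trans ?_
        apply mul_le_mul_of_nonneg_right _ hN0
        linarith [le_max_right 0 (1 - c)]
    have h1 := card_le_card hsub
    rw [card_image_of_injective _ (fun a b h => by exact_mod_cast h)] at h1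
    exact_mod_cast h1

end Pool.Agent.J6H16.E4
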