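import Pool.Agent.J6H16.E4.Lt
import Pool.Agent.N407.GN.Vau
import Pool.Agent.N157.GN.Mub
import Pool.Agent.N521.GN.Mt2a

/-!
# Project E4 (helper16), item LO (helper95): the Liouville function of the norm
-/

set_option autoImplicit false

namespace Pool.Agent.J6H16.E4.LO

open Finset
open Pool.Agent.N782.GN
open Pool.Agent.N521.GN (nn nn_real nn_mul nn_P nn_pos mul_star_self isUnit_iff dvd_ct ct_dvd ct_pos ct_le)
open Pool.Agent.N407.GN (dd mem_dd mul_quo quo_eq quo_ne sum_assoc sum_bl_dvd)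
open Pool.Agent.N157.GN (mu_unit_mul mu_unit mu_prime)
open UniqueFactorizationMonoid (factors)

/-! ### the Liouville function of `ℤ[i]` -/

/-- the Liouville function of `ℤ[i]` -/
noncomputable def lK (z : ZI) : ℝ := (-1) ^ (factors z).card

theorem lK_sq (z : ZI) : lK z * lK z = 1 := by
  unfold lK
  rw [← pow_add, ← two_mul, pow_mul]
  norm_num

theorem abs_lK (z : ZI) : |lK z| = 1 := by
  unfold lK
  rw [abs_pow, abs_neg, abs_one, one_pow]

theorem lK_mul {a b : ZI} (ha : a ≠ 0) (hb : b ≠ 0) : lK (a * b) = lK a * lK b := by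
  unfold lK
  rw [← pow_add, ← Multiset.card_add]
  rw [Multiset.card_eq_card_of_rel (UniqueFactorizationMonoid.factors_mul ha hb)]

theorem mu_sqf {s : ZI} (h : Squarefree s) : mu s = lK s := by
  unfold mu lK
  rw [if_pos h]

theorem lK_unit {u : ZI} (hu : IsUnit u) : lK u = 1 := by
  rw [← mu_sqf hu.squarefree, mu_unit hu]

theorem lK_prime {p : ZI} (hp : Prime p) : lK p = -1 := by
  rw [← mu_sqf hp.irreducible.squarefree, mu_prime hp]

/-! ### square divisors -/

theorem exists_sq : ∀ (n : ℕ) (w : ZI), nn w = n → w ≠ 0 → ∃ δ s : ZI, w = δ ^ 2 * s ∧ Squarefree s := by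
  intro n
  induction n using Nat.strong_induction_on with
  | _ n ih =>
    intro w hn hw
    by_cases hs : Squarefree w
    · exact ⟨1, w, by ring, hs⟩
    · unfold Squarefree at hs
      push Not at hs
      obtain ⟨x, ⟨w', rfl⟩, hx⟩ := hs
      have hw' : w' ≠ 0 := right_ne_zero_of_mul hw
      have hx0 : x ≠ 0 := left_ne_zero_of_mul (left_ne_zero_of_mul hw)
      have h1 := nn_pos hx0
      have h2 := nn_pos hw'
      have h3 : nn x ≠ 1 := fun h => hx ((isUnit_iff x).2 h)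
      rw [nn_mul, nn_mul] at hn
      have h4 : nn w' < n := by
        have : 2 ≤ nn x := by omega
        have h5 : 2 * 2 ≤ nn x * nn x := Nat.mul_le_mul this this
        nlinarith
      obtain ⟨δ, s, h5, h6⟩ := ih _ h4 w' rfl hw'
      exact ⟨x * δ, s, by rw [h5]; ring, h6⟩

theorem sq_unique {δ δ0 s t : ZI} (hδ : δ ≠ 0) (hs : Squarefree s) (ht : Squarefree t)
    (h : δ ^ 2 * t = δ0 ^ 2 * s) : Associated δ δ0 := by
  obtain ⟨a, b, c, hab, h1, h2⟩ := UniqueFactorizationMonoid.exists_reduced_factors δ hδ δ0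
  have hc : c ≠ 0 := by
    rintro rfl
    rw [zero_mul] at h1
    exact hδ h1.symm
  have hcop : IsCoprime (a ^ 2) (b ^ 2) := (hab.isCoprime).pow
  have h3 : a ^ 2 * t = b ^ 2 * s := by
    have h4 : c ^ 2 * (a ^ 2 * t) = c ^ 2 * (b ^ 2 * s) := by
      rw [← h1, ← h2] at h
      linear_combination h
    exact mul_left_cancel₀ (pow_ne_zero 2 hc) h4
  have ha : IsUnit a := by
    apply hs
    rw [← sq]
    exact hcop.dvd_of_dvd_mul_left ⟨t, h3.symm⟩
  have hb : IsUnit b := by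
    apply ht
    rw [← sq]
    exact hcop.symm.dvd_of_dvd_mul_left ⟨s, h3⟩
  rw [← h1, ← h2]
  exact (associated_mul_unit_left c a ha).trans (associated_mul_unit_left c b hb).symm

open Classical in
theorem mue_sq {w δ0 s : ZI} (hw : w ≠ 0) (h0 : w = δ0 ^ 2 * s) (hs : Squarefree s) (δ : ZI) (hδ : δ ≠ 0) :
    (if δ ^ 2 ∣ w then mu (w / δ ^ 2) else 0) = if δ ∣ δ0 ∧ IsUnit (δ0 / δ) then lK w else 0 := by
  have hδ0 : δ0 ≠ 0 := by
    rintro rfl
    rw [h0] at hw
    simp at hw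
  have hs0 : s ≠ 0 := hs.ne_zero
  by_cases h : δ ∣ δ0 ∧ IsUnit (δ0 / δ)
  · rw [if_pos h]
    obtain ⟨h1, h2⟩ := h
    have h3 := mul_quo h1
    generalize δ0 / δ = u at h2 h3
    have hu2 : IsUnit (u ^ 2) := h2.pow 2
    have h4 : δ ^ 2 * (u ^ 2 * s) = w := by
      rw [h0, ← h3]; ring
    rw [if_pos ⟨_, h4.symm⟩, quo_eq (pow_ne_zero 2 hδ) h4, mu_unit_mul hu2, mu_sqf hs, h0,
      lK_mul (pow_ne_zero 2 hδ0) hs0, sq, lK_mul hδ0 hδ0, lK_sq, one_mul]
  · rw [if_neg h]
    split_ifs with h1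
    · have h2 := mul_quo h1
      generalize hk : w / δ ^ 2 = t at h2
      by_cases ht : Squarefree t
      · exfalso
        apply h
        rw [h0] at h2
        have h3 := sq_unique hδ hs ht h2
        obtain ⟨u, hu⟩ := h3
        refine ⟨⟨_, hu.symm⟩, ?_⟩
        rw [quo_eq hδ hu]
        exact u.isUnit
      · unfold mu
        rw [if_neg ht]
    · rfl

open Classical in
/-- the Liouville function as a sum over the square divisors -/
theorem sum_sq {w : ZI} (hw : w ≠ 0) {X : ℝ} (hX : nz w ≤ X) :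
    ∑ δ ∈ bl X, (if δ ^ 2 ∣ w then mu (w / δ ^ 2) else 0) = 4 * lK w := by
  obtain ⟨δ0, s, h0, hs⟩ := exists_sq _ w rfl hw
  have hδ0 : δ0 ≠ 0 := by
    rintro rfl
    rw [h0] at hw
    simp at hw
  have hs0 : s ≠ 0 := hs.ne_zero
  have hδX : nz δ0 ≤ X := by
    refine le_trans ?_ hX
    rw [h0, sq, N521.GN.nz_mul, N521.GN.nz_mul]
    have h1 := N521.GN.nz_pos hδ0
    have h2 := N521.GN.nz_pos hs0
    nlinarith [mul_le_mul h1 h2 zero_le_one (by linarith : (0:ℝ) ≤ nz δ0)]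
  have e1 : ∑ δ ∈ bl X, (if δ ^ 2 ∣ w then mu (w / δ ^ 2) else 0) =
      ∑ δ ∈ bl X, (if δ ∣ δ0 then (if IsUnit (δ0 / δ) then lK w else 0) else 0) := by
    refine Finset.sum_congr rfl fun δ hδ => ?_
    rw [mue_sq hw h0 hs δ ((mem_bl _ _).1 hδ).1, ite_and]
  rw [e1, sum_bl_dvd hδ0]
  have e2 : ∑ b ∈ dd δ0, (if nz b ≤ X then (if IsUnit (δ0 / b) then lK w else 0) else 0) =
      ∑ b ∈ dd δ0, (if IsUnit (δ0 / b) then (fun _ => lK w) b else 0) := by
    refine Finset.sum_congr rfl fun b hb => ?_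
    rw [if_pos]
    unfold dd at hb
    rw [mem_filter, mem_bl] at hb
    exact hb.1.2.trans hδX
  rw [e2]
  exact sum_assoc hδ0 (fun _ => lK w) (fun _ => rfl)

/-! ### the norm of a primitive element -/

theorem exists_prime_dvd {π : ZI} (hπ : Prime π) : ∀ n : ℕ, 1 ≤ n → π ∣ ((n : ℕ) : ZI) →
    ∃ p : ℕ, p.Prime ∧ π ∣ ((p : ℕ) : ZI) := by
  intro n
  induction n using Nat.strong_induction_on with
  | _ n ih =>
    intro hn h
    rcases Nat.eq_or_lt_of_le hn with h1 | h1
    · exfalso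
      rw [← h1, Nat.cast_one] at h
      exact hπ.not_isUnit (isUnit_of_dvd_one h)
    · have hp := Nat.minFac_prime (show n ≠ 1 by omega)
      obtain ⟨m, hm⟩ := Nat.minFac_dvd n
      have hm0 : 1 ≤ m := by
        rcases Nat.eq_zero_or_pos m with h2 | h2
        · rw [h2, mul_zero] at hm; omega
        · exact h2
      have hmn : m < n := by
        have := hp.two_le
        nlinarith
      have h2 : ((n : ℕ) : ZI) = ((n.minFac : ℕ) : ZI) * ((m : ℕ) : ZI) := by
        rw [← Nat.cast_mul, ← hm]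
      rw [h2] at h
      rcases hπ.dvd_or_dvd h with h3 | h3
      · exact ⟨_, hp, h3⟩
      · exact ih m hmn hm0 h3

theorem norm_prime {π : ZI} (hπ : Prime π) (h : ∀ p : ℕ, p.Prime → ¬ ((p : ℕ) : ZI) ∣ π) :
    (nn π).Prime := by
  have h1 : π ∣ ((nn π : ℕ) : ZI) := by
    refine ⟨star π, ?_⟩
    rw [mul_star_self, ← N521.GN.nn_cast]
    push_cast
    rfl
  obtain ⟨p, hp, x, hx⟩ := exists_prime_dvd hπ _ (nn_pos hπ.ne_zero) h1
  have h2 : nn π * nn x = p ^ 2 := by
    rw [← nn_mul, ← hx, nn_P, sq]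
  have h3 : nn π ∣ p ^ 2 := ⟨_, h2.symm⟩
  obtain ⟨k, hk, hk2⟩ := (Nat.dvd_prime_pow hp).1 h3
  have hk3 : k = 0 ∨ k = 1 ∨ k = 2 := by omega
  rcases hk3 with rfl | rfl | rfl
  · exfalso
    rw [pow_zero] at hk2
    exact hπ.not_isUnit ((isUnit_iff π).2 hk2)
  · rw [hk2, pow_one]
    exact hp
  · exfalso
    apply h p hp
    rw [hk2] at h2
    have hpp : 0 < p ^ 2 := pow_pos hp.pos 2
    have h4 : nn x = 1 := Nat.eq_of_mul_eq_mul_left hpp (by rw [h2, mul_one])
    have h5 := (isUnit_iff x).2 h4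
    obtain ⟨v, hv⟩ := h5
    refine ⟨((v⁻¹ : ZIˣ) : ZI), ?_⟩
    rw [hx, ← hv, mul_assoc, Units.mul_inv, mul_one]

theorem prim : ∀ (n : ℕ) (w : ZI), nn w = n → w ≠ 0 → (∀ p : ℕ, p.Prime → ¬ ((p : ℕ) : ZI) ∣ w) →
    (-1 : ℝ) ^ (ArithmeticFunction.cardFactors (nn w)) = lK w := by
  intro n
  induction n using Nat.strong_induction_on with
  | _ n ih =>
    intro w hn hw hp
    by_cases hu : IsUnit w
    · rw [lK_unit hu, (isUnit_iff w).1 hu]
      simp
    · obtain ⟨π, hπ, w', rfl⟩ := WfDvdMonoid.exists_irreducible_factor hu hw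
      have hπ' : Prime π := hπ.prime
      have hw' : w' ≠ 0 := right_ne_zero_of_mul hw
      have h1 := norm_prime hπ' (fun p hp1 hp2 => hp p hp1 (hp2.trans (dvd_mul_right _ _)))
      have h2 := h1.two_le
      have h3 := nn_pos hw'
      rw [nn_mul] at hn
      have h4 := ih (nn w') (by nlinarith) w' rfl hw' (fun p hp1 hp2 => hp p hp1
        (hp2.trans (dvd_mul_left _ _)))
      rw [nn_mul, ArithmeticFunction.cardFactors_mul (by omega) (by omega),
        ArithmeticFunction.cardFactors_apply_prime h1, pow_add, h4, lK_mul hπ'.ne_zero hw',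
        lK_prime hπ', pow_one]

/-- the Liouville function of the norm -/
theorem lo_eq {z : ZI} (hz : z ≠ 0) : lo z = lK z * lK ((ct z : ℕ) : ZI) := by
  unfold lo
  rw [if_neg hz]
  obtain ⟨w, hw⟩ := ct_dvd z
  have hw0 : w ≠ 0 := by
    rintro rfl
    rw [mul_zero] at hw
    exact hz hw
  have hg := ct_pos hz
  have hg0 : ((ct z : ℕ) : ZI) ≠ 0 := by
    intro h
    rw [h, zero_mul] at hw
    exact hz hw
  have hprim : ∀ p : ℕ, p.Prime → ¬ ((p : ℕ) : ZI) ∣ w := by
    rintro p hp ⟨v, hv⟩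
    have h1 : ct z * p ∣ ct z := by
      rw [dvd_ct]
      refine ⟨v, ?_⟩
      conv_lhs => rw [hw]
      rw [hv]
      push_cast
      ring
    have h2 := Nat.le_of_dvd hg h1
    have h3 := hp.two_le
    nlinarith
  have h1 := prim _ w rfl hw0 hprim
  have h2 : (Zsqrtd.norm z).natAbs = ct z * ct z * nn w := by
    have h3 : (Zsqrtd.norm z).natAbs = nn z := rfl
    rw [h3]
    conv_lhs => rw [hw]
    rw [nn_mul, nn_P]
  have h3 := nn_pos hw0
  rw [h2, ArithmeticFunction.cardFactors_mul (by positivity) (by omega),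
    ArithmeticFunction.cardFactors_mul (by omega) (by omega), pow_add, ← two_mul, pow_mul, h1]
  have h4 : lK z = lK ((ct z : ℕ) : ZI) * lK w := by
    conv_lhs => rw [hw]
    exact lK_mul hg0 hw0
  rw [h4]
  have h5 := lK_sq ((ct z : ℕ) : ZI)
  rw [neg_one_sq, one_pow]
  linear_combination (- lK w) * h5

/-! ### the coefficients -/

/-- the inverse of the Liouville function of `ℤ[i]` on the rational integers -/
noncomputable def ka (h : ℕ) : ℝ :=
  ∑ x ∈ h.divisorsAntidiagonal, ((ArithmeticFunction.moebius x.1 : ℤ) : ℝ) * lK ((x.2 : ℕ) : ZI)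

theorem ka_sum {n : ℕ} (hn : 0 < n) : ∑ d ∈ n.divisors, ka d = lK ((n : ℕ) : ZI) :=
  (ArithmeticFunction.sum_eq_iff_sum_mul_moebius_eq (f := ka) (g := fun n => lK ((n : ℕ) : ZI))).2
    (fun _ _ => rfl) n hn

theorem ka_abs (h : ℕ) : |ka h| ≤ (h.divisors.card : ℝ) := by
  unfold ka
  refine (abs_sum_le_sum_abs _ _).trans ?_
  have h1 : ∀ x ∈ h.divisorsAntidiagonal,
      |((ArithmeticFunction.moebius x.1 : ℤ) : ℝ) * lK ((x.2 : ℕ) : ZI)| ≤ 1 := by
    intro x _
    rw [abs_mul, abs_lK, mul_one]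
    have := ArithmeticFunction.abs_moebius_le_one (n := x.1)
    rw [← Int.cast_abs]
    exact_mod_cast this
  refine (Finset.sum_le_sum h1).trans ?_
  rw [sum_const, nsmul_eq_mul, mul_one, ← Nat.map_div_right_divisors, card_map]

theorem cast_ne {h : ℕ} (hh : 1 ≤ h) : ((h : ℕ) : ZI) ≠ 0 := by
  intro h1
  have h2 := nn_P h
  rw [h1] at h2
  have h3 : nn (0 : ZI) = 0 := by decide
  rw [h3] at h2
  nlinarith

/-- Item LO. -/
theorem c_lo (_h : S_MUB) : S_LO := by
  classical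
  refine ⟨fun h => ka h * lK ((h : ℕ) : ZI), fun h => ?_, ?_⟩
  · rw [abs_mul, abs_lK, mul_one]
    exact ka_abs h
  intro X z hz hX
  have hg := ct_pos hz
  -- the inner sums
  have key : ∀ h ∈ Icc 1 ⌊X⌋₊, ∑ δ ∈ bl X, ka h * lK ((h : ℕ) : ZI) * mue (((h : ℕ) : ZI) * δ ^ 2) z =
      if h ∣ ct z then 4 * lK z * ka h else 0 := by
    intro h hh
    rw [mem_Icc] at hh
    have hh0 := cast_ne hh.1
    rw [← Finset.mul_sum]
    by_cases hd : h ∣ ct z
    · rw [if_pos hd]
      obtain ⟨w, hw⟩ := (dvd_ct h z).1 hd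
      have hw0 : w ≠ 0 := by
        rintro rfl
        rw [mul_zero] at hw
        exact hz hw
      have e1 : ∑ δ ∈ bl X, mue (((h : ℕ) : ZI) * δ ^ 2) z =
          ∑ δ ∈ bl X, (if δ ^ 2 ∣ w then mu (w / δ ^ 2) else 0) := by
        refine Finset.sum_congr rfl fun δ hδ => ?_
        have hδ0 := ((mem_bl _ _).1 hδ).1
        unfold mue
        by_cases h1 : δ ^ 2 ∣ w
        · have h2 : ((h : ℕ) : ZI) * δ ^ 2 ∣ z := by
            rw [hw]
            exact mul_dvd_mul_left _ h1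
          rw [if_pos h1, if_pos h2]
          congr 1
          apply quo_eq (mul_ne_zero hh0 (pow_ne_zero 2 hδ0))
          rw [mul_assoc, mul_quo h1, ← hw]
        · rw [if_neg h1, if_neg]
          intro h2
          apply h1
          rw [hw] at h2
          exact (mul_dvd_mul_iff_left hh0).1 h2
      have hwX : nz w ≤ X := by
        refine le_trans ?_ hX
        rw [hw, N521.GN.nz_mul]
        have h1 := N521.GN.nz_pos hh0
        nlinarith [nz_nonneg w]
      rw [e1, sum_sq hw0 hwX]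
      have h1 : lK z = lK ((h : ℕ) : ZI) * lK w := by
        rw [hw]; exact lK_mul hh0 hw0
      rw [h1]
      ring
    · rw [if_neg hd, Finset.sum_eq_zero, mul_zero]
      intro δ _
      unfold mue
      rw [if_neg]
      intro h1
      exact hd ((dvd_ct h z).2 ((dvd_mul_right _ _).trans h1))
  rw [Finset.sum_congr rfl key, ← Finset.sum_filter, ← Finset.mul_sum]
  have e2 : (Icc 1 ⌊X⌋₊).filter (fun h => h ∣ ct z) = (ct z).divisors := by
    ext h
    rw [mem_filter, mem_Icc, Nat.mem_divisors]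
    constructor
    · rintro ⟨_, h1⟩
      exact ⟨h1, by omega⟩
    · rintro ⟨h1, _⟩
      have h2 := Nat.le_of_dvd hg h1
      have h3 : 1 ≤ h := Nat.pos_of_dvd_of_pos h1 hg
      refine ⟨⟨h3, Nat.le_floor ?_⟩, h1⟩
      have h4 : (h : ℝ) ≤ (ct z : ℝ) := by exact_mod_cast h2
      exact h4.trans ((ct_le z hz).trans hX)
  rw [e2, ka_sum hg, lo_eq hz]
  ring

end Pool.Agent.J6H16.E4.LO
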