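import Pool.Agent.N782.GN.StmT
import Pool.Agent.N782.GN.StmV

/-!
# Project E4 (helper16): the Liouville function at `l² + m²` for almost all `l`.  Light statements, for the partners.

`ZI` = Gaussian integers, `nz` = norm (real), `bl X` = nonzero elements of norm `≤ X`, `mu` = Moebius function of `ZI`, `ct` = content,
`dv` = number of divisors (associates counted separately), `nm M a l` = number of the `|m| ≤ M` with `a ∣ l + i m`,
`kap l a / nz a` = density of the `m` with `a ∣ l + i m` (all in `N782/GN/Defs`, `StmT`).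
-/

set_option autoImplicit false

namespace Pool.Agent.J6H16.E4

open Finset Filter Topology
open Pool.Agent.N782.GN

open Classical in
/-- `mu (z / e)` if `e ∣ z`, else `0` -/
noncomputable def mue (e z : ZI) : ℝ := if e ∣ z then mu (z / e) else 0

open Classical in
/-- the Liouville function of the norm: `(-1) ^ Ω (norm z)`, `0` at `z = 0` -/
noncomputable def lo (z : ZI) : ℝ := if z = 0 then 0 else (-1) ^ (ArithmeticFunction.cardFactors (Zsqrtd.norm z).natAbs)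

open Classical in
/-- the truncated divisor sum of the Moebius function -/
noncomputable def aM (W : ℝ) (v : ZI) : ℝ := ∑ c ∈ (bl (nz v)).filter (fun c => c ∣ v ∧ W < nz c), mu c

/-- (VM) Vaughan's identity for the Moebius function (sums over elements, not over ideals) -/
def S_VM : Prop := ∀ (F : ZI → ℝ) (X Y W : ℝ), 1 ≤ Y → 1 ≤ W → 1 ≤ X → F 0 = 0 → (∀ z, X < nz z → F z = 0) →
  ∑ z ∈ bl X, mu z * F z = ∑ z ∈ bl Y, mu z * F z + ∑ z ∈ bl W, mu z * F z -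
    1 / 16 * ∑ b ∈ bl Y, ∑ c ∈ bl W, ∑ u ∈ bl X, mu b * mu c * F (b * c * u) +
    1 / 16 * ∑ b ∈ (bl X).filter (fun b => Y < nz b), ∑ v ∈ bl X, mu b * aM W v * F (b * v)

/-- (NML) multiples in the box: proved (`E2/Dv.lean`, `nm_lines`), to be used as a hypothesis -/
def S_NML : Prop := ∀ (L M : ℝ) (a : ZI), 0 ≤ L → 0 ≤ M → a ≠ 0 → nz a ≤ 2 * M →
  ∑ l ∈ Icc 1 ⌊L⌋, nm M a l ≤ 4 * (L * M) * (1 / nz a)

/-- (MOM) moments of the divisor function over the box -/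
def S_MOM : Prop := ∀ j : ℕ, ∃ (C : ℝ) (E : ℕ), 0 < C ∧ ∀ (L M : ℝ), 3 ≤ M → 1 ≤ L → L ≤ M →
  ∑ l ∈ Icc 1 ⌊L⌋, ∑ m ∈ Icc ⌈-M⌉ ⌊M⌋, (dv (⟨l, m⟩ : ZI) : ℝ) ^ j ≤ C * (L * M) * (Real.log M) ^ E

open Classical in
/-- (SQT) multiples of squares of elements of large norm in the box -/
def S_SQT : Prop := ∃ C : ℝ, 0 < C ∧ ∀ (L M D : ℝ), 3 ≤ M → 1 ≤ L → L ≤ M → 1 ≤ D →
  ∑ δ ∈ (bl (2 * M)).filter (fun δ => D < nz δ), ∑ l ∈ Icc 1 ⌊L⌋, nm M (δ ^ 2) l ≤ C * (L * M / D + M * Real.log M)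

/-- (LO) the Liouville function of the norm in terms of `mue`: the cofactors are `h δ²` with a rational integer `h` -/
def S_LO : Prop := ∃ c : ℕ → ℝ, (∀ h, |c h| ≤ (h.divisors.card : ℝ)) ∧ ∀ (X : ℝ) (z : ZI), z ≠ 0 → nz z ≤ X →
  lo z = 1 / 4 * ∑ h ∈ Icc 1 ⌊X⌋₊, ∑ δ ∈ bl X, c h * mue (((h : ℕ) : ZI) * δ ^ 2) z

/-- (EM) the main term of the linear sums, on average over `l ≤ L`; `f` are weights of primes `a` of prime norm in `(x, y]` -/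
def S_EM : Prop := ∀ (A B : ℕ) (c3 ε : ℝ), 0 < c3 → 0 < ε → ∃ C : ℝ, 0 < C ∧ ∀ᶠ M : ℝ in atTop,
  ∀ (L y Y W : ℝ) (e : ZI) (f : ZI → ℝ), 1 ≤ L → L ≤ M → y ≤ M → M ^ ε ≤ Y → Y ≤ M ^ 2 → M ^ ε ≤ W → W ≤ M ^ 2 →
    e ≠ 0 → nz e ≤ (Real.log M) ^ B → (∀ a, |f a| ≤ 1) → (∀ a, f a ≠ 0 → (Zsqrtd.norm a).natAbs.Prime ∧ M ^ c3 < nz a) →
  ∑ l ∈ Icc 1 ⌊L⌋, |∑ a ∈ bl y, f a * ∑ b ∈ bl Y, ∑ c ∈ bl W,
    mu b * mu c * (kap l (a * e * (b * c)) / nz (a * e * (b * c)))| ≤ C * L / (Real.log M) ^ A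

end Pool.Agent.J6H16.E4
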