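import Pool.Agent.J6H16.E4.Lt
import Pool.Agent.N954.GN.Div

/-!
Project E4: moments of the divisor function of the Gaussian integers over a box (item MOM).
-/

set_option autoImplicit false

namespace Pool.Agent.J6H16.E4.Mom

open Finset Filter Topology
open Pool.Agent.N782.GN
open Pool.Agent.N954.GN

open Classical in
/-- the divisors of `z` -/
noncomputable def ds (z : ZI) : Finset ZI := (bl (nz z)).filter (fun d => d ∣ z)

theorem dv_eq (z : ZI) : dv z = (ds z).card := rfl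

theorem ne_of_dvd {z d : ZI} (hz : z ≠ 0) (h : d ∣ z) : d ≠ 0 := by
  rintro rfl
  exact hz (zero_dvd_iff.mp h)

theorem nz_le_of_dvd {z d : ZI} (hz : z ≠ 0) (h : d ∣ z) : nz d ≤ nz z := by
  obtain ⟨c, rfl⟩ := h
  rw [nz_mul]
  have hc : c ≠ 0 := right_ne_zero_of_mul hz
  have := one_le_nz hc
  have := nz_nonneg d
  nlinarith

theorem mem_ds {z d : ZI} (hz : z ≠ 0) : d ∈ ds z ↔ d ∣ z := by
  classical
  unfold ds
  rw [mem_filter, mem_bl]
  exact ⟨fun h => h.2, fun h => ⟨⟨ne_of_dvd hz h, nz_le_of_dvd hz h⟩, h⟩⟩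

theorem dv_mul_le {a b : ZI} (ha : a ≠ 0) (hb : b ≠ 0) : dv (a * b) ≤ dv a * dv b := by
  classical
  rw [dv_eq, dv_eq, dv_eq, ← Finset.card_product]
  have hsub : ds (a * b) ⊆ (ds a ×ˢ ds b).image (fun p : ZI × ZI => p.1 * p.2) := by
    intro d hd
    rw [mem_ds (mul_ne_zero ha hb)] at hd
    obtain ⟨d1, d2, h1, h2, h3⟩ := exists_dvd_and_dvd_of_dvd_mul hd
    rw [mem_image]
    refine ⟨(d1, d2), ?_, h3.symm⟩
    rw [mem_product]
    exact ⟨(mem_ds ha).mpr h1, (mem_ds hb).mpr h2⟩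
  exact (Finset.card_le_card hsub).trans Finset.card_image_le

theorem dv_pos {z : ZI} (hz : z ≠ 0) : 1 ≤ dv z := by
  rw [dv_eq]
  exact Finset.card_pos.mpr ⟨1, (mem_ds hz).mpr (one_dvd z)⟩

theorem nz_unit {a : ZI} (h : IsUnit a) : nz a = 1 := by
  have h1 := Zsqrtd.norm_eq_one_iff.mpr h
  have h2 : 0 ≤ Zsqrtd.norm a := GaussianInt.norm_nonneg a
  have h3 : Zsqrtd.norm a = 1 := by omega
  unfold nz
  rw [h3]
  norm_num

theorem unit_of_nz {a : ZI} (h : nz a ≤ 1) (ha : a ≠ 0) : IsUnit a := by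
  have h1 : 0 < Zsqrtd.norm a := GaussianInt.norm_pos.2 ha
  have h2 : Zsqrtd.norm a ≤ 1 := by
    unfold nz at h
    exact_mod_cast h
  rw [← Zsqrtd.norm_eq_one_iff]
  omega

theorem card_bl_one : (bl 1).card ≤ 12 := by
  have h := card_bl_le 1 le_rfl
  rw [mul_one] at h
  exact_mod_cast h

theorem dv_unit {a : ZI} (h : IsUnit a) : dv a ≤ 12 := by
  classical
  rw [dv_eq]
  refine (Finset.card_le_card ?_).trans card_bl_one
  unfold ds
  rw [nz_unit h]
  exact Finset.filter_subset _ _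

theorem dv_irr {p : ZI} (h : Irreducible p) : dv p ≤ 24 := by
  classical
  have hp0 := h.ne_zero
  rw [dv_eq]
  have hsub : ds p ⊆ bl 1 ∪ (bl 1).image (fun u => p / u) := by
    intro d hd
    rw [mem_ds hp0] at hd
    have hd0 := ne_of_dvd hp0 hd
    obtain ⟨c, hc⟩ := hd
    have hc0 : c ≠ 0 := by
      rintro rfl
      rw [mul_zero] at hc
      exact hp0 hc
    rw [mem_union]
    rcases h.isUnit_or_isUnit hc with h1 | h1
    · exact Or.inl ((mem_bl _ _).mpr ⟨hd0, (nz_unit h1).le⟩)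
    · right
      rw [mem_image]
      refine ⟨c, (mem_bl _ _).mpr ⟨hc0, (nz_unit h1).le⟩, ?_⟩
      rw [hc]
      exact mul_div_cancel_right₀ d hc0
  have h1 := Finset.card_le_card hsub
  have h2 := Finset.card_union_le (bl 1) ((bl 1).image (fun u => p / u))
  have h3 : ((bl 1).image (fun u => p / u)).card ≤ (bl 1).card := Finset.card_image_le
  have h4 := card_bl_one
  omega

/-- a divisor of small norm with many divisors -/
theorem landreau {z : ZI} (hz : z ≠ 0) :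
    ∃ d, d ∣ z ∧ nz d * nz d ≤ nz z ∧ dv z ≤ 24 * dv d ^ 2 := by
  classical
  have hz1 := one_le_nz hz
  have hne : ((ds z).filter (fun a => nz a * nz a ≤ nz z)).Nonempty := by
    refine ⟨1, ?_⟩
    rw [mem_filter, mem_ds hz]
    refine ⟨one_dvd z, ?_⟩
    rw [nz_unit isUnit_one]
    linarith
  obtain ⟨A, hA, hmax⟩ := Finset.exists_max_image _ (fun a : ZI => nz a) hne
  rw [mem_filter, mem_ds hz] at hA
  obtain ⟨hAz, hAsq⟩ := hA
  have hA0 := ne_of_dvd hz hAz
  obtain ⟨c, hc⟩ := hAz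
  have hc0 : c ≠ 0 := by
    rintro rfl
    rw [mul_zero] at hc
    exact hz hc
  by_cases hcu : IsUnit c
  · refine ⟨A, ⟨c, hc⟩, hAsq, ?_⟩
    have h1 : dv z ≤ dv A * dv c := by
      rw [hc]
      exact dv_mul_le hA0 hc0
    have h2 := dv_unit hcu
    have h3 := dv_pos hA0
    nlinarith
  · obtain ⟨p, hp, hpc⟩ := WfDvdMonoid.exists_irreducible_factor hcu hc0
    obtain ⟨D, hD⟩ := hpc
    have hp0 := hp.ne_zero
    have hD0 : D ≠ 0 := by
      rintro rfl
      rw [mul_zero] at hD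
      exact hc0 hD
    have hzeq : z = A * p * D := by rw [hc, hD]; ring
    have hAp0 : A * p ≠ 0 := mul_ne_zero hA0 hp0
    have hnz : nz z = nz (A * p) * nz D := by rw [hzeq, nz_mul]
    have hp1 : 1 < nz p := by
      by_contra hcon
      push Not at hcon
      exact hp.not_isUnit (unit_of_nz hcon hp0)
    have hA1 := one_le_nz hA0
    have hD1 := one_le_nz hD0
    have hAp : nz (A * p) = nz A * nz p := nz_mul A p
    have hbig : nz z < nz (A * p) * nz (A * p) := by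
      by_contra hcon
      push Not at hcon
      have := hmax (A * p) (by
        rw [mem_filter, mem_ds hz]
        exact ⟨⟨D, hzeq⟩, hcon⟩)
      rw [hAp] at this
      nlinarith
    have hAp1 : 1 ≤ nz (A * p) := one_le_nz hAp0
    have hDlt : nz D < nz (A * p) := by
      by_contra hcon
      push Not at hcon
      rw [hnz] at hbig
      nlinarith
    have hDsq : nz D * nz D ≤ nz z := by
      rw [hnz]
      nlinarith
    have ht : dv z ≤ 24 * (dv A * dv D) := by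
      calc dv z = dv (A * p * D) := by rw [← hzeq]
        _ ≤ dv (A * p) * dv D := dv_mul_le hAp0 hD0
        _ ≤ (dv A * dv p) * dv D := Nat.mul_le_mul_right _ (dv_mul_le hA0 hp0)
        _ ≤ (dv A * 24) * dv D := Nat.mul_le_mul_right _ (Nat.mul_le_mul_left _ (dv_irr hp))
        _ = 24 * (dv A * dv D) := by ring
    rcases le_total (dv A) (dv D) with h | h
    · refine ⟨D, ⟨A * p, by rw [hzeq]; ring⟩, hDsq, ht.trans ?_⟩
      have := Nat.mul_le_mul_right (dv D) h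
      rw [pow_two]
      omega
    · refine ⟨A, ⟨c, hc⟩, hAsq, ht.trans ?_⟩
      have := Nat.mul_le_mul_left (dv A) h
      rw [pow_two]
      omega

/-- the logarithmic moments of the divisor function -/
noncomputable def tsm (k : ℕ) (X : ℝ) : ℝ := ∑ d ∈ bl X, (dv d : ℝ) ^ k / nz d

theorem tsm_nonneg (k : ℕ) (X : ℝ) : 0 ≤ tsm k X :=
  Finset.sum_nonneg fun d _ => div_nonneg (by positivity) (nz_nonneg d)

theorem tsm_succ_le (k : ℕ) (X : ℝ) : tsm (k + 1) X ≤ tsm k X ^ 2 := by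
  classical
  set F : ZI → ℝ := fun d => (dv d : ℝ) ^ k / nz d with hF
  have hF0 : ∀ d, 0 ≤ F d := fun d => div_nonneg (by positivity) (nz_nonneg d)
  have h1 : ∀ d ∈ bl X, (dv d : ℝ) ^ (k + 1) / nz d ≤ ∑ a ∈ ds d, F a * F (d / a) := by
    intro d hd
    have hd0 := ((mem_bl X d).mp hd).1
    have e1 : (dv d : ℝ) ^ (k + 1) / nz d = ∑ a ∈ ds d, (dv d : ℝ) ^ k / nz d := by
      rw [Finset.sum_const, nsmul_eq_mul, pow_succ, ← dv_eq]
      ring
    rw [e1]
    refine Finset.sum_le_sum fun a ha => ?_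
    rw [mem_ds hd0] at ha
    have ha0 := ne_of_dvd hd0 ha
    have he : a * (d / a) = d := EuclideanDomain.mul_div_cancel' ha0 ha
    have hb0 : d / a ≠ 0 := by
      intro h
      rw [h, mul_zero] at he
      exact hd0 he.symm
    have hle : (dv d : ℝ) ≤ dv a * dv (d / a) := by
      have := dv_mul_le ha0 hb0
      rw [he] at this
      exact_mod_cast this
    have hn : nz d = nz a * nz (d / a) := by rw [← nz_mul, he]
    rw [hF]
    simp only
    rw [div_mul_div_comm, ← mul_pow, ← hn]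
    exact div_le_div_of_nonneg_right (pow_le_pow_left₀ (by positivity) hle k) (nz_nonneg d)
  have h2 : tsm (k + 1) X ≤ ∑ d ∈ bl X, ∑ a ∈ ds d, F a * F (d / a) := Finset.sum_le_sum h1
  refine h2.trans ?_
  rw [pow_two]
  unfold tsm
  rw [Finset.sum_mul_sum, ← Finset.sum_product', Finset.sum_sigma']
  have h3 : ∑ x ∈ (bl X).sigma (fun d => ds d), F x.2 * F (x.1 / x.2) ≤
      ∑ x ∈ bl X ×ˢ bl X, F x.1 * F x.2 := by
    have hinj : Set.InjOn (fun x : (Σ _ : ZI, ZI) => ((x.2, x.1 / x.2) : ZI × ZI))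
        ((bl X).sigma (fun d => ds d) : Set (Σ _ : ZI, ZI)) := by
      rintro ⟨d, a⟩ h ⟨d', a'⟩ h' he
      simp only [Prod.mk.injEq] at he
      obtain ⟨e1, e2⟩ := he
      rw [Finset.mem_coe, Finset.mem_sigma] at h h'
      dsimp only at h h' e1 e2
      have hd0 := ((mem_bl X d).mp h.1).1
      have hd0' := ((mem_bl X d').mp h'.1).1
      have ha := (mem_ds hd0).mp h.2
      have ha' := (mem_ds hd0').mp h'.2
      have k1 : a * (d / a) = d := EuclideanDomain.mul_div_cancel' (ne_of_dvd hd0 ha) ha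
      have k2 : a' * (d' / a') = d' := EuclideanDomain.mul_div_cancel' (ne_of_dvd hd0' ha') ha'
      subst e1
      rw [← e2] at k2
      have : d = d' := k1.symm.trans k2
      subst this
      rfl
    have himg : ∑ x ∈ (bl X).sigma (fun d => ds d), F x.2 * F (x.1 / x.2) =
        ∑ y ∈ ((bl X).sigma (fun d => ds d)).image
          (fun x : (Σ _ : ZI, ZI) => ((x.2, x.1 / x.2) : ZI × ZI)), F y.1 * F y.2 := by
      rw [Finset.sum_image hinj]
    rw [himg]
    refine Finset.sum_le_sum_of_subset_of_nonneg ?_ (fun y _ _ => mul_nonneg (hF0 _) (hF0 _))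
    intro y hy
    rw [mem_image] at hy
    obtain ⟨⟨d, a⟩, h, rfl⟩ := hy
    rw [Finset.mem_sigma] at h
    dsimp only at h ⊢
    obtain ⟨hd0, hdX⟩ := (mem_bl X d).mp h.1
    have ha := (mem_ds hd0).mp h.2
    have ha0 := ne_of_dvd hd0 ha
    have he : a * (d / a) = d := EuclideanDomain.mul_div_cancel' ha0 ha
    have hb : d / a ∣ d := ⟨a, by rw [mul_comm]; exact he.symm⟩
    rw [mem_product, mem_bl, mem_bl]
    exact ⟨⟨ha0, (nz_le_of_dvd hd0 ha).trans hdX⟩,
      ⟨ne_of_dvd hd0 hb, (nz_le_of_dvd hd0 hb).trans hdX⟩⟩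
  exact h3

theorem tsm_le (k : ℕ) {X : ℝ} (hX : 1 ≤ X) :
    tsm k X ≤ (12 * (1 + Real.log X)) ^ (2 ^ k) := by
  induction k with
  | zero =>
    unfold tsm
    simp only [pow_zero, pow_one]
    exact sum_inv_norm X hX
  | succ k ih =>
    calc tsm (k + 1) X ≤ tsm k X ^ 2 := tsm_succ_le k X
      _ ≤ ((12 * (1 + Real.log X)) ^ (2 ^ k)) ^ 2 := pow_le_pow_left₀ (tsm_nonneg k X) ih 2
      _ = _ := by rw [← pow_mul, ← pow_succ]

/-- **(MOM)** moments of the divisor function over the box -/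
theorem c_mom (h : S_NML) : S_MOM := by
  classical
  intro j
  refine ⟨24 ^ j * 4 * 36 ^ (2 ^ (2 * j)), 2 ^ (2 * j), by positivity, ?_⟩
  intro L M hM hL hLM
  have hlog : 1 ≤ Real.log M := by
    rw [Real.le_log_iff_exp_le (by linarith)]
    have := Real.exp_one_lt_d9
    linarith
  -- every point
  have h1 : ∀ l ∈ Icc 1 ⌊L⌋, ∀ m ∈ Icc ⌈-M⌉ ⌊M⌋, (dv (⟨l, m⟩ : ZI) : ℝ) ^ j ≤
      24 ^ j * ∑ d ∈ bl (2 * M), if d ∣ (⟨l, m⟩ : ZI) then (dv d : ℝ) ^ (2 * j) else 0 := by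
    intro l hl m hm
    rw [mem_Icc] at hl hm
    have hz0 : (⟨l, m⟩ : ZI) ≠ 0 := by
      intro h0
      have := congrArg Zsqrtd.re h0
      simp at this
      omega
    obtain ⟨d, hd1, hd2, hd3⟩ := landreau hz0
    have hd0 := ne_of_dvd hz0 hd1
    have hl1 : (1 : ℝ) ≤ l := by exact_mod_cast hl.1
    have hl2 : (l : ℝ) ≤ L := Int.le_floor.1 hl.2
    have hm1 : -M ≤ (m : ℝ) := Int.ceil_le.1 hm.1
    have hm2 : (m : ℝ) ≤ M := Int.le_floor.1 hm.2
    have hnz : nz (⟨l, m⟩ : ZI) ≤ 2 * M * M := by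
      rw [nz_eq]
      dsimp only
      have k1 : (l : ℝ) ^ 2 ≤ M ^ 2 := sq_le_sq' (by linarith) (by linarith)
      have k2 : (m : ℝ) ^ 2 ≤ M ^ 2 := sq_le_sq' (by linarith) (by linarith)
      nlinarith
    have hdM : d ∈ bl (2 * M) := by
      rw [mem_bl]
      refine ⟨hd0, ?_⟩
      by_contra hcon
      push Not at hcon
      nlinarith
    have hterm : (dv d : ℝ) ^ (2 * j) ≤
        ∑ d ∈ bl (2 * M), if d ∣ (⟨l, m⟩ : ZI) then (dv d : ℝ) ^ (2 * j) else 0 := by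
      have := Finset.single_le_sum (f := fun d => if d ∣ (⟨l, m⟩ : ZI) then
        (dv d : ℝ) ^ (2 * j) else 0) (fun i _ => by
          split_ifs
          · positivity
          · exact le_rfl) hdM
      simpa [hd1] using this
    have hd3' : (dv (⟨l, m⟩ : ZI) : ℝ) ≤ 24 * (dv d : ℝ) ^ 2 := by exact_mod_cast hd3
    calc (dv (⟨l, m⟩ : ZI) : ℝ) ^ j ≤ (24 * (dv d : ℝ) ^ 2) ^ j :=
          pow_le_pow_left₀ (by positivity) hd3' j
      _ = 24 ^ j * (dv d : ℝ) ^ (2 * j) := by rw [mul_pow, ← pow_mul]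
      _ ≤ _ := mul_le_mul_of_nonneg_left hterm (by positivity)
  have h2 : ∑ l ∈ Icc 1 ⌊L⌋, ∑ m ∈ Icc ⌈-M⌉ ⌊M⌋, (dv (⟨l, m⟩ : ZI) : ℝ) ^ j ≤
      24 ^ j * ∑ d ∈ bl (2 * M), (dv d : ℝ) ^ (2 * j) * ∑ l ∈ Icc 1 ⌊L⌋, nm M d l := by
    calc _ ≤ ∑ l ∈ Icc 1 ⌊L⌋, ∑ m ∈ Icc ⌈-M⌉ ⌊M⌋,
          24 ^ j * ∑ d ∈ bl (2 * M), (if d ∣ (⟨l, m⟩ : ZI) then (dv d : ℝ) ^ (2 * j) else 0) :=
          Finset.sum_le_sum fun l hl => Finset.sum_le_sum fun m hm => h1 l hl m hm
      _ = 24 ^ j * ∑ d ∈ bl (2 * M), ∑ l ∈ Icc 1 ⌊L⌋, ∑ m ∈ Icc ⌈-M⌉ ⌊M⌋,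
          (if d ∣ (⟨l, m⟩ : ZI) then (dv d : ℝ) ^ (2 * j) else 0) := by
          rw [Finset.sum_comm (s := bl (2 * M)), Finset.mul_sum]
          refine Finset.sum_congr rfl fun l _ => ?_
          rw [Finset.sum_comm (s := bl (2 * M)), Finset.mul_sum]
      _ = _ := by
          congr 1
          refine Finset.sum_congr rfl fun d _ => ?_
          rw [Finset.mul_sum]
          refine Finset.sum_congr rfl fun l _ => ?_
          unfold nm
          rw [← Finset.sum_filter, Finset.sum_const, nsmul_eq_mul, mul_comm]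
  have h3 : ∑ d ∈ bl (2 * M), (dv d : ℝ) ^ (2 * j) * ∑ l ∈ Icc 1 ⌊L⌋, nm M d l ≤
      4 * (L * M) * tsm (2 * j) (2 * M) := by
    unfold tsm
    rw [Finset.mul_sum]
    refine Finset.sum_le_sum fun d hd => ?_
    obtain ⟨hd0, hdM⟩ := (mem_bl _ d).mp hd
    have k := h L M d (by linarith) (by linarith) hd0 hdM
    calc (dv d : ℝ) ^ (2 * j) * ∑ l ∈ Icc 1 ⌊L⌋, nm M d l ≤
          (dv d : ℝ) ^ (2 * j) * (4 * (L * M) * (1 / nz d)) :=
          mul_le_mul_of_nonneg_left k (by positivity)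
      _ = 4 * (L * M) * ((dv d : ℝ) ^ (2 * j) / nz d) := by ring
  have h4 : tsm (2 * j) (2 * M) ≤ 36 ^ (2 ^ (2 * j)) * (Real.log M) ^ (2 ^ (2 * j)) := by
    refine (tsm_le (2 * j) (by linarith)).trans ?_
    rw [← mul_pow]
    have k1 : Real.log (2 * M) = Real.log 2 + Real.log M :=
      Real.log_mul (by norm_num) (by linarith)
    have k2 : Real.log 2 < 1 := by linarith [Real.log_two_lt_d9]
    have k3 : 0 < Real.log 2 := Real.log_pos (by norm_num)
    refine pow_le_pow_left₀ ?_ ?_ _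
    · rw [k1]
      linarith
    · rw [k1]
      linarith
  have hLM0 : 0 ≤ L * M := by nlinarith
  calc _ ≤ 24 ^ j * ∑ d ∈ bl (2 * M), (dv d : ℝ) ^ (2 * j) * ∑ l ∈ Icc 1 ⌊L⌋, nm M d l := h2
    _ ≤ 24 ^ j * (4 * (L * M) * tsm (2 * j) (2 * M)) :=
        mul_le_mul_of_nonneg_left h3 (by positivity)
    _ ≤ 24 ^ j * (4 * (L * M) * (36 ^ (2 ^ (2 * j)) * (Real.log M) ^ (2 ^ (2 * j)))) := by
        refine mul_le_mul_of_nonneg_left (mul_le_mul_of_nonneg_left h4 (by positivity))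
          (by positivity)
    _ = _ := by ring

end Pool.Agent.J6H16.E4.Mom
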