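import Pool.Agent.J6H16.E4.Lt
import Pool.Agent.N954.GN.Div

/-!
# Project E4: multiples of squares of elements of large norm in the box
-/

set_option autoImplicit false

namespace Pool.Agent.J6H16.E4.SQT

open Finset
open Pool.Agent.N782.GN Pool.Agent.N954.GN

lemma nz_le_sn (z : ZI) : nz z ≤ 2 * (sn z : ℝ) ^ 2 := by
  have key : ∀ a : ℤ, a.natAbs ≤ sn z → (a : ℝ) ^ 2 ≤ (sn z : ℝ) ^ 2 := by
    intro a ha
    have h1 : ((a.natAbs : ℕ) : ℝ) ≤ sn z := by exact_mod_cast ha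
    rw [Nat.cast_natAbs, Int.cast_abs] at h1
    rw [← sq_abs (a : ℝ)]
    exact pow_le_pow_left₀ (abs_nonneg _) h1 2
  have h1 := key z.re (le_max_left _ _)
  have h2 := key z.im (le_max_right _ _)
  rw [nz_eq]
  linarith

open Classical in
/-- the tail of the sum of the inverse squares of the norms -/
lemma sum_inv_sq {X D : ℝ} (hX : 0 ≤ X) (hD : 0 < D) :
    ∑ δ ∈ (bl X).filter (fun δ => D < nz δ), 1 / nz δ ^ 2 ≤ 48 / D := by
  set F : ℕ → ℝ := fun r => if D / 2 < (r : ℝ) ^ 2 then 1 / (r : ℝ) ^ 4 else 0 with hF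
  have hF0 : ∀ r, 0 ≤ F r := by
    intro r
    simp only [hF]
    split_ifs <;> positivity
  have h1 : ∑ δ ∈ (bl X).filter (fun δ => D < nz δ), 1 / nz δ ^ 2 ≤ ∑ δ ∈ bl X, F (sn δ) := by
    refine (Finset.sum_le_sum fun δ hδ => ?_).trans
      (Finset.sum_le_sum_of_subset_of_nonneg (Finset.filter_subset _ _) fun δ _ _ => hF0 _)
    obtain ⟨h1, h2⟩ := Finset.mem_filter.1 hδ
    have h3 := nz_le_sn δ
    have h4 := sn_sq_le δ
    have h5 : (0 : ℝ) < sn δ := by exact_mod_cast sn_pos ((mem_bl X δ).1 h1).1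
    simp only [hF]
    rw [if_pos (by linarith)]
    refine one_div_le_one_div_of_le (by positivity) ?_
    have h6 : (sn δ : ℝ) ^ 4 = ((sn δ : ℝ) ^ 2) ^ 2 := by ring
    rw [h6]
    exact pow_le_pow_left₀ (by positivity) h4 2
  refine (h1.trans (sum_bl_le X hX F hF0)).trans ?_
  set ρ : ℝ := Real.sqrt (D / 2) with hρ
  have hρ0 : 0 < ρ := Real.sqrt_pos.2 (by positivity)
  have hρ2 : ρ ^ 2 = D / 2 := Real.sq_sqrt (by positivity)
  set k : ℕ := ⌊ρ⌋₊ with hk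
  have h2 : ∀ r ∈ Icc 1 ⌊Real.sqrt X⌋₊, 12 * (r : ℝ) * F r ≤
      if k < r then 12 / ρ * ((r : ℝ) ^ 2)⁻¹ else 0 := by
    intro r hr
    have hr1 : (0 : ℝ) < r := by exact_mod_cast (mem_Icc.1 hr).1
    simp only [hF]
    by_cases hc : D / 2 < (r : ℝ) ^ 2
    · rw [if_pos hc]
      have h3 : ρ < r := by
        rw [← hρ2] at hc
        exact lt_of_pow_lt_pow_left₀ 2 hr1.le hc
      have h4 : k < r := (Nat.floor_lt hρ0.le).2 h3
      rw [if_pos h4]
      have h5 : 12 * (r : ℝ) * (1 / (r : ℝ) ^ 4) = 12 / r * ((r : ℝ) ^ 2)⁻¹ := by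
        field_simp
      rw [h5]
      gcongr
    · rw [if_neg hc, mul_zero]
      split_ifs <;> positivity
  refine (Finset.sum_le_sum h2).trans ?_
  rw [← Finset.sum_filter, ← Finset.mul_sum]
  have h3 : ∑ r ∈ (Icc 1 ⌊Real.sqrt X⌋₊).filter (fun r => k < r), ((r : ℝ) ^ 2)⁻¹ ≤
      ∑ r ∈ Ioo k (⌊Real.sqrt X⌋₊ + 1), ((r : ℝ) ^ 2)⁻¹ := by
    refine Finset.sum_le_sum_of_subset_of_nonneg ?_ fun r _ _ => by positivity
    intro r hr
    rw [Finset.mem_filter, mem_Icc] at hr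
    rw [mem_Ioo]
    omega
  have h4 := sum_Ioo_inv_sq_le (α := ℝ) k (⌊Real.sqrt X⌋₊ + 1)
  have h5 : (2 : ℝ) / (k + 1) ≤ 2 / ρ := by
    have : ρ < (k : ℝ) + 1 := Nat.lt_floor_add_one ρ
    gcongr
  calc 12 / ρ * ∑ r ∈ (Icc 1 ⌊Real.sqrt X⌋₊).filter (fun r => k < r), ((r : ℝ) ^ 2)⁻¹
      ≤ 12 / ρ * (2 / ρ) := by gcongr; exact h3.trans (h4.trans h5)
    _ = 24 / ρ ^ 2 := by field_simp; ring
    _ = 48 / D := by rw [hρ2]; field_simp; ring

/-- the multiples of `δ²` in the box -/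
lemma count_sq {L M : ℝ} (hM : 3 ≤ M) (hL : 1 ≤ L) {δ : ZI} (hδ : δ ≠ 0) :
    ∑ l ∈ Icc 1 ⌊L⌋, nm M (δ ^ 2) l ≤ (2 * L / nz δ + 1) * (6 * M / nz δ + 1) := by
  classical
  have hδ2 : δ ^ 2 ≠ 0 := pow_ne_zero 2 hδ
  have hs := one_le_nz hδ
  have hnz : nz (δ ^ 2) = nz δ ^ 2 := by rw [pow_two, nz_mul, pow_two]
  have hsq : Real.sqrt (nz (δ ^ 2)) = nz δ := by
    rw [hnz, Real.sqrt_sq (by linarith)]
  set m1 : ℤ := ⌈-M⌉ - 1 with hm1
  set m2 : ℤ := ⌊M⌋ with hm2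
  have hm1' : (-M - 1 : ℝ) ≤ m1 := by
    rw [hm1]; push_cast
    have := Int.le_ceil (-M)
    linarith
  have hm1'' : (m1 : ℝ) ≤ -M := by
    rw [hm1]; push_cast
    have := Int.ceil_lt_add_one (-M)
    linarith
  have hm2' : (m2 : ℝ) ≤ M := Int.floor_le M
  have hm2'' : M - 1 < m2 := Int.sub_one_lt_floor M
  have hle : m1 ≤ m2 := by
    have : (m1 : ℝ) ≤ m2 := by linarith
    exact_mod_cast this
  have h := mult_count L m1 m2 hL hle hδ2
  rw [hsq] at h
  have hcard : ∑ l ∈ Icc 1 ⌊L⌋, nm M (δ ^ 2) l =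
      ((((Icc 1 ⌊L⌋) ×ˢ (Ioc m1 m2)).filter fun p : ℤ × ℤ => δ ^ 2 ∣ (⟨p.1, p.2⟩ : ZI)).card : ℝ) := by
    rw [Finset.card_filter, Finset.sum_product]
    push_cast
    refine Finset.sum_congr rfl fun l _ => ?_
    unfold nm
    rw [Finset.card_filter]
    push_cast
    have : Icc ⌈-M⌉ ⌊M⌋ = Ioc m1 m2 := by
      ext m
      rw [mem_Icc, mem_Ioc]
      omega
    rw [this]
  rw [hcard]
  refine h.trans ?_
  have hs0 : 0 < nz δ := by linarith
  have h6 : 2 * ((m2 : ℝ) - m1) ≤ 6 * M := by linarith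
  have h7 : 0 ≤ 2 * L / nz δ + 1 := by positivity
  refine mul_le_mul_of_nonneg_left ?_ h7
  gcongr

/-- **(SQT)** -/
theorem c_sqt : S_SQT := by
  classical
  refine ⟨1000, by norm_num, fun L M D hM hL hLM hD => ?_⟩
  have hM0 : 0 < M := by linarith
  have hL0 : 0 < L := by linarith
  have hlog : 1 ≤ Real.log M := by
    rw [Real.le_log_iff_exp_le hM0]
    have := Real.exp_one_lt_d9
    linarith
  have h1 : ∀ δ ∈ (bl (2 * M)).filter (fun δ => D < nz δ),
      ∑ l ∈ Icc 1 ⌊L⌋, nm M (δ ^ 2) l ≤ 12 * (L * M) * (1 / nz δ ^ 2) + 8 * M * (1 / nz δ) + 1 := by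
    intro δ hδ
    have hδ0 := ((mem_bl _ δ).1 (Finset.mem_filter.1 hδ).1).1
    have hs := one_le_nz hδ0
    have hs0 : 0 < nz δ := by linarith
    refine (count_sq hM hL hδ0).trans ?_
    have h2 : (2 * L / nz δ + 1) * (6 * M / nz δ + 1) =
        12 * (L * M) * (1 / nz δ ^ 2) + (2 * L + 6 * M) * (1 / nz δ) + 1 := by
      field_simp
      ring
    rw [h2]
    have h3 : (2 * L + 6 * M) * (1 / nz δ) ≤ 8 * M * (1 / nz δ) := by
      gcongr
      linarith
    linarith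
  refine (Finset.sum_le_sum h1).trans ?_
  rw [Finset.sum_add_distrib, Finset.sum_add_distrib, ← Finset.mul_sum, ← Finset.mul_sum,
    Finset.sum_const, nsmul_eq_mul, mul_one]
  have h2 := sum_inv_sq (X := 2 * M) (by positivity) (show 0 < D by linarith)
  have h3 : ∑ δ ∈ (bl (2 * M)).filter (fun δ => D < nz δ), 1 / nz δ ≤
      12 * (1 + Real.log (2 * M)) := by
    refine le_trans ?_ (sum_inv_norm (2 * M) (by linarith))
    refine Finset.sum_le_sum_of_subset_of_nonneg (Finset.filter_subset _ _) fun δ _ _ => ?_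
    have := nz_nonneg δ
    positivity
  have h4 : (((bl (2 * M)).filter (fun δ => D < nz δ)).card : ℝ) ≤ 12 * (2 * M) := by
    refine le_trans ?_ (card_bl_le (2 * M) (by linarith))
    exact_mod_cast Finset.card_le_card (Finset.filter_subset _ _)
  have h5 : Real.log (2 * M) ≤ 2 * Real.log M := by
    rw [Real.log_mul (by norm_num) hM0.ne']
    have : Real.log 2 ≤ Real.log M := Real.log_le_log (by norm_num) (by linarith)
    linarith
  have h6 : 12 * (L * M) * ∑ δ ∈ (bl (2 * M)).filter (fun δ => D < nz δ), 1 / nz δ ^ 2 ≤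
      12 * (L * M) * (48 / D) := by gcongr
  have h7 : 8 * M * ∑ δ ∈ (bl (2 * M)).filter (fun δ => D < nz δ), 1 / nz δ ≤
      8 * M * (12 * (3 * Real.log M)) := by
    gcongr
    refine h3.trans ?_
    linarith
  have h8 : 12 * (2 * M) ≤ 24 * (M * Real.log M) := by
    have : M * 1 ≤ M * Real.log M := mul_le_mul_of_nonneg_left hlog hM0.le
    linarith
  have h9 : 12 * (L * M) * (48 / D) = 576 * (L * M / D) := by ring
  have h10 : 8 * M * (12 * (3 * Real.log M)) = 288 * (M * Real.log M) := by ring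
  have h11 : 0 ≤ L * M / D := by positivity
  have h12 : 0 ≤ M * Real.log M := by positivity
  rw [h9] at h6
  rw [h10] at h7
  linarith

end Pool.Agent.J6H16.E4.SQT
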