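import Pool.Agent.J6H16.E4.Lt
import Pool.Agent.J6H16.E2.Ve
import Pool.Agent.J6H16.PF.Tk
import Pool.Agent.J6H16.PF.Sd

/-!
# Project E4 (helper16): the Liouville function at `l² + m²` for almost all `l`.  Statements.

`np a` = the norm is a rational prime, `Fz lam M z = lam (re z)` if `|im z| ≤ M`, else `0`,
`fw M x y a = log (nz a) / log M` if `np a` and `x < nz a ≤ y`, else `0`, `cv f g t = ∑_{a b = t} f a g b`.
-/

set_option autoImplicit false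

namespace Pool.Agent.J6H16.E4

open Finset Filter Topology
open Pool.Agent.N782.GN hiding f1
open Pool.Agent.N855.GN
open Pool.Agent.J6H16.PF Pool.Agent.J6H16.PR Pool.Agent.J6H16.E2

open Classical in
/-- (TKL) Turan-Kubilius on one line, with windows of constant logarithmic length: if the sums of `fw * lo` over the line are
small for the windows `(M ^ (κ j), M ^ (κ (j + 1))]`, then the sum of `lo` over the line is small -/
def S_TKL : Prop := ∀ (η c4 : ℝ), 0 < η → 0 < c4 → c4 ≤ 1 / 8 → ∃ (J : ℕ) (κ : ℕ → ℝ) (θ : ℝ), 0 < θ ∧ 0 < κ 0 ∧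
  (∀ j, κ j < κ (j + 1)) ∧ κ J ≤ c4 ∧ ∀ᶠ M : ℝ in atTop, ∀ (l : ℤ), 1 ≤ l → (l : ℝ) ≤ M →
  (∀ j < J, |∑ m ∈ Icc ⌈-M⌉ ⌊M⌋, cv (fw M (M ^ κ j) (M ^ κ (j + 1))) lo (⟨l, m⟩ : ZI)| ≤ θ * M) →
  |∑ m ∈ Icc ⌈-M⌉ ⌊M⌋, lo (⟨l, m⟩ : ZI)| ≤ η * M

end Pool.Agent.J6H16.E4
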