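import Pool.Agent.J6H16.E4.Stm
import Pool.Agent.J6H16.PF.Ti

/-!
# Project E4 (helper16): the statement for intervals
-/

set_option autoImplicit false

namespace Pool.Agent.J6H16.E4

open Finset Filter Topology
open Pool.Agent.N782.GN hiding f1
open Pool.Agent.N855.GN
open Pool.Agent.J6H16.PF Pool.Agent.J6H16.PR Pool.Agent.J6H16.E2

/-- (TKA) Turan-Kubilius on a part `X < |m| ≤ M` of a line, `M - X ≥ M / (log M) ^ B` -/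
def S_TKA : Prop := ∀ (η c4 : ℝ) (B : ℕ), 0 < η → 0 < c4 → c4 ≤ 1 / 8 → ∃ (J : ℕ) (κ : ℕ → ℝ) (θ : ℝ), 0 < θ ∧
  0 < κ 0 ∧ (∀ j, κ j < κ (j + 1)) ∧ κ J ≤ c4 ∧ ∀ᶠ M : ℝ in atTop, ∀ (l : ℤ) (X : ℝ), 1 ≤ l → (l : ℝ) ≤ M →
  0 ≤ X → X ≤ M → M / (Real.log M) ^ B ≤ M - X →
  (∀ j < J, |∑ m ∈ an X M, cv (fw M (M ^ κ j) (M ^ κ (j + 1))) lo (⟨l, m⟩ : ZI)| ≤ θ * (M - X)) →
  |∑ m ∈ an X M, lo (⟨l, m⟩ : ZI)| ≤ η * (M - X)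

end Pool.Agent.J6H16.E4
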