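import Pool.Agent.J6H16.E4.TKa

/-!
# Project E4 (helper16, module TKL by helper94): Turan-Kubilius on one line
-/

set_option autoImplicit false

namespace Pool.Agent.J6H16.E4.TKL

open Finset Filter Topology
open Pool.Agent.N782.GN hiding f1
open Pool.Agent.N855.GN
open Pool.Agent.J6H16.PF Pool.Agent.J6H16.PR Pool.Agent.J6H16.E2

theorem sum_term_le {ι : Type} {M : ℝ} (hM : 1 ≤ M) (l : ℤ) (T : Finset ι) (φ : ι → ℝ) (t : ι → ZI)
    (h0 : ∀ i ∈ T, |φ i| ≤ 1) (h1 : ∀ i ∈ T, φ i ≠ 0 → ct (t i) = 1) :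
    |∑ i ∈ T, φ i * (ca (-1) M l (t i) - 2 * (M - (-1)) / nz (t i))| ≤ 4 * (T.card : ℝ) := by
  refine (abs_sum_le_sum_abs _ _).trans ?_
  have h2 : ∀ i ∈ T, |φ i * (ca (-1) M l (t i) - 2 * (M - (-1)) / nz (t i))| ≤ 4 := by
    intro i hi
    by_cases h : φ i = 0
    · rw [h, zero_mul, abs_zero]
      norm_num
    · rw [abs_mul]
      have h3 := cnt hM (h1 i hi h) l
      calc |φ i| * |ca (-1) M l (t i) - 2 * (M - (-1)) / nz (t i)| ≤ 1 * 4 :=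
            mul_le_mul (h0 i hi) h3 (abs_nonneg _) zero_le_one
        _ = 4 := by norm_num
  refine (sum_le_sum h2).trans (le_of_eq ?_)
  rw [sum_const, nsmul_eq_mul, mul_comm]

/-- the second moment -/
theorem moment {f : ZI → ℝ} {Q : Finset ZI} (hf0 : ∀ a, 0 ≤ f a) (hf1 : ∀ a, f a ≤ 1) (hfp : ∀ a, f a ≠ 0 → np a)
    (hQ : ∀ a ∈ Q, a ≠ 0) {M : ℝ} (hM : 1 ≤ M) (hQM : 48 * (Q.card : ℝ) ^ 2 ≤ M) (l : ℤ) {σ : ℝ}
    (hσ : σ = ∑ a ∈ Q, f a / nz a) (hσ1 : 1 ≤ σ) :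
    ∑ m ∈ an (-1) M, (∑ a ∈ Q, f a * dvi a ⟨l, m⟩ - σ) ^ 2 ≤ 33 * M * σ := by
  classical
  have htk := tk (β := fun _ => (1 : ℝ)) (f := f) (W := ({1} : Finset ZI)) (Q := Q) (fun _ => zero_le_one)
    (fun w hw => by rw [mem_singleton.1 hw]; exact one_ne_zero) hf0 hf1 hfp (-1) M (by linarith) l hσ
  beta_reduce at htk
  have hL : ∑ w ∈ ({1} : Finset ZI), (1 : ℝ) * ∑ m ∈ an (-1) M, dvi w ⟨l, m⟩ *
      (∑ a ∈ Q, f a * dvi (w * a) ⟨l, m⟩ - σ) ^ 2 = ∑ m ∈ an (-1) M, (∑ a ∈ Q, f a * dvi a ⟨l, m⟩ - σ) ^ 2 := by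
    rw [sum_singleton, one_mul]
    refine sum_congr rfl fun m _ => ?_
    have h1 : dvi 1 (⟨l, m⟩ : ZI) = 1 := by
      unfold dvi
      rw [if_pos (one_dvd _)]
    simp only [h1, one_mul]
  rw [hL] at htk
  set q : ℝ := (Q.card : ℝ) with hq
  have hq0 : 0 ≤ q := Nat.cast_nonneg _
  have hqq : q ≤ q ^ 2 := by
    rw [hq]
    have : Q.card ≤ Q.card ^ 2 := Nat.le_self_pow (by norm_num) _
    exact_mod_cast this
  have hE2 := sum_term_le hM l (({1} : Finset ZI) ×ˢ Q ×ˢ Q)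
    (fun i => (1 : ℝ) * (if nn i.2.1 ≠ nn i.2.2 then f i.2.1 * f i.2.2 else 0)) (fun i => i.1 * (i.2.1 * i.2.2))
    (fun i _ => by
      rw [one_mul]
      split_ifs
      · rw [abs_of_nonneg (mul_nonneg (hf0 _) (hf0 _))]
        calc f i.2.1 * f i.2.2 ≤ 1 * 1 := mul_le_mul (hf1 _) (hf1 _) (hf0 _) zero_le_one
          _ = 1 := by norm_num
      · rw [abs_zero]; exact zero_le_one)
    (fun i hi hne => by
      rw [mem_product, mem_singleton] at hi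
      rw [hi.1, one_mul]
      rw [one_mul] at hne
      split_ifs at hne with h
      · apply ct_sqf
        refine sqf2 (hfp _ (left_ne_zero_of_mul hne)) (hfp _ (right_ne_zero_of_mul hne)) ?_
        rw [nz_nn, nz_nn]
        exact fun h' => h (by exact_mod_cast h')
      · exact absurd rfl hne)
  have hE1 := sum_term_le hM l (({1} : Finset ZI) ×ˢ Q ×ˢ ({1} : Finset ZI))
    (fun i => (1 : ℝ) * f i.2.1) (fun i => i.1 * i.2.1)
    (fun i _ => by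
      rw [one_mul, abs_of_nonneg (hf0 _)]
      exact hf1 _)
    (fun i hi hne => by
      rw [mem_product, mem_singleton] at hi
      rw [hi.1, one_mul]
      rw [one_mul] at hne
      apply ct_sqf
      exact Nat.Prime.prime (show Nat.Prime (nn i.2.1) from hfp _ hne) |>.irreducible.squarefree)
  have hE0 := sum_term_le hM l (({1} : Finset ZI) ×ˢ ({1} : Finset ZI) ×ˢ ({1} : Finset ZI))
    (fun _ => (1 : ℝ)) (fun i => i.1)
    (fun i _ => by rw [abs_one])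
    (fun i hi _ => by
      rw [mem_product, mem_singleton] at hi
      rw [hi.1]
      decide)
  rw [card_product, card_product, card_singleton] at hE2 hE1 hE0
  have hσq : σ ≤ q := by
    rw [hσ, hq]
    calc ∑ a ∈ Q, f a / nz a ≤ ∑ a ∈ Q, (1 : ℝ) := by
          refine sum_le_sum fun a ha => ?_
          have := nz_one_le (hQ a ha)
          rw [div_le_one (by linarith)]
          exact (hf1 a).trans this
      _ = _ := by rw [sum_const, nsmul_eq_mul, mul_one]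
  have hone : ∑ w ∈ ({1} : Finset ZI), (1 : ℝ) / nz w = 1 := by
    rw [sum_singleton, nz_unit isUnit_one, div_one]
  rw [hone] at htk
  have hσ0 : 0 ≤ σ := by linarith
  refine htk.trans ?_
  have k2 : (8 + 2 * σ) * |∑ i ∈ ({1} : Finset ZI) ×ˢ Q ×ˢ ({1} : Finset ZI), ((1 : ℝ) * f i.2.1) *
        (ca (-1) M l (i.1 * i.2.1) - 2 * (M - (-1)) / nz (i.1 * i.2.1))| ≤ (8 + 2 * q) * (4 * q) := by
    refine mul_le_mul (by linarith) (hE1.trans (le_of_eq ?_)) (abs_nonneg _) (by positivity)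
    rw [hq]
    push_cast
    ring
  have k3 : σ ^ 2 * |∑ i ∈ ({1} : Finset ZI) ×ˢ ({1} : Finset ZI) ×ˢ ({1} : Finset ZI), (1 : ℝ) *
        (ca (-1) M l i.1 - 2 * (M - (-1)) / nz i.1)| ≤ q ^ 2 * 4 := by
    refine mul_le_mul (pow_le_pow_left₀ hσ0 hσq 2) (hE0.trans (le_of_eq ?_)) (abs_nonneg _) (by positivity)
    norm_num
  have k1 : |∑ i ∈ ({1} : Finset ZI) ×ˢ Q ×ˢ Q, ((1 : ℝ) * (if nn i.2.1 ≠ nn i.2.2 then f i.2.1 * f i.2.2 else 0)) *
        (ca (-1) M l (i.1 * (i.2.1 * i.2.2)) - 2 * (M - (-1)) / nz (i.1 * (i.2.1 * i.2.2)))| ≤ 4 * q ^ 2 := by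
    refine hE2.trans (le_of_eq ?_)
    rw [hq]
    push_cast
    ring
  have k4 : 4 * q ^ 2 + (8 + 2 * q) * (4 * q) + q ^ 2 * 4 ≤ M := by nlinarith
  have k5 : M ≤ M * σ := le_mul_of_one_le_right (by linarith) hσ1
  have k6 : 8 * (2 * (M - (-1))) * 1 * σ ≤ 32 * (M * σ) := by nlinarith
  linarith

theorem card_an {M : ℝ} (hM : 1 ≤ M) : ((an (-1) M).card : ℝ) ≤ 3 * M := by
  rw [an_eq, Int.ceil_neg, Int.card_Icc]
  have h1 : 1 ≤ ⌊M⌋ := Int.le_floor.2 (by exact_mod_cast hM)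
  have h2 : ((⌊M⌋ + 1 - -⌊M⌋).toNat : ℤ) = 2 * ⌊M⌋ + 1 := by
    rw [Int.toNat_of_nonneg (by omega)]
    ring
  have h3 : ((⌊M⌋ + 1 - -⌊M⌋).toNat : ℝ) = 2 * (⌊M⌋ : ℝ) + 1 := by exact_mod_cast h2
  rw [h3]
  have := Int.floor_le M
  linarith

/-- the window weights against the indicator of the window -/
theorem fw_ind {M κ κ' η1 : ℝ} (hM : 1 < M) (hκ : 0 < κ) (hκ' : κ' = (1 + η1) * κ) (a : ZI) (ind : ℝ)
    (hi : (np a ∧ M ^ κ < nz a ∧ nz a ≤ M ^ κ') → ind = 1)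
    (hn : ¬ (np a ∧ M ^ κ < nz a ∧ nz a ≤ M ^ κ') → ind = 0) :
    0 ≤ fw M (M ^ κ) (M ^ κ') a / κ - ind ∧ fw M (M ^ κ) (M ^ κ') a / κ - ind ≤ η1 * ind := by
  have hM0 : 0 < M := by linarith
  have hl := Real.log_pos hM
  by_cases h : np a ∧ M ^ κ < nz a ∧ nz a ≤ M ^ κ'
  · rw [hi h]
    have e1 : fw M (M ^ κ) (M ^ κ') a = Real.log (nz a) / Real.log M := by
      unfold fw Lp
      rw [if_pos h.2, if_pos h.1]
    have hn0 := nz_pos (np_ne h.1)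
    have e2 : κ * Real.log M ≤ Real.log (nz a) := by
      rw [← Real.log_rpow hM0]
      exact Real.log_le_log (by positivity) h.2.1.le
    have e3 : Real.log (nz a) ≤ κ' * Real.log M := by
      rw [← Real.log_rpow hM0]
      exact Real.log_le_log hn0 h.2.2
    rw [e1]
    constructor
    · rw [sub_nonneg, one_le_div hκ, le_div_iff₀ hl]
      exact e2
    · rw [mul_one, sub_le_iff_le_add, div_le_iff₀ hκ, div_le_iff₀ hl]
      calc Real.log (nz a) ≤ κ' * Real.log M := e3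
        _ = _ := by rw [hκ']; ring
  · rw [hn h]
    have e1 : fw M (M ^ κ) (M ^ κ') a = 0 := by
      by_contra h2
      exact h (fw_ne h2)
    rw [e1]
    simp

theorem c_tkl : S_TKL := by
  intro η c4 hη hc4 hc48
  classical
  -- parameters
  obtain ⟨η1, hη1⟩ : ∃ η1 : ℝ, η1 = min (η / 52) (1 / 2) := ⟨_, rfl⟩
  have hη10 : 0 < η1 := by rw [hη1]; exact lt_min (by positivity) (by norm_num)
  have hη1a : η1 ≤ η / 52 := by rw [hη1]; exact min_le_left _ _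
  have hη1b : η1 ≤ 1 / 2 := by rw [hη1]; exact min_le_right _ _
  obtain ⟨J, hJ⟩ := exists_nat_gt (max 1 ((40 / η) ^ 2) / (2 * η1))
  have hK0 : (1 : ℝ) ≤ max 1 ((40 / η) ^ 2) := le_max_left _ _
  have hJ0 : (0 : ℝ) < J := lt_trans (by positivity) hJ
  rw [div_lt_iff₀ (by positivity)] at hJ
  obtain ⟨κ, hκdef⟩ : ∃ κ : ℕ → ℝ, ∀ j, κ j = c4 * (1 + η1) ^ j / (1 + η1) ^ J := ⟨_, fun _ => rfl⟩
  have hr0 : 0 < 1 + η1 := by linarith
  have hκpos : ∀ j, 0 < κ j := fun j => by rw [hκdef]; positivity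
  have hκs : ∀ j, κ (j + 1) = (1 + η1) * κ j := fun j => by
    rw [hκdef, hκdef, pow_succ]
    ring
  have hκlt : ∀ j, κ j < κ (j + 1) := fun j => by
    rw [hκs]
    have := hκpos j
    nlinarith
  have hκJ : κ J = c4 := by
    rw [hκdef]
    have : (1 + η1) ^ J ≠ 0 := by positivity
    field_simp
  have hκmono : Monotone κ := monotone_nat_of_le_succ fun j => (hκlt j).le
  refine ⟨J, κ, η * κ 0 / (4 * J), by have := hκpos 0; positivity, hκpos 0, hκlt, hκJ.le, ?_⟩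
  have hwin : ∀ᶠ M : ℝ in atTop, ∀ j ∈ range J,
      2 * η1 ≤ ∑ a ∈ bg (M ^ κ j) (M ^ κ (j + 1)), (if np a then 1 / nz a else 0) := by
    rw [Filter.eventually_all_finset]
    intro j _
    rw [hκs j]
    exact win_lo (hκpos j) hη10 hη1b
  filter_upwards [hwin, eventually_ge_atTop (3 : ℝ), ev_rp (show (0 : ℝ) < 3 / 4 by norm_num) 4000] with M hw hM3 hM4
  intro l hl1 hlM hyp
  have hM0 : 0 < M := by linarith
  have hM1 : 1 ≤ M := by linarith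
  obtain ⟨x, hxdef⟩ : ∃ x : ℕ → ℝ, ∀ j, x j = M ^ κ j := ⟨_, fun _ => rfl⟩
  have hx : ∀ j, x j ≤ x (j + 1) := fun j => by
    rw [hxdef, hxdef]
    exact Real.rpow_le_rpow_of_exponent_le hM1 (hκlt j).le
  have hxmono : Monotone x := monotone_nat_of_le_succ hx
  have hxJ : x J = M ^ c4 := by rw [hxdef, hκJ]
  obtain ⟨Q, hQ⟩ : ∃ Q : Finset ZI, Q = bl (M ^ c4) := ⟨_, rfl⟩
  obtain ⟨fj, hfj⟩ : ∃ fj : ℕ → ZI → ℝ, ∀ j a, fj j a = if np a ∧ x j < nz a ∧ nz a ≤ x (j + 1) then 1 else 0 :=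
    ⟨_, fun _ _ => rfl⟩
  have hfj0 : ∀ j a, 0 ≤ fj j a := fun j a => by rw [hfj]; split_ifs <;> norm_num
  obtain ⟨f, hf⟩ : ∃ f : ZI → ℝ, ∀ a, f a = ∑ j ∈ range J, fj j a := ⟨_, fun _ => rfl⟩
  have hf' : ∀ a, f a = if np a ∧ x 0 < nz a ∧ nz a ≤ x J then 1 else 0 := fun a => by
    rw [hf, ← part x hx (np a) (nz a) J]
    exact sum_congr rfl fun j _ => hfj j a
  have hf0 : ∀ a, 0 ≤ f a := fun a => by rw [hf']; split_ifs <;> norm_num
  have hf1 : ∀ a, f a ≤ 1 := fun a => by rw [hf']; split_ifs <;> norm_num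
  have hfp : ∀ a, f a ≠ 0 → np a := fun a h => by
    rw [hf'] at h
    by_contra hc
    apply h
    rw [if_neg (fun h' => hc h'.1)]
  obtain ⟨σ, hσ⟩ : ∃ σ : ℝ, σ = ∑ a ∈ Q, f a / nz a := ⟨_, rfl⟩
  -- the lower bound for `σ`
  have hσlo : 2 * η1 * J ≤ σ := by
    have e1 : σ = ∑ j ∈ range J, ∑ a ∈ Q, fj j a / nz a := by
      rw [hσ, sum_comm]
      refine sum_congr rfl fun a _ => ?_
      rw [hf, sum_div]
    have e2 : 2 * η1 * J = ∑ j ∈ range J, 2 * η1 := by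
      rw [sum_const, card_range, nsmul_eq_mul]
      ring
    rw [e1, e2]
    refine sum_le_sum fun j hj => (hw j hj).trans ?_
    have hsub : bg (M ^ κ j) (M ^ κ (j + 1)) ⊆ Q := by
      intro a ha
      rw [mem_bg, ← hxdef] at ha
      rw [hQ, mem_bl]
      refine ⟨ha.1, ha.2.1.trans ?_⟩
      rw [← hxJ]
      exact hxmono (mem_range.1 hj)
    have e3 : ∑ a ∈ bg (M ^ κ j) (M ^ κ (j + 1)), (if np a then 1 / nz a else 0) =
        ∑ a ∈ bg (M ^ κ j) (M ^ κ (j + 1)), fj j a / nz a := by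
      refine sum_congr rfl fun a ha => ?_
      rw [mem_bg, ← hxdef, ← hxdef] at ha
      rw [hfj]
      by_cases h : np a
      · rw [if_pos h, if_pos ⟨h, ha.2.2, ha.2.1⟩]
      · rw [if_neg h, if_neg (fun h' => h h'.1), zero_div]
    rw [e3]
    exact sum_le_sum_of_subset_of_nonneg hsub fun a _ _ => div_nonneg (hfj0 j a) (nz_nonneg a)
  have hσK : max 1 ((40 / η) ^ 2) ≤ σ := by linarith
  have hσ1 : 1 ≤ σ := hK0.trans hσK
  have hσ0 : 0 < σ := by linarith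
  have hσs : 40 / η ≤ Real.sqrt σ := Real.le_sqrt_of_sq_le ((le_max_right _ _).trans hσK)
  have hss : Real.sqrt σ * Real.sqrt σ = σ := Real.mul_self_sqrt hσ0.le
  have hs0 := Real.sqrt_nonneg σ
  have hsσ : Real.sqrt σ ≤ σ := by
    have h1 : 1 ≤ Real.sqrt σ := Real.one_le_sqrt.2 hσ1
    nlinarith
  -- the number of the elements
  have hQc : 48 * (Q.card : ℝ) ^ 2 ≤ M := by
    have e1 : ((bl (M ^ c4)).card : ℝ) ≤ 9 * M ^ c4 := card_bl (Real.one_le_rpow hM1 hc4.le)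
    have e2 : M ^ c4 ≤ M ^ (1 / 8 : ℝ) := Real.rpow_le_rpow_of_exponent_le hM1 hc48
    have e3 : M ^ (1 / 8 : ℝ) * M ^ (1 / 8 : ℝ) = M ^ (1 / 4 : ℝ) := by
      rw [← Real.rpow_add hM0]
      norm_num
    have e4 : M ^ (3 / 4 : ℝ) * M ^ (1 / 4 : ℝ) = M := by
      rw [← Real.rpow_add hM0]
      norm_num
    have e5 : (0 : ℝ) ≤ M ^ (1 / 4 : ℝ) := by positivity
    rw [hQ]
    calc 48 * ((bl (M ^ c4)).card : ℝ) ^ 2 ≤ 48 * (9 * M ^ (1 / 8 : ℝ)) ^ 2 := by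
          have : ((bl (M ^ c4)).card : ℝ) ≤ 9 * M ^ (1 / 8 : ℝ) := e1.trans (by linarith)
          have := pow_le_pow_left₀ (Nat.cast_nonneg _) this 2
          linarith
      _ = 3888 * (M ^ (1 / 8 : ℝ) * M ^ (1 / 8 : ℝ)) := by ring
      _ = 3888 * M ^ (1 / 4 : ℝ) := by rw [e3]
      _ ≤ M ^ (3 / 4 : ℝ) * M ^ (1 / 4 : ℝ) := by nlinarith
      _ = M := e4
  have hQ0 : ∀ a ∈ Q, a ≠ 0 := fun a ha => by
    rw [hQ, mem_bl] at ha
    exact ha.1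
  have hmom := moment hf0 hf1 hfp hQ0 hM1 hQc l hσ hσ1
  have hcard := card_an hM1
  obtain ⟨N, hN⟩ : ∃ N : ℤ → ℝ, ∀ m, N m = ∑ a ∈ Q, f a * dvi a (⟨l, m⟩ : ZI) := ⟨_, fun _ => rfl⟩
  have hN0 : ∀ m, 0 ≤ N m := fun m => by
    rw [hN]
    exact sum_nonneg fun a _ => mul_nonneg (hf0 a) (dvi_nonneg _ _)
  have hmom' : ∑ m ∈ an (-1) M, |N m - σ| ^ 2 ≤ 33 * M * σ := by
    refine le_trans (le_of_eq ?_) hmom
    refine sum_congr rfl fun m _ => ?_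
    rw [sq_abs, hN]
  -- Cauchy-Schwarz
  have hCS : ∑ m ∈ an (-1) M, |N m - σ| ≤ 10 * M * Real.sqrt σ := by
    have e1 := sq_sum_le_card_mul_sum_sq (s := an (-1) M) (f := fun m => |N m - σ|)
    have e2 : (∑ m ∈ an (-1) M, |N m - σ|) ^ 2 ≤ (10 * M * Real.sqrt σ) ^ 2 := by
      calc (∑ m ∈ an (-1) M, |N m - σ|) ^ 2 ≤ ((an (-1) M).card : ℝ) * ∑ m ∈ an (-1) M, |N m - σ| ^ 2 := e1
        _ ≤ 3 * M * (33 * M * σ) := mul_le_mul hcard hmom' (sum_nonneg fun _ _ => sq_nonneg _) (by positivity)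
        _ ≤ 100 * M ^ 2 * σ := by
            have : 0 ≤ M ^ 2 * σ := by positivity
            nlinarith
        _ = 100 * M ^ 2 * (Real.sqrt σ * Real.sqrt σ) := by rw [hss]
        _ = _ := by ring
    exact (le_abs_self _).trans (abs_le_of_sq_le_sq e2 (by positivity))
  have hNsum : ∑ m ∈ an (-1) M, N m ≤ 13 * M * σ := by
    have e1 : ∀ m ∈ an (-1) M, N m ≤ |N m - σ| + σ := fun m _ => by
      have := le_abs_self (N m - σ)
      linarith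
    have e2 := sum_le_sum e1
    rw [sum_add_distrib, sum_const, nsmul_eq_mul] at e2
    have e3 : ((an (-1) M).card : ℝ) * σ ≤ 3 * M * σ := mul_le_mul_of_nonneg_right hcard hσ0.le
    have e4 : 10 * M * Real.sqrt σ ≤ 10 * M * σ := mul_le_mul_of_nonneg_left hsσ (by positivity)
    linarith
  have hz : ∀ m : ℤ, (⟨l, m⟩ : ZI) ≠ 0 := fun m h => by
    have := congrArg Zsqrtd.re h
    simp at this
    omega
  -- one window
  have hone : ∀ j ∈ range J, |∑ m ∈ an (-1) M, lo (⟨l, m⟩ : ZI) * ∑ a ∈ Q, fj j a * dvi a (⟨l, m⟩ : ZI)| ≤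
      η / (4 * J) * M + η1 * ∑ m ∈ an (-1) M, ∑ a ∈ Q, fj j a * dvi a (⟨l, m⟩ : ZI) := by
    intro j hj
    have hjJ := mem_range.1 hj
    obtain ⟨F, hF⟩ : ∃ F : ZI → ℝ, F = fw M (M ^ κ j) (M ^ κ (j + 1)) := ⟨_, rfl⟩
    have hFi : ∀ a, 0 ≤ F a / κ j - fj j a ∧ F a / κ j - fj j a ≤ η1 * fj j a := fun a => by
      rw [hF]
      apply fw_ind (by linarith) (hκpos j) (hκs j)
      · intro h
        rw [hfj, hxdef, hxdef, if_pos h]
      · intro h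
        rw [hfj, hxdef, hxdef, if_neg h]
    have hcv : ∀ m : ℤ, cv F lo (⟨l, m⟩ : ZI) = - (lo (⟨l, m⟩ : ZI) * ∑ a ∈ Q, F a * dvi a (⟨l, m⟩ : ZI)) := fun m => by
      apply cv_lo _ _ (hz m)
      · intro a ha
        rw [hF] at ha
        exact (fw_ne ha).1
      · intro a ha
        rw [hF] at ha
        have h1 := fw_ne ha
        rw [hQ, mem_bl]
        refine ⟨np_ne h1.1, h1.2.2.trans ?_⟩
        rw [← hxdef, ← hxJ]
        exact hxmono hjJ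
    have h1 := hyp j hjJ
    rw [← an_eq, ← hF] at h1
    have e1 : ∑ m ∈ an (-1) M, cv F lo (⟨l, m⟩ : ZI) =
        - ∑ m ∈ an (-1) M, lo (⟨l, m⟩ : ZI) * ∑ a ∈ Q, F a * dvi a (⟨l, m⟩ : ZI) := by
      rw [← sum_neg_distrib]
      exact sum_congr rfl fun m _ => hcv m
    rw [e1, abs_neg] at h1
    have e2 : ∑ m ∈ an (-1) M, lo (⟨l, m⟩ : ZI) * ∑ a ∈ Q, fj j a * dvi a (⟨l, m⟩ : ZI) =
        1 / κ j * ∑ m ∈ an (-1) M, lo (⟨l, m⟩ : ZI) * ∑ a ∈ Q, F a * dvi a (⟨l, m⟩ : ZI) -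
        ∑ m ∈ an (-1) M, lo (⟨l, m⟩ : ZI) * ∑ a ∈ Q, (F a / κ j - fj j a) * dvi a (⟨l, m⟩ : ZI) := by
      rw [mul_sum, ← sum_sub_distrib]
      refine sum_congr rfl fun m _ => ?_
      have e3 : ∑ a ∈ Q, (F a / κ j - fj j a) * dvi a (⟨l, m⟩ : ZI) =
          1 / κ j * ∑ a ∈ Q, F a * dvi a (⟨l, m⟩ : ZI) - ∑ a ∈ Q, fj j a * dvi a (⟨l, m⟩ : ZI) := by
        rw [mul_sum, ← sum_sub_distrib]
        refine sum_congr rfl fun a _ => ?_
        ring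
      rw [e3]
      ring
    rw [e2]
    refine (abs_sub _ _).trans (add_le_add ?_ ?_)
    · rw [abs_mul, abs_of_pos (by have := hκpos j; positivity : 0 < 1 / κ j)]
      have hk := hκpos j
      have hk0 := hκpos 0
      have hk1 : κ 0 ≤ κ j := hκmono (Nat.zero_le j)
      calc 1 / κ j * |∑ m ∈ an (-1) M, lo (⟨l, m⟩ : ZI) * ∑ a ∈ Q, F a * dvi a (⟨l, m⟩ : ZI)| ≤
            1 / κ 0 * (η * κ 0 / (4 * J) * M) :=
            mul_le_mul (one_div_le_one_div_of_le hk0 hk1) h1 (abs_nonneg _) (by positivity)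
        _ = _ := by field_simp
    · refine (abs_sum_le_sum_abs _ _).trans ?_
      rw [mul_sum]
      refine sum_le_sum fun m _ => ?_
      rw [abs_mul]
      have g1 : 0 ≤ ∑ a ∈ Q, (F a / κ j - fj j a) * dvi a (⟨l, m⟩ : ZI) :=
        sum_nonneg fun a _ => mul_nonneg (hFi a).1 (dvi_nonneg _ _)
      rw [abs_of_nonneg g1]
      calc |lo (⟨l, m⟩ : ZI)| * ∑ a ∈ Q, (F a / κ j - fj j a) * dvi a (⟨l, m⟩ : ZI) ≤
            1 * ∑ a ∈ Q, (F a / κ j - fj j a) * dvi a (⟨l, m⟩ : ZI) := mul_le_mul_of_nonneg_right (abs_lo _) g1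
        _ ≤ η1 * ∑ a ∈ Q, fj j a * dvi a (⟨l, m⟩ : ZI) := by
            rw [one_mul, mul_sum]
            refine sum_le_sum fun a _ => ?_
            rw [← mul_assoc]
            exact mul_le_mul_of_nonneg_right (hFi a).2 (dvi_nonneg _ _)
  have hNj : ∀ m, N m = ∑ j ∈ range J, ∑ a ∈ Q, fj j a * dvi a (⟨l, m⟩ : ZI) := fun m => by
    rw [hN, sum_comm]
    refine sum_congr rfl fun a _ => ?_
    rw [hf, sum_mul]
  have hlN : |∑ m ∈ an (-1) M, lo (⟨l, m⟩ : ZI) * N m| ≤ η / 4 * M + η1 * ∑ m ∈ an (-1) M, N m := by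
    have e1 : ∑ m ∈ an (-1) M, lo (⟨l, m⟩ : ZI) * N m =
        ∑ j ∈ range J, ∑ m ∈ an (-1) M, lo (⟨l, m⟩ : ZI) * ∑ a ∈ Q, fj j a * dvi a (⟨l, m⟩ : ZI) := by
      rw [sum_comm]
      refine sum_congr rfl fun m _ => ?_
      rw [hNj, mul_sum]
    have e2 : ∑ m ∈ an (-1) M, N m = ∑ j ∈ range J, ∑ m ∈ an (-1) M, ∑ a ∈ Q, fj j a * dvi a (⟨l, m⟩ : ZI) := by
      rw [sum_comm]
      exact sum_congr rfl fun m _ => hNj m
    rw [e1]
    refine (abs_sum_le_sum_abs _ _).trans ((sum_le_sum hone).trans (le_of_eq ?_))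
    rw [sum_add_distrib, sum_const, card_range, nsmul_eq_mul, ← mul_sum, ← e2]
    congr 1
    field_simp
  -- the end
  obtain ⟨S, hS⟩ : ∃ S : ℝ, S = ∑ m ∈ an (-1) M, lo (⟨l, m⟩ : ZI) := ⟨_, rfl⟩
  rw [← an_eq, ← hS]
  have e1 : σ * S = ∑ m ∈ an (-1) M, lo (⟨l, m⟩ : ZI) * N m - ∑ m ∈ an (-1) M, lo (⟨l, m⟩ : ZI) * (N m - σ) := by
    rw [hS, mul_sum, ← sum_sub_distrib]
    refine sum_congr rfl fun m _ => ?_
    ring
  have e2 : |∑ m ∈ an (-1) M, lo (⟨l, m⟩ : ZI) * (N m - σ)| ≤ 10 * M * Real.sqrt σ := by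
    refine le_trans ((abs_sum_le_sum_abs _ _).trans (sum_le_sum fun m _ => ?_)) hCS
    rw [abs_mul]
    exact mul_le_of_le_one_left (abs_nonneg _) (abs_lo _)
  have e3 : σ * |S| ≤ η / 4 * M + η1 * (13 * M * σ) + 10 * M * Real.sqrt σ := by
    rw [← abs_of_pos hσ0, ← abs_mul, abs_of_pos hσ0, e1]
    refine (abs_sub _ _).trans (add_le_add (hlN.trans ?_) e2)
    have := mul_le_mul_of_nonneg_left hNsum hη10.le
    linarith
  have e4 : η / 4 * M ≤ η / 4 * M * σ := le_mul_of_one_le_right (by positivity) hσ1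
  have e5 : η1 * (13 * M * σ) ≤ η / 4 * M * σ := by
    have h1 : 0 ≤ 13 * M * σ := by positivity
    have := mul_le_mul_of_nonneg_right hη1a h1
    linarith
  have e6 : 10 * M * Real.sqrt σ ≤ η / 4 * M * σ := by
    rw [div_le_iff₀ hη] at hσs
    have h1 : 10 * Real.sqrt σ ≤ η / 4 * (Real.sqrt σ * Real.sqrt σ) := by nlinarith
    rw [hss] at h1
    have := mul_le_mul_of_nonneg_left h1 hM0.le
    linarith
  have e7 : |S| * σ ≤ η * M * σ := by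
    have h1 : 0 ≤ η * M * σ := by positivity
    linarith
  exact le_of_mul_le_mul_right e7 hσ0

end Pool.Agent.J6H16.E4.TKL
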