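import Pool.Agent.J6H16.E4.Ug

/-!
# Project E4 (helper16): intervals, almost all `l`
-/

set_option autoImplicit false

namespace Pool.Agent.J6H16.E4

open Finset Filter Topology
open Pool.Agent.N782.GN hiding f1
open Pool.Agent.N855.GN
open Pool.Agent.H304R3.HK (UH bb LamK CS)
open Pool.Agent.J6H16.PF Pool.Agent.J6H16.PR Pool.Agent.J6H16.E2

theorem card_an {X Y : ℝ} (hX : 0 ≤ X) (hXY : X ≤ Y) : ((an X Y).card : ℝ) ≤ 2 * (Y - X) + 2 := by
  have h1 := an_split hX hXY (fun _ => (1 : ℝ))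
  simp only [sum_const, nsmul_eq_mul, mul_one] at h1
  rw [h1, Int.ceil_neg, Int.ceil_neg, Int.card_Icc, Int.card_Icc]
  have hf : 0 ≤ ⌊X⌋ := Int.floor_nonneg.2 hX
  have hfN : ⌊X⌋ ≤ ⌊Y⌋ := Int.floor_mono hXY
  have h2 : (((⌊Y⌋ + 1 - -⌊Y⌋).toNat : ℕ) : ℤ) = 2 * ⌊Y⌋ + 1 := by
    rw [Int.toNat_of_nonneg (by omega)]
    ring
  have h3 : (((⌊X⌋ + 1 - -⌊X⌋).toNat : ℕ) : ℤ) = 2 * ⌊X⌋ + 1 := by
    rw [Int.toNat_of_nonneg (by omega)]
    ring
  have h4 : (((⌊Y⌋ + 1 - -⌊Y⌋).toNat : ℕ) : ℝ) = 2 * (⌊Y⌋ : ℝ) + 1 := by exact_mod_cast h2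
  have h5 : (((⌊X⌋ + 1 - -⌊X⌋).toNat : ℕ) : ℝ) = 2 * (⌊X⌋ : ℝ) + 1 := by exact_mod_cast h3
  rw [h4, h5]
  linarith [Int.floor_le Y, Int.lt_floor_add_one X]

/-- comparison of two parts of a line -/
theorem an_cmp {X X' M Y : ℝ} (hX' : 0 ≤ X') (h1 : X' ≤ X) (h2 : X ≤ Y) (h3 : X' ≤ M) (h4 : M ≤ Y) (F : ℤ → ℝ)
    (hF : ∀ m, |F m| ≤ 1) :
    |∑ m ∈ an X Y, F m| ≤ |∑ m ∈ an X' M, F m| + (2 * (Y - M) + 2 * (X - X') + 4) := by
  have hX : 0 ≤ X := hX'.trans h1
  have hM : 0 ≤ M := hX'.trans h3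
  have e1 : ∑ m ∈ an X Y, F m = ∑ m ∈ an X' M, F m + (∑ m ∈ an M Y, F m - ∑ m ∈ an X' X, F m) := by
    rw [an_split hX h2, an_split hX' h3, an_split hM h4, an_split hX' h1]
    ring
  have hb : ∀ U V : ℝ, 0 ≤ U → U ≤ V → |∑ m ∈ an U V, F m| ≤ 2 * (V - U) + 2 := by
    intro U V hU hUV
    refine (abs_sum_le_sum_abs _ _).trans ((sum_le_sum fun m _ => hF m).trans ?_)
    rw [sum_const, nsmul_eq_mul, mul_one]
    exact card_an hU hUV
  have g1 := hb M Y hM h4
  have g2 := hb X' X hX' h1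
  rw [e1]
  refine (abs_add_le _ _).trans (add_le_add le_rfl ?_)
  refine (abs_sub _ _).trans ?_
  linarith

open Classical in
/-- **almost all `l`, all intervals** -/
theorem grid_int (hTK : S_TKA) (ε η : ℝ) (A B : ℕ) (hε : 0 < ε) (hε1 : ε ≤ 1) (hη : 0 < η) : ∀ᶠ K : ℝ in atTop,
    (((Icc 1 ⌊K⌋).filter (fun l : ℤ => ¬ ∀ X Y : ℝ, 0 ≤ X → X ≤ Y → K ^ (1 + ε) ≤ Y → Y ≤ K ^ (3 - ε) →
      Y / (Real.log K) ^ B ≤ Y - X → |∑ m ∈ an X Y, lo (⟨l, m⟩ : ZI)| ≤ η * (Y - X))).card : ℝ) ≤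
      K / (Real.log K) ^ A := by
  classical
  obtain ⟨J, κ, θ, hθ, hκ0, hκ, hκJ, hT⟩ := hTK (η / 4) (ε / 648) (B + 1) (by positivity) (by positivity) (by linarith)
  obtain ⟨M0, hM0⟩ := eventually_atTop.1 hT
  set B1 := B + 2 with hB1
  set A2 := A + B + 2 * B1 + 3 with hA2
  obtain ⟨C, hC, h⟩ := avg_an ε A2 hε hε1 J κ hκ0 hκ hκJ
  filter_upwards [h, eventually_ge_atTop (3 : ℝ), eventually_ge_atTop M0,
    ev_log (32 * J * C / θ + 36 / η + 4), ev_rp (show 0 < ε / 2 by positivity) 2,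
    ev_log_rpow (ε / 2) (by positivity) B1 4, ev_log_rpow 1 one_pos B1 4]
    with K h hK3 hKM hℓK hKε hKl hKl1
  have hK0 : 0 < K := by linarith
  have hK1 : 1 ≤ K := by linarith
  set ℓ := Real.log K with hℓ
  have hℓ4 : 4 ≤ ℓ := by
    have : 0 ≤ 32 * J * C / θ + 36 / η := by positivity
    linarith
  have hℓC : 32 * J * C / θ ≤ ℓ := by
    have : 0 ≤ 36 / η := by positivity
    linarith
  have hℓη : 36 / η ≤ ℓ := by
    have : 0 ≤ 32 * J * C / θ := by positivity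
    linarith
  have hℓ0 : 0 < ℓ := by linarith
  have hℓ1 : 1 ≤ ℓ := by linarith
  set h0 : ℝ := 1 / ℓ ^ B1 with hh0
  have hh0p : 0 < h0 := by positivity
  have hh02 : h0 ≤ 1 / 2 := by
    rw [hh0]
    apply one_div_le_one_div_of_le (by norm_num)
    calc (2 : ℝ) ≤ ℓ := by linarith
      _ = ℓ ^ 1 := (pow_one ℓ).symm
      _ ≤ ℓ ^ B1 := pow_le_pow_right₀ hℓ1 (by omega)
  obtain ⟨hexp, hexp2, -⟩ := exp_small hh0p.le hh02
  set I : ℕ := ⌊3 * ℓ ^ (B1 + 1)⌋₊ + 1 with hI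
  have hIb : (I : ℝ) ≤ 4 * ℓ ^ (B1 + 1) := by
    have h1 : (⌊3 * ℓ ^ (B1 + 1)⌋₊ : ℝ) ≤ 3 * ℓ ^ (B1 + 1) := Nat.floor_le (by positivity)
    have h2 : 1 ≤ ℓ ^ (B1 + 1) := one_le_pow₀ hℓ1
    rw [hI]
    push_cast
    linarith
  have hIlt : ∀ i : ℕ, Real.exp (i * h0) ≤ K ^ (3 : ℝ) → i < I := by
    intro i hi
    have h1 := Real.log_le_log (Real.exp_pos _) hi
    rw [Real.log_exp, Real.log_rpow hK0, ← hℓ, hh0, mul_one_div, div_le_iff₀ (by positivity)] at h1
    have h2 : (i : ℝ) ≤ 3 * ℓ ^ (B1 + 1) := by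
      refine h1.trans (le_of_eq ?_)
      ring
    rw [hI, Nat.lt_succ_iff]
    exact Nat.le_floor h2
  set xg : ℕ → ℝ := fun n => if n = 0 then 0 else Real.exp (n * h0) with hxg
  set S0 := Icc 1 ⌊K⌋ with hS0
  set T := (range I ×ˢ (range I ×ˢ range J)).filter (fun t : ℕ × ℕ × ℕ => K ^ (1 + ε / 2) ≤ Real.exp (t.1 * h0) ∧
    Real.exp (t.1 * h0) ≤ K ^ (3 - ε / 2) ∧ (xg t.2.1 = 0 ∨ K ^ (1 + ε / 2) ≤ xg t.2.1) ∧
    xg t.2.1 ≤ Real.exp (t.1 * h0) ∧ Real.exp (t.1 * h0) / (2 * ℓ ^ B) ≤ Real.exp (t.1 * h0) - xg t.2.1) with hTd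
  set F : ℕ × ℕ × ℕ → ℤ → ℝ := fun t l => |∑ m ∈ an (xg t.2.1) (Real.exp (t.1 * h0)),
    cv (fw (Real.exp (t.1 * h0)) ((Real.exp (t.1 * h0)) ^ κ t.2.2) ((Real.exp (t.1 * h0)) ^ κ (t.2.2 + 1))) lo
      (⟨l, m⟩ : ZI)| with hF
  set St : ℕ × ℕ × ℕ → Finset ℤ := fun t => S0.filter (fun l => θ * (Real.exp (t.1 * h0) - xg t.2.1) < F t l) with hSt
  have hcardSt : ∀ t ∈ T, ((St t).card : ℝ) ≤ 2 * C / θ * (K / ℓ ^ (A2 - B)) := by
    intro t ht
    rw [hTd, mem_filter, mem_product, mem_product, mem_range, mem_range, mem_range] at ht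
    obtain ⟨⟨-, -, tj⟩, t1, t2, t3, t4, t5⟩ := ht
    have hE := Real.exp_pos (t.1 * h0)
    have hd : 0 < Real.exp (t.1 * h0) - xg t.2.1 := lt_of_lt_of_le (by positivity) t5
    have k1 := h (xg t.2.1) (Real.exp (t.1 * h0)) t3 t4 t1 t2 t.2.2 tj
    have k3 := markov S0 (F t) (fun _ => abs_nonneg _) (mul_pos hθ hd)
    refine k3.trans ?_
    rw [div_le_iff₀ (mul_pos hθ hd)]
    refine k1.trans ?_
    have e1 : ℓ ^ A2 = ℓ ^ (A2 - B) * ℓ ^ B := by
      rw [← pow_add]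
      congr 1
      omega
    calc C * (K * Real.exp (t.1 * h0) / ℓ ^ A2) = 2 * C / θ * (K / ℓ ^ (A2 - B)) * (θ * (Real.exp (t.1 * h0) / (2 * ℓ ^ B))) := by
          rw [e1]
          field_simp
      _ ≤ 2 * C / θ * (K / ℓ ^ (A2 - B)) * (θ * (Real.exp (t.1 * h0) - xg t.2.1)) := by
          apply mul_le_mul_of_nonneg_left _ (by positivity)
          exact mul_le_mul_of_nonneg_left t5 hθ.le
  have hcardT : (T.card : ℝ) ≤ 16 * ℓ ^ (2 * B1 + 2) * J := by
    have e1 : T.card ≤ I * (I * J) := by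
      refine (card_filter_le _ _).trans (le_of_eq ?_)
      rw [card_product, card_product, card_range, card_range]
    have e2 : (T.card : ℝ) ≤ I * (I * J) := by exact_mod_cast e1
    refine e2.trans ?_
    have hI0 : (0 : ℝ) ≤ I := Nat.cast_nonneg I
    calc (I : ℝ) * (I * J) ≤ (4 * ℓ ^ (B1 + 1)) * ((4 * ℓ ^ (B1 + 1)) * J) := by gcongr
      _ = 16 * ℓ ^ (2 * B1 + 2) * J := by ring
  have hincl : S0.filter (fun l : ℤ => ¬ ∀ X Y : ℝ, 0 ≤ X → X ≤ Y → K ^ (1 + ε) ≤ Y → Y ≤ K ^ (3 - ε) →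
      Y / ℓ ^ B ≤ Y - X → |∑ m ∈ an X Y, lo (⟨l, m⟩ : ZI)| ≤ η * (Y - X)) ⊆ T.biUnion St := by
    intro l hl
    rw [mem_filter] at hl
    by_contra hcon
    rw [mem_biUnion] at hcon
    push Not at hcon
    apply hl.2
    have hl1 : 1 ≤ l := by
      have := hl.1
      rw [hS0, mem_Icc] at this
      exact this.1
    have hlK : (l : ℝ) ≤ K := by
      have := hl.1
      rw [hS0, mem_Icc, Int.le_floor] at this
      exact this.2
    intro X Y hX0 hXY hY1 hY2 hd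
    have hKY : K ≤ Y := by
      calc K = K ^ (1 : ℝ) := (Real.rpow_one K).symm
        _ ≤ K ^ (1 + ε) := Real.rpow_le_rpow_of_exponent_le hK1 (by linarith)
        _ ≤ Y := hY1
    have hY0 : 0 < Y := by linarith
    have hYlog : 0 ≤ Real.log Y := Real.log_nonneg (by linarith)
    -- the point of the grid below `Z`
    have hgrid : ∀ Z : ℝ, 1 ≤ Z → Real.exp ((⌊Real.log Z / h0⌋₊ : ℕ) * h0) ≤ Z ∧
        Z ≤ (1 + 2 * h0) * Real.exp ((⌊Real.log Z / h0⌋₊ : ℕ) * h0) := by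
      intro Z hZ
      have hZ0 : 0 < Z := by linarith
      have hZl : 0 ≤ Real.log Z := Real.log_nonneg hZ
      constructor
      · rw [← Real.le_log_iff_exp_le hZ0, ← le_div_iff₀ hh0p]
        exact Nat.floor_le (by positivity)
      · have e1 : Real.log Z < ((⌊Real.log Z / h0⌋₊ : ℕ) + 1) * h0 := by
          rw [← div_lt_iff₀ hh0p]
          exact Nat.lt_floor_add_one _
        have e2 : Z ≤ Real.exp (((⌊Real.log Z / h0⌋₊ : ℕ) + 1) * h0) := by
          rw [← Real.log_le_iff_le_exp hZ0]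
          exact e1.le
        refine e2.trans ?_
        rw [add_mul, one_mul, Real.exp_add, mul_comm]
        exact mul_le_mul_of_nonneg_right hexp (Real.exp_pos _).le
    set i : ℕ := ⌊Real.log Y / h0⌋₊ with hi
    set M : ℝ := Real.exp (i * h0) with hMd
    obtain ⟨hMY, hYM⟩ := hgrid Y (by linarith)
    rw [← hi, ← hMd] at hMY hYM
    have hM00 : 0 < M := Real.exp_pos _
    have hh0M : 2 * h0 * M ≤ 2 * (Y / ℓ ^ B1) := by
      rw [hh0]
      calc 2 * (1 / ℓ ^ B1) * M = 2 * (M / ℓ ^ B1) := by ring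
        _ ≤ _ := by gcongr
    have hYM2 : Y - M ≤ 2 * (Y / ℓ ^ B1) := by linarith
    have hM1 : K ^ (1 + ε / 2) ≤ M := by
      have e1 : Y ≤ 2 * M := by nlinarith
      have e2 : K ^ (1 + ε / 2) * 2 ≤ Y := by
        calc K ^ (1 + ε / 2) * 2 ≤ K ^ (1 + ε / 2) * K ^ (ε / 2) := mul_le_mul_of_nonneg_left hKε (by positivity)
          _ = K ^ (1 + ε) := by
            rw [← Real.rpow_add hK0]
            congr 1
            ring
          _ ≤ Y := hY1
      linarith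
    have hM2 : M ≤ K ^ (3 - ε / 2) := by
      refine hMY.trans (hY2.trans ?_)
      exact Real.rpow_le_rpow_of_exponent_le hK1 (by linarith)
    have hM3 : M ≤ K ^ (3 : ℝ) := hM2.trans (Real.rpow_le_rpow_of_exponent_le hK1 (by linarith))
    have hKM' : K ≤ M := by
      calc K = K ^ (1 : ℝ) := (Real.rpow_one K).symm
        _ ≤ K ^ (1 + ε / 2) := Real.rpow_le_rpow_of_exponent_le hK1 (by linarith)
        _ ≤ M := hM1
    -- the lower end
    obtain ⟨i', hi'I, hx0, hx1, hx2, hx3, hx4⟩ : ∃ i' : ℕ, i' < I ∧ 0 ≤ xg i' ∧ xg i' ≤ X ∧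
        (xg i' = 0 ∨ K ^ (1 + ε / 2) ≤ xg i') ∧ xg i' ≤ M ∧ X - xg i' ≤ 2 * (Y / ℓ ^ B1) := by
      by_cases hc : X < Y / ℓ ^ B1
      · refine ⟨0, by omega, ?_, ?_, ?_, ?_, ?_⟩
        · rw [hxg]
          simp
        · rw [hxg]
          simp [hX0]
        · left
          rw [hxg]
          simp
        · rw [hxg]
          simp [hM00.le]
        · rw [hxg]
          simp only [if_pos, sub_zero]
          have : 0 ≤ Y / ℓ ^ B1 := by positivity
          linarith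
      · push Not at hc
        have hX2 : 2 * K ^ (1 + ε / 2) ≤ X := by
          refine le_trans ?_ hc
          rw [le_div_iff₀ (by positivity)]
          calc 2 * K ^ (1 + ε / 2) * ℓ ^ B1 ≤ K ^ (1 + ε / 2) * (4 * ℓ ^ B1) := by
                have : 0 ≤ K ^ (1 + ε / 2) * ℓ ^ B1 := by positivity
                nlinarith
            _ ≤ K ^ (1 + ε / 2) * K ^ (ε / 2) := mul_le_mul_of_nonneg_left hKl (by positivity)
            _ = K ^ (1 + ε) := by
              rw [← Real.rpow_add hK0]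
              congr 1
              ring
            _ ≤ Y := hY1
        have hKX : K ≤ X := by
          have : K ≤ K ^ (1 + ε / 2) := by
            calc K = K ^ (1 : ℝ) := (Real.rpow_one K).symm
              _ ≤ K ^ (1 + ε / 2) := Real.rpow_le_rpow_of_exponent_le hK1 (by linarith)
          have : 0 ≤ K ^ (1 + ε / 2) := by positivity
          linarith
        obtain ⟨hg1, hg2⟩ := hgrid X (by linarith)
        set i' : ℕ := ⌊Real.log X / h0⌋₊ with hi'
        have hle : i' ≤ i := by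
          rw [hi', hi]
          apply Nat.floor_mono
          exact div_le_div_of_nonneg_right (Real.log_le_log (by linarith) hXY) hh0p.le
        have hne : i' ≠ 0 := by
          have : 1 ≤ i' := by
            rw [hi']
            apply Nat.le_floor
            rw [Nat.cast_one, le_div_iff₀ hh0p]
            have h6 : ℓ ≤ Real.log X := Real.log_le_log hK0 hKX
            linarith
          omega
        have hxe : xg i' = Real.exp (i' * h0) := by
          rw [hxg]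
          simp [hne]
        have hlow : K ^ (1 + ε / 2) ≤ Real.exp (i' * h0) := by
          have e1 : X ≤ 2 * Real.exp (i' * h0) := by
            have := Real.exp_pos (i' * h0)
            nlinarith
          linarith
        refine ⟨i', lt_of_le_of_lt hle (hIlt i hM3), ?_, ?_, ?_, ?_, ?_⟩
        · rw [hxe]
          exact (Real.exp_pos _).le
        · rw [hxe]
          exact hg1
        · right
          rw [hxe]
          exact hlow
        · rw [hxe, hMd]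
          apply Real.exp_le_exp.2
          exact mul_le_mul_of_nonneg_right (by exact_mod_cast hle) hh0p.le
        · rw [hxe]
          have e1 : 2 * h0 * Real.exp (i' * h0) ≤ 2 * (Y / ℓ ^ B1) := by
            rw [hh0]
            calc 2 * (1 / ℓ ^ B1) * Real.exp (i' * (1 / ℓ ^ B1)) = 2 * (Real.exp (i' * (1 / ℓ ^ B1)) / ℓ ^ B1) := by ring
              _ ≤ 2 * (Y / ℓ ^ B1) := by
                rw [← hh0]
                have := hg1.trans hXY
                gcongr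
          linarith
    -- sizes
    have hYd : Y / ℓ ^ B1 ≤ (Y - X) / ℓ ^ 2 := by
      rw [hB1, pow_add, ← div_div]
      exact div_le_div_of_nonneg_right hd (by positivity)
    have hYX0 : 0 < Y - X := lt_of_lt_of_le (by positivity) hd
    have hl16 : 16 ≤ ℓ ^ 2 := by nlinarith
    have hYd8 : Y / ℓ ^ B1 ≤ (Y - X) / 16 := hYd.trans (div_le_div_of_nonneg_left hYX0.le (by norm_num) hl16)
    have hlow : (Y - X) / 2 ≤ M - xg i' := by linarith
    have hup : M - xg i' ≤ 2 * (Y - X) := by linarith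
    have hMB : M / ℓ ^ B ≤ Y - X := (div_le_div_of_nonneg_right hMY (by positivity)).trans hd
    have hMB2 : M / (2 * ℓ ^ B) ≤ M - xg i' := by
      refine le_trans (le_of_eq ?_) (le_trans (div_le_div_of_nonneg_right hMB (by norm_num : (0 : ℝ) ≤ 2)) hlow)
      field_simp
    have hlogM : ℓ ≤ Real.log M := Real.log_le_log hK0 hKM'
    have hMB3 : M / (Real.log M) ^ (B + 1) ≤ M - xg i' := by
      refine le_trans ?_ hMB2
      apply div_le_div_of_nonneg_left hM00.le (by positivity)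
      calc 2 * ℓ ^ B ≤ ℓ * ℓ ^ B := mul_le_mul_of_nonneg_right (by linarith) (by positivity)
        _ = ℓ ^ (B + 1) := by rw [pow_succ]; ring
        _ ≤ (Real.log M) ^ (B + 1) := pow_le_pow_left₀ hℓ0.le hlogM _
    have key := hM0 M (hKM.trans hKM') l (xg i') hl1 (hlK.trans hKM') hx0 hx3 hMB3 (fun j hj => by
      have htT : (i, i', j) ∈ T := by
        rw [hTd, mem_filter, mem_product, mem_product, mem_range, mem_range, mem_range]
        exact ⟨⟨hIlt i hM3, hi'I, hj⟩, hM1, hM2, hx2, hx3, hMB2⟩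
      have n4 := hcon _ htT
      by_contra hc
      push Not at hc
      apply n4
      rw [hSt]
      simp only
      rw [mem_filter]
      exact ⟨hl.1, hc⟩)
    have k2 := an_cmp (X := X) (Y := Y) hx0 hx1 hXY hx3 hMY (fun m => lo (⟨l, m⟩ : ZI)) (fun m => lo_abs _)
    refine k2.trans ?_
    have k3 : η / 4 * (M - xg i') ≤ η / 4 * (2 * (Y - X)) := mul_le_mul_of_nonneg_left hup (by positivity)
    have k4 : 4 ≤ Y / ℓ ^ B1 := by
      rw [le_div_iff₀ (by positivity)]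
      have e1 : 4 * ℓ ^ B1 ≤ K ^ (1 : ℝ) := hKl1
      rw [Real.rpow_one] at e1
      exact e1.trans hKY
    have k5 : 9 * (Y / ℓ ^ B1) ≤ η / 4 * (Y - X) := by
      have e1 : 36 / η ≤ ℓ ^ 2 := hℓη.trans (by nlinarith)
      have e2 : 36 ≤ ℓ ^ 2 * η := by
        rw [div_le_iff₀ hη] at e1
        exact e1
      calc 9 * (Y / ℓ ^ B1) ≤ 9 * ((Y - X) / ℓ ^ 2) := mul_le_mul_of_nonneg_left hYd (by norm_num)
        _ = (Y - X) * (36 / ℓ ^ 2) / 4 := by ring
        _ ≤ (Y - X) * η / 4 := by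
            apply div_le_div_of_nonneg_right _ (by norm_num)
            apply mul_le_mul_of_nonneg_left _ hYX0.le
            rw [div_le_iff₀ (by positivity)]
            linarith
        _ = _ := by ring
    linarith
  have hfin : (((S0.filter (fun l : ℤ => ¬ ∀ X Y : ℝ, 0 ≤ X → X ≤ Y → K ^ (1 + ε) ≤ Y → Y ≤ K ^ (3 - ε) →
      Y / ℓ ^ B ≤ Y - X → |∑ m ∈ an X Y, lo (⟨l, m⟩ : ZI)| ≤ η * (Y - X))).card : ℕ) : ℝ) ≤ ∑ t ∈ T, ((St t).card : ℝ) := by
    have e1 := card_le_card hincl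
    have e4 : (T.biUnion St).card ≤ ∑ t ∈ T, (St t).card := card_biUnion_le
    exact_mod_cast e1.trans e4
  refine hfin.trans ?_
  calc ∑ t ∈ T, ((St t).card : ℝ) ≤ ∑ t ∈ T, 2 * C / θ * (K / ℓ ^ (A2 - B)) := sum_le_sum hcardSt
    _ = (T.card : ℝ) * (2 * C / θ * (K / ℓ ^ (A2 - B))) := by rw [sum_const, nsmul_eq_mul]
    _ ≤ 16 * ℓ ^ (2 * B1 + 2) * J * (2 * C / θ * (K / ℓ ^ (A2 - B))) := mul_le_mul_of_nonneg_right hcardT (by positivity)
    _ = (32 * J * C / θ) / ℓ * (K / ℓ ^ A) := by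
        have : ℓ ^ (A2 - B) = ℓ ^ (2 * B1 + 2) * (ℓ * ℓ ^ A) := by
          rw [← pow_succ', ← pow_add]
          congr 1
          omega
        rw [this]
        field_simp
        ring
    _ ≤ 1 * (K / ℓ ^ A) := by
        apply mul_le_mul_of_nonneg_right _ (by positivity)
        rw [div_le_one hℓ0]
        exact hℓC
    _ = K / ℓ ^ A := one_mul _

end Pool.Agent.J6H16.E4
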