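import Pool.Agent.J6H16.E4.Stm
import Pool.Agent.J6H16.E2.Po

/-!
# Project E4 (helper16, module TKL by helper94): counts on one line, the convolution with the Liouville function,
the density of the primes in a window
-/

set_option autoImplicit false

namespace Pool.Agent.J6H16.E4.TKL

open Finset Filter Topology
open Pool.Agent.N782.GN hiding f1
open Pool.Agent.N855.GN
open Pool.Agent.H304R3.HK (LamK)
open Pool.Agent.J6H16.PF Pool.Agent.J6H16.PR Pool.Agent.J6H16.E2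

theorem an_eq (M : ℝ) : an (-1) M = Icc ⌈-M⌉ ⌊M⌋ := by
  unfold an
  apply filter_true_of_mem
  intro m _
  have := abs_nonneg (m : ℝ)
  linarith

/-- the number of the integers of a class in an interval -/
theorem cls_cnt {r : ℤ} (hr : 0 < r) (v N : ℤ) (hN : 0 ≤ N) :
    |(((Icc (-N) N).filter (fun m : ℤ => r ∣ m - v)).card : ℝ) - (2 * N + 1) / r| ≤ 1 := by
  have e1 : (Icc (-N) N).filter (fun m : ℤ => r ∣ m - v) = (Ioc (-N - 1) N).filter (fun m : ℤ => m ≡ v [ZMOD r]) := by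
    ext m
    rw [mem_filter, mem_filter, mem_Icc, mem_Ioc]
    have h1 : (m ≡ v [ZMOD r]) ↔ r ∣ m - v := by
      rw [Int.modEq_comm, Int.modEq_iff_dvd]
    rw [h1]
    constructor
    · rintro ⟨⟨h2, h3⟩, h4⟩
      exact ⟨⟨by omega, h3⟩, h4⟩
    · rintro ⟨⟨h2, h3⟩, h4⟩
      exact ⟨⟨by omega, h3⟩, h4⟩
  have e2 := Int.Ioc_filter_modEq_card (-N - 1) N hr v
  rw [e1]
  set c := ((Ioc (-N - 1) N).filter (fun m : ℤ => m ≡ v [ZMOD r])).card with hc
  have hrq : (0 : ℚ) < (r : ℚ) := by exact_mod_cast hr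
  set q1 : ℚ := ((N : ℤ) - (v : ℤ) : ℚ) / (r : ℚ) with hq1
  set q2 : ℚ := (((-N - 1 : ℤ) : ℚ) - (v : ℤ)) / (r : ℚ) with hq2
  have h12 : q1 - q2 = (2 * (N : ℚ) + 1) / r := by
    rw [hq1, hq2]
    push_cast
    ring
  have hNq : (0 : ℚ) ≤ (N : ℚ) := by exact_mod_cast hN
  have hle : q2 ≤ q1 := by
    have : 0 ≤ (2 * (N : ℚ) + 1) / r := by positivity
    linarith
  have hfl : ⌊q2⌋ ≤ ⌊q1⌋ := Int.floor_le_floor hle
  have e3 : (c : ℤ) = ⌊q1⌋ - ⌊q2⌋ := by
    rw [e2]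
    exact max_eq_left (by omega)
  have b1 := Int.floor_le q1
  have b2 := Int.lt_floor_add_one q1
  have b3 := Int.floor_le q2
  have b4 := Int.lt_floor_add_one q2
  have e4 : (c : ℚ) = (⌊q1⌋ : ℚ) - (⌊q2⌋ : ℚ) := by exact_mod_cast e3
  have b5 : |(c : ℚ) - (2 * (N : ℚ) + 1) / r| ≤ 1 := by
    rw [← h12, e4, abs_le]
    constructor <;> linarith
  have b6 : ((|(c : ℚ) - (2 * (N : ℚ) + 1) / r| : ℚ) : ℝ) ≤ ((1 : ℚ) : ℝ) := by exact_mod_cast b5
  push_cast at b6
  exact b6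

/-- the number of the multiples of a primitive element on a line -/
theorem cnt {M : ℝ} (hM : 1 ≤ M) {a : ZI} (ha : ct a = 1) (l : ℤ) :
    |ca (-1) M l a - 2 * (M - (-1)) / nz a| ≤ 4 := by
  classical
  have ha0 : a ≠ 0 := by
    rintro rfl
    unfold ct at ha
    simp at ha
  have hn : 0 < Zsqrtd.norm a := GaussianInt.norm_pos.2 ha0
  set N : ℤ := ⌊M⌋ with hN
  have hN1 : 1 ≤ N := Int.le_floor.2 (by exact_mod_cast hM)
  have e0 : ca (-1) M l a = (((Icc (-N) N).filter (fun m : ℤ => Zsqrtd.norm a ∣ m - nu a * l)).card : ℝ) := by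
    unfold ca
    rw [an_eq, Int.ceil_neg]
    congr 2
    ext m
    rw [mem_filter, mem_filter, Pool.Agent.N7.GN.Rls.rls.1 a ha l m]
  rw [e0]
  have h1 := cls_cnt hn (nu a * l) N (by omega)
  have hz : nz a = ((Zsqrtd.norm a : ℤ) : ℝ) := rfl
  rw [hz]
  set c : ℝ := (((Icc (-N) N).filter (fun m : ℤ => Zsqrtd.norm a ∣ m - nu a * l)).card : ℝ)
  set r : ℝ := ((Zsqrtd.norm a : ℤ) : ℝ) with hr
  have hr1 : 1 ≤ r := by
    rw [hr]
    exact_mod_cast hn
  have hNM := Int.floor_le M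
  have hNM2 := Int.lt_floor_add_one M
  rw [← hN] at hNM hNM2
  have h2 : |(2 * (N : ℝ) + 1) / r - 2 * (M - (-1)) / r| ≤ 3 := by
    rw [← sub_div, abs_div, abs_of_pos (by linarith : 0 < r), div_le_iff₀ (by linarith)]
    have h3 : |2 * (N : ℝ) + 1 - 2 * (M - (-1))| ≤ 3 := by
      rw [abs_le]
      constructor <;> linarith
    nlinarith
  calc |c - 2 * (M - (-1)) / r| = |(c - (2 * (N : ℝ) + 1) / r) + ((2 * (N : ℝ) + 1) / r - 2 * (M - (-1)) / r)| := by
        ring_nf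
    _ ≤ |c - (2 * (N : ℝ) + 1) / r| + |(2 * (N : ℝ) + 1) / r - 2 * (M - (-1)) / r| := abs_add_le _ _
    _ ≤ 4 := by linarith

theorem lo_om {z : ZI} (hz : z ≠ 0) : lo z = (-1) ^ om z := by
  unfold lo
  rw [if_neg hz]
  rfl

theorem abs_lo (z : ZI) : |lo z| ≤ 1 := by
  by_cases hz : z = 0
  · unfold lo
    rw [if_pos hz, abs_zero]
    exact zero_le_one
  · rw [lo_om hz, abs_pow, abs_neg, abs_one, one_pow]

theorem lo_mul {a b : ZI} (ha : np a) (hb : b ≠ 0) : lo b = - lo (a * b) := by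
  have ha0 := np_ne ha
  rw [lo_om hb, lo_om (mul_ne_zero ha0 hb), om_mul ha0 hb, om_np ha, pow_add, pow_one]
  ring

/-- the convolution with the Liouville function -/
theorem cv_lo {g : ZI → ℝ} (hg : ∀ a, g a ≠ 0 → np a) {S : Finset ZI} (hS : ∀ a, g a ≠ 0 → a ∈ S) {z : ZI}
    (hz : z ≠ 0) : cv g lo z = - (lo z * ∑ a ∈ S, g a * dvi a z) := by
  classical
  unfold cv cf
  set F := (bl (nz z) ×ˢ bl (nz z)).filter (fun p => p.1 * p.2 = z) with hF
  have h1 : ∑ p ∈ F, g p.1 * lo p.2 = - (lo z * ∑ p ∈ F, g p.1) := by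
    rw [mul_sum, ← sum_neg_distrib]
    refine sum_congr rfl fun p hp => ?_
    rw [hF, mem_filter, mem_product, mem_bl, mem_bl] at hp
    by_cases h0 : g p.1 = 0
    · rw [h0]; ring
    · rw [lo_mul (hg _ h0) hp.1.2.1, hp.2]
      ring
  have hinj : Set.InjOn Prod.fst (F : Set (ZI × ZI)) := by
    intro p hp p' hp' h
    rw [hF, coe_filter, Set.mem_ofPred_eq] at hp hp'
    have h1 : p.1 ≠ 0 := fun h0 => hz (by rw [← hp.2, h0, zero_mul])
    have h2 : p.1 * p.2 = p.1 * p'.2 := by rw [hp.2, h, hp'.2]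
    exact Prod.ext h (mul_left_cancel₀ h1 h2)
  have himg : F.image Prod.fst = Dv z := by
    ext a
    rw [mem_image, mem_Dv hz]
    constructor
    · rintro ⟨p, hp, rfl⟩
      rw [hF, mem_filter] at hp
      exact ⟨p.2, hp.2.symm⟩
    · rintro ⟨b, rfl⟩
      have ha : a ≠ 0 := left_ne_zero_of_mul hz
      have hb : b ≠ 0 := right_ne_zero_of_mul hz
      refine ⟨(a, b), ?_, rfl⟩
      rw [hF, mem_filter, mem_product, mem_bl, mem_bl, Pool.Agent.N855.GN.nz_mul]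
      refine ⟨⟨⟨ha, ?_⟩, ⟨hb, ?_⟩⟩, rfl⟩
      · exact le_mul_of_one_le_right (nz_nonneg a) (nz_one_le hb)
      · exact le_mul_of_one_le_left (nz_nonneg b) (nz_one_le ha)
  have h2 : ∑ p ∈ F, g p.1 = ∑ a ∈ Dv z, g a := by
    rw [← himg, sum_image hinj]
  have h3 : ∑ a ∈ Dv z, g a = ∑ a ∈ S ∪ Dv z, g a * dvi a z := by
    rw [← sum_subset (subset_union_right : Dv z ⊆ S ∪ Dv z) (f := fun a => g a * dvi a z)]
    · refine sum_congr rfl fun a ha => ?_
      rw [mem_Dv hz] at ha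
      unfold dvi
      rw [if_pos ha, mul_one]
    · intro a _ ha
      rw [mem_Dv hz] at ha
      unfold dvi
      rw [if_neg ha, mul_zero]
  have h4 : ∑ a ∈ S, g a * dvi a z = ∑ a ∈ S ∪ Dv z, g a * dvi a z := by
    apply sum_subset subset_union_left
    intro a _ ha
    have : g a = 0 := by
      by_contra h
      exact ha (hS a h)
    rw [this, zero_mul]
  rw [h1, h2, h3, h4]

open Classical in
/-- **the density of the primes of degree one in a window** -/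
theorem win_lo {κ η1 : ℝ} (hκ : 0 < κ) (h1 : 0 < η1) (h2 : η1 ≤ 1 / 2) : ∀ᶠ M : ℝ in atTop,
    2 * η1 ≤ ∑ a ∈ bg (M ^ κ) (M ^ ((1 + η1) * κ)), (if np a then 1 / nz a else 0) := by
  obtain ⟨C, hC, hm⟩ := mert
  set K := (1 + η1) * κ with hK
  have hK0 : 0 < K := by positivity
  filter_upwards [ev_log_rpow (κ / 4) (by positivity) 3 (24 * K ^ 3), ev_log_rpow (κ / 4) (by positivity) 1 (4 * K + 2),
    eventually_ge_atTop (3 : ℝ), ev_log ((2 * C + 1) / (κ * η1)), ev_rp hκ 3] with M e1 e2 hM3 hlog hM3'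
  have hM0 : 0 < M := by linarith
  have hM1 : 1 ≤ M := by linarith
  have hL := one_le_log hM3
  set ℓ := Real.log M with hℓ
  set x := M ^ κ with hx
  set y := M ^ K with hy
  have hxy : x ≤ y := Real.rpow_le_rpow_of_exponent_le hM1 (by rw [hK]; nlinarith)
  have hx1 : 1 ≤ x := by linarith
  have hy1 : 1 ≤ y := hx1.trans hxy
  have hlx : Real.log x = κ * ℓ := by rw [hx, Real.log_rpow hM0]
  have hly : Real.log y = K * ℓ := by rw [hy, Real.log_rpow hM0]
  have m1 := hm x hx1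
  have m2 := hm y hy1
  rw [hlx] at m1
  rw [hly] at m2
  have s1 := sum_split x y hxy (fun c => LamK c / nz c)
  set s := M ^ (κ / 4) with hs
  have hs0 : 0 < s := by positivity
  have hsx : s * s * (s * s) = x := by
    rw [hs, hx, ← Real.rpow_add hM0, ← Real.rpow_add hM0]
    congr 1
    ring
  -- the prime powers
  have b1 : ∀ Z : ℝ, x ≤ Z → Z ≤ y → ∑ t ∈ bl Z, (LamK t - Lp t) ≤ s⁻¹ * Z := by
    intro Z hZ1 hZ2
    have hZ3 : 3 ≤ Z := hM3'.trans hZ1
    have hZ0 : 0 < Z := by linarith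
    have c1 := lamdiff hZ3
    have d1 : Real.log Z ≤ K * ℓ := by
      rw [← hly]
      exact Real.log_le_log hZ0 hZ2
    have d2 : (Real.log Z) ^ 3 ≤ (K * ℓ) ^ 3 := pow_le_pow_left₀ (Real.log_nonneg (by linarith)) d1 3
    have d3 : Real.sqrt Z * Real.sqrt Z = Z := Real.mul_self_sqrt hZ0.le
    have d4 : s * s ≤ Real.sqrt Z := by
      apply Real.le_sqrt_of_sq_le
      calc (s * s) ^ 2 = s * s * (s * s) := by ring
        _ = x := hsx
        _ ≤ Z := hZ1
    have d5 : 24 * (Real.log Z) ^ 3 ≤ s := by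
      calc 24 * (Real.log Z) ^ 3 ≤ 24 * (K * ℓ) ^ 3 := by linarith
        _ = 24 * K ^ 3 * ℓ ^ 3 := by ring
        _ ≤ s := e1
    refine c1.trans ?_
    have hsq := Real.sqrt_nonneg Z
    calc 24 * Real.sqrt Z * (Real.log Z) ^ 3 = Real.sqrt Z * (24 * (Real.log Z) ^ 3) := by ring
      _ ≤ Real.sqrt Z * s := mul_le_mul_of_nonneg_left d5 hsq
      _ = s⁻¹ * (Real.sqrt Z * (s * s)) := by field_simp
      _ ≤ s⁻¹ * (Real.sqrt Z * Real.sqrt Z) := by gcongr
      _ = s⁻¹ * Z := by rw [d3]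
  have b2 := dyad_up hx1 hxy (fun t => LamK t - Lp t) (fun t => sub_nonneg.2 (Lp_le_LamK t)) b1
  have b3 : ∑ t ∈ bg x y, (LamK t - Lp t) / nz t ≤ 1 := by
    refine b2.trans ?_
    rw [hly]
    have e3 : 2 * (2 * (K * ℓ) + 1) ≤ s := by
      calc 2 * (2 * (K * ℓ) + 1) ≤ (4 * K + 2) * ℓ ^ 1 := by
            rw [pow_one]
            nlinarith
        _ ≤ s := e2
    calc 2 * s⁻¹ * (2 * (K * ℓ) + 1) = s⁻¹ * (2 * (2 * (K * ℓ) + 1)) := by ring
      _ ≤ s⁻¹ * s := mul_le_mul_of_nonneg_left e3 (by positivity)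
      _ = 1 := inv_mul_cancel₀ hs0.ne'
  have b4 : ∑ t ∈ bg x y, (LamK t - Lp t) / nz t = ∑ t ∈ bg x y, LamK t / nz t - ∑ t ∈ bg x y, Lp t / nz t := by
    rw [← sum_sub_distrib]
    exact sum_congr rfl fun t _ => sub_div _ _ _
  -- from the weights to the indicator
  have b5 : ∑ t ∈ bg x y, Lp t / nz t ≤ K * ℓ * ∑ t ∈ bg x y, (if np t then 1 / nz t else 0) := by
    rw [mul_sum]
    refine sum_le_sum fun t ht => ?_
    rw [mem_bg] at ht
    have hn := nz_pos ht.1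
    unfold Lp
    split_ifs with hnp
    · rw [mul_one_div]
      refine div_le_div_of_nonneg_right ?_ hn.le
      rw [← hly]
      exact Real.log_le_log hn ht.2.1
    · simp
  rw [abs_le] at m1 m2
  have s1' : ∑ c ∈ bl y, LamK c / nz c = ∑ c ∈ bl x, LamK c / nz c + ∑ c ∈ bg x y, LamK c / nz c := s1
  have hlog' : 2 * C + 1 ≤ ℓ * (κ * η1) := by
    rwa [div_le_iff₀ (by positivity)] at hlog
  set Sg := ∑ t ∈ bg x y, (if np t then 1 / nz t else 0) with hSg
  have b6 : 4 * (K * ℓ) - 4 * (κ * ℓ) - 2 * C - 1 ≤ K * ℓ * Sg := by linarith [m1.1, m1.2, m2.1, m2.2]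
  have b7 : 2 * η1 * (K * ℓ) ≤ 4 * (K * ℓ) - 4 * (κ * ℓ) - 2 * C - 1 := by
    have g1 : 4 * (K * ℓ) - 4 * (κ * ℓ) = 4 * η1 * (κ * ℓ) := by rw [hK]; ring
    have g2 : 2 * η1 * (K * ℓ) ≤ 3 * η1 * (κ * ℓ) := by
      have g3 : K * ℓ ≤ 3 / 2 * (κ * ℓ) := by
        rw [hK]
        have h3 : 0 ≤ κ * ℓ := by positivity
        have h4 := mul_le_mul_of_nonneg_right h2 h3
        linarith
      have h4 := mul_le_mul_of_nonneg_left g3 (by linarith : 0 ≤ 2 * η1)
      linarith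
    rw [g1]
    linarith
  have hKl : 0 < K * ℓ := by positivity
  exact le_of_mul_le_mul_right (by linarith : 2 * η1 * (K * ℓ) ≤ Sg * (K * ℓ)) hKl

/-- a partition into windows -/
theorem part (x : ℕ → ℝ) (hx : ∀ j, x j ≤ x (j + 1)) (P : Prop) [Decidable P] (t : ℝ) (n : ℕ) :
    ∑ j ∈ range n, (if P ∧ x j < t ∧ t ≤ x (j + 1) then (1 : ℝ) else 0) =
      if P ∧ x 0 < t ∧ t ≤ x n then 1 else 0 := by
  have hmono : Monotone x := monotone_nat_of_le_succ hx
  induction n with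
  | zero =>
    rw [range_zero, sum_empty, if_neg]
    rintro ⟨-, h1, h2⟩
    linarith
  | succ n ih =>
    rw [sum_range_succ, ih]
    have h0 : x 0 ≤ x n := hmono (Nat.zero_le n)
    have h1 := hx n
    by_cases hP : P
    · by_cases ha : x 0 < t
      · by_cases hb : t ≤ x n
        · rw [if_pos ⟨hP, ha, hb⟩, if_neg (fun h => by linarith [h.2.1]), if_pos ⟨hP, ha, hb.trans h1⟩, add_zero]
        · push Not at hb
          by_cases hc : t ≤ x (n + 1)
          · rw [if_neg (fun h => by linarith [h.2.2]), if_pos ⟨hP, hb, hc⟩, if_pos ⟨hP, ha, hc⟩, zero_add]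
          · rw [if_neg (fun h => by linarith [h.2.2]), if_neg (fun h => hc h.2.2), if_neg (fun h => hc h.2.2), add_zero]
      · rw [if_neg (fun h => ha h.2.1), if_neg (fun h => ha (lt_of_le_of_lt h0 h.2.1)), if_neg (fun h => ha h.2.1),
          add_zero]
    · rw [if_neg (fun h => hP h.1), if_neg (fun h => hP h.1), if_neg (fun h => hP h.1), add_zero]

end Pool.Agent.J6H16.E4.TKL
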