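import Pool.Agent.J6H16.E2.Se
import Pool.Agent.J6H16.E4.Lt

/-!
# Project E4 (helper16): the bilinear sums, decomposition into shells
-/

set_option autoImplicit false

namespace Pool.Agent.J6H16.E4

open Finset Filter Topology
open Pool.Agent.N782.GN hiding f1
open Pool.Agent.N855.GN
open Pool.Agent.H304R3.HK (UH bb LamK CS)
open Pool.Agent.J6H16.PF Pool.Agent.J6H16.PR Pool.Agent.J6H16.E2

/-- the summand, general -/
noncomputable def GG (M x y Yg : ℝ) (g : ℕ) (al : ZI → ℝ) (N : ℝ) (lam : ℤ → ℝ) (t v : ZI) : ℝ :=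
  cv (fw M x y) (gy Yg g) t * al v * Fz lam N (t * v)

open Classical in
/-- the summand, primitive `t` -/
noncomputable def G1 (M x y Yg : ℝ) (g : ℕ) (al : ZI → ℝ) (N : ℝ) (lam : ℤ → ℝ) (t v : ZI) : ℝ :=
  (if ct t = 1 then cv (fw M x y) (gy Yg g) t else 0) * al v * Fz lam N (t * v)

/-- pairs with the product in a given set -/
theorem pairs_le (M x y Yg : ℝ) (g : ℕ) (al : ZI → ℝ) (hM : 1 < M) (S1 S2 : Finset ZI)
    (h1 : ∀ t ∈ S1, t ≠ 0 ∧ nz t ≤ M ^ 6) (h2 : ∀ v ∈ S2, |al v| ≤ 24 * Real.log M) (Z : Finset ZI)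
    (hZ : ∀ z ∈ Z, z ≠ 0) (c : ZI → ZI → ℝ) (hc : ∀ t v, |c t v| ≤ 1) (hcZ : ∀ t v, c t v ≠ 0 → t * v ∈ Z) :
    |∑ t ∈ S1, ∑ v ∈ S2, cv (fw M x y) (gy Yg g) t * al v * c t v| ≤
      576 * Real.log M * ∑ z ∈ Z, (dv z : ℝ) := by
  have hl := Real.log_pos hM
  apply Pool.Agent.N277.GN.pair_count S1 S2 Z hZ _ _ (by positivity)
  · intro t ht v hv
    have k1 := cvg_bd (x := x) (y := y) (Yg := Yg) (g := g) hM (h1 t ht).1 (h1 t ht).2
    have k2 := h2 v hv
    push_cast at k1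
    rw [abs_mul, abs_mul]
    calc |cv (fw M x y) (gy Yg g) t| * |al v| * |c t v| ≤ (4 * 6) * (24 * Real.log M) * 1 := by
          apply mul_le_mul (mul_le_mul k1 k2 (abs_nonneg _) (by norm_num)) (hc t v) (abs_nonneg _) (by positivity)
      _ = _ := by ring
  · intro t _ v _ hne
    exact hcZ t v (right_ne_zero_of_mul hne)

/-- the sum over a pair of shells -/
theorem tgood {M x y Yg : ℝ} {g : ℕ} {al : ZI → ℝ} {N L : ℝ} {lam : ℤ → ℝ} {a b ρ κ : ℝ} (hlam : Lm L lam) (ha : 1 ≤ a) (hb : 1 ≤ b)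
    (hρ : 1 ≤ ρ) (hρ4 : ρ ≤ 4) (hab : (ρ * a) * (ρ * b) ≤ N ^ 2) (hN : 0 ≤ N) (hκ : 0 < κ) :
    ∑ t ∈ bg a (ρ * a), ∑ v ∈ bg b (ρ * b), G1 M x y Yg g al N lam t v =
      κ * ∑ l ∈ Icc 1 ⌊L⌋, lam l * Th (bt M x y Yg g a (ρ * a))
        (fun v => if b < nz v ∧ nz v ≤ ρ * b then al v / κ else 0) (Real.sqrt a) (Real.sqrt b) l := by
  classical
  set γ : ZI → ℝ := fun v => if b < nz v ∧ nz v ≤ ρ * b then al v / κ else 0 with hγ
  have hsa : (Real.sqrt a) ^ 2 = a := Real.sq_sqrt (by linarith)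
  have hsb : (Real.sqrt b) ^ 2 = b := Real.sq_sqrt (by linarith)
  -- the left side
  have e1 : ∑ t ∈ bg a (ρ * a), ∑ v ∈ bg b (ρ * b), G1 M x y Yg g al N lam t v =
      ∑ t ∈ bg a (4 * a), ∑ v ∈ bg b (4 * b), κ * (bt M x y Yg g a (ρ * a) t * γ v * lam (t * v).re) := by
    have hsubA : bg a (ρ * a) ⊆ bg a (4 * a) := by
      intro t ht
      rw [mem_bg] at ht ⊢
      exact ⟨ht.1, ht.2.1.trans (by nlinarith), ht.2.2⟩
    have hsubB : bg b (ρ * b) ⊆ bg b (4 * b) := by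
      intro t ht
      rw [mem_bg] at ht ⊢
      exact ⟨ht.1, ht.2.1.trans (by nlinarith), ht.2.2⟩
    rw [← sum_subset hsubA (f := fun t => ∑ v ∈ bg b (4 * b), κ * (bt M x y Yg g a (ρ * a) t * γ v * lam (t * v).re))]
    · refine sum_congr rfl fun t ht => ?_
      rw [← sum_subset hsubB (f := fun v => κ * (bt M x y Yg g a (ρ * a) t * γ v * lam (t * v).re))]
      · refine sum_congr rfl fun v hv => ?_
        rw [mem_bg] at ht hv
        have h1 : |((t * v).im : ℝ)| ≤ N := by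
          refine (Pool.Agent.N277.GN.abs_im_le _).trans ?_
          apply Real.sqrt_le_iff.2
          refine ⟨hN, ?_⟩
          rw [Pool.Agent.N855.GN.nz_mul]
          exact (mul_le_mul ht.2.1 hv.2.1 (nz_nonneg _) (by nlinarith)).trans hab
        have hb1 : bt M x y Yg g a (ρ * a) t = (if ct t = 1 then cv (fw M x y) (gy Yg g) t else 0) := by
          unfold bt
          exact if_pos ⟨ht.2.2, ht.2.1⟩
        have hg1 : γ v = al v / κ := if_pos ⟨hv.2.2, hv.2.1⟩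
        have hF : Fz lam N (t * v) = lam (t * v).re := by
          unfold Fz
          exact if_pos h1
        unfold G1
        rw [hb1, hg1, hF]
        field_simp
      · intro v hv hv'
        have : γ v = 0 := by
          simp only [hγ]
          rw [if_neg]
          rintro ⟨h1, h2⟩
          apply hv'
          rw [mem_bg] at hv ⊢
          exact ⟨hv.1, h2, h1⟩
        rw [this]
        ring
    · intro t ht ht'
      have : bt M x y Yg g a (ρ * a) t = 0 := by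
        unfold bt
        rw [if_neg]
        rintro ⟨h1, h2⟩
        apply ht'
        rw [mem_bg] at ht ⊢
        exact ⟨ht.1, h2, h1⟩
      rw [this]
      refine sum_eq_zero fun v _ => ?_
      ring
  rw [e1]
  -- the right side
  have e2 : ∑ l ∈ Icc 1 ⌊L⌋, lam l * Th (bt M x y Yg g a (ρ * a)) γ (Real.sqrt a) (Real.sqrt b) l =
      ∑ v ∈ bg b (4 * b), ∑ w ∈ bg a (4 * a), ∑ l ∈ Icc 1 ⌊L⌋, lam l * (if (w * v).re = l then
        γ v * bt M x y Yg g a (ρ * a) w else 0) := by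
    unfold Th
    rw [hsa, hsb]
    rw [sum_comm' (s := bg b (4 * b)) (t := fun _ => bg a (4 * a)) (s' := fun _ => bg b (4 * b)) (t' := bg a (4 * a))
      (by intros; tauto)]
    have : ∀ w ∈ bg a (4 * a), ∑ v ∈ bg b (4 * b), ∑ l ∈ Icc 1 ⌊L⌋, lam l * (if (w * v).re = l then
        γ v * bt M x y Yg g a (ρ * a) w else 0) = ∑ l ∈ Icc 1 ⌊L⌋, ∑ v ∈ bg b (4 * b), lam l * (if (w * v).re = l then
        γ v * bt M x y Yg g a (ρ * a) w else 0) := fun w _ => sum_comm
    rw [sum_congr rfl this, sum_comm]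
    refine sum_congr rfl fun l _ => ?_
    rw [mul_sum, sum_comm]
    refine sum_congr rfl fun v _ => ?_
    rw [mul_sum]
  rw [e2, mul_sum, sum_comm]
  refine sum_congr rfl fun v _ => ?_
  rw [mul_sum]
  refine sum_congr rfl fun w _ => ?_
  congr 1
  by_cases hl : (w * v).re ∈ Icc 1 ⌊L⌋
  · rw [sum_eq_single_of_mem _ hl]
    · rw [if_pos rfl]
      ring
    · intro l _ hne
      rw [if_neg (fun h => hne h.symm), mul_zero]
  · rw [hlam.zero hl, mul_zero]
    symm
    refine sum_eq_zero fun l hl' => ?_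
    rw [if_neg, mul_zero]
    rintro rfl
    exact hl hl'

end Pool.Agent.J6H16.E4
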