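import Pool.Agent.J6H16.E4.Td

/-!
# Project E4 (helper16): the bilinear sums, decomposition by the content
-/

set_option autoImplicit false

namespace Pool.Agent.J6H16.E4

open Finset Filter Topology
open Pool.Agent.N782.GN hiding f1
open Pool.Agent.N855.GN
open Pool.Agent.H304R3.HK (UH bb LamK CS)
open Pool.Agent.J6H16.PF Pool.Agent.J6H16.PR Pool.Agent.J6H16.E2
open Pool.Agent.N277.GN (lg Lm_lg bq mem_bq content_sum re_nat_mul im_nat_mul)

/-- the bilinear part -/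
noncomputable def VG (M x y Y : ℝ) (al : ZI → ℝ) (lam : ℤ → ℝ) : ℝ :=
  ∑ a ∈ bg x y, fw M x y a * ∑ b ∈ (bl (2 * M ^ 2)).filter (fun b => Y < nz b), ∑ v ∈ bl (2 * M ^ 2),
    mu b * al v * Fz lam M (a * (b * v))

/-- one content -/
theorem one_ct {M L x y Y : ℝ} {al : ZI → ℝ} {lam : ℤ → ℝ} {g : ℕ} (hM : 1 ≤ M) (hlam : Lm L lam) (hLM : L ≤ M) (hg : 1 ≤ g)
    (hyX : y ≤ 2 * M ^ 2) :
    ∑ a ∈ bg x y, fw M x y a * ∑ w ∈ bq (Y / (g : ℝ) ^ 2) (2 * M ^ 2 / (g : ℝ) ^ 2), be g w *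
      ∑ v ∈ bl (2 * M ^ 2), al v * Fz lam M (a * ((((g : ℕ) : ZI) * w) * v)) =
    ∑ t ∈ bl (2 * M ^ 2), ∑ v ∈ bl (2 * M ^ 2), GG M x y (Y / (g : ℝ) ^ 2) g al (M / g) (lg g lam) t v := by
  classical
  set X := 2 * M ^ 2 with hX
  have hX1 : 1 ≤ X := by nlinarith
  have hg0 : (0 : ℝ) < g := by exact_mod_cast hg
  have hg1 : (1 : ℝ) ≤ g := by exact_mod_cast hg
  set H : ZI → ℝ := fun t => ∑ v ∈ bl X, al v * Fz lam M (((g : ℕ) : ZI) * (t * v)) with hH
  have hHz : ∀ t : ZI, t ≠ 0 → X < (g : ℝ) ^ 2 * nz t → H t = 0 := by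
    intro t ht htX
    rw [hH]
    simp only
    refine sum_eq_zero fun v hv => ?_
    rw [Fz_zero hlam hLM le_rfl, mul_zero]
    rw [Pool.Agent.N855.GN.nz_mul, Pool.Agent.N855.GN.nz_mul, Pool.Agent.N277.GN.nz_natCast, ← mul_assoc,
      mul_comm _ (nz v)]
    exact mul_big (nz_one_le ((mem_bl _ _).1 hv).1) htX (by have := nz_nonneg t; positivity)
  have e1 : ∀ a ∈ bg x y, fw M x y a * ∑ w ∈ bq (Y / (g : ℝ) ^ 2) (X / (g : ℝ) ^ 2), be g w *
      ∑ v ∈ bl X, al v * Fz lam M (a * ((((g : ℕ) : ZI) * w) * v)) =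
      ∑ w ∈ bl X, fw M x y a * gy (Y / (g : ℝ) ^ 2) g w * H (a * w) := by
    intro a ha
    rw [mem_bg] at ha
    rw [mul_sum]
    have hsub : bq (Y / (g : ℝ) ^ 2) (X / (g : ℝ) ^ 2) ⊆ bl X := by
      intro w hw
      rw [mem_bq] at hw
      rw [mem_bl]
      exact ⟨hw.1, hw.2.1.trans (div_le_self (by linarith) (one_le_pow₀ hg1))⟩
    rw [← sum_subset hsub (f := fun w => fw M x y a * gy (Y / (g : ℝ) ^ 2) g w * H (a * w))]
    · refine sum_congr rfl fun w hw => ?_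
      rw [mem_bq] at hw
      unfold gy
      rw [if_pos hw.2.2, mul_assoc]
      congr 2
      rw [hH]
      simp only
      refine sum_congr rfl fun v _ => ?_
      congr 2
      ring
    · intro w hw hw'
      by_cases h1 : Y / (g : ℝ) ^ 2 < nz w
      · have h2 : X / (g : ℝ) ^ 2 < nz w := by
          by_contra hcon
          apply hw'
          rw [mem_bq]
          exact ⟨((mem_bl _ _).1 hw).1, not_lt.1 hcon, h1⟩
        have hw0 := ((mem_bl _ _).1 hw).1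
        rw [hHz (a * w) (mul_ne_zero ha.1 hw0), mul_zero]
        rw [div_lt_iff₀ (by positivity)] at h2
        rw [Pool.Agent.N855.GN.nz_mul, ← mul_assoc, mul_comm _ (nz a), mul_assoc]
        exact mul_big (nz_one_le ha.1) (by linarith) (by have := nz_nonneg w; positivity)
      · unfold gy
        rw [if_neg h1]
        ring
  rw [sum_congr rfl e1]
  rw [grp (fw M x y) (gy (Y / (g : ℝ) ^ 2) g) H (bg x y) (bl X) (bl (X * X)) (fun a ha w hw => by
    rw [mem_bg] at ha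
    rw [mem_bl] at hw ⊢
    refine ⟨mul_ne_zero ha.1 hw.1, ?_⟩
    rw [Pool.Agent.N855.GN.nz_mul]
    exact mul_le_mul (ha.2.1.trans hyX) hw.2 (nz_nonneg _) (by linarith))]
  have hsub : bl X ⊆ bl (X * X) := by
    intro t ht
    rw [mem_bl] at ht ⊢
    exact ⟨ht.1, ht.2.trans (le_mul_of_one_le_left (by linarith) hX1)⟩
  rw [← sum_subset hsub (f := fun t => cf (fw M x y) (gy (Y / (g : ℝ) ^ 2) g) (bg x y) (bl X) t * H t)]
  · refine sum_congr rfl fun t ht => ?_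
    rw [mem_bl] at ht
    rw [cf_cv ht.2 (fun a ha => ((mem_bg).1 ha).1) (fun a ha _ h => by
      by_contra hcon
      apply h
      rw [mem_bg]
      exact ⟨ha, (fw_ne hcon).2.2, (fw_ne hcon).2.1⟩)]
    rw [hH]
    simp only
    rw [mul_sum]
    refine sum_congr rfl fun v _ => ?_
    unfold GG
    rw [Fz_lg lam M hg]
    ring
  · intro t ht ht'
    have ht0 := ((mem_bl _ _).1 ht).1
    rw [hHz t ht0, mul_zero]
    have h1 : X < nz t := by
      by_contra hcon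
      exact ht' ((mem_bl _ _).2 ⟨ht0, not_lt.1 hcon⟩)
    exact mul_big (one_le_pow₀ hg1) h1 (nz_nonneg t)

/-- decomposition by the content -/
theorem VG_eq {M L x y Y : ℝ} {al : ZI → ℝ} {lam : ℤ → ℝ} (hM : 1 ≤ M) (hlam : Lm L lam) (hLM : L ≤ M) (hyX : y ≤ 2 * M ^ 2)
    (N : ℕ) (hN : Real.sqrt (2 * M ^ 2) ≤ N) :
    VG M x y Y al lam = ∑ g ∈ Icc 1 N, mu ((g : ℕ) : ZI) *
      ∑ t ∈ bl (2 * M ^ 2), ∑ v ∈ bl (2 * M ^ 2), GG M x y (Y / (g : ℝ) ^ 2) g al (M / g) (lg g lam) t v := by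
  classical
  unfold VG
  have e1 : ∀ a ∈ bg x y, fw M x y a * ∑ b ∈ (bl (2 * M ^ 2)).filter (fun b => Y < nz b), ∑ v ∈ bl (2 * M ^ 2),
      mu b * al v * Fz lam M (a * (b * v)) = ∑ g ∈ Icc 1 N, mu ((g : ℕ) : ZI) * (fw M x y a *
      ∑ w ∈ bq (Y / (g : ℝ) ^ 2) (2 * M ^ 2 / (g : ℝ) ^ 2), be g w *
        ∑ v ∈ bl (2 * M ^ 2), al v * Fz lam M (a * ((((g : ℕ) : ZI) * w) * v))) := by
    intro a _
    have h1 := content_sum c_mub (2 * M ^ 2) Y (fun b => ∑ v ∈ bl (2 * M ^ 2), al v * Fz lam M (a * (b * v))) N hN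
    have h2 : ∑ b ∈ (bl (2 * M ^ 2)).filter (fun b => Y < nz b), ∑ v ∈ bl (2 * M ^ 2),
        mu b * al v * Fz lam M (a * (b * v)) = ∑ b ∈ bq Y (2 * M ^ 2), mu b *
        (fun b => ∑ v ∈ bl (2 * M ^ 2), al v * Fz lam M (a * (b * v))) b := by
      refine sum_congr rfl fun b _ => ?_
      simp only
      rw [mul_sum]
      refine sum_congr rfl fun v _ => ?_
      ring
    rw [h2, h1, mul_sum]
    refine sum_congr rfl fun g _ => ?_
    ring
  rw [sum_congr rfl e1, sum_comm]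
  refine sum_congr rfl fun g hg => ?_
  rw [← mul_sum, one_ct hM hlam hLM (mem_Icc.1 hg).1 hyX]

/-- a large content -/
theorem S_large {M L x y Yg W : ℝ} {al : ZI → ℝ} (hal : Al W M al) {lam : ℤ → ℝ} {g : ℕ} (hM : 9 ≤ M) (hl : 2 ≤ Real.log M) (hg : 1 ≤ g) (hL : 0 ≤ L)
    (hlam : Lm (L / g) lam) (hLM : L ≤ M) :
    |∑ t ∈ bl (2 * M ^ 2), ∑ v ∈ bl (2 * M ^ 2), GG M x y Yg g al (M / g) lam t v| ≤
      110592 * (Real.log M) ^ 2 * (L * M) * (1 / (g : ℝ) ^ 2) := by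
  classical
  have hM0 : 0 < M := by linarith
  have hg0 : (0 : ℝ) < g := by exact_mod_cast hg
  have hg1 : (1 : ℝ) ≤ g := by exact_mod_cast hg
  have hS : ∀ t ∈ bl (2 * M ^ 2), t ≠ 0 ∧ nz t ≤ M ^ 6 := by
    intro t ht
    rw [mem_bl] at ht
    refine ⟨ht.1, ht.2.trans ?_⟩
    calc 2 * M ^ 2 ≤ M ^ 4 * M ^ 2 := by
          apply mul_le_mul_of_nonneg_right _ (by positivity)
          calc (2 : ℝ) ≤ M := by linarith
            _ ≤ M ^ 4 := le_self_pow₀ (by linarith) (by norm_num)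
      _ = M ^ 6 := by ring
  have h1 := pairs_le M x y Yg g al (by linarith) _ _ hS (fun v hv => hal.b v (hS v hv).1 (hS v hv).2) (Zb (L / g) (M / g)) (fun z hz => Zb_ne hz)
    (fun t v => Fz lam (M / g) (t * v)) (fun t v => Fz_abs hlam.1 _ _) (fun t v h => Fz_Zb hlam h)
  refine h1.trans ?_
  rcases le_or_gt 1 (M / (g : ℝ)) with hcase | hcase
  · have h2 := dvZ (L := L / g) (M := M / g) (by positivity) hcase (div_le_div_of_nonneg_right hLM hg0.le)
    have h3 : 1 + Real.log (2 * (M / g)) ≤ 2 * Real.log M := by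
      have h4 : Real.log (2 * (M / g)) ≤ Real.log 2 + Real.log M := by
        rw [Real.log_mul (by norm_num) (by positivity)]
        have := Real.log_le_log (by positivity) (div_le_self hM0.le hg1)
        linarith
      have := Real.log_two_lt_d9
      linarith
    calc 576 * Real.log M * ∑ z ∈ Zb (L / g) (M / g), (dv z : ℝ) ≤
          576 * Real.log M * (96 * (L / g * (M / g)) * (2 * Real.log M)) := by
          apply mul_le_mul_of_nonneg_left _ (by positivity)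
          exact h2.trans (mul_le_mul_of_nonneg_left h3 (by positivity))
      _ = _ := by
          field_simp
          ring
  · have h2 : Zb (L / g) (M / g) = ∅ := by
      rw [eq_empty_iff_forall_notMem]
      intro z hz
      rw [mem_Zb] at hz
      have h3 : (1 : ℝ) ≤ z.re := by exact_mod_cast hz.1
      have h4 := div_le_div_of_nonneg_right hLM hg0.le
      linarith [hz.2.1]
    rw [h2, sum_empty, mul_zero]
    positivity

/-- **the bilinear part** -/
theorem iig (ε : ℝ) (A : ℕ) (hε : 0 < ε) (hε1 : ε ≤ 1) {c3 c4 : ℝ} (hc3 : 0 < c3) (h34 : c3 < c4)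
    (hc4 : 6 * c4 ≤ ε) : ∃ C : ℝ, 0 < C ∧ ∀ᶠ M : ℝ in atTop, ∀ (L W Y x y : ℝ) (al : ZI → ℝ) (lam : ℤ → ℝ), Al W M al →
    M ^ ε ≤ L → L ≤ M ^ (1 - ε) → M / L * M ^ ε ≤ Y → M / L * M ^ ε ≤ W → M ^ c3 ≤ x → y ≤ M ^ c4 →
    Lm L lam → |VG M x y Y al lam| ≤ C * (L * M) / (Real.log M) ^ A := by
  classical
  obtain ⟨C, hC, hs⟩ := sgood ε (A + 1) (A + 3) hε hε1 hc3 h34 hc4
  refine ⟨3 * C + 221184, by positivity, ?_⟩
  filter_upwards [hs, eventually_ge_atTop (9 : ℝ), ev_log 4] with M hs hM9 hl4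
  intro L W Y x y al lam hal hL1 hL2 hY hW hx hy hlam
  have hM0 : 0 < M := by linarith
  have hM1 : 1 ≤ M := by linarith
  have hL0 : 1 ≤ L := (Real.one_le_rpow hM1 hε.le).trans hL1
  have hLM : L ≤ M := hL2.trans (by
    calc M ^ (1 - ε) ≤ M ^ (1 : ℝ) := Real.rpow_le_rpow_of_exponent_le hM1 (by linarith)
      _ = M := Real.rpow_one _)
  have hyX : y ≤ 2 * M ^ 2 := by
    have h1 : M ^ c4 ≤ M := by
      calc M ^ c4 ≤ M ^ (1 : ℝ) := Real.rpow_le_rpow_of_exponent_le hM1 (by linarith)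
        _ = M := Real.rpow_one _
    nlinarith
  set ℓ := Real.log M with hℓ
  have hℓ0 : 0 < ℓ := by linarith
  have hℓ1 : 1 ≤ ℓ := by linarith
  set N : ℕ := ⌈Real.sqrt (2 * M ^ 2)⌉₊ with hN
  have hN1 : Real.sqrt (2 * M ^ 2) ≤ N := Nat.le_ceil _
  have hNM : (N : ℝ) ≤ 3 * M := by
    have h1 := (Nat.ceil_lt_add_one (Real.sqrt_nonneg (2 * M ^ 2))).le
    have h2 : Real.sqrt (2 * M ^ 2) ≤ 2 * M := by
      apply Real.sqrt_le_iff.2
      constructor
      · positivity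
      · nlinarith
    linarith
  rw [VG_eq hM1 hlam hLM hyX N hN1]
  set G : ℕ := ⌊ℓ ^ (A + 3)⌋₊ with hG
  have hG1 : 1 ≤ G := by
    rw [hG]
    apply Nat.le_floor
    push_cast
    exact one_le_pow₀ hℓ1
  have hG2 : ℓ ^ (A + 3) ≤ 2 * G := by
    have h1 := Nat.lt_floor_add_one (ℓ ^ (A + 3))
    rw [← hG] at h1
    have h2 : (1 : ℝ) ≤ G := by exact_mod_cast hG1
    linarith
  set S : ℕ → ℝ := fun g => ∑ t ∈ bl (2 * M ^ 2), ∑ v ∈ bl (2 * M ^ 2),
    GG M x y (Y / (g : ℝ) ^ 2) g al (M / g) (lg g lam) t v with hS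
  have hLM0 : 0 ≤ L * M := by positivity
  have b1 : ∀ g ∈ Icc 1 N, |mu ((g : ℕ) : ZI) * S g| ≤ C * (L * M) / ℓ ^ (A + 1) * (1 / (g : ℝ)) +
      (if G < g then 110592 * ℓ ^ 2 * (L * M) * (1 / (g : ℝ) ^ 2) else 0) := by
    intro g hg
    rw [mem_Icc] at hg
    have hg0 : (0 : ℝ) < g := by exact_mod_cast hg.1
    have h1 : |mu ((g : ℕ) : ZI) * S g| ≤ |S g| := by
      rw [abs_mul]
      calc _ ≤ 1 * |S g| := mul_le_mul_of_nonneg_right (abs_mu_le _) (abs_nonneg _)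
        _ = _ := one_mul _
    refine h1.trans ?_
    split_ifs with hcase
    · have := S_large (x := x) (y := y) (Yg := Y / (g : ℝ) ^ 2) hal hM9 (by linarith) hg.1 (by linarith) (Lm_lg hlam hg.1) hLM
      have h2 : 0 ≤ C * (L * M) / ℓ ^ (A + 1) * (1 / (g : ℝ)) := by positivity
      rw [← hℓ] at this
      linarith
    · have hgB : (g : ℝ) ≤ ℓ ^ (A + 3) := by
        have h2 : g ≤ G := not_lt.1 hcase
        exact (by exact_mod_cast h2 : (g : ℝ) ≤ G).trans (Nat.floor_le (by positivity))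
      have := hs L W Y x y g al (lg g lam) hal hL1 hL2 hY hW hx hy hg.1 hgB (Lm_lg hlam hg.1)
      rw [add_zero]
      refine this.trans (le_of_eq ?_)
      ring
  refine (abs_sum_le_sum_abs _ _).trans ((sum_le_sum b1).trans ?_)
  rw [sum_add_distrib, ← mul_sum]
  have b2 : ∑ g ∈ Icc 1 N, 1 / (g : ℝ) ≤ 3 * ℓ := by
    have hNN : 1 ≤ N := by
      have : (1 : ℝ) ≤ N := by
        refine le_trans ?_ hN1
        apply Real.le_sqrt_of_sq_le
        nlinarith
      exact_mod_cast this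
    have h1 := harmonic_le_one_add_log N
    have h2 : ((harmonic N : ℚ) : ℝ) = ∑ n ∈ Icc 1 N, 1 / (n : ℝ) := by
      rw [harmonic_eq_sum_Icc]
      push_cast
      exact sum_congr rfl fun n _ => (one_div _).symm
    rw [h2] at h1
    have h3 : Real.log N ≤ Real.log 3 + ℓ := by
      have := Real.log_le_log (by exact_mod_cast hNN) hNM
      rwa [Real.log_mul (by norm_num) hM0.ne'] at this
    have h4 : Real.log 3 ≤ 2 := by
      have := Real.log_le_sub_one_of_pos (show (0 : ℝ) < 3 by norm_num)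
      linarith
    linarith
  have b3 : ∑ g ∈ Icc 1 N, (if G < g then 110592 * ℓ ^ 2 * (L * M) * (1 / (g : ℝ) ^ 2) else 0) ≤
      110592 * ℓ ^ 2 * (L * M) * (1 / (G : ℝ)) := by
    rw [← sum_filter, ← mul_sum]
    apply mul_le_mul_of_nonneg_left _ (by positivity)
    have h1 : (Icc 1 N).filter (fun g => G < g) = Ioc G N := by
      ext g
      rw [mem_filter, mem_Icc, mem_Ioc]
      omega
    rw [h1]
    exact Pool.Agent.N277.GN.sum_one_div_sq G N hG1
  have hG0 : (0 : ℝ) < G := by exact_mod_cast hG1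
  have b4 : 110592 * ℓ ^ 2 * (L * M) * (1 / (G : ℝ)) ≤ 221184 * (L * M) / ℓ ^ A := by
    calc 110592 * ℓ ^ 2 * (L * M) * (1 / (G : ℝ)) ≤ 110592 * ℓ ^ 2 * (L * M) * (2 / ℓ ^ (A + 3)) := by
          apply mul_le_mul_of_nonneg_left _ (by positivity)
          rw [div_le_div_iff₀ hG0 (by positivity)]
          linarith
      _ = 221184 * (L * M) / ℓ ^ A * (1 / ℓ) := by
          rw [pow_add]
          field_simp
          ring
      _ ≤ 221184 * (L * M) / ℓ ^ A * 1 := by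
          apply mul_le_mul_of_nonneg_left _ (by positivity)
          rw [div_le_one hℓ0]
          exact hℓ1
      _ = _ := mul_one _
  have b5 : C * (L * M) / ℓ ^ (A + 1) * ∑ g ∈ Icc 1 N, 1 / (g : ℝ) ≤ 3 * C * (L * M) / ℓ ^ A := by
    calc _ ≤ C * (L * M) / ℓ ^ (A + 1) * (3 * ℓ) := mul_le_mul_of_nonneg_left b2 (by positivity)
      _ = _ := by
          rw [pow_succ]
          field_simp
  have b6 : (3 * C + 221184) * (L * M) / ℓ ^ A = 3 * C * (L * M) / ℓ ^ A + 221184 * (L * M) / ℓ ^ A := by ring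
  rw [b6]
  linarith

end Pool.Agent.J6H16.E4
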