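import Pool.Agent.J6H16.E4.Lt
import Pool.Agent.N407.GN.Vau

/-!
# Project E4 (helper16): Vaughan's identity for the Moebius function of `ℤ[i]`
-/

set_option autoImplicit false

namespace Pool.Agent.J6H16.E4.VM

open Finset
open Pool.Agent.N782.GN
open Pool.Agent.N407.GN (dd nz_mul' one_le_nz' mem_dd mul_quo quo_eq quo_ne dvd_quo nz_iipow iipow_ne sum_assoc conv2 conv3
  sum_bl_dvd dd_ne sum_dd_quo)
open Pool.Agent.H304R3.HK.M4 (ii)

theorem isUnit_iipow (j : ℕ) : IsUnit (ii ^ j : ZI) := by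
  refine IsUnit.pow _ ⟨⟨ii, ii ^ 3, ?_, ?_⟩, rfl⟩
  · rw [← pow_succ', Pool.Agent.H304R3.HK.M4.ii4]
  · rw [← pow_succ, Pool.Agent.H304R3.HK.M4.ii4]

theorem mu_iipow (hm : S_MUB) (j : ℕ) (a : ZI) : mu (ii ^ j * a) = mu a := hm.2.2.1 _ a (isUnit_iipow j)

open Classical in
theorem aM_eq (W : ℝ) (v : ZI) : aM W v = ∑ c ∈ dd v, (if W < nz c then mu c else 0) := by
  unfold aM dd
  rw [← Finset.sum_filter, Finset.filter_filter]

open Classical in
/-- the main identity -/
theorem key (hm : S_MUB) {z : ZI} (hz : z ≠ 0) (W : ℝ) :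
    ∑ b ∈ dd z, mu b * aM W (z / b) = 16 * (if W < nz z then mu z else 0) := by
  have hmu := hm.2.2.2.1
  have h1 : ∀ b ∈ dd z, mu b * aM W (z / b) =
      ∑ c ∈ dd z, (if b * c ∣ z then mu b * (if W < nz c then mu c else 0) else 0) := by
    intro b hb
    rw [aM_eq, sum_dd_quo hz hb, Finset.mul_sum]
    refine Finset.sum_congr rfl fun c _ => ?_
    split_ifs <;> simp
  rw [Finset.sum_congr rfl h1, Finset.sum_comm]
  have h2 : ∀ c ∈ dd z, ∑ b ∈ dd z, (if b * c ∣ z then mu b * (if W < nz c then mu c else 0) else 0) =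
      (if IsUnit (z / c) then 4 * (if W < nz c then mu c else 0) else 0) := by
    intro c hc
    have hc1 := (mem_dd hz _).1 hc
    have h3 := sum_dd_quo hz hc (fun b => mu b)
    have h4 := hmu (z / c) (quo_ne hz hc1)
    have h5 : ∑ b ∈ dd (z / c), mu b = if IsUnit (z / c) then 4 else 0 := h4
    rw [h5] at h3
    have h6 : ∑ b ∈ dd z, (if b * c ∣ z then mu b * (if W < nz c then mu c else 0) else 0) =
        (∑ b ∈ dd z, (if c * b ∣ z then mu b else 0)) * (if W < nz c then mu c else 0) := by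
      rw [Finset.sum_mul]
      refine Finset.sum_congr rfl fun b _ => ?_
      rw [mul_comm c b]
      split_ifs <;> simp
    rw [h6, ← h3]
    split_ifs <;> simp
  rw [Finset.sum_congr rfl h2, sum_assoc hz (fun c => 4 * (if W < nz c then mu c else 0))]
  · ring
  · intro j
    simp only [nz_iipow, mu_iipow hm]

open Classical in
theorem aM_one (hm : S_MUB) {z : ZI} (hz : z ≠ 0) (W : ℝ) {b : ZI} (hb : b ∈ dd z) :
    aM W (z / b) = (if IsUnit (z / b) then 4 else 0) -
      ∑ c ∈ dd z, (if b * c ∣ z then (if nz c ≤ W then mu c else 0) else 0) := by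
  have hmu := hm.2.2.2.1
  have hb1 := (mem_dd hz _).1 hb
  have h1 : ∑ c ∈ dd (z / b), mu c = if IsUnit (z / b) then 4 else 0 := hmu (z / b) (quo_ne hz hb1)
  rw [← h1, aM_eq, ← sum_dd_quo hz hb (fun c => if nz c ≤ W then mu c else 0), eq_sub_iff_add_eq,
    ← Finset.sum_add_distrib]
  refine Finset.sum_congr rfl fun c _ => ?_
  rcases le_or_gt (nz c) W with h | h
  · rw [if_neg (not_lt.2 h), if_pos h, zero_add]
  · rw [if_pos h, if_neg (not_le.2 h), add_zero]

open Classical in
/-- the identity for one `z` -/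
theorem per (hm : S_MUB) {X Y W : ℝ} {z : ZI} (hz : z ≠ 0) (hX : nz z ≤ X) :
    mu z = (if nz z ≤ Y then mu z else 0) + (if nz z ≤ W then mu z else 0) -
      1 / 16 * (∑ b ∈ bl Y, ∑ c ∈ bl W, if b * c ∣ z then mu b * mu c else 0) +
      1 / 16 * (∑ b ∈ (bl X).filter (fun b => Y < nz b), if b ∣ z then mu b * aM W (z / b) else 0) := by
  have hk := key hm hz W
  have h1 : ∑ b ∈ (bl X).filter (fun b => Y < nz b), (if b ∣ z then mu b * aM W (z / b) else 0) =
      ∑ b ∈ dd z, (if Y < nz b then mu b * aM W (z / b) else 0) := by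
    rw [Finset.sum_filter]
    have e : ∀ b ∈ bl X, (if Y < nz b then (if b ∣ z then mu b * aM W (z / b) else 0) else 0) =
        (if b ∣ z then (if Y < nz b then mu b * aM W (z / b) else 0) else 0) := by
      intro b _
      split_ifs <;> rfl
    rw [Finset.sum_congr rfl e, sum_bl_dvd hz X]
    refine Finset.sum_congr rfl fun b hb => ?_
    rw [if_pos]
    obtain ⟨c, hc⟩ := (mem_dd hz _).1 hb
    have hb0 := dd_ne hz hb
    have hc0 : c ≠ 0 := by
      rintro rfl
      rw [mul_zero] at hc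
      exact hz hc
    rw [hc, nz_mul'] at hX
    nlinarith [one_le_nz' hb0, one_le_nz' hc0]
  have h3 : ∑ b ∈ bl Y, ∑ c ∈ bl W, (if b * c ∣ z then mu b * mu c else 0) =
      ∑ b ∈ dd z, (if nz b ≤ Y then mu b *
        ∑ c ∈ dd z, (if b * c ∣ z then (if nz c ≤ W then mu c else 0) else 0) else 0) := by
    have e : ∀ b ∈ bl Y, ∑ c ∈ bl W, (if b * c ∣ z then mu b * mu c else 0) =
        (if b ∣ z then mu b *
          ∑ c ∈ dd z, (if b * c ∣ z then (if nz c ≤ W then mu c else 0) else 0) else 0) := by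
      intro b hb
      split_ifs with hbz
      · have h4 := sum_bl_dvd hz W (fun c => if b * c ∣ z then mu b * mu c else 0)
        have h5 : ∀ c ∈ bl W, (if b * c ∣ z then mu b * mu c else 0) =
            (if c ∣ z then (if b * c ∣ z then mu b * mu c else 0) else 0) := by
          intro c _
          by_cases h : b * c ∣ z
          · rw [if_pos h, if_pos ((dvd_mul_left c b).trans h)]
          · rw [if_neg h]
            split_ifs <;> rfl
        rw [Finset.sum_congr rfl h5, h4, Finset.mul_sum]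
        refine Finset.sum_congr rfl fun c _ => ?_
        split_ifs <;> simp
      · refine Finset.sum_eq_zero fun c _ => ?_
        rw [if_neg]
        intro h
        exact hbz ((dvd_mul_right b c).trans h)
    rw [Finset.sum_congr rfl e, sum_bl_dvd hz Y]
  have h6 : ∑ b ∈ dd z, (if nz b ≤ Y then mu b * (if IsUnit (z / b) then (4 : ℝ) else 0) else 0) =
      16 * (if nz z ≤ Y then mu z else 0) := by
    have e : ∀ b ∈ dd z, (if nz b ≤ Y then mu b * (if IsUnit (z / b) then (4 : ℝ) else 0) else 0) =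
        (if IsUnit (z / b) then 4 * (if nz b ≤ Y then mu b else 0) else 0) := by
      intro b _
      split_ifs <;> ring
    rw [Finset.sum_congr rfl e, sum_assoc hz (fun c => 4 * (if nz c ≤ Y then mu c else 0))]
    · ring
    · intro j
      simp only [nz_iipow, mu_iipow hm]
  rw [h1, h3]
  have h4 : ∑ b ∈ dd z, mu b * aM W (z / b) =
      ∑ b ∈ dd z, (if Y < nz b then mu b * aM W (z / b) else 0) +
      (∑ b ∈ dd z, (if nz b ≤ Y then mu b * (if IsUnit (z / b) then (4 : ℝ) else 0) else 0) -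
        ∑ b ∈ dd z, (if nz b ≤ Y then mu b *
          ∑ c ∈ dd z, (if b * c ∣ z then (if nz c ≤ W then mu c else 0) else 0) else 0)) := by
    rw [← Finset.sum_sub_distrib, ← Finset.sum_add_distrib]
    refine Finset.sum_congr rfl fun b hb => ?_
    rcases le_or_gt (nz b) Y with h | h
    · rw [if_neg (not_lt.2 h), if_pos h, if_pos h, aM_one hm hz W hb]
      ring
    · rw [if_pos h, if_neg (not_le.2 h), if_neg (not_le.2 h)]
      ring
  rw [hk, h6] at h4
  rcases le_or_gt (nz z) W with h | h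
  · rw [if_neg (not_lt.2 h)] at h4
    rw [if_pos h]
    linarith
  · rw [if_pos h] at h4
    rw [if_neg (not_le.2 h)]
    linarith

open Classical in
theorem sum_small {X Y : ℝ} {F : ZI → ℝ} (hF : ∀ z, X < nz z → F z = 0) :
    ∑ z ∈ bl Y, mu z * F z = ∑ z ∈ bl X, (if nz z ≤ Y then mu z else 0) * F z := by
  have h1 : ∑ z ∈ bl Y, mu z * F z = ∑ z ∈ (bl Y).filter (fun z => nz z ≤ X), mu z * F z := by
    rw [Finset.sum_filter]
    refine Finset.sum_congr rfl fun z _ => ?_
    split_ifs with h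
    · rfl
    · rw [hF z (lt_of_not_ge h), mul_zero]
  have h2 : (bl Y).filter (fun z => nz z ≤ X) = (bl X).filter (fun z => nz z ≤ Y) := by
    ext z
    rw [mem_filter, mem_filter, mem_bl, mem_bl]
    tauto
  rw [h1, h2, Finset.sum_filter]
  refine Finset.sum_congr rfl fun z _ => ?_
  split_ifs <;> simp

/-- Vaughan's identity -/
theorem c_vm (hm : S_MUB) : S_VM := by
  classical
  intro F X Y W hY hW hX hF0 hF
  have hne : ∀ (V : ℝ), ∀ b ∈ bl V, b ≠ 0 := fun V b hb => ((mem_bl V b).1 hb).1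
  rw [conv3 F hF (bl Y) (bl W) (hne Y) (hne W) (fun b c => mu b * mu c),
    conv2 F hF ((bl X).filter (fun b => Y < nz b)) (fun b hb => hne X b (Finset.mem_filter.1 hb).1)
      (fun b v => mu b * aM W v), sum_small (Y := Y) hF, sum_small (Y := W) hF, Finset.mul_sum, Finset.mul_sum, ← Finset.sum_add_distrib,
    ← Finset.sum_sub_distrib, ← Finset.sum_add_distrib]
  refine Finset.sum_congr rfl fun z hz => ?_
  rw [mem_bl] at hz
  have h := per hm (X := X) (Y := Y) (W := W) hz.1 hz.2
  linear_combination (F z) * h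

end Pool.Agent.J6H16.E4.VM
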