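import Pool.Agent.J6H16.E4.Te
import Pool.Agent.J6H16.E4.Vm
import Pool.Agent.N782.GN.MainC
import Pool.Agent.J6H16.PF.Sd

/-!
# Project E4 (helper16): Vaughan's identity for the second factor `mu (z / e)`
-/

set_option autoImplicit false

namespace Pool.Agent.J6H16.E4

open Finset Filter Topology
open Pool.Agent.N782.GN hiding f1
open Pool.Agent.N855.GN
open Pool.Agent.H304R3.HK (UH bb LamK CS)
open Pool.Agent.J6H16.PF Pool.Agent.J6H16.PR Pool.Agent.J6H16.E2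

/-- the main term for one `l` -/
noncomputable def Em (l : ℤ) (y Y : ℝ) (e : ZI) (f : ZI → ℝ) : ℝ :=
  ∑ a ∈ bl y, f a * ∑ b ∈ bl Y, ∑ c ∈ bl Y, mu b * mu c * (kap l (a * e * (b * c)) / nz (a * e * (b * c)))

noncomputable def W0a (M Y : ℝ) (e : ZI) (lam : ℤ → ℝ) (a : ZI) : ℝ := ∑ z ∈ bl Y, mu z * Fz lam M (a * (e * z))

noncomputable def W2a (M L Y : ℝ) (e : ZI) (lam : ℤ → ℝ) (a : ZI) : ℝ :=
  ∑ b ∈ bl Y, ∑ c ∈ bl Y, mu b * mu c * er1 M L lam (a * e * (b * c))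

open Classical in
noncomputable def alE (e : ZI) (W : ℝ) (v : ZI) : ℝ := if e ∣ v then aM W (v / e) else 0

theorem Fz_z0 {M L : ℝ} {lam : ℤ → ℝ} (h : Lm L lam) : Fz lam M 0 = 0 := by
  unfold Fz
  split_ifs
  · apply h.zero
    intro h1
    rw [mem_Icc] at h1
    simp at h1
  · rfl

theorem c_vm' : S_VM := VM.c_vm c_mub

/-- Vaughan's identity for one `a` -/
theorem wa_one {M L Y : ℝ} {lam : ℤ → ℝ} (hM : 1 ≤ M) (h : Lm L lam) (hLM : L ≤ M) (hY : 1 ≤ Y)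
    {a e : ZI} (ha : a ≠ 0) (he : e ≠ 0) :
    ∑ z ∈ bl (2 * M ^ 2), mu z * Fz lam M (a * (e * z)) = 2 * W0a M Y e lam a - 1 / 16 * W2a M L Y e lam a +
      1 / 16 * ∑ b ∈ (bl (2 * M ^ 2)).filter (fun b => Y < nz b), ∑ v ∈ bl (2 * M ^ 2),
        mu b * alE e Y v * Fz lam M (a * (b * v)) -
      1 / 16 * ∑ l ∈ Icc 1 ⌊L⌋, lam l * (2 * M * ∑ b ∈ bl Y, ∑ c ∈ bl Y,
        mu b * mu c * (kap l (a * e * (b * c)) / nz (a * e * (b * c)))) := by
  classical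
  have hM2 : (1 : ℝ) ≤ 2 * M ^ 2 := by nlinarith
  have hV := c_vm' (fun z => Fz lam M (a * (e * z))) (2 * M ^ 2) Y Y hY hY hM2 (by
    rw [mul_zero, mul_zero]; exact Fz_z0 h) (fun z hz => by
    apply Fz_zero h hLM le_rfl
    rw [Pool.Agent.N855.GN.nz_mul, Pool.Agent.N855.GN.nz_mul]
    exact mul_big (nz_one_le ha) (mul_big (nz_one_le he) hz (nz_nonneg z)) (mul_nonneg (nz_nonneg e) (nz_nonneg z)))
  rw [hV]
  have e5 : ∑ b ∈ bl Y, ∑ c ∈ bl Y, ∑ u ∈ bl (2 * M ^ 2), mu b * mu c * Fz lam M (a * (e * (b * c * u))) =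
      W2a M L Y e lam a + ∑ l ∈ Icc 1 ⌊L⌋, lam l * (2 * M * ∑ b ∈ bl Y, ∑ c ∈ bl Y,
        mu b * mu c * (kap l (a * e * (b * c)) / nz (a * e * (b * c)))) := by
    have e6 : ∀ b ∈ bl Y, ∀ c ∈ bl Y, ∑ u ∈ bl (2 * M ^ 2), mu b * mu c * Fz lam M (a * (e * (b * c * u))) =
        mu b * mu c * er1 M L lam (a * e * (b * c)) +
        ∑ l ∈ Icc 1 ⌊L⌋, lam l * (2 * M * (mu b * mu c * (kap l (a * e * (b * c)) / nz (a * e * (b * c))))) := by
      intro b hb c hc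
      rw [← mul_sum]
      have e7 : ∑ u ∈ bl (2 * M ^ 2), Fz lam M (a * (e * (b * c * u))) = ∑ u ∈ bl (2 * M ^ 2), Fz lam M (a * e * (b * c) * u) := by
        refine sum_congr rfl fun u _ => ?_
        congr 1
        ring
      rw [e7, sum_one h hLM (mul_ne_zero (mul_ne_zero ha he) (mul_ne_zero (bl_ne hb) (bl_ne hc))), mul_add]
      congr 1
      rw [mul_sum]
      refine sum_congr rfl fun l _ => ?_
      ring
    rw [sum_congr rfl fun b hb => sum_congr rfl fun c hc => e6 b hb c hc]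
    rw [W2a]
    rw [show ∑ b ∈ bl Y, ∑ c ∈ bl Y, (mu b * mu c * er1 M L lam (a * e * (b * c)) +
        ∑ l ∈ Icc 1 ⌊L⌋, lam l * (2 * M * (mu b * mu c * (kap l (a * e * (b * c)) / nz (a * e * (b * c)))))) =
        ∑ b ∈ bl Y, ∑ c ∈ bl Y, mu b * mu c * er1 M L lam (a * e * (b * c)) +
        ∑ b ∈ bl Y, ∑ c ∈ bl Y, ∑ l ∈ Icc 1 ⌊L⌋, lam l * (2 * M * (mu b * mu c *
          (kap l (a * e * (b * c)) / nz (a * e * (b * c))))) by
      rw [← sum_add_distrib]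
      refine sum_congr rfl fun b _ => ?_
      rw [← sum_add_distrib]]
    congr 1
    rw [show ∑ b ∈ bl Y, ∑ c ∈ bl Y, ∑ l ∈ Icc 1 ⌊L⌋, lam l * (2 * M * (mu b * mu c *
        (kap l (a * e * (b * c)) / nz (a * e * (b * c))))) = ∑ b ∈ bl Y, ∑ l ∈ Icc 1 ⌊L⌋, ∑ c ∈ bl Y,
        lam l * (2 * M * (mu b * mu c * (kap l (a * e * (b * c)) / nz (a * e * (b * c))))) from
      sum_congr rfl fun b _ => sum_comm]
    rw [sum_comm]
    refine sum_congr rfl fun l _ => ?_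
    simp only [mul_sum]
  have e8 : ∑ b ∈ (bl (2 * M ^ 2)).filter (fun b => Y < nz b), ∑ v ∈ bl (2 * M ^ 2),
        mu b * aM Y v * Fz lam M (a * (e * (b * v))) =
      ∑ b ∈ (bl (2 * M ^ 2)).filter (fun b => Y < nz b), ∑ v ∈ bl (2 * M ^ 2),
        mu b * alE e Y v * Fz lam M (a * (b * v)) := by
    refine sum_congr rfl fun b hb => ?_
    rw [mem_filter] at hb
    have hb0 : b ≠ 0 := bl_ne hb.1
    have h9 := Pool.Agent.N407.GN.conv1 (X := 2 * M ^ 2) (fun z => Fz lam M (a * (b * z))) (fun z hz => by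
      apply Fz_zero h hLM le_rfl
      rw [Pool.Agent.N855.GN.nz_mul, Pool.Agent.N855.GN.nz_mul]
      exact mul_big (nz_one_le ha) (mul_big (nz_one_le hb0) hz (nz_nonneg z)) (mul_nonneg (nz_nonneg b) (nz_nonneg z)))
      he (aM Y)
    have h10 : ∑ v ∈ bl (2 * M ^ 2), mu b * aM Y v * Fz lam M (a * (e * (b * v))) =
        mu b * ∑ u ∈ bl (2 * M ^ 2), aM Y u * (fun z => Fz lam M (a * (b * z))) (e * u) := by
      rw [mul_sum]
      refine sum_congr rfl fun v _ => ?_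
      simp only
      rw [show e * (b * v) = b * (e * v) by ring]
      ring
    rw [h10, h9, mul_sum]
    refine sum_congr rfl fun v _ => ?_
    unfold alE
    split_ifs
    · ring
    · ring
  rw [e5, e8, W0a]
  ring

/-- Vaughan's identity for the convolution -/
theorem wa_all {M L x y Y : ℝ} {lam : ℤ → ℝ} (hM : 1 ≤ M) (h : Lm L lam) (hLM : L ≤ M) (hY : 1 ≤ Y)
    (hy : y ≤ 2 * M ^ 2) {e : ZI} (he : e ≠ 0) :
    ∑ l ∈ Icc 1 ⌊L⌋, lam l * ∑ m ∈ Icc ⌈-M⌉ ⌊M⌋, cv (fw M x y) (mue e) (⟨l, m⟩ : ZI) =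
      2 * ∑ a ∈ bg x y, fw M x y a * W0a M Y e lam a - 1 / 16 * ∑ a ∈ bg x y, fw M x y a * W2a M L Y e lam a +
      1 / 16 * VG M x y Y (alE e Y) lam - 1 / 16 * ∑ l ∈ Icc 1 ⌊L⌋, lam l * (2 * M * Em l y Y e (fw M x y)) := by
  classical
  have hM2 : (1 : ℝ) ≤ 2 * M ^ 2 := by nlinarith
  have hF0 : ∀ t, t ∉ bl (2 * M ^ 2) → Fz lam M t = 0 := by
    intro t ht
    by_cases ht0 : t = 0
    · subst ht0
      exact Fz_z0 h
    · apply Fz_zero h hLM le_rfl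
      by_contra hc
      push Not at hc
      exact ht ((mem_bl _ _).2 ⟨ht0, hc⟩)
  have e0 : ∑ l ∈ Icc 1 ⌊L⌋, lam l * ∑ m ∈ Icc ⌈-M⌉ ⌊M⌋, cv (fw M x y) (mue e) (⟨l, m⟩ : ZI) =
      ∑ l ∈ Icc 1 ⌊L⌋, ∑ m ∈ Icc ⌈-M⌉ ⌊M⌋, lam l * cv (fw M x y) (mue e) (⟨l, m⟩ : ZI) := by
    refine sum_congr rfl fun l _ => ?_
    rw [mul_sum]
  have hnz : ∀ a, a ∉ bg x y → a ≠ 0 → fw M x y a = 0 := by
    intro a ha' ha0
    by_contra hne
    apply ha'
    have h3 := fw_ne hne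
    exact mem_bg.2 ⟨ha0, h3.2.2, h3.2.1⟩
  have e1 : ∑ l ∈ Icc 1 ⌊L⌋, ∑ m ∈ Icc ⌈-M⌉ ⌊M⌋, lam l * cv (fw M x y) (mue e) (⟨l, m⟩ : ZI) =
      ∑ a ∈ bg x y, fw M x y a * ∑ z ∈ bl (2 * M ^ 2), mue e z * Fz lam M (a * z) := by
    rw [← sum_box h hLM (cv (fw M x y) (mue e)), cv_sum _ _ _ hM2 hF0]
    have hsub : bg x y ⊆ bl (2 * M ^ 2) := by
      intro a ha
      rw [mem_bg] at ha
      exact (mem_bl _ _).2 ⟨ha.1, ha.2.1.trans hy⟩
    rw [← sum_subset hsub]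
    · refine sum_congr rfl fun a _ => ?_
      rw [mul_sum]
      refine sum_congr rfl fun z _ => ?_
      ring
    · intro a ha ha'
      apply sum_eq_zero
      intro z _
      rw [hnz a ha' ((mem_bl _ _).1 ha).1]
      ring
  have e2 : ∀ a ∈ bg x y, ∑ z ∈ bl (2 * M ^ 2), mue e z * Fz lam M (a * z) =
      ∑ z ∈ bl (2 * M ^ 2), mu z * Fz lam M (a * (e * z)) := by
    intro a ha
    rw [mem_bg] at ha
    have h9 := Pool.Agent.N407.GN.conv1 (X := 2 * M ^ 2) (fun z => Fz lam M (a * z)) (fun z hz => by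
      apply Fz_zero h hLM le_rfl
      rw [Pool.Agent.N855.GN.nz_mul]
      exact mul_big (nz_one_le ha.1) hz (nz_nonneg z)) he mu
    rw [h9]
    refine sum_congr rfl fun z _ => ?_
    unfold mue
    split_ifs
    · rfl
    · rw [zero_mul]
  have e4 : ∑ l ∈ Icc 1 ⌊L⌋, lam l * (2 * M * Em l y Y e (fw M x y)) =
      ∑ a ∈ bg x y, fw M x y a * ∑ l ∈ Icc 1 ⌊L⌋, lam l * (2 * M * ∑ b ∈ bl Y, ∑ c ∈ bl Y,
        mu b * mu c * (kap l (a * e * (b * c)) / nz (a * e * (b * c)))) := by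
    have h5 : ∀ l : ℤ, Em l y Y e (fw M x y) = ∑ a ∈ bg x y, fw M x y a * ∑ b ∈ bl Y, ∑ c ∈ bl Y,
        mu b * mu c * (kap l (a * e * (b * c)) / nz (a * e * (b * c))) := by
      intro l
      unfold Em
      symm
      apply sum_subset
      · intro a ha
        rw [mem_bg] at ha
        exact (mem_bl _ _).2 ⟨ha.1, ha.2.1⟩
      · intro a ha ha'
        rw [hnz a ha' ((mem_bl _ _).1 ha).1, zero_mul]
    simp only [h5]
    simp only [mul_sum (s := bg x y)]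
    rw [sum_comm]
    refine sum_congr rfl fun a _ => ?_
    rw [mul_sum (s := Icc 1 ⌊L⌋)]
    refine sum_congr rfl fun l _ => ?_
    ring
  rw [e0, e1, e4, sum_congr rfl fun a ha => by rw [e2 a ha, wa_one hM h hLM hY (mem_bg.1 ha).1 he]]
  unfold VG
  have e6 : ∀ a ∈ bg x y, fw M x y a * (2 * W0a M Y e lam a - 1 / 16 * W2a M L Y e lam a +
      1 / 16 * ∑ b ∈ (bl (2 * M ^ 2)).filter (fun b => Y < nz b), ∑ v ∈ bl (2 * M ^ 2),
        mu b * alE e Y v * Fz lam M (a * (b * v)) -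
      1 / 16 * ∑ l ∈ Icc 1 ⌊L⌋, lam l * (2 * M * ∑ b ∈ bl Y, ∑ c ∈ bl Y,
        mu b * mu c * (kap l (a * e * (b * c)) / nz (a * e * (b * c))))) =
      2 * (fw M x y a * W0a M Y e lam a) - 1 / 16 * (fw M x y a * W2a M L Y e lam a) +
      1 / 16 * (fw M x y a * ∑ b ∈ (bl (2 * M ^ 2)).filter (fun b => Y < nz b), ∑ v ∈ bl (2 * M ^ 2),
        mu b * alE e Y v * Fz lam M (a * (b * v))) -
      1 / 16 * (fw M x y a * ∑ l ∈ Icc 1 ⌊L⌋, lam l * (2 * M * ∑ b ∈ bl Y, ∑ c ∈ bl Y,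
        mu b * mu c * (kap l (a * e * (b * c)) / nz (a * e * (b * c))))) := fun a _ => by ring
  rw [sum_congr rfl e6, sum_sub_distrib, sum_add_distrib, sum_sub_distrib, ← mul_sum, ← mul_sum, ← mul_sum, ← mul_sum]

end Pool.Agent.J6H16.E4
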