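import Pool.Agent.J6H16.E4.Ua
import Pool.Agent.J6H16.E4.Mom
import Pool.Agent.J6H16.E2.Vc

/-!
# Project E4 (helper16): representations by products, and the errors of Vaughan's identity
-/

set_option autoImplicit false

namespace Pool.Agent.J6H16.E4

open Finset Filter Topology
open Pool.Agent.N782.GN hiding f1
open Pool.Agent.N855.GN
open Pool.Agent.H304R3.HK (UH bb LamK CS)
open Pool.Agent.J6H16.PF Pool.Agent.J6H16.PR Pool.Agent.J6H16.E2

/-- pairs: the number of representations -/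
theorem rep2 (S1 S2 T : Finset ZI) (hT : ∀ z ∈ T, z ≠ 0) (G : ZI → ℝ) (hG : ∀ z, 0 ≤ G z)
    (h : ∀ a ∈ S1, ∀ b ∈ S2, G (a * b) ≠ 0 → a * b ∈ T) :
    ∑ a ∈ S1, ∑ b ∈ S2, G (a * b) ≤ ∑ z ∈ T, (dv z : ℝ) * G z := by
  classical
  have e1 : ∑ a ∈ S1, ∑ b ∈ S2, G (a * b) ≤ ∑ a ∈ S1, ∑ b ∈ S2, ∑ z ∈ T, G z * (if a * b = z then 1 else 0) := by
    refine sum_le_sum fun a ha => sum_le_sum fun b hb => ?_
    by_cases h1 : G (a * b) = 0
    · rw [h1]
      exact sum_nonneg fun z _ => mul_nonneg (hG z) (by split_ifs <;> norm_num)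
    · have h2 := h a ha b hb h1
      calc G (a * b) = G (a * b) * (if a * b = a * b then 1 else 0) := by simp
        _ ≤ _ := single_le_sum (f := fun z => G z * (if a * b = z then (1 : ℝ) else 0))
          (fun z _ => mul_nonneg (hG z) (by split_ifs <;> norm_num)) h2
  have e2 : ∑ a ∈ S1, ∑ b ∈ S2, ∑ z ∈ T, G z * (if a * b = z then (1 : ℝ) else 0) =
      ∑ z ∈ T, G z * ∑ a ∈ S1, ∑ b ∈ S2, (if a * b = z then (1 : ℝ) else 0) := by
    rw [sum_congr rfl fun a _ => sum_comm, sum_comm]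
    refine sum_congr rfl fun z _ => ?_
    simp only [mul_sum]
  refine e1.trans ?_
  rw [e2]
  refine sum_le_sum fun z hz => ?_
  rw [mul_comm (dv z : ℝ)]
  apply mul_le_mul_of_nonneg_left _ (hG z)
  have h3 := Pool.Agent.N277.GN.pair_count S1 S2 {z} (fun w hw => by
    rw [mem_singleton] at hw
    rw [hw]
    exact hT z hz) (fun a b => if a * b = z then (1 : ℝ) else 0) 1 zero_le_one (fun a _ b _ => by
      split_ifs <;> norm_num) (fun a _ b _ hne => by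
      rw [mem_singleton]
      by_contra hc
      apply hne
      rw [if_neg hc])
  rw [sum_singleton, one_mul] at h3
  exact (le_abs_self _).trans h3

theorem dv_le_mul {a b : ZI} (hab : a * b ≠ 0) : (dv b : ℝ) ≤ dv (a * b) := by
  classical
  have hb : b ≠ 0 := fun h => hab (by rw [h, mul_zero])
  rw [Nat.cast_le, Mom.dv_eq, Mom.dv_eq]
  apply card_le_card
  intro d hd
  rw [Mom.mem_ds hb] at hd
  rw [Mom.mem_ds hab]
  exact hd.mul_left a

/-- triples: the number of representations -/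
theorem rep3 (S1 S2 S3 T : Finset ZI) (hT : ∀ z ∈ T, z ≠ 0) (G : ZI → ℝ) (hG : ∀ z, 0 ≤ G z)
    (h1 : ∀ a ∈ S1, a ≠ 0) (h2 : ∀ a ∈ S2, a ≠ 0) (h3 : ∀ a ∈ S3, a ≠ 0)
    (h : ∀ a ∈ S1, ∀ b ∈ S2, ∀ c ∈ S3, G (a * (b * c)) ≠ 0 → a * (b * c) ∈ T) :
    ∑ a ∈ S1, ∑ b ∈ S2, ∑ c ∈ S3, G (a * (b * c)) ≤ ∑ z ∈ T, (dv z : ℝ) ^ 2 * G z := by
  classical
  set T' : Finset ZI := (S2 ×ˢ S3).image (fun p => p.1 * p.2) with hT'
  have hT'0 : ∀ t ∈ T', t ≠ 0 := by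
    intro t ht
    rw [hT', mem_image] at ht
    obtain ⟨p, hp, rfl⟩ := ht
    rw [mem_product] at hp
    exact mul_ne_zero (h2 _ hp.1) (h3 _ hp.2)
  have e1 : ∀ a ∈ S1, ∑ b ∈ S2, ∑ c ∈ S3, G (a * (b * c)) ≤ ∑ t ∈ T', (dv (a * t) : ℝ) * G (a * t) := by
    intro a ha
    refine (rep2 S2 S3 T' hT'0 (fun t => G (a * t)) (fun t => hG _) (fun b hb c hc _ => ?_)).trans ?_
    · rw [hT', mem_image]
      exact ⟨(b, c), mem_product.2 ⟨hb, hc⟩, rfl⟩
    · exact sum_le_sum fun t ht => mul_le_mul_of_nonneg_right (dv_le_mul (mul_ne_zero (h1 a ha) (hT'0 t ht))) (hG _)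
  refine (sum_le_sum e1).trans ?_
  refine (rep2 S1 T' T hT (fun z => (dv z : ℝ) * G z) (fun z => mul_nonneg (Nat.cast_nonneg _) (hG z))
    (fun a ha t ht hne => ?_)).trans (le_of_eq ?_)
  · rw [hT', mem_image] at ht
    obtain ⟨p, hp, rfl⟩ := ht
    rw [mem_product] at hp
    exact h a ha p.1 hp.1 p.2 hp.2 (fun h0 => hne (by rw [h0, mul_zero]))
  · refine sum_congr rfl fun z _ => ?_
    ring

theorem fw_one {M x y : ℝ} (hM : 1 < M) (hy : y ≤ M) (a : ZI) : |fw M x y a| ≤ 1 := by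
  have hl := Real.log_pos hM
  rw [abs_of_nonneg (fw_nonneg hM.le x y a)]
  by_cases h : fw M x y a = 0
  · rw [h]
    exact zero_le_one
  · obtain ⟨h1, h2, h3⟩ := fw_ne h
    have h4 := fw_le hM x y a
    rw [abs_of_nonneg (fw_nonneg hM.le x y a)] at h4
    refine h4.trans ?_
    unfold Lp
    rw [if_pos h1, div_mul_eq_mul_div, one_mul, div_le_one hl]
    have h5 : 0 < nz a := by
      have h6 : a ≠ 0 := by
        rintro rfl
        unfold np at h1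
        simp at h1
        exact Nat.not_prime_zero h1
      exact nz_pos h6
    exact Real.log_le_log h5 (h3.trans hy)

/-- the part of the bilinear sum with large coefficients -/
theorem VG_tail {M L x y Y Q : ℝ} {al : ZI → ℝ} {lam : ℤ → ℝ} (hM : 1 < M) (hlam : Lm L lam)
    (hyM : y ≤ M) (hQ : 0 ≤ Q) (hal : ∀ v, v ≠ 0 → |al v| ≤ Q * (dv v : ℝ) ^ 2) :
    |VG M x y Y al lam| ≤ Q * ∑ z ∈ Zb L M, (dv z : ℝ) ^ 4 := by
  classical
  have e1 : |VG M x y Y al lam| ≤ ∑ a ∈ bg x y, ∑ b ∈ (bl (2 * M ^ 2)).filter (fun b => Y < nz b),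
      ∑ v ∈ bl (2 * M ^ 2), Q * ((dv (a * (b * v)) : ℝ) ^ 2 * |Fz lam M (a * (b * v))|) := by
    unfold VG
    refine (abs_sum_le_sum_abs _ _).trans (sum_le_sum fun a ha => ?_)
    rw [abs_mul]
    have ha0 := (mem_bg.1 ha).1
    calc |fw M x y a| * |∑ b ∈ (bl (2 * M ^ 2)).filter (fun b => Y < nz b), ∑ v ∈ bl (2 * M ^ 2), mu b * al v * Fz lam M (a * (b * v))|
        ≤ 1 * |∑ b ∈ (bl (2 * M ^ 2)).filter (fun b => Y < nz b), ∑ v ∈ bl (2 * M ^ 2), mu b * al v * Fz lam M (a * (b * v))| :=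
          mul_le_mul_of_nonneg_right (fw_one hM hyM a) (abs_nonneg _)
      _ = _ := one_mul _
      _ ≤ _ := by
        refine (abs_sum_le_sum_abs _ _).trans (sum_le_sum fun b hb => ?_)
        refine (abs_sum_le_sum_abs _ _).trans (sum_le_sum fun v hv => ?_)
        have hb0 := bl_ne (mem_filter.1 hb).1
        have hv0 := bl_ne hv
        rw [abs_mul, abs_mul]
        have h1 := hal v hv0
        have h2 : (dv v : ℝ) ≤ dv (a * (b * v)) :=
          (dv_le_mul (mul_ne_zero hb0 hv0)).trans (dv_le_mul (mul_ne_zero ha0 (mul_ne_zero hb0 hv0)))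
        have h3 : |mu b| * |al v| ≤ Q * (dv (a * (b * v)) : ℝ) ^ 2 := by
          calc |mu b| * |al v| ≤ 1 * (Q * (dv v : ℝ) ^ 2) := mul_le_mul (abs_mu_le b) h1 (abs_nonneg _) zero_le_one
            _ = Q * (dv v : ℝ) ^ 2 := one_mul _
            _ ≤ _ := by gcongr
        calc |mu b| * |al v| * |Fz lam M (a * (b * v))| ≤ Q * (dv (a * (b * v)) : ℝ) ^ 2 * |Fz lam M (a * (b * v))| :=
              mul_le_mul_of_nonneg_right h3 (abs_nonneg _)
          _ = _ := by ring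
  refine e1.trans ?_
  have e2 := rep3 (bg x y) ((bl (2 * M ^ 2)).filter (fun b => Y < nz b)) (bl (2 * M ^ 2)) (Zb L M) (fun z hz => Zb_ne hz)
    (fun z => Q * ((dv z : ℝ) ^ 2 * |Fz lam M z|)) (fun z => by positivity) (fun a ha => (mem_bg.1 ha).1)
    (fun a ha => bl_ne (mem_filter.1 ha).1) (fun a ha => bl_ne ha) (fun a _ b _ c _ hne => by
      apply Fz_Zb hlam
      intro h0
      apply hne
      rw [h0, abs_zero, mul_zero, mul_zero])
  refine e2.trans ?_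
  rw [mul_sum]
  refine sum_le_sum fun z _ => ?_
  have h4 := Fz_abs hlam.1 M z
  have h5 : 0 ≤ (dv z : ℝ) ^ 2 * (Q * (dv z : ℝ) ^ 2) := by positivity
  calc (dv z : ℝ) ^ 2 * (Q * ((dv z : ℝ) ^ 2 * |Fz lam M z|)) = (dv z : ℝ) ^ 2 * (Q * (dv z : ℝ) ^ 2) * |Fz lam M z| := by ring
    _ ≤ (dv z : ℝ) ^ 2 * (Q * (dv z : ℝ) ^ 2) * 1 := mul_le_mul_of_nonneg_left h4 h5
    _ = _ := by ring

theorem VG_add (M x y Y : ℝ) (al1 al2 : ZI → ℝ) (lam : ℤ → ℝ) :
    VG M x y Y (fun v => al1 v + al2 v) lam = VG M x y Y al1 lam + VG M x y Y al2 lam := by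
  unfold VG
  rw [← sum_add_distrib]
  refine sum_congr rfl fun a _ => ?_
  rw [← mul_add, ← sum_add_distrib]
  congr 1
  refine sum_congr rfl fun b _ => ?_
  rw [← sum_add_distrib]
  refine sum_congr rfl fun v _ => ?_
  ring

theorem VG_smul (M x y Y c : ℝ) (al : ZI → ℝ) (lam : ℤ → ℝ) :
    VG M x y Y (fun v => c * al v) lam = c * VG M x y Y al lam := by
  unfold VG
  rw [mul_sum]
  refine sum_congr rfl fun a _ => ?_
  rw [mul_left_comm]
  congr 1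
  rw [mul_sum]
  refine sum_congr rfl fun b _ => ?_
  rw [mul_sum]
  refine sum_congr rfl fun v _ => ?_
  ring

/-- multiples of `e` -/
theorem mult_e {e : ZI} (he : e ≠ 0) {D : ℝ} (G : ZI → ℝ) (hG : ∀ z, 0 ≤ G z) :
    ∑ t ∈ bl D, G (t * e) ≤ ∑ t ∈ bl (D * nz e), G t := by
  classical
  have h1 : ∑ t ∈ bl D, G (t * e) = ∑ t ∈ (bl D).image (fun t => t * e), G t := by
    rw [sum_image]
    intro a _ b _ hab
    exact mul_right_cancel₀ he hab
  rw [h1]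
  apply sum_le_sum_of_subset_of_nonneg
  · intro t ht
    rw [mem_image] at ht
    obtain ⟨s, hs, rfl⟩ := ht
    rw [mem_bl] at hs ⊢
    refine ⟨mul_ne_zero hs.1 he, ?_⟩
    rw [Pool.Agent.N855.GN.nz_mul]
    exact mul_le_mul_of_nonneg_right hs.2 (nz_nonneg e)
  · intro t _ _
    exact hG t

theorem W0_bd {M L x y Y K' : ℝ} {lam : ℤ → ℝ} (hM : 1 < M) (h : Lm L lam) (hL : 0 ≤ L) (hyM : y ≤ M) (hy0 : 0 ≤ y)
    {e : ZI} (he : e ≠ 0) (hK : 0 ≤ K') (hdv : ∀ z, z ≠ 0 → nz z ≤ y * Y → (dv z : ℝ) ≤ K') :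
    |∑ a ∈ bg x y, fw M x y a * W0a M Y e lam a| ≤ K' * (L * (2 * Real.sqrt (y * Y * nz e) + 1)) := by
  classical
  have e1 : |∑ a ∈ bg x y, fw M x y a * W0a M Y e lam a| ≤ ∑ a ∈ bg x y, ∑ z ∈ bl Y, |Fz lam M ((a * z) * e)| := by
    refine (abs_sum_le_sum_abs _ _).trans (sum_le_sum fun a ha => ?_)
    rw [abs_mul]
    have h2 : |W0a M Y e lam a| ≤ ∑ z ∈ bl Y, |Fz lam M ((a * z) * e)| := by
      unfold W0a
      refine (abs_sum_le_sum_abs _ _).trans (sum_le_sum fun z _ => ?_)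
      rw [abs_mul, show a * z * e = a * (e * z) by ring]
      calc |mu z| * |Fz lam M (a * (e * z))| ≤ 1 * |Fz lam M (a * (e * z))| :=
            mul_le_mul_of_nonneg_right (abs_mu_le z) (abs_nonneg _)
        _ = _ := one_mul _
    calc |fw M x y a| * |W0a M Y e lam a| ≤ 1 * ∑ z ∈ bl Y, |Fz lam M ((a * z) * e)| :=
          mul_le_mul (fw_one hM hyM a) h2 (abs_nonneg _) zero_le_one
      _ = _ := one_mul _
  refine e1.trans ?_
  have e2 := rep2 (bg x y) (bl Y) (bl (y * Y)) (fun z hz => bl_ne hz) (fun t => |Fz lam M (t * e)|) (fun _ => abs_nonneg _)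
    (fun a ha b hb _ => by
      rw [mem_bg] at ha
      rw [mem_bl] at hb ⊢
      refine ⟨mul_ne_zero ha.1 hb.1, ?_⟩
      rw [Pool.Agent.N855.GN.nz_mul]
      exact mul_le_mul ha.2.1 hb.2 (nz_nonneg _) hy0)
  refine e2.trans ?_
  calc ∑ z ∈ bl (y * Y), (dv z : ℝ) * |Fz lam M (z * e)| ≤ ∑ z ∈ bl (y * Y), K' * |Fz lam M (z * e)| := by
        refine sum_le_sum fun z hz => mul_le_mul_of_nonneg_right ?_ (abs_nonneg _)
        rw [mem_bl] at hz
        exact hdv z hz.1 hz.2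
    _ = K' * ∑ z ∈ bl (y * Y), |Fz lam M (z * e)| := by rw [mul_sum]
    _ ≤ K' * ∑ z ∈ bl (y * Y * nz e), |Fz lam M z| :=
        mul_le_mul_of_nonneg_left (mult_e he (fun z => |Fz lam M z|) (fun _ => abs_nonneg _)) hK
    _ ≤ _ := mul_le_mul_of_nonneg_left (Fz_cnt h hL) hK

theorem W2_bd {M L x y Y K' : ℝ} {lam : ℤ → ℝ} (hM : 1 < M) (hyM : y ≤ M) (hy0 : 0 ≤ y) (hY0 : 0 ≤ Y)
    {e : ZI} (he : e ≠ 0) (hdv : ∀ z, z ≠ 0 → nz z ≤ y * (Y * Y) → (dv z : ℝ) ≤ K') :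
    |∑ a ∈ bg x y, fw M x y a * W2a M L Y e lam a| ≤ K' ^ 2 * ∑ t ∈ bl (y * (Y * Y) * nz e), |er1 M L lam t| := by
  classical
  have e1 : |∑ a ∈ bg x y, fw M x y a * W2a M L Y e lam a| ≤
      ∑ a ∈ bg x y, ∑ b ∈ bl Y, ∑ c ∈ bl Y, |er1 M L lam ((a * (b * c)) * e)| := by
    refine (abs_sum_le_sum_abs _ _).trans (sum_le_sum fun a ha => ?_)
    rw [abs_mul]
    have h2 : |W2a M L Y e lam a| ≤ ∑ b ∈ bl Y, ∑ c ∈ bl Y, |er1 M L lam ((a * (b * c)) * e)| := by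
      unfold W2a
      refine (abs_sum_le_sum_abs _ _).trans (sum_le_sum fun b _ => ?_)
      refine (abs_sum_le_sum_abs _ _).trans (sum_le_sum fun c _ => ?_)
      rw [abs_mul, abs_mul, show a * (b * c) * e = a * e * (b * c) by ring]
      calc |mu b| * |mu c| * |er1 M L lam (a * e * (b * c))| ≤ 1 * 1 * |er1 M L lam (a * e * (b * c))| :=
            mul_le_mul_of_nonneg_right (mul_le_mul (abs_mu_le b) (abs_mu_le c) (abs_nonneg _) zero_le_one) (abs_nonneg _)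
        _ = _ := by ring
    calc |fw M x y a| * |W2a M L Y e lam a| ≤ 1 * ∑ b ∈ bl Y, ∑ c ∈ bl Y, |er1 M L lam ((a * (b * c)) * e)| :=
          mul_le_mul (fw_one hM hyM a) h2 (abs_nonneg _) zero_le_one
      _ = _ := one_mul _
  refine e1.trans ?_
  have e2 := rep3 (bg x y) (bl Y) (bl Y) (bl (y * (Y * Y))) (fun z hz => bl_ne hz) (fun t => |er1 M L lam (t * e)|)
    (fun _ => abs_nonneg _) (fun a ha => (mem_bg.1 ha).1) (fun a ha => bl_ne ha) (fun a ha => bl_ne ha)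
    (fun a ha b hb c hc _ => by
      rw [mem_bg] at ha
      rw [mem_bl] at hb hc ⊢
      refine ⟨mul_ne_zero ha.1 (mul_ne_zero hb.1 hc.1), ?_⟩
      rw [Pool.Agent.N855.GN.nz_mul, Pool.Agent.N855.GN.nz_mul]
      exact mul_le_mul ha.2.1 (mul_le_mul hb.2 hc.2 (nz_nonneg _) hY0) (mul_nonneg (nz_nonneg _) (nz_nonneg _)) hy0)
  refine e2.trans ?_
  calc ∑ z ∈ bl (y * (Y * Y)), (dv z : ℝ) ^ 2 * |er1 M L lam (z * e)| ≤
      ∑ z ∈ bl (y * (Y * Y)), K' ^ 2 * |er1 M L lam (z * e)| := by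
        refine sum_le_sum fun z hz => mul_le_mul_of_nonneg_right ?_ (abs_nonneg _)
        rw [mem_bl] at hz
        exact pow_le_pow_left₀ (Nat.cast_nonneg _) (hdv z hz.1 hz.2) 2
    _ = K' ^ 2 * ∑ z ∈ bl (y * (Y * Y)), |er1 M L lam (z * e)| := by rw [mul_sum]
    _ ≤ _ := mul_le_mul_of_nonneg_left (mult_e he (fun z => |er1 M L lam z|) (fun _ => abs_nonneg _)) (sq_nonneg _)

end Pool.Agent.J6H16.E4
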