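import Pool.Agent.J6H16.E4.Ub
import Pool.Agent.N782.GN.FinA

/-!
# Project E4 (helper16): the Moebius function of the second factor, on average over the lines
-/

set_option autoImplicit false

namespace Pool.Agent.J6H16.E4

open Finset Filter Topology
open Pool.Agent.N782.GN hiding f1
open Pool.Agent.N855.GN
open Pool.Agent.H304R3.HK (UH bb LamK CS)
open Pool.Agent.J6H16.PF Pool.Agent.J6H16.PR Pool.Agent.J6H16.E2

theorem yYY2 {ε c4 M L y : ℝ} (h : PE ε c4 M L y) : y * (YE ε M L * YE ε M L) ≤ L * M ^ (1 - 2 * ε) := by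
  have hM0 := h.M0
  have hL0 : 0 < L := by linarith [h.L0]
  have h1 : (M / L) ^ 3 ≤ M ^ (2 - 6 * ε) := by
    calc (M / L) ^ 3 ≤ (M ^ (2 / 3 - 2 * ε)) ^ 3 := pow_le_pow_left₀ (by linarith [h.ML1]) h.MLup 3
      _ = M ^ (2 - 6 * ε) := by
        rw [← Real.rpow_natCast, ← Real.rpow_mul hM0.le]
        congr 1
        push_cast
        ring
  have h2 : y * (YE ε M L * YE ε M L) ≤ M ^ c4 * ((M / L) ^ 2 * M ^ (2 * ε)) := by
    unfold YE
    have h3 : M ^ (2 * ε) = M ^ ε * M ^ ε := by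
      rw [← Real.rpow_add hM0]
      congr 1
      ring
    rw [h3]
    calc y * (M / L * M ^ ε * (M / L * M ^ ε)) ≤ M ^ c4 * (M / L * M ^ ε * (M / L * M ^ ε)) :=
          mul_le_mul_of_nonneg_right h.y1 (by positivity)
      _ = _ := by ring
  refine h2.trans ?_
  have h4 : (M / L) ^ 2 = (M / L) ^ 3 * (L / M) := by
    field_simp
  rw [h4]
  calc M ^ c4 * ((M / L) ^ 3 * (L / M) * M ^ (2 * ε)) ≤ M ^ c4 * (M ^ (2 - 6 * ε) * (L / M) * M ^ (2 * ε)) := by gcongr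
    _ = L * (M ^ c4 * M ^ (2 - 6 * ε) * M ^ (2 * ε) * M⁻¹) := by
        field_simp
    _ = L * M ^ (c4 + (2 - 6 * ε) + 2 * ε + (-1)) := by
        rw [Real.rpow_add hM0, Real.rpow_add hM0, Real.rpow_add hM0, Real.rpow_neg_one]
    _ ≤ L * M ^ (1 - 2 * ε) := by
        apply mul_le_mul_of_nonneg_left _ hL0.le
        exact Real.rpow_le_rpow_of_exponent_le h.M1 (by linarith [h.hc, h.e0])

theorem nml : S_NML := fun L M a hL hM ha h => nm_lines hL hM ha h

theorem c_mom' : S_MOM := Mom.c_mom nml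

theorem aM_abs (W : ℝ) (v : ZI) : |aM W v| ≤ dv v := by
  classical
  unfold aM
  refine (abs_sum_le_sum_abs _ _).trans ?_
  calc ∑ c ∈ (bl (nz v)).filter (fun c => c ∣ v ∧ W < nz c), |mu c| ≤
      ∑ c ∈ (bl (nz v)).filter (fun c => c ∣ v ∧ W < nz c), (1 : ℝ) := sum_le_sum fun c _ => abs_mu_le c
    _ = (((bl (nz v)).filter (fun c => c ∣ v ∧ W < nz c)).card : ℝ) := by rw [sum_const, nsmul_eq_mul, mul_one]
    _ ≤ dv v := by
        rw [Nat.cast_le]
        unfold dv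
        apply card_le_card
        intro c hc
        rw [mem_filter] at hc ⊢
        exact ⟨hc.1, hc.2.1⟩

theorem alE_abs {e : ZI} (he : e ≠ 0) (W : ℝ) {v : ZI} (hv : v ≠ 0) : |alE e W v| ≤ dv v := by
  unfold alE
  split_ifs with h
  · refine (aM_abs W _).trans ?_
    obtain ⟨u, rfl⟩ := h
    rw [mul_comm e u, mul_div_cancel_right₀ _ he, mul_comm]
    exact dv_le_mul hv
  · rw [abs_zero]
    positivity

theorem aM_zero {W : ℝ} {v : ZI} (hv : nz v ≤ W) : aM W v = 0 := by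
  classical
  unfold aM
  rw [sum_eq_zero]
  intro c hc
  rw [mem_filter, mem_bl] at hc
  linarith [hc.1.2, hc.2.2]

theorem alE_zero {e : ZI} (he : e ≠ 0) {W : ℝ} {v : ZI} (hv : nz v ≤ W) : alE e W v = 0 := by
  unfold alE
  split_ifs with h
  · apply aM_zero
    obtain ⟨u, rfl⟩ := h
    rw [mul_comm e u, mul_div_cancel_right₀ _ he]
    rw [Pool.Agent.N855.GN.nz_mul] at hv
    have h1 := one_le_nz he
    have h2 := nz_nonneg u
    nlinarith
  · rfl

/-- the bilinear part -/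
theorem typeII (ε : ℝ) (A : ℕ) (hε : 0 < ε) (hε1 : ε ≤ 1) {c3 c4 : ℝ} (hc3 : 0 < c3) (h34 : c3 < c4)
    (hc4 : 6 * c4 ≤ ε) : ∃ C : ℝ, 0 < C ∧ ∀ᶠ M : ℝ in atTop, ∀ (L x y : ℝ) (e : ZI) (lam : ℤ → ℝ),
    M ^ ε ≤ L → L ≤ M ^ (1 - ε) → M ^ c3 ≤ x → y ≤ M ^ c4 → e ≠ 0 → Lm L lam →
    |VG M x y (YE ε M L) (alE e (YE ε M L)) lam| ≤ C * (L * M / (Real.log M) ^ A) := by
  classical
  obtain ⟨Cm, E, hCm, hmom⟩ := c_mom' 4
  set D : ℕ := A + E + 2 with hD
  obtain ⟨C, hC, hs⟩ := iig ε (A + D) hε hε1 hc3 h34 hc4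
  refine ⟨C + Cm, by positivity, ?_⟩
  filter_upwards [hs, eventually_ge_atTop (9 : ℝ), ev_log 24] with M hs hM9 hl4
  intro L x y e lam hL1 hL2 hx hy he hlam
  have hM0 : 0 < M := by linarith
  have hM1 : 1 ≤ M := by linarith
  have hL0 : 1 ≤ L := (Real.one_le_rpow hM1 hε.le).trans hL1
  have hLM : L ≤ M := hL2.trans (by
    calc M ^ (1 - ε) ≤ M ^ (1 : ℝ) := Real.rpow_le_rpow_of_exponent_le hM1 (by linarith)
      _ = M := Real.rpow_one M)
  have hyM : y ≤ M := hy.trans (by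
    calc M ^ c4 ≤ M ^ (1 : ℝ) := Real.rpow_le_rpow_of_exponent_le hM1 (by linarith)
      _ = M := Real.rpow_one M)
  set Y := YE ε M L with hY
  set ℓ := Real.log M with hℓ
  have hℓ0 : 0 < ℓ := by linarith
  set T : ℝ := ℓ ^ D with hT
  have hT0 : 0 < T := by positivity
  have hT1 : 24 * ℓ ≤ T := by
    rw [hT, hD]
    calc 24 * ℓ ≤ ℓ * ℓ := mul_le_mul_of_nonneg_right hl4 hℓ0.le
      _ = ℓ ^ 2 := by ring
      _ ≤ ℓ ^ (A + E + 2) := pow_le_pow_right₀ (by linarith) (by omega)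
  -- the truncation
  set a1 : ZI → ℝ := fun v => if |alE e Y v| ≤ T then alE e Y v else 0 with ha1
  set a2 : ZI → ℝ := fun v => if |alE e Y v| ≤ T then 0 else alE e Y v with ha2
  have e1 : alE e Y = fun v => a1 v + a2 v := by
    funext v
    rw [ha1, ha2]
    simp only
    split_ifs <;> simp
  have hVG : VG M x y Y (alE e Y) lam = VG M x y Y a1 lam + VG M x y Y a2 lam := by
    conv_lhs => rw [e1]
    exact VG_add _ _ _ _ _ _ _
  have h2 : |VG M x y Y a2 lam| ≤ 1 / T * ∑ z ∈ Zb L M, (dv z : ℝ) ^ 4 := by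
    apply VG_tail (by linarith) hlam hyM (by positivity)
    intro v hv
    rw [ha2]
    simp only
    split_ifs with h
    · rw [abs_zero]
      positivity
    · push Not at h
      have h3 := alE_abs he Y hv
      have h4 : T ≤ dv v := h.le.trans h3
      rw [div_mul_eq_mul_div, one_mul, le_div_iff₀ hT0]
      calc |alE e Y v| * T ≤ (dv v : ℝ) * (dv v : ℝ) := mul_le_mul h3 h4 hT0.le (by positivity)
        _ = _ := by ring
  have h2' : ∑ z ∈ Zb L M, (dv z : ℝ) ^ 4 ≤ Cm * (L * M) * ℓ ^ E := by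
    rw [sum_Zb]
    exact hmom L M (by linarith) hL0 hLM
  have h3 : |VG M x y Y a1 lam| ≤ C * (L * M / ℓ ^ A) := by
    have hal : Al Y M (fun v => (24 * ℓ / T) * a1 v) := by
      refine ⟨fun v hv => ?_, fun v _ _ => ?_⟩
      · rw [ha1]
        simp only
        rw [alE_zero he hv]
        simp
      · rw [abs_mul, abs_of_pos (by positivity : 0 < 24 * ℓ / T)]
        have h5 : |a1 v| ≤ T := by
          rw [ha1]
          simp only
          split_ifs with h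
          · exact h
          · rw [abs_zero]
            exact hT0.le
        calc 24 * ℓ / T * |a1 v| ≤ 24 * ℓ / T * T := mul_le_mul_of_nonneg_left h5 (by positivity)
          _ = 24 * ℓ := by field_simp
    have h6 := hs L Y Y x y _ lam hal hL1 hL2 le_rfl le_rfl hx hy hlam
    rw [VG_smul, abs_mul, abs_of_pos (by positivity : 0 < 24 * ℓ / T)] at h6
    have h7 : |VG M x y Y a1 lam| ≤ T * (C * (L * M) / ℓ ^ (A + D)) := by
      have h8 : (1 : ℝ) / T ≤ 24 * ℓ / T := by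
        apply div_le_div_of_nonneg_right _ hT0.le
        linarith
      have h9 : 1 / T * |VG M x y Y a1 lam| ≤ C * (L * M) / ℓ ^ (A + D) :=
        (mul_le_mul_of_nonneg_right h8 (abs_nonneg _)).trans h6
      rw [div_mul_eq_mul_div, one_mul, div_le_iff₀ hT0] at h9
      linarith
    refine h7.trans (le_of_eq ?_)
    rw [hT, pow_add ℓ A D]
    field_simp
  rw [hVG]
  have h4 : 1 / T * ∑ z ∈ Zb L M, (dv z : ℝ) ^ 4 ≤ Cm * (L * M / ℓ ^ A) := by
    calc 1 / T * ∑ z ∈ Zb L M, (dv z : ℝ) ^ 4 ≤ 1 / T * (Cm * (L * M) * ℓ ^ E) :=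
          mul_le_mul_of_nonneg_left h2' (by positivity)
      _ = Cm * (L * M) * (ℓ ^ E / T) := by ring
      _ ≤ Cm * (L * M) * (1 / ℓ ^ A) := by
          apply mul_le_mul_of_nonneg_left _ (by positivity)
          rw [div_le_div_iff₀ hT0 (by positivity), one_mul, ← pow_add, hT]
          exact pow_le_pow_right₀ (by linarith) (by omega)
      _ = _ := by ring
  calc |VG M x y Y a1 lam + VG M x y Y a2 lam| ≤ |VG M x y Y a1 lam| + |VG M x y Y a2 lam| := abs_add_le _ _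
    _ ≤ C * (L * M / ℓ ^ A) + Cm * (L * M / ℓ ^ A) := add_le_add h3 (h2.trans h4)
    _ = _ := by ring

theorem main_mu (hem : S_EM) (ε : ℝ) (A B : ℕ) (hε : 0 < ε) (hε1 : ε ≤ 1 / 6) {c3 c4 : ℝ} (hc3 : 0 < c3) (h34 : c3 < c4)
    (hc4 : 6 * c4 ≤ ε) : ∃ C : ℝ, 0 < C ∧ ∀ᶠ M : ℝ in atTop, ∀ (L x y : ℝ) (e : ZI) (lam : ℤ → ℝ),
    M ^ (1 / 3 + 2 * ε) ≤ L → L ≤ M ^ (1 - 2 * ε) → M ^ c3 ≤ x → x ≤ y → y ≤ M ^ c4 → e ≠ 0 → nz e ≤ (Real.log M) ^ B →
    Lm L lam →
    |∑ l ∈ Icc 1 ⌊L⌋, lam l * ∑ m ∈ Icc ⌈-M⌉ ⌊M⌋, cv (fw M x y) (mue e) (⟨l, m⟩ : ZI)| ≤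
      C * (L * M / (Real.log M) ^ A) := by
  classical
  obtain ⟨C3, hC3, h3⟩ := typeII ε A hε (by linarith) hc3 h34 hc4
  obtain ⟨C5, hC5, h5⟩ := hem A B c3 ε hc3 hε
  obtain ⟨C1, hC1, h1⟩ := c_ti ε hε
  obtain ⟨K, hK, hdv⟩ := c_dvb (ε / 120) (by positivity)
  obtain ⟨C4, hC4, h4⟩ := pow_log (ε / 20) A (by positivity)
  refine ⟨C4 * (6 * K + K ^ 2 * C1) + C3 + C5, by positivity, ?_⟩
  filter_upwards [h3, h5, eventually_ge_atTop (3 : ℝ), ev_log_rpow ε hε B 1] with M h3 h5 hM3 hBM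
  intro L x y e lam hL1 hL2 hx hxy hy he hee hlam
  have hM : 1 ≤ M := by linarith
  have hx1 : 1 ≤ x := (Real.one_le_rpow hM hc3.le).trans hx
  have hP : PE ε c4 M L y := ⟨hε, hε1, hM3, hL1, hL2, hc4, hx1.trans hxy, hy⟩
  have hL := hP.L0
  have hM0 : 0 < M := by linarith
  have hM1 : 1 < M := by linarith
  have hlog := hP.log1
  have hy0 : 0 ≤ y := by linarith
  have hyM : y ≤ M := by
    have h5 : M ^ c4 ≤ M := by
      calc M ^ c4 ≤ M ^ (1 : ℝ) := Real.rpow_le_rpow_of_exponent_le hM (by linarith)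
        _ = M := Real.rpow_one _
    exact hy.trans h5
  have hyX : y ≤ 2 * M ^ 2 := hyM.trans (le_two_sq hM)
  have hY1 := hP.Y1
  have hyY := hP.yY
  have hyYY := yYY2 hP
  have hyYM := hP.yYM
  have hyY3 := hP.yY3
  have hLM := hP.LM
  have hL2' := hP.L2'
  have hYM := hP.YM
  have hYε : M ^ ε ≤ YE ε M L := by
    unfold YE
    exact le_mul_of_one_le_left (Real.rpow_nonneg hM0.le _) hP.ML1
  have h3' := h3 L x y e lam (le_trans (Real.rpow_le_rpow_of_exponent_le hM (by linarith)) hL1) hP.L2' hx hy he hlam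
  rw [wa_all hM hlam hP.LM hY1 hyX he]
  have heM : nz e ≤ M ^ ε := hee.trans (by simpa using hBM)
  have hne := one_le_nz he
  generalize YE ε M L = Y at *
  set ℓ := Real.log M with hℓ
  have hℓ0 : 0 < ℓ := by linarith
  -- the power saving
  set Q : ℝ := L * M ^ (1 - ε / 20) with hQ
  have hQ0 : 0 < Q := by positivity
  have hQA : Q ≤ C4 * (L * M / ℓ ^ A) := by
    have h6 := h4 M hM
    rw [hQ, mul_div_assoc', le_div_iff₀ (by positivity)]
    calc L * M ^ (1 - ε / 20) * ℓ ^ A ≤ L * M ^ (1 - ε / 20) * (C4 * M ^ (ε / 20)) := mul_le_mul_of_nonneg_left h6 (by positivity)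
      _ = C4 * (L * (M ^ (1 - ε / 20) * M ^ (ε / 20))) := by ring
      _ = C4 * (L * M) := by
        rw [← Real.rpow_add hM0, sub_add_cancel, Real.rpow_one]
  set K' : ℝ := K * M ^ (ε / 40) with hK'
  have hK'0 : 0 ≤ K' := by positivity
  have hdv' : ∀ z : ZI, z ≠ 0 → nz z ≤ M ^ 3 → (dv z : ℝ) ≤ K' := by
    intro z hz hz3
    refine (hdv z hz).trans ?_
    rw [hK']
    apply mul_le_mul_of_nonneg_left _ hK.le
    calc (nz z) ^ (ε / 120) ≤ (M ^ 3) ^ (ε / 120) := Real.rpow_le_rpow (nz_nonneg z) hz3 (by positivity)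
      _ = M ^ (ε / 40) := by
        rw [← Real.rpow_natCast, ← Real.rpow_mul hM0.le]
        congr 1
        push_cast
        ring
  -- V0
  have hV0 : |∑ a ∈ bg x y, fw M x y a * W0a M Y e lam a| ≤ 3 * K * Q := by
    refine (W0_bd hM1 hlam (by linarith) hyM hy0 he hK'0 (fun z hz hz2 => hdv' z hz (hz2.trans hyY3))).trans ?_
    have h7 : Real.sqrt (y * Y * nz e) ≤ M ^ (1 / 2 : ℝ) := by
      have e0 : y * Y * nz e ≤ M ^ (1 : ℝ) := by
        calc y * Y * nz e ≤ M ^ (2 / 3 : ℝ) * M ^ ε := mul_le_mul hyY heM (nz_nonneg e) (by positivity)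
          _ = M ^ (2 / 3 + ε) := (Real.rpow_add hM0 _ _).symm
          _ ≤ _ := Real.rpow_le_rpow_of_exponent_le hM (by linarith)
      refine (Real.sqrt_le_sqrt e0).trans ?_
      rw [Real.sqrt_eq_rpow, ← Real.rpow_mul hM0.le]
      exact Real.rpow_le_rpow_of_exponent_le hM (by linarith)
    have h8 : 1 ≤ M ^ (1 / 2 : ℝ) := Real.one_le_rpow hM (by norm_num)
    calc K' * (L * (2 * Real.sqrt (y * Y * nz e) + 1)) ≤ K' * (L * (3 * M ^ (1 / 2 : ℝ))) := by
          apply mul_le_mul_of_nonneg_left _ hK'0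
          exact mul_le_mul_of_nonneg_left (by linarith) (by linarith)
      _ = 3 * K * (L * (M ^ (ε / 40) * M ^ (1 / 2 : ℝ))) := by
          rw [hK']
          ring
      _ ≤ 3 * K * Q := by
          apply mul_le_mul_of_nonneg_left _ (by positivity)
          rw [hQ, ← Real.rpow_add hM0]
          apply mul_le_mul_of_nonneg_left _ (by linarith)
          exact Real.rpow_le_rpow_of_exponent_le hM (by linarith)
  -- V2
  have hV2 : |∑ a ∈ bg x y, fw M x y a * W2a M L Y e lam a| ≤ K ^ 2 * C1 * Q := by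
    have hD1 : 1 ≤ y * (Y * Y) * nz e := one_le_mul_of_one_le_of_one_le (one_le_m3 (hx1.trans hxy) hY1) hne
    have hD2 : y * (Y * Y) * nz e ≤ L * M ^ (1 - ε) := by
      calc y * (Y * Y) * nz e ≤ L * M ^ (1 - 2 * ε) * M ^ ε := mul_le_mul hyYY heM (nz_nonneg e) (by positivity)
        _ = L * (M ^ (1 - 2 * ε) * M ^ ε) := by ring
        _ = L * M ^ (1 - ε) := by
          rw [← Real.rpow_add hM0]
          congr 2
          ring
    refine (W2_bd hM1 hyM hy0 (by linarith) he (fun z hz hz2 => hdv' z hz (hz2.trans hyYM))).trans ?_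
    have h6 := h1 M L (y * (Y * Y) * nz e) lam (by linarith) hL hL2' hD1 hD2 hlam
    have h7 : ∑ t ∈ bl (y * (Y * Y) * nz e), |er1 M L lam t| ≤ C1 * L * M ^ (1 - ε / 10) := h6
    calc K' ^ 2 * ∑ t ∈ bl (y * (Y * Y) * nz e), |er1 M L lam t| ≤ K' ^ 2 * (C1 * L * M ^ (1 - ε / 10)) :=
          mul_le_mul_of_nonneg_left h7 (by positivity)
      _ = K ^ 2 * C1 * (L * (M ^ (ε / 40) * M ^ (ε / 40) * M ^ (1 - ε / 10))) := by
          rw [hK']
          ring
      _ = K ^ 2 * C1 * Q := by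
          rw [hQ, ← Real.rpow_add hM0, ← Real.rpow_add hM0]
          congr 3
          ring
  -- the main term
  have hE : |∑ l ∈ Icc 1 ⌊L⌋, lam l * (2 * M * Em l y Y e (fw M x y))| ≤ 2 * C5 * (L * M / ℓ ^ A) := by
    have hY2 : Y ≤ M ^ 2 := hYM.trans (by nlinarith)
    have h6 := h5 L y Y Y e (fw M x y) hL hLM hyM hYε hY2 hYε hY2 he hee (fw_one hM1 hyM) (fun a ha => by
      obtain ⟨g1, g2, g3⟩ := fw_ne ha
      exact ⟨g1, lt_of_le_of_lt hx g2⟩)
    have h7 : ∑ l ∈ Icc 1 ⌊L⌋, |Em l y Y e (fw M x y)| ≤ C5 * L / ℓ ^ A := h6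
    calc |∑ l ∈ Icc 1 ⌊L⌋, lam l * (2 * M * Em l y Y e (fw M x y))| ≤
        ∑ l ∈ Icc 1 ⌊L⌋, |lam l * (2 * M * Em l y Y e (fw M x y))| := abs_sum_le_sum_abs _ _
      _ ≤ ∑ l ∈ Icc 1 ⌊L⌋, 2 * M * |Em l y Y e (fw M x y)| := by
          refine sum_le_sum fun l _ => ?_
          rw [abs_mul, abs_mul, abs_of_pos (by positivity : 0 < 2 * M)]
          calc |lam l| * (2 * M * |Em l y Y e (fw M x y)|) ≤ 1 * (2 * M * |Em l y Y e (fw M x y)|) :=
                mul_le_mul_of_nonneg_right (hlam.1 l) (by positivity)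
            _ = _ := one_mul _
      _ = 2 * M * ∑ l ∈ Icc 1 ⌊L⌋, |Em l y Y e (fw M x y)| := by rw [mul_sum]
      _ ≤ 2 * M * (C5 * L / ℓ ^ A) := mul_le_mul_of_nonneg_left h7 (by positivity)
      _ = _ := by ring
  have hX : 0 ≤ L * M / ℓ ^ A := by positivity
  generalize ∑ a ∈ bg x y, fw M x y a * W0a M Y e lam a = v0 at *
  generalize ∑ a ∈ bg x y, fw M x y a * W2a M L Y e lam a = v2 at *
  generalize VG M x y Y (alE e Y) lam = v3 at *
  generalize ∑ l ∈ Icc 1 ⌊L⌋, lam l * (2 * M * Em l y Y e (fw M x y)) = v4 at *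
  have hQ1 := mul_le_mul_of_nonneg_left hQA (show 0 ≤ 6 * K + K ^ 2 * C1 by positivity)
  have g0 := abs_le.1 hV0
  have g2 := abs_le.1 hV2
  have g3 := abs_le.1 h3'
  have g4 := abs_le.1 hE
  set P := L * M / ℓ ^ A with hP'
  have hC3P : 0 ≤ C3 * P := by positivity
  have hC5P : 0 ≤ C5 * P := by positivity
  have hKQ : 0 ≤ K ^ 2 * C1 * Q := by positivity
  rw [abs_le]
  constructor <;> nlinarith [g0.1, g0.2, g2.1, g2.2, g3.1, g3.2, g4.1, g4.2]

end Pool.Agent.J6H16.E4
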