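import Pool.Agent.J6H16.E4.Uc
import Pool.Agent.J6H16.E4.LO
import Pool.Agent.J6H16.E4.SQT
import Pool.Agent.J6H16.E2.Dx

/-!
# Project E4 (helper16): from the Moebius function to the Liouville function, one element
-/

set_option autoImplicit false

namespace Pool.Agent.J6H16.E4

open Finset Filter Topology
open Pool.Agent.N782.GN hiding f1
open Pool.Agent.N855.GN
open Pool.Agent.H304R3.HK (UH bb LamK CS)
open Pool.Agent.J6H16.PF Pool.Agent.J6H16.PR Pool.Agent.J6H16.E2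

theorem Zb_sub' {L M : ℝ} (hLM : L ≤ M) : Zb L M ⊆ bl (2 * M ^ 2) := by
  intro z hz
  have h1 := mem_Zb.1 hz
  have h2 : (1 : ℝ) ≤ z.re := by exact_mod_cast h1.1
  rw [mem_bl]
  refine ⟨Zb_ne hz, ?_⟩
  rw [nz_eq]
  have h4 : (z.im : ℝ) ^ 2 ≤ M ^ 2 := by
    rw [← sq_abs]
    exact pow_le_pow_left₀ (abs_nonneg _) h1.2.2 2
  have h5 : (z.re : ℝ) ^ 2 ≤ M ^ 2 := pow_le_pow_left₀ (by linarith) (h1.2.1.trans hLM) 2
  linarith

theorem div_nat {z : ZI} (hz : z ≠ 0) {h : ℕ} (hd : ((h : ℕ) : ZI) ∣ z) : (h.divisors.card : ℝ) ≤ dv z := by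
  classical
  rw [Nat.cast_le, Mom.dv_eq]
  have h1 : h.divisors.image (fun d : ℕ => ((d : ℕ) : ZI)) ⊆ Mom.ds z := by
    intro t ht
    rw [mem_image] at ht
    obtain ⟨d, hd', rfl⟩ := ht
    rw [Mom.mem_ds hz]
    exact (Nat.cast_dvd_cast (Nat.dvd_of_mem_divisors hd')).trans hd
  have h2 : h.divisors.card = (h.divisors.image (fun d : ℕ => ((d : ℕ) : ZI))).card := by
    rw [card_image_of_injective]
    exact Nat.cast_injective
  rw [h2]
  exact card_le_card h1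

open Classical in
theorem cnt_nat {z : ZI} (hz : z ≠ 0) (X : ℕ) : (((Icc 1 X).filter (fun h : ℕ => ((h : ℕ) : ZI) ∣ z)).card : ℝ) ≤ dv z := by
  classical
  rw [Nat.cast_le, Mom.dv_eq]
  rw [← card_image_of_injective _ (Nat.cast_injective (R := ZI))]
  apply card_le_card
  intro t ht
  rw [mem_image] at ht
  obtain ⟨d, hd', rfl⟩ := ht
  rw [Mom.mem_ds hz]
  exact (mem_filter.1 hd').2

open Classical in
theorem cnt_sq {z : ZI} (hz : z ≠ 0) (X : ℝ) : (((bl X).filter (fun δ => δ ∣ z)).card : ℝ) ≤ dv z := by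
  classical
  rw [Nat.cast_le, Mom.dv_eq]
  apply card_le_card
  intro t ht
  rw [Mom.mem_ds hz]
  exact (mem_filter.1 ht).2

theorem mue_abs (e z : ZI) : |mue e z| ≤ 1 := by
  unfold mue
  split_ifs
  · exact abs_mu_le _
  · rw [abs_zero]
    exact zero_le_one

theorem cv_mue_bd {M x y : ℝ} (hM : 3 ≤ M) (e : ZI) {z : ZI} (hz : z ≠ 0) (hzM : nz z ≤ 2 * M ^ 2) :
    |cv (fw M x y) (mue e) z| ≤ 12 := by
  have hM1 : 1 < M := by linarith
  have hl := Real.log_pos hM1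
  unfold cv
  refine (cf_abs _ _ _ _ _).trans ((cf_bd (κ := 1 / Real.log M) (C1 := 1) (by positivity) zero_le_one (fw_le hM1 x y)
    (mue_abs e) hz).trans ?_)
  have h2 : Real.log (nz z) ≤ 3 * Real.log M := by
    have h4 := Real.log_le_log (nz_pos hz) (hzM.trans (two_sq_le hM))
    rwa [Real.log_pow, Nat.cast_ofNat] at h4
  calc 1 * (1 / Real.log M) * (4 * Real.log (nz z)) ≤ 1 * (1 / Real.log M) * (4 * (3 * Real.log M)) := by gcongr
    _ = 12 := by field_simp; norm_num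

theorem cv_mue_zero {M x y : ℝ} {e z : ZI} (h : ¬ e ∣ z) : cv (fw M x y) (mue e) z = 0 := by
  unfold cv cf
  apply sum_eq_zero
  intro p hp
  rw [mem_filter] at hp
  have h1 : mue e p.2 = 0 := by
    unfold mue
    rw [if_neg]
    intro h2
    apply h
    rw [← hp.2]
    exact h2.mul_left _
  rw [h1, mul_zero]

theorem cv_lo {M x y X : ℝ} {c : ℕ → ℝ} (hc : ∀ (z : ZI), z ≠ 0 → nz z ≤ X →
    lo z = 1 / 4 * ∑ h ∈ Icc 1 ⌊X⌋₊, ∑ δ ∈ bl X, c h * mue (((h : ℕ) : ZI) * δ ^ 2) z) {z : ZI} (hzX : nz z ≤ X) :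
    cv (fw M x y) lo z = 1 / 4 * ∑ p ∈ (Icc 1 ⌊X⌋₊) ×ˢ (bl X), c p.1 * cv (fw M x y) (mue (((p.1 : ℕ) : ZI) * p.2 ^ 2)) z := by
  classical
  unfold cv cf
  set F := ((bl (nz z) ×ˢ bl (nz z)).filter (fun p => p.1 * p.2 = z)) with hF
  have e1 : ∀ p ∈ F, fw M x y p.1 * lo p.2 = 1 / 4 * ∑ q ∈ (Icc 1 ⌊X⌋₊) ×ˢ (bl X),
      c q.1 * (fw M x y p.1 * mue (((q.1 : ℕ) : ZI) * q.2 ^ 2) p.2) := by
    intro p hp
    rw [hF, mem_filter, mem_product, mem_bl, mem_bl] at hp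
    rw [hc p.2 hp.1.2.1 (hp.1.2.2.trans hzX), ← sum_product']
    rw [← mul_assoc, mul_comm (fw M x y p.1), mul_assoc, mul_sum]
    congr 1
    refine sum_congr rfl fun q _ => ?_
    ring
  rw [sum_congr rfl e1, ← mul_sum]
  congr 1
  rw [sum_comm]
  refine sum_congr rfl fun q _ => ?_
  rw [mul_sum]

open Classical in
/-- the bad elements -/
noncomputable def Bd (L M D : ℝ) : Finset ZI :=
  (Zb L M).filter (fun z => D < (ct z : ℝ) ∨ ∃ δ ∈ (bl (2 * M)).filter (fun δ => D < nz δ), δ ^ 2 ∣ z)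

theorem Bd_card : ∃ C : ℝ, 0 < C ∧ ∀ (L M D : ℝ), 3 ≤ M → 1 ≤ L → L ≤ M → 2 ≤ D →
    ((Bd L M D).card : ℝ) ≤ C * (L * M / D + M * Real.log M) := by
  classical
  obtain ⟨C, hC, hs⟩ := SQT.c_sqt
  refine ⟨C + 6, by positivity, fun L M D hM hL hLM hD => ?_⟩
  have h1 := hs L M D hM hL hLM (by linarith)
  have h2 := ctZ (T := D) hL hLM hD
  have hl : 0 ≤ Real.log M := Real.log_nonneg (by linarith)
  have e1 : ((Bd L M D).card : ℝ) ≤ (((Zb L M).filter (fun z => D ≤ (ct z : ℝ))).card : ℝ) +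
      ∑ δ ∈ (bl (2 * M)).filter (fun δ => D < nz δ), (((Zb L M).filter (fun z => δ ^ 2 ∣ z)).card : ℝ) := by
    have hsub : Bd L M D ⊆ (Zb L M).filter (fun z => D ≤ (ct z : ℝ)) ∪
        ((bl (2 * M)).filter (fun δ => D < nz δ)).biUnion (fun δ => (Zb L M).filter (fun z => δ ^ 2 ∣ z)) := by
      intro z hz
      unfold Bd at hz
      rw [mem_filter] at hz
      rw [mem_union, mem_biUnion]
      rcases hz.2 with h | ⟨δ, h, h'⟩
      · exact Or.inl (mem_filter.2 ⟨hz.1, h.le⟩)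
      · exact Or.inr ⟨δ, h, mem_filter.2 ⟨hz.1, h'⟩⟩
    have h3 := (card_le_card hsub).trans (card_union_le _ _)
    have h4 : (((bl (2 * M)).filter (fun δ => D < nz δ)).biUnion (fun δ => (Zb L M).filter (fun z => δ ^ 2 ∣ z))).card ≤
      ∑ δ ∈ (bl (2 * M)).filter (fun δ => D < nz δ), ((Zb L M).filter (fun z => δ ^ 2 ∣ z)).card := card_biUnion_le
    have h5 := h3.trans (Nat.add_le_add_left h4 _)
    calc ((Bd L M D).card : ℝ) ≤ ((((Zb L M).filter (fun z => D ≤ (ct z : ℝ))).card +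
        ∑ δ ∈ (bl (2 * M)).filter (fun δ => D < nz δ), ((Zb L M).filter (fun z => δ ^ 2 ∣ z)).card : ℕ) : ℝ) := by
          exact_mod_cast h5
      _ = _ := by push_cast; rfl
  have e2 : ∀ δ : ZI, (((Zb L M).filter (fun z => δ ^ 2 ∣ z)).card : ℝ) = ∑ l ∈ Icc 1 ⌊L⌋, nm M (δ ^ 2) l := by
    intro δ
    have h6 := sum_Zb L M (fun z => if δ ^ 2 ∣ z then (1 : ℝ) else 0)
    rw [← sum_filter, sum_const, nsmul_eq_mul, mul_one] at h6
    rw [h6]
    refine sum_congr rfl fun l _ => ?_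
    rw [← sum_filter, sum_const, nsmul_eq_mul, mul_one]
    unfold nm
    congr!
  rw [sum_congr rfl fun δ _ => e2 δ] at e1
  have h7 : 0 ≤ L * M / D := by positivity
  have h8 : 0 ≤ M * Real.log M := by positivity
  calc ((Bd L M D).card : ℝ) ≤ 6 * L * M / D + C * (L * M / D + M * Real.log M) := by linarith
    _ = C * (L * M / D + M * Real.log M) + 6 * (L * M / D) := by ring
    _ ≤ _ := by nlinarith

/-- the Liouville function for one element, up to the contribution of the large cofactors -/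
theorem lo_one {L M x y D : ℝ} (hM : 3 ≤ M) (hLM : L ≤ M) (hD1 : 1 ≤ D) (hDM : D ≤ 2 * M ^ 2) {c : ℕ → ℝ}
    (hc0 : ∀ h, |c h| ≤ (h.divisors.card : ℝ)) (hc : ∀ (z : ZI), z ≠ 0 → nz z ≤ 2 * M ^ 2 →
    lo z = 1 / 4 * ∑ h ∈ Icc 1 ⌊2 * M ^ 2⌋₊, ∑ δ ∈ bl (2 * M ^ 2), c h * mue (((h : ℕ) : ZI) * δ ^ 2) z)
    {z : ZI} (hz : z ∈ Zb L M) :
    |cv (fw M x y) lo z - 1 / 4 * ∑ p ∈ (Icc 1 ⌊D⌋₊) ×ˢ (bl D), c p.1 * cv (fw M x y) (mue (((p.1 : ℕ) : ZI) * p.2 ^ 2)) z| ≤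
      3 * (if z ∈ Bd L M D then (dv z : ℝ) ^ 3 else 0) := by
  classical
  have hz0 := Zb_ne hz
  have hzX : nz z ≤ 2 * M ^ 2 := ((mem_bl _ _).1 (Zb_sub' hLM hz)).2
  set P := (Icc 1 ⌊2 * M ^ 2⌋₊) ×ˢ (bl (2 * M ^ 2)) with hP
  set P0 := (Icc 1 ⌊D⌋₊) ×ˢ (bl D) with hP0
  set g : ℕ × ZI → ℝ := fun p => c p.1 * cv (fw M x y) (mue (((p.1 : ℕ) : ZI) * p.2 ^ 2)) z with hg
  have hsub : P0 ⊆ P := by
    apply product_subset_product
    · intro h hh
      rw [mem_Icc] at hh ⊢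
      exact ⟨hh.1, hh.2.trans (Nat.floor_mono hDM)⟩
    · intro δ hδ
      rw [mem_bl] at hδ ⊢
      exact ⟨hδ.1, hδ.2.trans hDM⟩
  rw [cv_lo hc hzX]
  have e1 : ∑ p ∈ P, g p - ∑ p ∈ P0, g p = ∑ p ∈ P \ P0, g p := by
    rw [← sum_sdiff hsub]
    ring
  have e2 : 1 / 4 * ∑ p ∈ P, g p - 1 / 4 * ∑ p ∈ P0, g p = 1 / 4 * ∑ p ∈ P \ P0, g p := by
    rw [← e1]
    ring
  change |1 / 4 * ∑ p ∈ P, g p - 1 / 4 * ∑ p ∈ P0, g p| ≤ _
  rw [e2, abs_mul, abs_of_pos (by norm_num : (0 : ℝ) < 1 / 4)]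
  -- the terms that occur
  have hne : ∀ p ∈ P \ P0, g p ≠ 0 → ((p.1 : ℕ) : ZI) ∣ z ∧ p.2 ^ 2 ∣ z ∧ z ∈ Bd L M D := by
    intro p hp hgp
    rw [Finset.mem_sdiff] at hp
    have h1 : ((p.1 : ℕ) : ZI) * p.2 ^ 2 ∣ z := by
      by_contra hn
      apply hgp
      rw [hg]
      simp only
      rw [cv_mue_zero hn, mul_zero]
    have h2 : ((p.1 : ℕ) : ZI) ∣ z := (dvd_mul_right _ _).trans h1
    have h3 : p.2 ^ 2 ∣ z := (dvd_mul_left _ _).trans h1
    refine ⟨h2, h3, ?_⟩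
    unfold Bd
    rw [mem_filter]
    refine ⟨hz, ?_⟩
    obtain ⟨hp1, hp2⟩ := hp
    rw [hP, mem_product, mem_Icc, mem_bl] at hp1
    rw [hP0, mem_product, mem_Icc, mem_bl, not_and_or, not_and_or, not_and_or] at hp2
    rcases hp2 with (h4 | h4) | (h4 | h4)
    · exact absurd hp1.1.1 h4
    · left
      have h5 : p.1 ∣ ct z := (Pool.Agent.N864.GN.MB.dvd_ct p.1 z).1 h2
      have h6 : p.1 ≤ ct z := Nat.le_of_dvd (Pool.Agent.N277.GN.ct_pos hz0) h5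
      have h7 : D < (p.1 : ℝ) := by
        push Not at h4
        exact (Nat.floor_lt (by linarith)).1 h4
      have h8 : (p.1 : ℝ) ≤ ct z := by exact_mod_cast h6
      linarith
    · exact absurd hp1.2.1 h4
    · right
      push Not at h4
      refine ⟨p.2, ?_, h3⟩
      rw [mem_filter, mem_bl]
      refine ⟨⟨hp1.2.1, ?_⟩, h4⟩
      have h9 : nz (p.2 ^ 2) ≤ nz z := Mom.nz_le_of_dvd hz0 h3
      rw [pow_two, Pool.Agent.N855.GN.nz_mul] at h9
      have h10 := nz_nonneg p.2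
      by_contra hcon
      push Not at hcon
      nlinarith
  by_cases hzB : z ∈ Bd L M D
  · rw [if_pos hzB]
    have h1 : |∑ p ∈ P \ P0, g p| ≤ ∑ p ∈ ((Icc 1 ⌊2 * M ^ 2⌋₊).filter (fun h : ℕ => ((h : ℕ) : ZI) ∣ z)) ×ˢ
        ((bl (2 * M ^ 2)).filter (fun δ => δ ∣ z)), (dv z : ℝ) * 12 := by
      have h2 : |∑ p ∈ P \ P0, g p| ≤ ∑ p ∈ (P \ P0).filter (fun p => g p ≠ 0), |g p| := by
        refine (abs_sum_le_sum_abs _ _).trans (le_of_eq ?_)
        rw [sum_filter]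
        refine sum_congr rfl fun p _ => ?_
        split_ifs with h3
        · rfl
        · push Not at h3
          rw [h3, abs_zero]
      refine h2.trans ?_
      have h3 : ∀ p ∈ (P \ P0).filter (fun p => g p ≠ 0), |g p| ≤ (dv z : ℝ) * 12 := by
        intro p hp
        rw [mem_filter] at hp
        obtain ⟨g1, g2, -⟩ := hne p hp.1 hp.2
        rw [hg]
        simp only
        rw [abs_mul]
        exact mul_le_mul ((hc0 p.1).trans (div_nat hz0 g1)) (cv_mue_bd hM _ hz0 hzX) (abs_nonneg _) (Nat.cast_nonneg _)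
      refine (sum_le_sum h3).trans ?_
      apply sum_le_sum_of_subset_of_nonneg
      · intro p hp
        rw [mem_filter] at hp
        obtain ⟨g1, g2, -⟩ := hne p hp.1 hp.2
        have hp1 := (Finset.mem_sdiff.1 hp.1).1
        rw [hP, mem_product] at hp1
        rw [mem_product, mem_filter, mem_filter]
        exact ⟨⟨hp1.1, g1⟩, ⟨hp1.2, (dvd_pow_self p.2 two_ne_zero).trans g2⟩⟩
      · intro p _ _
        positivity
    rw [sum_const, card_product, nsmul_eq_mul, Nat.cast_mul] at h1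
    have h4 := cnt_nat hz0 ⌊2 * M ^ 2⌋₊
    have h5 := cnt_sq hz0 (2 * M ^ 2)
    have h6 : ((((Icc 1 ⌊2 * M ^ 2⌋₊).filter (fun h : ℕ => ((h : ℕ) : ZI) ∣ z)).card : ℝ) *
        (((bl (2 * M ^ 2)).filter (fun δ => δ ∣ z)).card : ℝ)) ≤ (dv z : ℝ) * (dv z : ℝ) :=
      mul_le_mul h4 h5 (Nat.cast_nonneg _) (Nat.cast_nonneg _)
    have h7 := mul_le_mul_of_nonneg_right h6 (show (0 : ℝ) ≤ (dv z : ℝ) * 12 by positivity)
    nlinarith
  · rw [if_neg hzB]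
    have h1 : ∑ p ∈ P \ P0, g p = 0 := by
      apply sum_eq_zero
      intro p hp
      by_contra h2
      exact hzB (hne p hp h2).2.2
    rw [h1]
    simp

end Pool.Agent.J6H16.E4
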