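import Pool.Agent.J6H16.E4.Ud
import Pool.Agent.J6H16.E4.EM
import Pool.Agent.N407.GN.Dvb

/-!
# Project E4 (helper16): the Liouville function of the second factor, on average over the lines
-/

set_option autoImplicit false

namespace Pool.Agent.J6H16.E4

open Finset Filter Topology
open Pool.Agent.N782.GN hiding f1
open Pool.Agent.N855.GN
open Pool.Agent.H304R3.HK (UH bb LamK CS)
open Pool.Agent.J6H16.PF Pool.Agent.J6H16.PR Pool.Agent.J6H16.E2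

theorem c_em' : S_EM := EM.c_em c_mub c_p0b c_dvb

theorem sum_lam (L M : ℝ) (lam : ℤ → ℝ) (g : ZI → ℝ) :
    ∑ l ∈ Icc 1 ⌊L⌋, lam l * ∑ m ∈ Icc ⌈-M⌉ ⌊M⌋, g (⟨l, m⟩ : ZI) = ∑ z ∈ Zb L M, lam z.re * g z := by
  rw [sum_Zb]
  refine sum_congr rfl fun l _ => ?_
  rw [mul_sum]

/-- the tails -/
theorem tails (A : ℕ) : ∃ (C : ℝ) (k : ℕ), 0 < C ∧ 1 ≤ k ∧ ∀ᶠ M : ℝ in atTop, ∀ L : ℝ, M ^ (1 / 3 : ℝ) ≤ L → L ≤ M →
    ∑ z ∈ Zb L M, 3 * (if z ∈ Bd L M ((Real.log M) ^ k) then (dv z : ℝ) ^ 3 else 0) ≤ C * (L * M / (Real.log M) ^ A) := by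
  classical
  obtain ⟨Cm, E, hCm, hmom⟩ := c_mom' 6
  obtain ⟨Cb, hCb, hbd⟩ := Bd_card
  refine ⟨3 * (Cm + 2 * Cb), E + 2 * A + 1, by positivity, by omega, ?_⟩
  filter_upwards [eventually_ge_atTop (9 : ℝ), ev_log 2, ev_log_rpow (1 / 3) (by norm_num) (E + 2 * A + 1) 1] with M hM9 hl2 hlM
  intro L hL hLM
  have hM0 : 0 < M := by linarith
  have hM1 : 1 ≤ M := by linarith
  have hL1 : 1 ≤ L := (Real.one_le_rpow hM1 (by norm_num)).trans hL
  set ℓ := Real.log M with hℓ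
  have hℓ0 : 0 < ℓ := by linarith
  set D : ℝ := ℓ ^ (E + 2 * A + 1) with hD
  have hD2 : 2 ≤ D := by
    rw [hD]
    calc (2 : ℝ) ≤ ℓ := hl2
      _ = ℓ ^ 1 := (pow_one ℓ).symm
      _ ≤ ℓ ^ (E + 2 * A + 1) := pow_le_pow_right₀ (by linarith) (by omega)
  set T : ℝ := ℓ ^ (E + A) with hT
  have hT0 : 0 < T := by positivity
  have h1 : ∑ z ∈ Zb L M, (dv z : ℝ) ^ 6 ≤ Cm * (L * M) * ℓ ^ E := by
    rw [sum_Zb]
    exact hmom L M (by linarith) hL1 hLM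
  have h2 := hbd L M D (by linarith) hL1 hLM hD2
  have h3 : ∀ z ∈ Zb L M, 3 * (if z ∈ Bd L M D then (dv z : ℝ) ^ 3 else 0) ≤
      3 * (1 / T * (dv z : ℝ) ^ 6 + T * (if z ∈ Bd L M D then 1 else 0)) := by
    intro z _
    apply mul_le_mul_of_nonneg_left _ (by norm_num)
    have hd : 0 ≤ (dv z : ℝ) ^ 3 := by positivity
    split_ifs
    · rw [mul_one]
      by_cases h4 : (dv z : ℝ) ^ 3 ≤ T
      · have : 0 ≤ 1 / T * (dv z : ℝ) ^ 6 := by positivity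
        linarith
      · push Not at h4
        have h5 : (dv z : ℝ) ^ 3 ≤ 1 / T * (dv z : ℝ) ^ 6 := by
          rw [div_mul_eq_mul_div, one_mul, le_div_iff₀ hT0]
          calc (dv z : ℝ) ^ 3 * T ≤ (dv z : ℝ) ^ 3 * (dv z : ℝ) ^ 3 := mul_le_mul_of_nonneg_left h4.le hd
            _ = _ := by ring
        linarith
    · rw [mul_zero, add_zero]
      positivity
  have h6 : ∑ z ∈ Zb L M, (if z ∈ Bd L M D then (1 : ℝ) else 0) = ((Bd L M D).card : ℝ) := by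
    rw [← sum_filter, sum_const, nsmul_eq_mul, mul_one]
    congr 2
    ext z
    rw [mem_filter]
    constructor
    · intro h
      exact h.2
    · intro h
      refine ⟨?_, h⟩
      unfold Bd at h
      exact (mem_filter.1 h).1
  calc ∑ z ∈ Zb L M, 3 * (if z ∈ Bd L M D then (dv z : ℝ) ^ 3 else 0)
      ≤ ∑ z ∈ Zb L M, 3 * (1 / T * (dv z : ℝ) ^ 6 + T * (if z ∈ Bd L M D then 1 else 0)) := sum_le_sum h3
    _ = 3 * (1 / T * ∑ z ∈ Zb L M, (dv z : ℝ) ^ 6 + T * ((Bd L M D).card : ℝ)) := by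
        rw [← mul_sum, sum_add_distrib, ← mul_sum, ← mul_sum, h6]
    _ ≤ 3 * (1 / T * (Cm * (L * M) * ℓ ^ E) + T * (Cb * (L * M / D + M * ℓ))) := by
        gcongr
    _ ≤ 3 * (Cm * (L * M / ℓ ^ A) + 2 * Cb * (L * M / ℓ ^ A)) := by
        have e1 : 1 / T * (Cm * (L * M) * ℓ ^ E) = Cm * (L * M / ℓ ^ A) := by
          rw [hT, pow_add]
          field_simp
        have e2 : T * (L * M / D) ≤ L * M / ℓ ^ A := by
          rw [mul_div_assoc', div_le_div_iff₀ (by positivity) (by positivity)]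
          have e3 : T * ℓ ^ A ≤ D := by
            rw [hT, hD, ← pow_add]
            exact pow_le_pow_right₀ (by linarith) (by omega)
          calc T * (L * M) * ℓ ^ A = L * M * (T * ℓ ^ A) := by ring
            _ ≤ L * M * D := mul_le_mul_of_nonneg_left e3 (by positivity)
        have e4 : T * (M * ℓ) ≤ L * M / ℓ ^ A := by
          rw [le_div_iff₀ (by positivity)]
          have e5 : T * ℓ * ℓ ^ A ≤ L := by
            calc T * ℓ * ℓ ^ A = ℓ ^ (E + 2 * A + 1) := by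
                  rw [hT]
                  ring
              _ ≤ M ^ (1 / 3 : ℝ) := by simpa using hlM
              _ ≤ L := hL
          calc T * (M * ℓ) * ℓ ^ A = M * (T * ℓ * ℓ ^ A) := by ring
            _ ≤ M * L := mul_le_mul_of_nonneg_left e5 hM0.le
            _ = L * M := mul_comm _ _
        have e6 : T * (Cb * (L * M / D + M * ℓ)) ≤ 2 * Cb * (L * M / ℓ ^ A) := by
          calc T * (Cb * (L * M / D + M * ℓ)) = Cb * (T * (L * M / D) + T * (M * ℓ)) := by ring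
            _ ≤ Cb * (L * M / ℓ ^ A + L * M / ℓ ^ A) := mul_le_mul_of_nonneg_left (add_le_add e2 e4) hCb.le
            _ = _ := by ring
        linarith
    _ = _ := by ring

theorem main_lam (ε : ℝ) (A : ℕ) (hε : 0 < ε) (hε1 : ε ≤ 1 / 6) {c3 c4 : ℝ} (hc3 : 0 < c3) (h34 : c3 < c4)
    (hc4 : 6 * c4 ≤ ε) : ∃ C : ℝ, 0 < C ∧ ∀ᶠ M : ℝ in atTop, ∀ (L x y : ℝ) (lam : ℤ → ℝ),
    M ^ (1 / 3 + 2 * ε) ≤ L → L ≤ M ^ (1 - 2 * ε) → M ^ c3 ≤ x → x ≤ y → y ≤ M ^ c4 → Lm L lam →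
    |∑ l ∈ Icc 1 ⌊L⌋, lam l * ∑ m ∈ Icc ⌈-M⌉ ⌊M⌋, cv (fw M x y) lo (⟨l, m⟩ : ZI)| ≤ C * (L * M / (Real.log M) ^ A) := by
  classical
  obtain ⟨c, hc0, hc⟩ := LO.c_lo c_mub
  obtain ⟨Ct, k, hCt, hk, ht⟩ := tails A
  obtain ⟨C1, hC1, h1⟩ := main_mu c_em' ε (A + 3 * k) (4 * k) hε hε1 hc3 h34 hc4
  refine ⟨9 / 4 * C1 + Ct, by positivity, ?_⟩
  filter_upwards [h1, ht, eventually_ge_atTop (9 : ℝ), ev_log 2, ev_log_rpow 1 (by norm_num) k 1] with M h1 ht hM9 hl2 hlM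
  intro L x y lam hL1 hL2 hx hxy hy hlam
  have hM0 : 0 < M := by linarith
  have hM1 : 1 ≤ M := by linarith
  have hLa : M ^ (1 / 3 : ℝ) ≤ L := (Real.rpow_le_rpow_of_exponent_le hM1 (by linarith)).trans hL1
  have hL0 : 1 ≤ L := (Real.one_le_rpow hM1 (by norm_num)).trans hLa
  have hLM : L ≤ M := hL2.trans (by
    calc M ^ (1 - 2 * ε) ≤ M ^ (1 : ℝ) := Real.rpow_le_rpow_of_exponent_le hM1 (by linarith)
      _ = M := Real.rpow_one M)
  have ht' := ht L hLa hLM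
  set ℓ := Real.log M with hℓ
  have hℓ0 : 0 < ℓ := by linarith
  set D : ℝ := ℓ ^ k with hD
  have hD1 : 1 ≤ D := one_le_pow₀ (by linarith)
  have hDM : D ≤ M := by
    have : 1 * ℓ ^ k ≤ M ^ (1 : ℝ) := hlM
    rwa [one_mul, Real.rpow_one] at this
  have hDM2 : D ≤ 2 * M ^ 2 := hDM.trans (le_two_sq hM1)
  rw [sum_lam]
  set P0 := (Icc 1 ⌊D⌋₊) ×ˢ (bl D) with hP0
  set e : ℕ × ZI → ZI := fun p => ((p.1 : ℕ) : ZI) * p.2 ^ 2 with he
  have hmain : ∀ p ∈ P0, |∑ z ∈ Zb L M, lam z.re * cv (fw M x y) (mue (e p)) z| ≤ C1 * (L * M / ℓ ^ (A + 3 * k)) := by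
    intro p hp
    rw [hP0, mem_product, mem_Icc, mem_bl] at hp
    have hp1 : ((p.1 : ℕ) : ZI) ≠ 0 := by
      have : p.1 ≠ 0 := by omega
      exact_mod_cast this
    have hpD : (p.1 : ℝ) ≤ D := (Nat.le_floor_iff (by linarith)).1 hp.1.2
    have he0 : e p ≠ 0 := mul_ne_zero hp1 (pow_ne_zero 2 hp.2.1)
    have hen : nz (e p) ≤ ℓ ^ (4 * k) := by
      rw [he]
      simp only
      rw [Pool.Agent.N855.GN.nz_mul, pow_two, Pool.Agent.N855.GN.nz_mul, Pool.Agent.N277.GN.nz_natCast]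
      have h5 := nz_nonneg p.2
      calc (p.1 : ℝ) ^ 2 * (nz p.2 * nz p.2) ≤ D ^ 2 * (D * D) := by
            refine mul_le_mul (pow_le_pow_left₀ (Nat.cast_nonneg _) hpD 2) (mul_le_mul hp.2.2 hp.2.2 h5 (by linarith)) (by positivity) (by positivity)
        _ = ℓ ^ (4 * k) := by
            rw [hD]
            ring
    have h6 := h1 L x y (e p) lam hL1 hL2 hx hxy hy he0 hen hlam
    rwa [sum_lam] at h6
  -- the decomposition
  have hrem : |∑ z ∈ Zb L M, lam z.re * cv (fw M x y) lo z -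
      1 / 4 * ∑ p ∈ P0, c p.1 * ∑ z ∈ Zb L M, lam z.re * cv (fw M x y) (mue (e p)) z| ≤
      ∑ z ∈ Zb L M, 3 * (if z ∈ Bd L M D then (dv z : ℝ) ^ 3 else 0) := by
    have e1 : 1 / 4 * ∑ p ∈ P0, c p.1 * ∑ z ∈ Zb L M, lam z.re * cv (fw M x y) (mue (e p)) z =
        ∑ z ∈ Zb L M, lam z.re * (1 / 4 * ∑ p ∈ P0, c p.1 * cv (fw M x y) (mue (e p)) z) := by
      simp only [mul_sum]
      rw [sum_comm]
      refine sum_congr rfl fun z _ => sum_congr rfl fun p _ => ?_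
      ring
    rw [e1, ← sum_sub_distrib]
    refine (abs_sum_le_sum_abs _ _).trans (sum_le_sum fun z hz => ?_)
    rw [← mul_sub, abs_mul]
    have h7 := lo_one (x := x) (y := y) (L := L) (D := D) (by linarith : (3 : ℝ) ≤ M) hLM hD1 hDM2 hc0
      (fun z hz hz2 => hc (2 * M ^ 2) z hz hz2) hz
    calc |lam z.re| * |cv (fw M x y) lo z - 1 / 4 * ∑ p ∈ P0, c p.1 * cv (fw M x y) (mue (e p)) z| ≤
        1 * |cv (fw M x y) lo z - 1 / 4 * ∑ p ∈ P0, c p.1 * cv (fw M x y) (mue (e p)) z| :=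
          mul_le_mul_of_nonneg_right (hlam.1 _) (abs_nonneg _)
      _ = _ := one_mul _
      _ ≤ _ := h7
  have hsum : |1 / 4 * ∑ p ∈ P0, c p.1 * ∑ z ∈ Zb L M, lam z.re * cv (fw M x y) (mue (e p)) z| ≤
      9 / 4 * C1 * (L * M / ℓ ^ A) := by
    rw [abs_mul, abs_of_pos (by norm_num : (0 : ℝ) < 1 / 4)]
    have h8 : |∑ p ∈ P0, c p.1 * ∑ z ∈ Zb L M, lam z.re * cv (fw M x y) (mue (e p)) z| ≤
        ∑ p ∈ P0, D * (C1 * (L * M / ℓ ^ (A + 3 * k))) := by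
      refine (abs_sum_le_sum_abs _ _).trans (sum_le_sum fun p hp => ?_)
      rw [abs_mul]
      have hp' := hp
      rw [hP0, mem_product, mem_Icc] at hp'
      have hpD : (p.1 : ℝ) ≤ D := (Nat.le_floor_iff (by linarith)).1 hp'.1.2
      have h9 : |c p.1| ≤ D := by
        refine (hc0 p.1).trans (le_trans ?_ hpD)
        exact_mod_cast Nat.card_divisors_le_self p.1
      exact mul_le_mul h9 (hmain p hp) (abs_nonneg _) (by linarith)
    have h10 : (P0.card : ℝ) ≤ D * (9 * D) := by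
      rw [hP0, card_product, Nat.cast_mul, Nat.card_Icc, Nat.add_sub_cancel]
      exact mul_le_mul (Nat.floor_le (by linarith)) (Pool.Agent.N855.GN.card_bl hD1) (Nat.cast_nonneg _) (by linarith)
    rw [sum_const, nsmul_eq_mul] at h8
    calc 1 / 4 * |∑ p ∈ P0, c p.1 * ∑ z ∈ Zb L M, lam z.re * cv (fw M x y) (mue (e p)) z| ≤
        1 / 4 * (D * (9 * D) * (D * (C1 * (L * M / ℓ ^ (A + 3 * k))))) := by
          apply mul_le_mul_of_nonneg_left _ (by norm_num)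
          exact h8.trans (mul_le_mul_of_nonneg_right h10 (by positivity))
      _ = _ := by
          rw [hD, pow_add, pow_mul']
          field_simp
  have h11 : |∑ z ∈ Zb L M, lam z.re * cv (fw M x y) lo z| ≤
      |1 / 4 * ∑ p ∈ P0, c p.1 * ∑ z ∈ Zb L M, lam z.re * cv (fw M x y) (mue (e p)) z| +
      |∑ z ∈ Zb L M, lam z.re * cv (fw M x y) lo z -
      1 / 4 * ∑ p ∈ P0, c p.1 * ∑ z ∈ Zb L M, lam z.re * cv (fw M x y) (mue (e p)) z| := by
    have := abs_add_le (1 / 4 * ∑ p ∈ P0, c p.1 * ∑ z ∈ Zb L M, lam z.re * cv (fw M x y) (mue (e p)) z)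
      (∑ z ∈ Zb L M, lam z.re * cv (fw M x y) lo z -
      1 / 4 * ∑ p ∈ P0, c p.1 * ∑ z ∈ Zb L M, lam z.re * cv (fw M x y) (mue (e p)) z)
    rwa [add_sub_cancel] at this
  calc |∑ z ∈ Zb L M, lam z.re * cv (fw M x y) lo z| ≤ 9 / 4 * C1 * (L * M / ℓ ^ A) + Ct * (L * M / ℓ ^ A) :=
        h11.trans (add_le_add hsum (hrem.trans ht'))
    _ = _ := by ring

end Pool.Agent.J6H16.E4
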