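import Pool.Agent.J6H16.E4.Ue
import Pool.Agent.J6H16.E4.Stm
import Pool.Agent.J6H16.E2.Ps

/-!
# Project E4 (helper16): almost all `l`
-/

set_option autoImplicit false

namespace Pool.Agent.J6H16.E4

open Finset Filter Topology
open Pool.Agent.N782.GN hiding f1
open Pool.Agent.N855.GN
open Pool.Agent.H304R3.HK (UH bb LamK CS)
open Pool.Agent.J6H16.PF Pool.Agent.J6H16.PR Pool.Agent.J6H16.E2

/-- the absolute values on average -/
theorem avg_abs (ε : ℝ) (A : ℕ) (hε : 0 < ε) (hε1 : ε ≤ 1 / 6) {c3 c4 : ℝ} (hc3 : 0 < c3) (h34 : c3 < c4)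
    (hc4 : 6 * c4 ≤ ε) : ∃ C : ℝ, 0 < C ∧ ∀ᶠ M : ℝ in atTop, ∀ (L x y : ℝ),
    M ^ (1 / 3 + 2 * ε) ≤ L → L ≤ M ^ (1 - 2 * ε) → M ^ c3 ≤ x → x ≤ y → y ≤ M ^ c4 →
    ∑ l ∈ Icc 1 ⌊L⌋, |∑ m ∈ Icc ⌈-M⌉ ⌊M⌋, cv (fw M x y) lo (⟨l, m⟩ : ZI)| ≤ C * (L * M / (Real.log M) ^ A) := by
  classical
  obtain ⟨C, hC, h⟩ := main_lam ε A hε hε1 hc3 h34 hc4
  refine ⟨C, hC, ?_⟩
  filter_upwards [h] with M h
  intro L x y hL1 hL2 hx hxy hy
  set S : ℤ → ℝ := fun l => ∑ m ∈ Icc ⌈-M⌉ ⌊M⌋, cv (fw M x y) lo (⟨l, m⟩ : ZI) with hS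
  set lam : ℤ → ℝ := fun l => if l < 1 ∨ L < (l : ℝ) then 0 else (if 0 ≤ S l then 1 else -1) with hlam
  have hLm : Lm L lam := by
    constructor
    · intro l
      rw [hlam]
      simp only
      split_ifs <;> simp
    · intro l hl
      rw [hlam]
      simp only
      rw [if_pos hl]
  have h1 := h L x y lam hL1 hL2 hx hxy hy hLm
  refine le_trans (le_of_eq ?_) ((le_abs_self _).trans h1)
  refine sum_congr rfl fun l hl => ?_
  rw [mem_Icc, Int.le_floor] at hl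
  rw [hlam]
  simp only
  rw [if_neg (by push Not; exact ⟨hl.1, hl.2⟩)]
  change |S l| = _ * S l
  split_ifs with h2
  · rw [one_mul, abs_of_nonneg h2]
  · push Not at h2
    rw [abs_of_neg h2]
    ring

/-- one point of the grid -/
theorem one_pt4 (ε : ℝ) (A2 : ℕ) (hε : 0 < ε) (hε1 : ε ≤ 1) (J : ℕ) (κ : ℕ → ℝ) (hκ0 : 0 < κ 0)
    (hκ : ∀ j, κ j < κ (j + 1)) (hκJ : κ J ≤ ε / 216) (hJ : 0 < J) : ∃ C : ℝ, 0 < C ∧ ∀ᶠ K : ℝ in atTop,
    ∀ M : ℝ, K ^ (1 + ε / 2) ≤ M → M ≤ K ^ (3 - ε / 2) → ∀ j < J,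
      ∑ l ∈ Icc 1 ⌊K⌋, |∑ m ∈ Icc ⌈-M⌉ ⌊M⌋, cv (fw M (M ^ κ j) (M ^ κ (j + 1))) lo (⟨l, m⟩ : ZI)| ≤
        C * (K * M / (Real.log K) ^ A2) := by
  have hmono : StrictMono κ := strictMono_nat_of_lt_succ hκ
  have h0J : κ 0 < κ J := hmono hJ
  obtain ⟨C, hC, h⟩ := avg_abs (ε / 36) A2 (by positivity) (by linarith) (c3 := κ 0) (c4 := κ J) hκ0 h0J (by linarith)
  obtain ⟨M0, hM0⟩ := eventually_atTop.1 h
  refine ⟨C, hC, ?_⟩
  filter_upwards [eventually_ge_atTop (3 : ℝ), eventually_ge_atTop M0] with K hK3 hKM0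
  intro M hM1 hM2 j hj
  have hK0 : 0 < K := by linarith
  have hK1 : 1 ≤ K := by linarith
  have hKM : K ≤ M := by
    calc K = K ^ (1 : ℝ) := (Real.rpow_one K).symm
      _ ≤ K ^ (1 + ε / 2) := Real.rpow_le_rpow_of_exponent_le hK1 (by linarith)
      _ ≤ M := hM1
  have hM0' : 0 < M := by linarith
  have hM1' : 1 ≤ M := by linarith
  have g := hM0 M (hKM0.trans hKM) K (M ^ κ j) (M ^ κ (j + 1)) ?_ ?_ ?_ ?_ ?_
  · refine g.trans ?_
    apply mul_le_mul_of_nonneg_left _ hC.le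
    have hlK : 0 < Real.log K := Real.log_pos (by linarith)
    apply div_le_div_of_nonneg_left (by positivity) (by positivity)
    exact pow_le_pow_left₀ hlK.le (Real.log_le_log hK0 hKM) _
  · calc M ^ (1 / 3 + 2 * (ε / 36)) ≤ (K ^ (3 - ε / 2)) ^ (1 / 3 + 2 * (ε / 36)) :=
          Real.rpow_le_rpow hM0'.le hM2 (by positivity)
      _ = K ^ ((3 - ε / 2) * (1 / 3 + 2 * (ε / 36))) := by rw [← Real.rpow_mul hK0.le]
      _ ≤ K ^ (1 : ℝ) := Real.rpow_le_rpow_of_exponent_le hK1 (by nlinarith)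
      _ = K := Real.rpow_one K
  · calc K = K ^ (1 : ℝ) := (Real.rpow_one K).symm
      _ ≤ K ^ ((1 + ε / 2) * (1 - 2 * (ε / 36))) := Real.rpow_le_rpow_of_exponent_le hK1 (by nlinarith)
      _ = (K ^ (1 + ε / 2)) ^ (1 - 2 * (ε / 36)) := by rw [← Real.rpow_mul hK0.le]
      _ ≤ M ^ (1 - 2 * (ε / 36)) := Real.rpow_le_rpow (by positivity) hM1 (by linarith)
  · exact Real.rpow_le_rpow_of_exponent_le hM1' (hmono.monotone (Nat.zero_le j))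
  · exact Real.rpow_le_rpow_of_exponent_le hM1' (hκ j).le
  · exact Real.rpow_le_rpow_of_exponent_le hM1' (hmono.monotone hj)

theorem lo_abs (z : ZI) : |lo z| ≤ 1 := by
  unfold lo
  split_ifs
  · simp
  · rw [abs_pow, abs_neg, abs_one, one_pow]

theorem lo_conj (l m : ℤ) : lo (⟨l, -m⟩ : ZI) = lo (⟨l, m⟩ : ZI) := by
  unfold lo
  have h1 : ((⟨l, -m⟩ : ZI) = 0) ↔ ((⟨l, m⟩ : ZI) = 0) := by
    rw [Zsqrtd.ext_iff, Zsqrtd.ext_iff]
    simp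
  have h2 : Zsqrtd.norm (⟨l, -m⟩ : ZI) = Zsqrtd.norm (⟨l, m⟩ : ZI) := by
    rw [Zsqrtd.norm_def, Zsqrtd.norm_def]
    ring
  by_cases h : (⟨l, m⟩ : ZI) = 0
  · rw [if_pos h, if_pos (h1.2 h)]
  · rw [if_neg h, if_neg (fun h' => h (h1.1 h')), h2]

/-- symmetry -/
theorem sym_sum (l : ℤ) {N : ℝ} (hN : 0 ≤ N) :
    ∑ m ∈ Icc ⌈-N⌉ ⌊N⌋, lo (⟨l, m⟩ : ZI) = 2 * ∑ m ∈ Icc (1 : ℤ) ⌊N⌋, lo (⟨l, m⟩ : ZI) + lo (⟨l, 0⟩ : ZI) := by
  have hf : 0 ≤ ⌊N⌋ := Int.floor_nonneg.2 hN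
  rw [Int.ceil_neg]
  have e1 : Icc (-⌊N⌋) ⌊N⌋ = (Icc (-⌊N⌋) (-1)) ∪ ({0} ∪ Icc 1 ⌊N⌋) := by
    ext m
    rw [mem_union, mem_union, mem_Icc, mem_Icc, mem_Icc, mem_singleton]
    omega
  rw [e1, sum_union, sum_union, sum_singleton]
  · have e2 : ∑ m ∈ Icc (-⌊N⌋) (-1), lo (⟨l, m⟩ : ZI) = ∑ m ∈ Icc (1 : ℤ) ⌊N⌋, lo (⟨l, m⟩ : ZI) := by
      refine sum_nbij' (fun m => -m) (fun m => -m) ?_ ?_ ?_ ?_ ?_
      · intro m hm
        rw [mem_Icc] at hm ⊢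
        omega
      · intro m hm
        rw [mem_Icc] at hm ⊢
        omega
      · intro m _
        simp
      · intro m _
        simp
      · intro m _
        exact (lo_conj l m).symm
    rw [e2]
    ring
  · rw [disjoint_singleton_left, mem_Icc]
    omega
  · rw [disjoint_left]
    intro m hm hm'
    rw [mem_union, mem_singleton, mem_Icc] at hm'
    rw [mem_Icc] at hm
    omega

/-- from `M` to a slightly larger `N` -/
theorem ext_sum (l : ℤ) {M N : ℝ} (hM : 0 ≤ M) (hMN : M ≤ N) :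
    |∑ m ∈ Icc ⌈-N⌉ ⌊N⌋, lo (⟨l, m⟩ : ZI)| ≤ |∑ m ∈ Icc ⌈-M⌉ ⌊M⌋, lo (⟨l, m⟩ : ZI)| + (2 * (N - M) + 2) := by
  classical
  have hf : 0 ≤ ⌊M⌋ := Int.floor_nonneg.2 hM
  have hfN : ⌊M⌋ ≤ ⌊N⌋ := Int.floor_mono hMN
  rw [Int.ceil_neg, Int.ceil_neg]
  have hsub : Icc (-⌊M⌋) ⌊M⌋ ⊆ Icc (-⌊N⌋) ⌊N⌋ := by
    intro m hm
    rw [mem_Icc] at hm ⊢
    omega
  rw [← sum_sdiff hsub, add_comm]
  refine (abs_add_le _ _).trans (add_le_add le_rfl ?_)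
  refine (abs_sum_le_sum_abs _ _).trans ((sum_le_sum fun m _ => lo_abs _).trans ?_)
  rw [sum_const, nsmul_eq_mul, mul_one, card_sdiff_of_subset hsub, Int.card_Icc, Int.card_Icc]
  have h1 : (⌊N⌋ + 1 - -⌊N⌋).toNat - (⌊M⌋ + 1 - -⌊M⌋).toNat = (2 * (⌊N⌋ - ⌊M⌋)).toNat := by omega
  rw [h1]
  have h2 : (((2 * (⌊N⌋ - ⌊M⌋)).toNat : ℕ) : ℤ) = 2 * (⌊N⌋ - ⌊M⌋) := Int.toNat_of_nonneg (by omega)
  have h3 : (((2 * (⌊N⌋ - ⌊M⌋)).toNat : ℕ) : ℝ) = 2 * ((⌊N⌋ : ℝ) - (⌊M⌋ : ℝ)) := by exact_mod_cast h2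
  rw [h3]
  have h4 := Int.floor_le N
  have h5 := Int.lt_floor_add_one M
  linarith

open Classical in
/-- **almost all `l`** -/
theorem grid_e4 (hTK : S_TKL) (ε η : ℝ) (A : ℕ) (hε : 0 < ε) (hε1 : ε ≤ 1) (hη : 0 < η) : ∀ᶠ K : ℝ in atTop,
    (((Icc 1 ⌊K⌋).filter (fun l : ℤ => ¬ ∀ N : ℝ, K ^ (1 + ε) ≤ N → N ≤ K ^ (3 - ε) →
      |∑ m ∈ Icc (1 : ℤ) ⌊N⌋, lo (⟨l, m⟩ : ZI)| ≤ η * N)).card : ℝ) ≤ K / (Real.log K) ^ A := by
  classical
  obtain ⟨J, κ, θ, hθ, hκ0, hκ, hκJ, hT⟩ := hTK (η / 4) (ε / 216) (by positivity) (by positivity) (by linarith)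
  obtain ⟨M0, hM0⟩ := eventually_atTop.1 hT
  -- the windows may be empty
  obtain ⟨C, hC, h⟩ : ∃ C : ℝ, 0 < C ∧ ∀ᶠ K : ℝ in atTop,
    ∀ M : ℝ, K ^ (1 + ε / 2) ≤ M → M ≤ K ^ (3 - ε / 2) → ∀ j < J,
      ∑ l ∈ Icc 1 ⌊K⌋, |∑ m ∈ Icc ⌈-M⌉ ⌊M⌋, cv (fw M (M ^ κ j) (M ^ κ (j + 1))) lo (⟨l, m⟩ : ZI)| ≤
        C * (K * M / (Real.log K) ^ (A + 2)) := by
    rcases Nat.eq_zero_or_pos J with hJ | hJ
    · refine ⟨1, one_pos, Eventually.of_forall fun K M _ _ j hj => ?_⟩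
      omega
    · exact one_pt4 ε (A + 2) hε hε1 J κ hκ0 hκ hκJ hJ
  set h0 : ℝ := Real.log (1 + η / 4) with hh0
  have hh0p : 0 < h0 := Real.log_pos (by linarith)
  filter_upwards [h, eventually_ge_atTop (3 : ℝ), eventually_ge_atTop M0,
    ev_log ((3 / h0 + 1) * J * (C / θ) + 1), ev_rp (show 0 < ε / 2 by positivity) (1 + η / 4),
    eventually_ge_atTop (8 / η)]
    with K h hK3 hKM hℓK hKε hKη
  have hK0 : 0 < K := by linarith
  have hK1 : 1 ≤ K := by linarith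
  set ℓ := Real.log K with hℓ
  have hℓ1 : 1 ≤ ℓ := by
    have : 0 ≤ (3 / h0 + 1) * J * (C / θ) := by positivity
    linarith
  have hℓ0 : 0 < ℓ := by linarith
  set I : ℕ := ⌊3 * ℓ / h0⌋₊ + 1 with hI
  have hIb : (I : ℝ) ≤ (3 / h0 + 1) * ℓ := by
    have h1 : (⌊3 * ℓ / h0⌋₊ : ℝ) ≤ 3 * ℓ / h0 := Nat.floor_le (by positivity)
    rw [hI]
    push_cast
    calc (⌊3 * ℓ / h0⌋₊ : ℝ) + 1 ≤ 3 * ℓ / h0 + ℓ := add_le_add h1 hℓ1
      _ = _ := by ring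
  have hIlt : ∀ i : ℕ, Real.exp (i * h0) ≤ K ^ (3 : ℝ) → i < I := by
    intro i hi
    have h1 := Real.log_le_log (Real.exp_pos _) hi
    rw [Real.log_exp, Real.log_rpow hK0, ← hℓ, ← le_div_iff₀ hh0p] at h1
    rw [hI, Nat.lt_succ_iff]
    exact Nat.le_floor h1
  set S0 := Icc 1 ⌊K⌋ with hS0
  set T := (range I ×ˢ range J).filter (fun t : ℕ × ℕ => K ^ (1 + ε / 2) ≤ Real.exp (t.1 * h0) ∧
    Real.exp (t.1 * h0) ≤ K ^ (3 - ε / 2)) with hTd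
  set F : ℕ × ℕ → ℤ → ℝ := fun t l => |∑ m ∈ Icc ⌈-(Real.exp (t.1 * h0))⌉ ⌊Real.exp (t.1 * h0)⌋,
    cv (fw (Real.exp (t.1 * h0)) ((Real.exp (t.1 * h0)) ^ κ t.2) ((Real.exp (t.1 * h0)) ^ κ (t.2 + 1))) lo (⟨l, m⟩ : ZI)| with hF
  set St : ℕ × ℕ → Finset ℤ := fun t => S0.filter (fun l => θ * Real.exp (t.1 * h0) < F t l) with hSt
  have hcardSt : ∀ t ∈ T, ((St t).card : ℝ) ≤ C / θ * (K / ℓ ^ (A + 2)) := by
    intro t ht
    rw [hTd, mem_filter, mem_product, mem_range, mem_range] at ht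
    obtain ⟨⟨-, tj⟩, t1, t2⟩ := ht
    have hE := Real.exp_pos (t.1 * h0)
    have k1 := h (Real.exp (t.1 * h0)) t1 t2 t.2 tj
    have k3 := markov S0 (F t) (fun _ => abs_nonneg _) (mul_pos hθ hE)
    refine k3.trans ?_
    rw [div_le_iff₀ (mul_pos hθ hE)]
    refine k1.trans (le_of_eq ?_)
    field_simp
  have hcardT : (T.card : ℝ) ≤ (3 / h0 + 1) * ℓ * J := by
    have e1 : T.card ≤ I * J := by
      refine (card_filter_le _ _).trans (le_of_eq ?_)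
      rw [card_product, card_range, card_range]
    have e2 : (T.card : ℝ) ≤ I * J := by exact_mod_cast e1
    exact e2.trans (mul_le_mul_of_nonneg_right hIb (Nat.cast_nonneg _))
  have hincl : S0.filter (fun l : ℤ => ¬ ∀ N : ℝ, K ^ (1 + ε) ≤ N → N ≤ K ^ (3 - ε) →
      |∑ m ∈ Icc (1 : ℤ) ⌊N⌋, lo (⟨l, m⟩ : ZI)| ≤ η * N) ⊆ T.biUnion St := by
    intro l hl
    rw [mem_filter] at hl
    by_contra hcon
    rw [mem_biUnion] at hcon
    push Not at hcon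
    apply hl.2
    have hl1 : 1 ≤ l := by
      have := hl.1
      rw [hS0, mem_Icc] at this
      exact this.1
    have hlK : (l : ℝ) ≤ K := by
      have := hl.1
      rw [hS0, mem_Icc, Int.le_floor] at this
      exact this.2
    intro N hN1 hN2
    have hKN : K ≤ N := by
      calc K = K ^ (1 : ℝ) := (Real.rpow_one K).symm
        _ ≤ K ^ (1 + ε) := Real.rpow_le_rpow_of_exponent_le hK1 (by linarith)
        _ ≤ N := hN1
    have hN0 : 0 < N := by linarith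
    have hNlog : 0 ≤ Real.log N := Real.log_nonneg (by linarith)
    -- the point of the grid
    set i : ℕ := ⌊Real.log N / h0⌋₊ with hi
    set M : ℝ := Real.exp (i * h0) with hMd
    have hMN : M ≤ N := by
      rw [hMd, ← Real.le_log_iff_exp_le hN0, ← le_div_iff₀ hh0p]
      exact Nat.floor_le (by positivity)
    have hNM : N ≤ (1 + η / 4) * M := by
      have e1 : Real.log N < (i + 1) * h0 := by
        rw [← div_lt_iff₀ hh0p]
        exact Nat.lt_floor_add_one _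
      have e2 : N ≤ Real.exp ((i + 1) * h0) := by
        rw [← Real.log_le_iff_le_exp hN0]
        exact e1.le
      refine e2.trans (le_of_eq ?_)
      rw [add_mul, one_mul, Real.exp_add, hh0, Real.exp_log (by linarith), ← hh0, hMd]
      ring
    have hM1 : K ^ (1 + ε / 2) ≤ M := by
      have e1 : K ^ (1 + ε / 2) * (1 + η / 4) ≤ (1 + η / 4) * M := by
        calc K ^ (1 + ε / 2) * (1 + η / 4) ≤ K ^ (1 + ε / 2) * K ^ (ε / 2) := mul_le_mul_of_nonneg_left hKε (by positivity)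
          _ = K ^ (1 + ε) := by
            rw [← Real.rpow_add hK0]
            congr 1
            ring
          _ ≤ N := hN1
          _ ≤ _ := hNM
      rw [mul_comm (1 + η / 4) M] at e1
      exact le_of_mul_le_mul_right e1 (by linarith)
    have hM2 : M ≤ K ^ (3 - ε / 2) := by
      refine hMN.trans (hN2.trans ?_)
      exact Real.rpow_le_rpow_of_exponent_le hK1 (by linarith)
    have hM3 : M ≤ K ^ (3 : ℝ) := hM2.trans (Real.rpow_le_rpow_of_exponent_le hK1 (by linarith))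
    have hKM' : K ≤ M := by
      calc K = K ^ (1 : ℝ) := (Real.rpow_one K).symm
        _ ≤ K ^ (1 + ε / 2) := Real.rpow_le_rpow_of_exponent_le hK1 (by linarith)
        _ ≤ M := hM1
    have hM0' : 0 < M := by linarith
    have key := hM0 M (hKM.trans hKM') l hl1 (hlK.trans hKM') (fun j hj => by
      have htT : (i, j) ∈ T := by
        rw [hTd, mem_filter, mem_product, mem_range, mem_range]
        exact ⟨⟨hIlt i hM3, hj⟩, hM1, hM2⟩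
      have n4 := hcon _ htT
      by_contra hc
      push Not at hc
      apply n4
      rw [hSt]
      simp only
      rw [mem_filter]
      exact ⟨hl.1, hc⟩)
    have k2 := ext_sum l hM0'.le hMN
    rw [sym_sum l hN0.le] at k2
    set s := ∑ m ∈ Icc (1 : ℤ) ⌊N⌋, lo (⟨l, m⟩ : ZI) with hs
    have k3 := lo_abs (⟨l, 0⟩ : ZI)
    have k4 : |2 * s + lo (⟨l, 0⟩ : ZI)| ≤ η / 4 * M + (2 * (N - M) + 2) := k2.trans (add_le_add key le_rfl)
    have k5 : 2 * |s| ≤ |2 * s + lo (⟨l, 0⟩ : ZI)| + |lo (⟨l, 0⟩ : ZI)| := by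
      have := abs_sub (2 * s + lo (⟨l, 0⟩ : ZI)) (lo (⟨l, 0⟩ : ZI))
      rw [add_sub_cancel_right, abs_mul, abs_of_pos (by norm_num : (0 : ℝ) < 2)] at this
      exact this
    have k6 : N - M ≤ η / 4 * M := by linarith
    have k7 : η * M ≤ η * N := mul_le_mul_of_nonneg_left hMN hη.le
    have k8 : 8 ≤ η * N := by
      rw [div_le_iff₀ hη] at hKη
      nlinarith
    linarith
  have hfin : (((S0.filter (fun l : ℤ => ¬ ∀ N : ℝ, K ^ (1 + ε) ≤ N → N ≤ K ^ (3 - ε) →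
      |∑ m ∈ Icc (1 : ℤ) ⌊N⌋, lo (⟨l, m⟩ : ZI)| ≤ η * N)).card : ℕ) : ℝ) ≤ ∑ t ∈ T, ((St t).card : ℝ) := by
    have e1 := card_le_card hincl
    have e4 : (T.biUnion St).card ≤ ∑ t ∈ T, (St t).card := card_biUnion_le
    exact_mod_cast e1.trans e4
  refine hfin.trans ?_
  calc ∑ t ∈ T, ((St t).card : ℝ) ≤ ∑ t ∈ T, C / θ * (K / ℓ ^ (A + 2)) := sum_le_sum hcardSt
    _ = (T.card : ℝ) * (C / θ * (K / ℓ ^ (A + 2))) := by rw [sum_const, nsmul_eq_mul]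
    _ ≤ (3 / h0 + 1) * ℓ * J * (C / θ * (K / ℓ ^ (A + 2))) := mul_le_mul_of_nonneg_right hcardT (by positivity)
    _ = ((3 / h0 + 1) * J * (C / θ)) / ℓ * (K / ℓ ^ A) := by
        rw [pow_add]
        field_simp
    _ ≤ 1 * (K / ℓ ^ A) := by
        apply mul_le_mul_of_nonneg_right _ (by positivity)
        rw [div_le_one hℓ0]
        linarith
    _ = K / ℓ ^ A := one_mul _

end Pool.Agent.J6H16.E4
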