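import Pool.Agent.J6H16.E4.Uf
import Pool.Agent.J6H16.E4.Stn

/-!
# Project E4 (helper16): intervals, on average
-/

set_option autoImplicit false

namespace Pool.Agent.J6H16.E4

open Finset Filter Topology
open Pool.Agent.N782.GN hiding f1
open Pool.Agent.N855.GN
open Pool.Agent.H304R3.HK (UH bb LamK CS)
open Pool.Agent.J6H16.PF Pool.Agent.J6H16.PR Pool.Agent.J6H16.E2

theorem fw_scale {M X x y : ℝ} (hX : 1 < X) (a : ZI) :
    fw M x y a = (Real.log X / Real.log M) * fw X x y a := by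
  have hl := Real.log_pos hX
  unfold fw
  split_ifs
  · field_simp
  · rw [mul_zero]

theorem cv_scale {M X x y : ℝ} (hX : 1 < X) (g : ZI → ℝ) (t : ZI) :
    cv (fw M x y) g t = (Real.log X / Real.log M) * cv (fw X x y) g t := by
  unfold cv cf
  rw [mul_sum]
  refine sum_congr rfl fun p _ => ?_
  rw [fw_scale hX]
  ring

theorem an_split {X M : ℝ} (hX : 0 ≤ X) (hXM : X ≤ M) (F : ℤ → ℝ) :
    ∑ m ∈ an X M, F m = ∑ m ∈ Icc ⌈-M⌉ ⌊M⌋, F m - ∑ m ∈ Icc ⌈-X⌉ ⌊X⌋, F m := by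
  classical
  rw [eq_sub_iff_add_eq, ← sum_union]
  · apply sum_congr _ fun _ _ => rfl
    ext m
    rw [mem_union, mem_an, mem_Icc, mem_Icc, Int.ceil_le, Int.le_floor, Int.ceil_le, Int.le_floor]
    constructor
    · rintro (h | h)
      · exact abs_le.1 h.2
      · exact ⟨by push_cast; linarith [h.1], by linarith [h.2]⟩
    · intro h
      rcases lt_or_ge X |(m : ℝ)| with h1 | h1
      · exact Or.inl ⟨h1, abs_le.2 h⟩
      · exact Or.inr (abs_le.1 h1)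
  · rw [disjoint_left]
    intro m h1 h2
    rw [mem_an] at h1
    rw [mem_Icc, Int.ceil_le, Int.le_floor] at h2
    have : |(m : ℝ)| ≤ X := abs_le.2 h2
    linarith [h1.1]

theorem an_zero {M : ℝ} (hM : 0 ≤ M) (F : ℤ → ℝ) :
    ∑ m ∈ an 0 M, F m = ∑ m ∈ Icc ⌈-M⌉ ⌊M⌋, F m - F 0 := by
  rw [an_split le_rfl hM]
  simp

theorem cv_lo_bd {M x y : ℝ} (hM : 3 ≤ M) {z : ZI} (hz : z ≠ 0) (hzM : nz z ≤ 2 * M ^ 2) :
    |cv (fw M x y) lo z| ≤ 12 := by
  have hM1 : 1 < M := by linarith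
  have hl := Real.log_pos hM1
  unfold cv
  refine (cf_abs _ _ _ _ _).trans ((cf_bd (κ := 1 / Real.log M) (C1 := 1) (by positivity) zero_le_one (fw_le hM1 x y)
    lo_abs hz).trans ?_)
  have h2 : Real.log (nz z) ≤ 3 * Real.log M := by
    have h4 := Real.log_le_log (nz_pos hz) (hzM.trans (two_sq_le hM))
    rwa [Real.log_pow, Nat.cast_ofNat] at h4
  calc 1 * (1 / Real.log M) * (4 * Real.log (nz z)) ≤ 1 * (1 / Real.log M) * (4 * (3 * Real.log M)) := by gcongr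
    _ = 12 := by field_simp; norm_num

/-- the averages over the lines, for a part of the lines -/
theorem avg_an (ε : ℝ) (A2 : ℕ) (hε : 0 < ε) (hε1 : ε ≤ 1) (J : ℕ) (κ : ℕ → ℝ) (hκ0 : 0 < κ 0)
    (hκ : ∀ j, κ j < κ (j + 1)) (hκJ : κ J ≤ ε / 648) : ∃ C : ℝ, 0 < C ∧ ∀ᶠ K : ℝ in atTop,
    ∀ X M : ℝ, (X = 0 ∨ K ^ (1 + ε / 2) ≤ X) → X ≤ M → K ^ (1 + ε / 2) ≤ M → M ≤ K ^ (3 - ε / 2) → ∀ j < J,
      ∑ l ∈ Icc 1 ⌊K⌋, |∑ m ∈ an X M, cv (fw M (M ^ κ j) (M ^ κ (j + 1))) lo (⟨l, m⟩ : ZI)| ≤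
        C * (K * M / (Real.log K) ^ A2) := by
  have hmono : StrictMono κ := strictMono_nat_of_lt_succ hκ
  have hκ0J : κ 0 ≤ κ J := hmono.monotone (Nat.zero_le J)
  obtain ⟨C, hC, h⟩ := avg_abs (ε / 36) A2 (by positivity) (by linarith) (c3 := κ 0 / 2) (c4 := ε / 216) (by positivity)
    (by linarith) (by linarith)
  obtain ⟨M0, hM0⟩ := eventually_atTop.1 h
  obtain ⟨C4, hC4, h4⟩ := pow_log (ε / 2) A2 (by positivity)
  refine ⟨2 * C + 12 * C4, by positivity, ?_⟩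
  filter_upwards [eventually_ge_atTop (3 : ℝ), eventually_ge_atTop M0] with K hK3 hKM0
  intro X M hX0 hXM hM1 hM2 j hj
  have hK0 : 0 < K := by linarith
  have hK1 : 1 ≤ K := by linarith
  have hlK : 0 < Real.log K := Real.log_pos (by linarith)
  have hKM : K ≤ M := by
    calc K = K ^ (1 : ℝ) := (Real.rpow_one K).symm
      _ ≤ K ^ (1 + ε / 2) := Real.rpow_le_rpow_of_exponent_le hK1 (by linarith)
      _ ≤ M := hM1
  have hM0' : 0 < M := by linarith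
  have hM1' : 1 ≤ M := by linarith
  have hMK3 : M ≤ K ^ (3 : ℝ) := hM2.trans (Real.rpow_le_rpow_of_exponent_le hK1 (by linarith))
  -- the average for a full line of length `Z`
  have key : ∀ Z : ℝ, K ^ (1 + ε / 2) ≤ Z → Z ≤ M →
      ∑ l ∈ Icc 1 ⌊K⌋, |∑ m ∈ Icc ⌈-Z⌉ ⌊Z⌋, cv (fw M (M ^ κ j) (M ^ κ (j + 1))) lo (⟨l, m⟩ : ZI)| ≤
        C * (K * M / (Real.log K) ^ A2) := by
    intro Z hZ1 hZM
    have hKZ : K ≤ Z := by
      calc K = K ^ (1 : ℝ) := (Real.rpow_one K).symm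
        _ ≤ K ^ (1 + ε / 2) := Real.rpow_le_rpow_of_exponent_le hK1 (by linarith)
        _ ≤ Z := hZ1
    have hZ0 : 0 < Z := by linarith
    have hZ1' : 1 < Z := by linarith
    have hZ2 : Z ≤ K ^ (3 - ε / 2) := hZM.trans hM2
    have g := hM0 Z (hKM0.trans hKZ) K (M ^ κ j) (M ^ κ (j + 1)) ?_ ?_ ?_ ?_ ?_
    · have hlZ : 0 < Real.log Z := Real.log_pos hZ1'
      have hlZM : Real.log Z ≤ Real.log M := Real.log_le_log hZ0 hZM
      have hr : Real.log Z / Real.log M ≤ 1 := by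
        rw [div_le_one (by linarith)]
        exact hlZM
      have hr0 : 0 ≤ Real.log Z / Real.log M := div_nonneg hlZ.le (by linarith)
      calc ∑ l ∈ Icc 1 ⌊K⌋, |∑ m ∈ Icc ⌈-Z⌉ ⌊Z⌋, cv (fw M (M ^ κ j) (M ^ κ (j + 1))) lo (⟨l, m⟩ : ZI)|
          ≤ ∑ l ∈ Icc 1 ⌊K⌋, |∑ m ∈ Icc ⌈-Z⌉ ⌊Z⌋, cv (fw Z (M ^ κ j) (M ^ κ (j + 1))) lo (⟨l, m⟩ : ZI)| := by
            refine sum_le_sum fun l _ => ?_
            have e1 : ∑ m ∈ Icc ⌈-Z⌉ ⌊Z⌋, cv (fw M (M ^ κ j) (M ^ κ (j + 1))) lo (⟨l, m⟩ : ZI) =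
                (Real.log Z / Real.log M) * ∑ m ∈ Icc ⌈-Z⌉ ⌊Z⌋, cv (fw Z (M ^ κ j) (M ^ κ (j + 1))) lo (⟨l, m⟩ : ZI) := by
              rw [mul_sum]
              exact sum_congr rfl fun m _ => cv_scale hZ1' _ _
            rw [e1, abs_mul, abs_of_nonneg hr0]
            exact mul_le_of_le_one_left (abs_nonneg _) hr
        _ ≤ C * (K * Z / (Real.log Z) ^ A2) := g
        _ ≤ C * (K * M / (Real.log K) ^ A2) := by
            apply mul_le_mul_of_nonneg_left _ hC.le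
            apply div_le_div₀ (by positivity) (mul_le_mul_of_nonneg_left hZM hK0.le) (by positivity)
            exact pow_le_pow_left₀ hlK.le (Real.log_le_log hK0 hKZ) _
    · calc Z ^ (1 / 3 + 2 * (ε / 36)) ≤ (K ^ (3 - ε / 2)) ^ (1 / 3 + 2 * (ε / 36)) :=
            Real.rpow_le_rpow hZ0.le hZ2 (by positivity)
        _ = K ^ ((3 - ε / 2) * (1 / 3 + 2 * (ε / 36))) := by rw [← Real.rpow_mul hK0.le]
        _ ≤ K ^ (1 : ℝ) := Real.rpow_le_rpow_of_exponent_le hK1 (by nlinarith)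
        _ = K := Real.rpow_one K
    · calc K = K ^ (1 : ℝ) := (Real.rpow_one K).symm
        _ ≤ K ^ ((1 + ε / 2) * (1 - 2 * (ε / 36))) := Real.rpow_le_rpow_of_exponent_le hK1 (by nlinarith)
        _ = (K ^ (1 + ε / 2)) ^ (1 - 2 * (ε / 36)) := by rw [← Real.rpow_mul hK0.le]
        _ ≤ Z ^ (1 - 2 * (ε / 36)) := Real.rpow_le_rpow (by positivity) hZ1 (by linarith)
    · calc Z ^ (κ 0 / 2) ≤ M ^ (κ 0 / 2) := Real.rpow_le_rpow hZ0.le hZM (by positivity)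
        _ ≤ M ^ κ j := Real.rpow_le_rpow_of_exponent_le hM1' (by
          have := hmono.monotone (Nat.zero_le j)
          linarith)
    · exact Real.rpow_le_rpow_of_exponent_le hM1' (hκ j).le
    · calc M ^ κ (j + 1) ≤ M ^ κ J := Real.rpow_le_rpow_of_exponent_le hM1' (hmono.monotone hj)
        _ ≤ M ^ (ε / 648) := Real.rpow_le_rpow_of_exponent_le hM1' hκJ
        _ ≤ (K ^ (3 : ℝ)) ^ (ε / 648) := Real.rpow_le_rpow hM0'.le hMK3 (by positivity)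
        _ = K ^ (ε / 216) := by
          rw [← Real.rpow_mul hK0.le]
          congr 1
          ring
        _ ≤ Z ^ (ε / 216) := Real.rpow_le_rpow hK0.le hKZ (by positivity)
  have k1 := key M hM1 le_rfl
  have hpos : 0 ≤ C * (K * M / (Real.log K) ^ A2) := by positivity
  have hpos2 : 0 ≤ 12 * C4 * (K * M / (Real.log K) ^ A2) := by positivity
  rcases hX0 with rfl | hX1
  · -- the whole line
    have e1 : ∀ l ∈ Icc 1 ⌊K⌋, |∑ m ∈ an 0 M, cv (fw M (M ^ κ j) (M ^ κ (j + 1))) lo (⟨l, m⟩ : ZI)| ≤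
        |∑ m ∈ Icc ⌈-M⌉ ⌊M⌋, cv (fw M (M ^ κ j) (M ^ κ (j + 1))) lo (⟨l, m⟩ : ZI)| + 12 := by
      intro l hl
      rw [mem_Icc, Int.le_floor] at hl
      rw [an_zero hM0'.le]
      refine (abs_sub _ _).trans (add_le_add le_rfl ?_)
      apply cv_lo_bd (by linarith)
      · intro h0
        have := congrArg Zsqrtd.re h0
        simp only [Zsqrtd.re_zero] at this
        omega
      · rw [nz_eq]
        have h5 : (0 : ℝ) ≤ l := by
          have : 0 ≤ l := by omega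
          exact_mod_cast this
        have h6 : (l : ℝ) ^ 2 ≤ M ^ 2 := pow_le_pow_left₀ h5 (hl.2.trans hKM) 2
        simp only [Int.cast_zero]
        nlinarith
    refine (sum_le_sum e1).trans ?_
    rw [sum_add_distrib, sum_const, nsmul_eq_mul]
    have e2 : ((Icc 1 ⌊K⌋).card : ℝ) ≤ K := by
      rw [Int.card_Icc, show ⌊K⌋ + 1 - 1 = ⌊K⌋ by ring]
      have h5 : ((⌊K⌋.toNat : ℕ) : ℤ) = ⌊K⌋ := Int.toNat_of_nonneg (Int.floor_nonneg.2 hK0.le)
      have h6 : ((⌊K⌋.toNat : ℕ) : ℝ) = (⌊K⌋ : ℝ) := by exact_mod_cast h5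
      rw [h6]
      exact Int.floor_le K
    have e3 : K * 12 ≤ 12 * C4 * (K * M / (Real.log K) ^ A2) := by
      have h5 := h4 K hK1
      have h6 : K ^ (ε / 2) ≤ M := by
        calc K ^ (ε / 2) ≤ K ^ (1 + ε / 2) := Real.rpow_le_rpow_of_exponent_le hK1 (by linarith)
          _ ≤ M := hM1
      have h7 : (Real.log K) ^ A2 ≤ C4 * M := h5.trans (mul_le_mul_of_nonneg_left h6 hC4.le)
      rw [mul_div_assoc', le_div_iff₀ (by positivity)]
      nlinarith [mul_le_mul_of_nonneg_left h7 (show 0 ≤ K * 12 by positivity)]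
    nlinarith [mul_le_mul_of_nonneg_right e2 (show (0 : ℝ) ≤ 12 by norm_num)]
  · have hX0' : 0 ≤ X := le_trans (by positivity) hX1
    have k2 := key X hX1 hXM
    have e1 : ∀ l ∈ Icc 1 ⌊K⌋, |∑ m ∈ an X M, cv (fw M (M ^ κ j) (M ^ κ (j + 1))) lo (⟨l, m⟩ : ZI)| ≤
        |∑ m ∈ Icc ⌈-M⌉ ⌊M⌋, cv (fw M (M ^ κ j) (M ^ κ (j + 1))) lo (⟨l, m⟩ : ZI)| +
        |∑ m ∈ Icc ⌈-X⌉ ⌊X⌋, cv (fw M (M ^ κ j) (M ^ κ (j + 1))) lo (⟨l, m⟩ : ZI)| := by
      intro l _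
      rw [an_split hX0' hXM]
      exact abs_sub _ _
    refine (sum_le_sum e1).trans ?_
    rw [sum_add_distrib]
    linarith

end Pool.Agent.J6H16.E4
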